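import Pool.Agent.Helper23.MS.AnaA

/-! # MS-23b: at least 15 edges -/

open scoped BigOperators Nat
open Finset

namespace Pool.Agent.Helper23.MS

variable {V : Type} [Fintype V] [DecidableEq V]

private theorem climb (ν : Multiset ℕ) (u0 : ℕ) (x : ℝ) (h0 : QB ν u0 x) (u1 : ℕ)
    (h : u0 ≤ u1) (h1 : ∀ u, u0 < u → u ≤ u1 → EB ν u x) : QB ν u1 x := by
  induction u1, h using Nat.le_induction with
  | base => exact h0
  | succ n hn ih =>
    exact level_abs ν n x (ih (fun u hu hu' => h1 u hu (by omega)))
      (h1 (n + 1) (by omega) le_rfl)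

private theorem cc_single (N t : ℕ) (h0 : 1 ≤ t) (h : t < N) : cc {N} t = 0 := by
  have e : ({N} : Multiset ℕ) = N ::ₘ 0 := rfl
  rw [e, cc_cons, cc_nil, if_neg (by omega), if_neg (by omega)]

private theorem EB_single_mid (N u : ℕ) (hu : N < 2 * u) (hu' : u < N) :
    EB {N} u (1 / (2 * u)) := by
  have h := EB_mid {N} (N - u) u (by omega) (by rw [Multiset.sum_singleton]; omega)
  rw [cc_single N (N - u) (by omega) (by omega)] at h
  refine EB_le _ _ ?_ h
  simp

private theorem gg_ge (N : ℕ) (hN : 15 ≤ N) : (103 : ℝ) / (100 * N) ≤ gg N := by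
  obtain ⟨m, rfl⟩ := Nat.exists_eq_add_of_le' hN
  unfold gg
  push_cast
  rw [div_le_div_iff₀ (by positivity) (by positivity)]
  have hm : (0 : ℝ) ≤ m := Nat.cast_nonneg m
  nlinarith [mul_nonneg hm hm]

private theorem gg_inv (N : ℕ) : (1 : ℝ) / ((N : ℝ) + 1) ≤ gg N := by
  unfold gg
  rw [div_le_div_iff₀ (by positivity) (by positivity)]
  have hm : (0 : ℝ) ≤ N := Nat.cast_nonneg N
  nlinarith [mul_nonneg hm hm]

private theorem gg_nonneg (N : ℕ) : 0 ≤ gg N := by
  unfold gg; positivity

private theorem gg_le_six (N : ℕ) (hN : 15 ≤ N) : gg N ≤ 1 / 6 := by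
  obtain ⟨m, rfl⟩ := Nat.exists_eq_add_of_le' hN
  unfold gg
  push_cast
  rw [div_le_div_iff₀ (by positivity) (by positivity)]
  have hm : (0 : ℝ) ≤ m := Nat.cast_nonneg m
  nlinarith [mul_nonneg hm hm]

/-- the two bounds for one cycle together -/
private theorem single_both (N : ℕ) (hN : 8 ≤ N) :
    (Even N → QB {N} (N - 1) (103 / (100 * N))) ∧
      (15 ≤ N → QB {N} (N - 1) (gg N)) := by
  induction N using Nat.strong_induction_on with
  | _ N ih =>
    have heven : Even N → QB {N} (N - 1) (103 / (100 * N)) := by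
      intro he
      rcases Nat.lt_or_ge N 15 with h14 | h15
      · exact table_even N hN (by omega) he
      · obtain ⟨b, hb⟩ := he
        have hb8 : 8 ≤ b := by omega
        -- a bound for b
        obtain ⟨x, hx0, hx1, hxb, hxx⟩ : ∃ x : ℝ, 0 ≤ x ∧ x ≤ 1 ∧ QB {b} (b - 1) x ∧
            x * x ≤ 103 / (100 * N) := by
          subst hb
          rcases Nat.lt_or_ge b 15 with hb14 | hb15
          · refine ⟨1 / 6, by norm_num, by norm_num, table_big b (by omega) (by omega), ?_⟩
            have hbr : (b : ℝ) ≤ 14 := by exact_mod_cast (by omega : b ≤ 14)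
            have hbp : (8 : ℝ) ≤ b := by exact_mod_cast hb8
            push_cast
            rw [le_div_iff₀ (by positivity)]
            nlinarith
          · refine ⟨gg b, gg_nonneg b, (gg_le_six b hb15).trans (by norm_num),
              (ih b (by omega) (by omega)).2 hb15, ?_⟩
            have h1 : gg b ≤ 3 / (2 * b) := by
              unfold gg
              have hbp : (15 : ℝ) ≤ b := by exact_mod_cast hb15
              rw [div_le_div_iff₀ (by positivity) (by positivity)]
              nlinarith
            have hbp : (15 : ℝ) ≤ b := by exact_mod_cast hb15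
            have h2 : gg b * gg b ≤ (3 / (2 * b)) * (3 / (2 * b)) :=
              mul_le_mul h1 h1 (gg_nonneg b) (by positivity)
            refine h2.trans ?_
            push_cast
            rw [div_mul_div_comm, div_le_div_iff₀ (by positivity) (by positivity)]
            nlinarith [mul_nonneg (by linarith : (0:ℝ) ≤ b) (by linarith : (0:ℝ) ≤ b - 15)]
        have hlow : QB {N} (b - 1) (103 / (100 * N)) := by
          have hW : WB b (b - 1) 0 (b + b) := WB_zero b (b - 1) (b + b) (by omega) (by omega)
          have hc := cut b b (b - 1) x x 0 (by omega) (by omega) hx0 hx1 hx0 le_rfl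
            zero_le_one hxb hxb hW
          have e : x * Real.sqrt (0 + (1 - 0) * x ^ 2) = x * x := by
            rw [zero_add, sub_zero, one_mul, Real.sqrt_sq hx0]
          rw [e, ← hb] at hc
          exact QB_le _ _ hxx hc
        refine climb {N} (b - 1) _ hlow (N - 1) (by omega) ?_
        intro u hu hu'
        rcases Nat.lt_or_ge b u with h | h
        · refine EB_le _ _ ?_ (EB_single_mid N u (by omega) (by omega))
          have h1 : (N : ℝ) ≤ 2 * u := by exact_mod_cast (by omega : N ≤ 2 * u)
          have h2 : (15 : ℝ) ≤ N := by exact_mod_cast h15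
          rw [div_le_div_iff₀ (by linarith) (by positivity)]
          nlinarith
        · have hub : u = b := by omega
          subst hub
          have h1 := EB_half {N} u (by omega) (by rw [Multiset.sum_singleton]; exact hb)
          rw [cc_single N u (by omega) (by omega)] at h1
          refine EB_le _ _ ?_ h1
          rw [Multiset.card_singleton]
          subst hb
          have h2 : (8 : ℝ) ≤ u := by exact_mod_cast hb8
          have h3 : (100 : ℝ) * 2 * (2 * u) ≤ 3 * 4 ^ u := by
            obtain ⟨m, rfl⟩ := Nat.exists_eq_add_of_le' hb8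
            have h4 : (m : ℝ) + 1 ≤ 4 ^ m := by
              have := one_add_mul_le_pow (by norm_num : (-2 : ℝ) ≤ 3) m
              have h5 : (0 : ℝ) ≤ m := Nat.cast_nonneg m
              norm_num at this
              linarith
            rw [pow_add]
            push_cast
            have h5 : (0 : ℝ) ≤ m := Nat.cast_nonneg m
            nlinarith
          have h4 : (2 : ℝ) ^ 1 / 4 ^ u ≤ 3 / (100 * (2 * u)) := by
            rw [div_le_div_iff₀ (by positivity) (by positivity)]
            linarith
          have h5 : ((u + u : ℕ) : ℝ) = 2 * u := by push_cast; ring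
          rw [h5]
          have h6 : (103 : ℝ) / (100 * (2 * u)) = 1 / (2 * u) + 3 / (100 * (2 * u)) := by
            field_simp
            norm_num
          rw [h6]
          simp only [Nat.cast_zero, zero_div, sub_zero, zero_add]
          linarith
    refine ⟨heven, ?_⟩
    intro h15
    rcases Nat.even_or_odd N with he | ho
    · exact QB_le _ _ (gg_ge N h15) (heven he)
    · -- choose b even
      obtain ⟨b, hbe, hb1, hb2⟩ : ∃ b, Even b ∧ N + 1 ≤ 2 * b ∧ 2 * b ≤ N + 3 := by
        obtain ⟨k, hk⟩ := ho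
        rcases Nat.even_or_odd (k + 1) with h | h
        · exact ⟨k + 1, h, by omega, by omega⟩
        · exact ⟨k + 2, by
            rw [show k + 2 = (k + 1) + 1 from rfl]
            exact h.add_one, by omega, by omega⟩
      have hb8 : 8 ≤ b := by omega
      have hbN : b < N := by omega
      have ha6 : 6 ≤ N - b := by omega
      have hqb := (ih b hbN hb8).1 hbe
      have hqa : QB {N - b} (N - b - 1) (3 / 10) := by
        rcases Nat.lt_or_ge (N - b) 15 with h | h
        · exact table_mid (N - b) (by omega) (by omega)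
        · refine QB_le _ _ ?_ ((ih (N - b) (by omega) (by omega)).2 h)
          exact (gg_le_six _ h).trans (by norm_num)
      set u0 := (N - 1) / 2 with hu0
      have hk : 2 * u0 + 1 = N := by
        obtain ⟨k, hk⟩ := ho
        omega
      have hlow : QB {N} u0 (gg N) := by
        have hW : WB (N - b) u0 (2 / 5) (N - b + b) :=
          WB_ge_three (N - b) u0 (N - b + b) (by omega) (by omega) (by omega) (by omega)
        have hc := cut (N - b) b u0 (3 / 10) (103 / (100 * b)) (2 / 5) (by omega) (by omega)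
          (by norm_num) (by norm_num) (by positivity) (by norm_num) (by norm_num)
          hqa (QB_mono _ (by omega) _ hqb) hW
        have e : N - b + b = N := by omega
        rw [e] at hc
        refine QB_le _ _ ?_ hc
        have hs : Real.sqrt (2 / 5 + (1 - 2 / 5) * (3 / 10) ^ 2) ≤ 674 / 1000 := by
          rw [Real.sqrt_le_left (by norm_num)]
          norm_num
        have hbr : ((N : ℝ) + 1) ≤ 2 * b := by exact_mod_cast hb1
        have hNr : (15 : ℝ) ≤ N := by exact_mod_cast h15
        have h1 : (103 : ℝ) / (100 * b) ≤ 206 / (100 * (N + 1)) := by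
          rw [div_le_div_iff₀ (by linarith) (by positivity)]
          nlinarith
        calc (103 : ℝ) / (100 * b) * Real.sqrt (2 / 5 + (1 - 2 / 5) * (3 / 10) ^ 2)
            ≤ 206 / (100 * (N + 1)) * (674 / 1000) :=
              mul_le_mul h1 hs (Real.sqrt_nonneg _) (by positivity)
          _ ≤ gg N := by
              unfold gg
              rw [div_mul_div_comm, div_le_div_iff₀ (by positivity) (by positivity)]
              nlinarith [mul_nonneg (by linarith : (0:ℝ) ≤ N) (by linarith : (0:ℝ) ≤ N - 15)]
      refine climb {N} u0 _ hlow (N - 1) (by omega) ?_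
      intro u hu hu'
      refine EB_le _ _ ?_ (EB_single_mid N u (by omega) (by omega))
      refine le_trans ?_ (gg_inv N)
      have h1 : (N : ℝ) + 1 ≤ 2 * u := by exact_mod_cast (by omega : N + 1 ≤ 2 * u)
      have h2 : (15 : ℝ) ≤ N := by exact_mod_cast h15
      exact one_div_le_one_div_of_le (by linarith) h1

theorem ana_single_even (N : ℕ) (hN : 8 ≤ N) (he : Even N) :
    QB {N} (N - 1) (103 / (100 * N)) := (single_both N hN).1 he

theorem ana_single (N : ℕ) (hN : 15 ≤ N) : QB {N} (N - 1) (gg N) :=
  (single_both N (by omega)).2 hN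

theorem ana_small (c : ℕ) (hc : 7 ≤ c) : QB {c} (c - 1) (1 / 6) := by
  rcases Nat.lt_or_ge c 15 with h | h
  · exact table_big c hc (by omega)
  · exact QB_le _ _ (gg_le_six c h) (ana_single c h)

/-- the real inequality -/
private theorem gg_step (c s : ℕ) (x q : ℝ) (hcs : c ≤ s) (h15 : 15 ≤ c + s)
    (h : (c = 2 ∧ q + (1 - q) * x = 5 / 6) ∨ (c = 3 ∧ q + (1 - q) * x = 11 / 20) ∨
      (4 ≤ c ∧ c ≤ 6 ∧ q + (1 - q) * x = 29 / 50) ∨
      (7 ≤ c ∧ q + (1 - q) * x = 1 / 2)) :
    gg s * (q + (1 - q) * x) ≤ gg (c + s) := by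
  rcases h with ⟨hc, h⟩ | ⟨hc, h⟩ | ⟨hc, hc', h⟩ | ⟨hc, h⟩
  · subst hc
    rw [h]
    obtain ⟨m, rfl⟩ := Nat.exists_eq_add_of_le' (show 13 ≤ s by omega)
    have hm : (0 : ℝ) ≤ m := Nat.cast_nonneg m
    unfold gg
    push_cast
    rw [div_mul_div_comm, div_le_div_iff₀ (by positivity) (by positivity)]
    nlinarith [mul_nonneg hm hm, mul_nonneg (mul_nonneg hm hm) hm]
  · subst hc
    rw [h]
    obtain ⟨m, rfl⟩ := Nat.exists_eq_add_of_le' (show 12 ≤ s by omega)
    have hm : (0 : ℝ) ≤ m := Nat.cast_nonneg m
    unfold gg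
    push_cast
    rw [div_mul_div_comm, div_le_div_iff₀ (by positivity) (by positivity)]
    nlinarith [mul_nonneg hm hm, mul_nonneg (mul_nonneg hm hm) hm]
  · rw [h]
    have hc3 : c = 4 ∨ c = 5 ∨ c = 6 := by omega
    rcases hc3 with rfl | rfl | rfl
    · obtain ⟨m, rfl⟩ := Nat.exists_eq_add_of_le' (show 11 ≤ s by omega)
      have hm : (0 : ℝ) ≤ m := Nat.cast_nonneg m
      unfold gg
      push_cast
      rw [div_mul_div_comm, div_le_div_iff₀ (by positivity) (by positivity)]
      nlinarith [mul_nonneg hm hm, mul_nonneg (mul_nonneg hm hm) hm]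
    · obtain ⟨m, rfl⟩ := Nat.exists_eq_add_of_le' (show 10 ≤ s by omega)
      have hm : (0 : ℝ) ≤ m := Nat.cast_nonneg m
      unfold gg
      push_cast
      rw [div_mul_div_comm, div_le_div_iff₀ (by positivity) (by positivity)]
      nlinarith [mul_nonneg hm hm, mul_nonneg (mul_nonneg hm hm) hm]
    · obtain ⟨m, rfl⟩ := Nat.exists_eq_add_of_le' (show 9 ≤ s by omega)
      have hm : (0 : ℝ) ≤ m := Nat.cast_nonneg m
      unfold gg
      push_cast
      rw [div_mul_div_comm, div_le_div_iff₀ (by positivity) (by positivity)]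
      nlinarith [mul_nonneg hm hm, mul_nonneg (mul_nonneg hm hm) hm]
  · rw [h]
    obtain ⟨m, rfl⟩ := Nat.exists_eq_add_of_le' hcs
    have hm : (0 : ℝ) ≤ m := Nat.cast_nonneg m
    have hcr : (7 : ℝ) ≤ c := by exact_mod_cast hc
    have hc0 : (0 : ℝ) ≤ c := by linarith
    unfold gg
    push_cast
    rw [div_mul_div_comm, div_le_div_iff₀ (by positivity) (by positivity)]
    nlinarith [mul_nonneg hm hm, mul_nonneg (mul_nonneg hm hm) hm, mul_nonneg hm hc0,
      mul_nonneg (mul_nonneg hm hm) hc0, mul_nonneg (mul_nonneg hm hc0) hc0,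
      mul_nonneg hc0 hc0]

theorem ana (ν : Multiset ℕ) (h2 : ∀ c ∈ ν, 2 ≤ c) (hN : 15 ≤ ν.sum) :
    QB ν (ν.sum - 1) (gg ν.sum) := by
  obtain ⟨N, hNN⟩ : ∃ N, ν.sum = N := ⟨_, rfl⟩
  induction N using Nat.strong_induction_on generalizing ν with
  | _ N ih =>
    -- the smallest part
    obtain ⟨c, hc, hmin⟩ : ∃ c ∈ ν, ∀ x ∈ ν, c ≤ x := by
      have hne : ∃ c, c ∈ ν := by
        by_contra hcon
        push Not at hcon
        rw [Multiset.eq_zero_of_forall_notMem hcon] at hN
        simp at hN
      obtain ⟨c0, hc0⟩ := hne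
      have : ∃ n, n ∈ ν := ⟨c0, hc0⟩
      classical
      refine ⟨Nat.find this, Nat.find_spec this, fun x hx => Nat.find_min' this hx⟩
    obtain ⟨r, hr⟩ := Multiset.exists_cons_of_mem hc
    have hc2 : 2 ≤ c := h2 c hc
    have hr2 : ∀ x ∈ r, 2 ≤ x := fun x hx => h2 x (by rw [hr]; exact Multiset.mem_cons_of_mem hx)
    have hrmin : ∀ x ∈ r, c ≤ x :=
      fun x hx => hmin x (by rw [hr]; exact Multiset.mem_cons_of_mem hx)
    have hsum : ν.sum = c + r.sum := by rw [hr, Multiset.sum_cons]
    by_cases hr0 : r = 0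
    · subst hr0
      have e : ν = {c} := hr
      have hcs : ν.sum = c := by rw [hsum]; simp
      rw [hcs] at hN ⊢
      rw [e]
      exact ana_single c hN
    · obtain ⟨d, hd⟩ := Multiset.exists_mem_of_ne_zero hr0
      have hcr : c ≤ r.sum := (hrmin d hd).trans (Multiset.le_sum_of_mem hd)
      have hy : QB r (r.sum - 1) (gg r.sum) := by
        rcases Nat.lt_or_ge r.sum 15 with h | h
        · have := table_b r c hc2 hrmin (by omega) (by omega) hcr
          unfold gg
          exact this
        · exact ih r.sum (by omega) r hr2 h rfl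
      obtain ⟨x, q, hx0, hx1, hx, hq, hcase⟩ : ∃ x q : ℝ, 0 ≤ x ∧ x ≤ 1 ∧
          QB {c} (c - 1) x ∧ (q = if c = 2 then 2 / 3 else 2 / 5) ∧
          ((c = 2 ∧ q + (1 - q) * x = 5 / 6) ∨ (c = 3 ∧ q + (1 - q) * x = 11 / 20) ∨
            (4 ≤ c ∧ c ≤ 6 ∧ q + (1 - q) * x = 29 / 50) ∨
            (7 ≤ c ∧ q + (1 - q) * x = 1 / 2)) := by
        rcases Nat.lt_or_ge c 7 with h7 | h7
        · rcases Nat.lt_or_ge c 4 with h4 | h4
          · have hc23 : c = 2 ∨ c = 3 := by omega
            rcases hc23 with h | h
            · refine ⟨1 / 2, 2 / 3, by norm_num, by norm_num, ?_, ?_, Or.inl ⟨h, by norm_num⟩⟩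
              · rw [h]; exact table_two
              · rw [if_pos h]
            · refine ⟨1 / 4, 2 / 5, by norm_num, by norm_num, ?_, ?_,
                Or.inr (Or.inl ⟨h, by norm_num⟩)⟩
              · rw [h]; exact table_three
              · rw [if_neg (by omega)]
          · refine ⟨3 / 10, 2 / 5, by norm_num, by norm_num, table_mid c h4 (by omega), ?_,
              Or.inr (Or.inr (Or.inl ⟨h4, by omega, by norm_num⟩))⟩
            rw [if_neg (by omega)]
        · refine ⟨1 / 6, 2 / 5, by norm_num, by norm_num, ana_small c h7, ?_,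
            Or.inr (Or.inr (Or.inr ⟨h7, by norm_num⟩))⟩
          rw [if_neg (by omega)]
      set u0 := (ν.sum - 1) / 2 with hu0
      have hlow : QB ν u0 (gg ν.sum) := by
        have h1 := ana_peel c r x (gg r.sum) hc2 hcr (by omega) hx0 hx1 (gg_nonneg _) hx hy
          u0 (by omega) (by omega) q hq
        rw [← hr] at h1
        refine QB_le _ _ ?_ h1
        rw [hsum]
        exact gg_step c r.sum x q hcr (by omega) hcase
      refine climb ν u0 _ hlow (ν.sum - 1) (by omega) ?_
      intro u hu hu'
      exact ana_levels ν h2 hN u (by omega) (by omega)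

end Pool.Agent.Helper23.MS
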