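import Pool.Agent.Helper23.MS.Table

/-! # MS-23a: at least 15 edges, the two kinds of levels -/

open scoped BigOperators Nat
open Finset

namespace Pool.Agent.Helper23.MS

variable {V : Type} [Fintype V] [DecidableEq V]

/-- The bound for large types. -/
noncomputable def gg (N : ℕ) : ℝ := (3 * (N : ℝ) + 4) / (2 * ((N : ℝ) + 1) * ((N : ℝ) + 2))

/-- several parts: the levels at most `N / 2` by peeling the smallest part `c` -/
theorem ana_peel (c : ℕ) (r : Multiset ℕ) (x y : ℝ) (hc : 2 ≤ c) (hcr : c ≤ r.sum)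
    (h15 : 15 ≤ c + r.sum) (hx0 : 0 ≤ x) (hx1 : x ≤ 1) (hy0 : 0 ≤ y)
    (hx : QB {c} (c - 1) x) (hy : QB r (r.sum - 1) y) (u : ℕ) (hu1 : 1 ≤ u)
    (hu : 2 * u < c + r.sum) (q : ℝ) (hq : q = if c = 2 then 2 / 3 else 2 / 5) :
    QB (c ::ₘ r) u (y * (q + (1 - q) * x)) := by
  have hs : ({c} : Multiset ℕ).sum = c := Multiset.sum_singleton c
  have hur : u < r.sum := by omega
  have hyu : QB r u y := QB_mono r (by omega) y hy
  have key : ∀ q' : ℝ, q' ≤ q → WB c u q' (c + r.sum) →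
      QB (c ::ₘ r) u (y * (q + (1 - q) * x)) := by
    intro q' hq' hW
    have h := peel {c} r u x y q' (by rw [hs]; omega) hur hx0 hx1 hy0
      (by rw [hs]; exact hx) hyu (by rw [hs]; exact hW)
    rw [Multiset.singleton_add] at h
    refine QB_le _ _ ?_ h
    apply mul_le_mul_of_nonneg_left _ hy0
    nlinarith [mul_nonneg (sub_nonneg.2 hq') (sub_nonneg.2 hx1)]
  by_cases h2 : c = 2
  · subst h2
    rw [if_pos rfl] at hq
    refine key _ ?_ (WB_two u (2 + r.sum) hu1 (by omega))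
    rw [hq]
    have hu' : (1 : ℝ) ≤ u := by exact_mod_cast hu1
    rw [div_le_div_iff₀ (by nlinarith) (by norm_num)]
    nlinarith
  · rw [if_neg h2] at hq
    refine key _ (le_of_eq hq.symm) ?_
    exact WB_ge_three c u (c + r.sum) (by omega) (by omega) hu1 (by omega)

theorem anaA_choose_three_le (m k : ℕ) (hk : 3 ≤ k) (hkm : k ≤ m / 2) :
    m.choose 3 ≤ m.choose k := by
  induction k, hk using Nat.le_induction with
  | base => exact le_rfl
  | succ k hk ih =>
    exact le_trans (ih (by omega)) (Nat.choose_le_succ_of_lt_half_left (by omega))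

theorem anaA_vander (h m s k : ℕ) : h.choose s * m.choose k ≤ (h + m).choose (s + k) := by
  rw [Nat.add_choose_eq]
  have h1 : ((s, k) : ℕ × ℕ) ∈ antidiagonal (s + k) := by simp
  exact Finset.single_le_sum (f := fun ij : ℕ × ℕ => h.choose ij.1 * m.choose ij.2)
    (fun _ _ => Nat.zero_le _) h1

theorem anaA_choose_rec (n k : ℕ) (h : k ≤ n) :
    ((n.choose (k + 1) : ℕ) : ℝ) = (n.choose k : ℝ) * ((n : ℝ) - k) / (k + 1) := by
  have h1 := Nat.choose_succ_right_eq n k
  have h2 : ((n.choose (k + 1) * (k + 1) : ℕ) : ℝ) = ((n.choose k * (n - k) : ℕ) : ℝ) := by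
    rw [h1]
  push_cast [h] at h2
  rw [eq_div_iff (by positivity)]
  exact h2

theorem anaA_choose_two_real (m : ℕ) (hm : 1 ≤ m) :
    ((m.choose 2 : ℕ) : ℝ) = (m : ℝ) * (m - 1) / 2 := by
  have := anaA_choose_rec m 1 hm
  rw [Nat.choose_one_right] at this
  rw [this]; push_cast; ring

theorem anaA_choose_three_real (m : ℕ) (hm : 2 ≤ m) :
    ((m.choose 3 : ℕ) : ℝ) = (m : ℝ) * (m - 1) * (m - 2) / 6 := by
  have := anaA_choose_rec m 2 hm
  rw [anaA_choose_two_real m (by omega)] at this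
  rw [this]; push_cast; ring

theorem anaA_choose_four_real (m : ℕ) (hm : 3 ≤ m) :
    ((m.choose 4 : ℕ) : ℝ) = (m : ℝ) * (m - 1) * (m - 2) * (m - 3) / 24 := by
  have := anaA_choose_rec m 3 hm
  rw [anaA_choose_three_real m (by omega)] at this
  rw [this]; push_cast; ring

theorem anaA_four_sq_le (u : ℕ) (hu : 8 ≤ u) : 4 * u ^ 2 ≤ 2 ^ u := by
  induction u, hu using Nat.le_induction with
  | base => norm_num
  | succ u hu ih =>
    rw [pow_succ 2 u]
    nlinarith

/-- the ratio `cc / choose` for `t ≥ 5` -/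
theorem anaA_ratio_five (ν : Multiset ℕ) (h2 : ∀ c ∈ ν, 2 ≤ c) (hN : 15 ≤ ν.sum) (t : ℕ)
    (ht : 5 ≤ t) (ht2 : 2 * t ≤ ν.sum) :
    (cc ν t : ℝ) * (((ν.sum + 1) / 2).choose 3 : ℝ) ≤ (ν.sum.choose t : ℝ) := by
  set N := ν.sum with hNdef
  set m := (N + 1) / 2 with hm
  set h := N / 2 with hh
  have hhm : h + m = N := by omega
  set k := (t + 1) / 2 with hk
  set s := t / 2 with hs
  have hsk : s + k = t := by omega
  have h1 : cc ν t ≤ h.choose s := cc_le ν h2 t ht2
  have h3 : m.choose 3 ≤ m.choose k := by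
    by_cases hkm : k ≤ m / 2
    · exact anaA_choose_three_le m k (by omega) hkm
    · rw [← Nat.choose_symm (show k ≤ m by omega)]
      exact anaA_choose_three_le m (m - k) (by omega) (by omega)
  have h4 := anaA_vander h m s k
  rw [hhm, hsk] at h4
  have h5 : cc ν t * m.choose 3 ≤ N.choose t :=
    le_trans (Nat.mul_le_mul h1 h3) h4
  exact_mod_cast h5

theorem anaA_ratio_three (ν : Multiset ℕ) (h2 : ∀ c ∈ ν, 2 ≤ c) (hN : 15 ≤ ν.sum) :
    (cc ν 3 : ℝ) ≤ (ν.sum : ℝ) / 2 := by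
  have h1 : cc ν 3 ≤ (ν.sum / 2).choose (3 / 2) := cc_le ν h2 3 (by omega)
  have h3 : (ν.sum / 2).choose (3 / 2) = ν.sum / 2 := Nat.choose_one_right _
  rw [h3] at h1
  have h4 : 2 * cc ν 3 ≤ ν.sum := by omega
  have h5 : (2 : ℝ) * cc ν 3 ≤ ν.sum := by exact_mod_cast h4
  linarith

theorem anaA_ratio_two (ν : Multiset ℕ) (h2 : ∀ c ∈ ν, 2 ≤ c) (hN : 15 ≤ ν.sum) :
    (cc ν 2 : ℝ) ≤ (ν.sum : ℝ) / 2 := by
  have h1 : cc ν 2 ≤ (ν.sum / 2).choose (2 / 2) := cc_le ν h2 2 (by omega)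
  have h3 : (ν.sum / 2).choose (2 / 2) = ν.sum / 2 := Nat.choose_one_right _
  rw [h3] at h1
  have h4 : 2 * cc ν 2 ≤ ν.sum := by omega
  have h5 : (2 : ℝ) * cc ν 2 ≤ ν.sum := by exact_mod_cast h4
  linarith

theorem anaA_ratio_four (ν : Multiset ℕ) (h2 : ∀ c ∈ ν, 2 ≤ c) (hN : 15 ≤ ν.sum) :
    (cc ν 4 : ℝ) ≤ (ν.sum : ℝ) * (ν.sum - 2) / 8 := by
  have h1 : cc ν 4 ≤ (ν.sum / 2).choose (4 / 2) := cc_le ν h2 4 (by omega)
  have h3 : (ν.sum / 2).choose (4 / 2) = (ν.sum / 2).choose 2 := rfl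
  rw [h3] at h1
  have h4 : (cc ν 4 : ℝ) ≤ (((ν.sum / 2).choose 2 : ℕ) : ℝ) := by exact_mod_cast h1
  rw [anaA_choose_two_real _ (by omega)] at h4
  have h5 : ((ν.sum / 2 : ℕ) : ℝ) ≤ (ν.sum : ℝ) / 2 := Nat.cast_div_le
  have h6 : (7 : ℝ) ≤ ((ν.sum / 2 : ℕ) : ℝ) := by
    have : 7 ≤ ν.sum / 2 := by omega
    exact_mod_cast this
  nlinarith

/-- the levels at least `N / 2` by the D-lemma -/
theorem ana_levels (ν : Multiset ℕ) (h2 : ∀ c ∈ ν, 2 ≤ c) (hN : 15 ≤ ν.sum) (u : ℕ)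
    (hu : ν.sum ≤ 2 * u) (hu' : u < ν.sum) : EB ν u (gg ν.sum) := by
  obtain ⟨t, ht⟩ : ∃ t, ν.sum = t + u := ⟨ν.sum - u, by omega⟩
  have hNr : (15 : ℝ) ≤ (ν.sum : ℝ) := by exact_mod_cast hN
  have hpos1 : (0 : ℝ) < 2 * ((ν.sum : ℝ) + 1) * ((ν.sum : ℝ) + 2) := by positivity
  rcases Nat.lt_or_ge t 2 with ht1 | ht1
  · -- t = 1
    have ht1' : t = 1 := by omega
    subst ht1'
    refine EB_le _ _ ?_ (EB_one ν h2 u (by omega) (by omega))
    unfold gg
    have hu1 : (u : ℝ) = ν.sum - 1 := by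
      rw [ht, Nat.cast_add, Nat.cast_one]; ring
    rw [hu1, div_le_div_iff₀ (by linarith) hpos1]
    nlinarith
  rcases Nat.lt_or_ge t 3 with ht3 | ht3
  · -- t = 2
    have ht2' : t = 2 := by omega
    subst ht2'
    refine EB_le _ _ ?_ (EB_two ν h2 u (by omega) (by omega))
    have hcc := anaA_ratio_two ν h2 hN
    have hcc0 : (0 : ℝ) ≤ cc ν 2 := Nat.cast_nonneg _
    set c : ℝ := (cc ν 2 : ℝ) with hc
    have hu1 : (ν.sum : ℝ) = u + 2 := by
      rw [ht, Nat.cast_add, Nat.cast_ofNat]; ring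
    have hch : (((u + 2).choose 2 : ℕ) : ℝ) = ((u : ℝ) + 2) * (u + 1) / 2 := by
      rw [anaA_choose_two_real _ (by omega)]; push_cast; ring
    rw [hch]
    unfold gg
    rw [hu1] at hcc hNr ⊢
    have hu13 : (13 : ℝ) ≤ u := by linarith
    have e1 : c + ((u : ℝ) + 2 - 2 * c) / (2 * u) + (((u : ℝ) + 2) * (u + 1) / 2 - c -
        ((u : ℝ) + 2 - 2 * c)) * (3 / (4 * u * (u - 1))) ≤
        (((u : ℝ) + 2) / 2) + (((u : ℝ) + 2) * (u + 1) / 2 - (((u : ℝ) + 2) / 2)) *
          (3 / (4 * u * (u - 1))) := by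
      have hw : (0 : ℝ) ≤ 3 / (4 * u * (u - 1)) := by
        apply div_nonneg (by norm_num)
        nlinarith
      set w : ℝ := 3 / (4 * u * (u - 1)) with hwdef
      have hd : ((u : ℝ) + 2 - 2 * c) / (2 * u) ≤ ((u : ℝ) + 2 - 2 * c) / 2 := by
        apply div_le_div_of_nonneg_left (by linarith) (by norm_num) (by linarith)
      nlinarith [mul_nonneg hw (show (0:ℝ) ≤ (u : ℝ) + 2 - 2 * c by linarith)]
    refine le_trans (div_le_div_of_nonneg_right e1 (by positivity)) ?_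
    have e2 : ((((u : ℝ) + 2) / 2) + (((u : ℝ) + 2) * (u + 1) / 2 - (((u : ℝ) + 2) / 2)) *
          (3 / (4 * u * (u - 1)))) / (((u : ℝ) + 2) * (u + 1) / 2) =
          (4 * (u - 1) + 3) / (4 * (u - 1) * (u + 1)) := by
      have h1 : (u : ℝ) - 1 ≠ 0 := by linarith
      have h2 : (u : ℝ) ≠ 0 := by linarith
      field_simp
      ring
    rw [e2, div_le_div_iff₀ (by nlinarith) (by positivity)]
    obtain ⟨w, hw⟩ : ∃ w : ℝ, (u : ℝ) = w + 13 := ⟨u - 13, by ring⟩
    have hw0 : 0 ≤ w := by linarith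
    rw [hw, ← sub_nonneg]
    ring_nf
    positivity
  -- t ≥ 3
  have hcc0 : (0 : ℝ) ≤ cc ν t := Nat.cast_nonneg _
  have hchp : (0 : ℝ) < (ν.sum.choose t : ℝ) := by
    exact_mod_cast Nat.choose_pos (by omega)
  set p : ℝ := (cc ν t : ℝ) / (ν.sum.choose t : ℝ) with hp
  have hp0 : 0 ≤ p := div_nonneg hcc0 hchp.le
  rcases Nat.lt_or_ge t u with htu | htu
  · -- t < u
    have key : p ≤ (ν.sum : ℝ) / (2 * ((ν.sum : ℝ) + 1) * ((ν.sum : ℝ) + 2)) := by
      rw [hp, div_le_div_iff₀ hchp hpos1]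
      rcases Nat.lt_or_ge t 4 with h4 | h4
      · have ht3' : t = 3 := by omega
        subst ht3'
        rw [anaA_choose_three_real _ (by omega)]
        have hcc := anaA_ratio_three ν h2 hN
        set n : ℝ := (ν.sum : ℝ) with hn
        have h1 : (cc ν 3 : ℝ) * (2 * (n + 1) * (n + 2)) ≤ n / 2 * (2 * (n + 1) * (n + 2)) :=
          mul_le_mul_of_nonneg_right hcc hpos1.le
        refine le_trans h1 ?_
        obtain ⟨w, hw⟩ : ∃ w : ℝ, n = w + 15 := ⟨n - 15, by ring⟩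
        have hw0 : 0 ≤ w := by linarith
        rw [hw, ← sub_nonneg]
        ring_nf
        positivity
      rcases Nat.lt_or_ge t 5 with h5 | h5
      · have ht4' : t = 4 := by omega
        subst ht4'
        rw [anaA_choose_four_real _ (by omega)]
        have hcc := anaA_ratio_four ν h2 hN
        set n : ℝ := (ν.sum : ℝ) with hn
        have h1 : (cc ν 4 : ℝ) * (2 * (n + 1) * (n + 2)) ≤
          n * (n - 2) / 8 * (2 * (n + 1) * (n + 2)) :=
          mul_le_mul_of_nonneg_right hcc hpos1.le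
        refine le_trans h1 ?_
        obtain ⟨w, hw⟩ : ∃ w : ℝ, n = w + 15 := ⟨n - 15, by ring⟩
        have hw0 : 0 ≤ w := by linarith
        rw [hw, ← sub_nonneg]
        ring_nf
        positivity
      · have hcc := anaA_ratio_five ν h2 hN t h5 (by omega)
        set n : ℝ := (ν.sum : ℝ) with hn
        have hm : n / 2 ≤ (((ν.sum + 1) / 2 : ℕ) : ℝ) := by
          have : ν.sum ≤ 2 * ((ν.sum + 1) / 2) := by omega
          have h3 : (ν.sum : ℝ) ≤ 2 * (((ν.sum + 1) / 2 : ℕ) : ℝ) := by exact_mod_cast this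
          linarith
        rw [anaA_choose_three_real _ (by omega)] at hcc
        set m : ℝ := (((ν.sum + 1) / 2 : ℕ) : ℝ) with hmdef
        have h3 : n / 2 * (n / 2 - 1) * (n / 2 - 2) ≤ m * (m - 1) * (m - 2) := by
          apply mul_le_mul (mul_le_mul hm (by linarith) (by linarith) (by linarith))
            (by linarith) (by linarith)
          apply mul_nonneg <;> linarith
        have h4 : 2 * (n + 1) * (n + 2) ≤ n * (m * (m - 1) * (m - 2) / 6) := by
          have h5 : n * (n / 2 * (n / 2 - 1) * (n / 2 - 2)) ≤ n * (m * (m - 1) * (m - 2)) :=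
            mul_le_mul_of_nonneg_left h3 (by linarith)
          have h6 : 12 * (n + 1) * (n + 2) ≤ n * (n / 2 * (n / 2 - 1) * (n / 2 - 2)) := by
            obtain ⟨w, hw⟩ : ∃ w : ℝ, n = w + 15 := ⟨n - 15, by ring⟩
            have hw0 : 0 ≤ w := by linarith
            rw [hw, ← sub_nonneg]
            ring_nf
            positivity
          linarith
        calc (cc ν t : ℝ) * (2 * (n + 1) * (n + 2))
            ≤ (cc ν t : ℝ) * (n * (m * (m - 1) * (m - 2) / 6)) :=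
              mul_le_mul_of_nonneg_left h4 hcc0
          _ = n * ((cc ν t : ℝ) * (m * (m - 1) * (m - 2) / 6)) := by ring
          _ ≤ n * (ν.sum.choose t : ℝ) := mul_le_mul_of_nonneg_left hcc (by linarith)
    have h := EB_mid ν t u htu ht
    rw [← ht, ← hp] at h
    refine EB_le _ _ ?_ h
    have hu1 : (ν.sum : ℝ) + 1 ≤ 2 * u := by
      have : ν.sum + 1 ≤ 2 * u := by omega
      exact_mod_cast this
    unfold gg
    set n : ℝ := (ν.sum : ℝ) with hn
    have h5 : (1 - p) / (2 * u) ≤ 1 / (n + 1) := by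
      rw [div_le_div_iff₀ (by linarith) (by linarith)]
      nlinarith
    have h6 : (3 * n + 4) / (2 * (n + 1) * (n + 2)) = n / (2 * (n + 1) * (n + 2)) +
        1 / (n + 1) := by
      field_simp
      ring
    rw [h6]
    linarith
  · -- t = u
    have htu' : t = u := by omega
    subst htu'
    have h := EB_half ν t (by omega) ht
    rw [← ht, ← hp] at h
    refine EB_le _ _ ?_ h
    have hcc := anaA_ratio_five ν h2 hN t (by omega) (by omega)
    have hm : (ν.sum + 1) / 2 = t := by omega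
    rw [hm, anaA_choose_three_real _ (by omega)] at hcc
    have ht8 : (8 : ℝ) ≤ t := by
      have : 8 ≤ t := by omega
      exact_mod_cast this
    have hpt : p * ((t : ℝ) * (t - 1) * (t - 2)) ≤ 6 := by
      have h1 : (cc ν t : ℝ) = p * (ν.sum.choose t : ℝ) := by
        rw [hp]; field_simp
      rw [h1] at hcc
      have h3 : (ν.sum.choose t : ℝ) * (p * ((t : ℝ) * (t - 1) * (t - 2))) ≤
          (ν.sum.choose t : ℝ) * 6 := by linarith
      exact le_of_mul_le_mul_left h3 hchp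
    have hcard := card_le ν h2
    have h4 : (2 : ℝ) ^ (Multiset.card ν) / 4 ^ t ≤ 1 / (4 * (t : ℝ) ^ 2) := by
      have h5 : (2 : ℝ) ^ (Multiset.card ν) ≤ 2 ^ t :=
        pow_le_pow_right₀ (by norm_num) (by omega)
      have h6 : (4 : ℝ) * (t : ℝ) ^ 2 ≤ 2 ^ t := by
        exact_mod_cast anaA_four_sq_le t (by omega)
      have h7 : (4 : ℝ) ^ t = 2 ^ t * 2 ^ t := by
        rw [← mul_pow]; norm_num
      have h8 : (0 : ℝ) < 2 ^ t := by positivity
      rw [div_le_div_iff₀ (by positivity) (by positivity), h7]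
      nlinarith
    unfold gg
    have hn : (ν.sum : ℝ) = 2 * t := by
      rw [ht, Nat.cast_add]; ring
    rw [hn]
    have hp2 : p ≤ 6 / ((t : ℝ) * (t - 1) * (t - 2)) := by
      rw [le_div_iff₀]
      · exact hpt
      · apply mul_pos (mul_pos (by linarith) (by linarith)) (by linarith)
    have h9 : p + (1 - p) / (2 * t) + (2 : ℝ) ^ (Multiset.card ν) / 4 ^ t ≤
        6 / ((t : ℝ) * (t - 1) * (t - 2)) + 1 / (2 * t) + 1 / (4 * (t : ℝ) ^ 2) := by
      have h10 : (1 - p) / (2 * t) ≤ 1 / (2 * (t : ℝ)) := by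
        apply div_le_div_of_nonneg_right (by linarith) (by linarith)
      linarith
    refine le_trans h9 ?_
    have h11 : 6 / ((t : ℝ) * (t - 1) * (t - 2)) + 1 / (2 * t) + 1 / (4 * (t : ℝ) ^ 2) =
        (24 * t + 2 * t * ((t - 1) * (t - 2)) + (t - 1) * (t - 2)) /
          (4 * t ^ 2 * ((t - 1) * (t - 2))) := by
      have a1 : (t : ℝ) - 1 ≠ 0 := by linarith
      have a2 : (t : ℝ) - 2 ≠ 0 := by linarith
      have a3 : (t : ℝ) ≠ 0 := by linarith
      field_simp
      ring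
    rw [h11, div_le_div_iff₀ (by
      apply mul_pos (by positivity) (mul_pos (by linarith) (by linarith))) (by positivity)]
    obtain ⟨w, hw⟩ : ∃ w : ℝ, (t : ℝ) = w + 8 := ⟨t - 8, by ring⟩
    have hw0 : 0 ≤ w := by linarith
    rw [hw, ← sub_nonneg]
    ring_nf
    positivity

end Pool.Agent.Helper23.MS
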