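import Pool.Agent.Helper23.MS.Defs

/-! # MS-1a: basic facts on perfect matchings -/

open scoped BigOperators Nat
open Finset

namespace Pool.Agent.Helper23.MS

variable {V : Type} [Fintype V] [DecidableEq V]

theorem gb_tr_symm_tr {V W : Type} (e : V ≃ W) (P : PM V) : tr e.symm (tr e P) = P := by
  apply Subtype.ext
  apply Equiv.ext
  intro x
  simp

theorem gb_tr_tr_symm {V W : Type} (e : V ≃ W) (P : PM W) : tr e (tr e.symm P) = P := by
  apply Subtype.ext
  apply Equiv.ext
  intro x
  simp

theorem gb_tr_trans {V W U : Type} (e : V ≃ W) (f : W ≃ U) (P : PM V) :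
    tr f (tr e P) = tr (e.trans f) P := by
  apply Subtype.ext
  apply Equiv.ext
  intro x
  simp

/-- transport as an equivalence -/
def gbTrEquiv {V W : Type} (e : V ≃ W) : PM V ≃ PM W where
  toFun := tr e
  invFun := tr e.symm
  left_inv := gb_tr_symm_tr e
  right_inv := gb_tr_tr_symm e

theorem card_PM_pos (N : ℕ) (h : Fintype.card V = 2 * N) : 0 < Fintype.card (PM V) := by
  have e : V ≃ Fin N × Bool := Fintype.equivOfCardEq (by simp [h, mul_comm])
  let s : Equiv.Perm (Fin N × Bool) :=
    { toFun := fun x => (x.1, !x.2)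
      invFun := fun x => (x.1, !x.2)
      left_inv := fun x => by simp
      right_inv := fun x => by simp }
  have hs : (∀ x, s (s x) = x) ∧ ∀ x, s x ≠ x := by
    refine ⟨fun x => by simp [s], fun x hx => ?_⟩
    have := congrArg Prod.snd hx
    simp [s] at this
  exact Fintype.card_pos_iff.2 ⟨tr e.symm ⟨s, hs⟩⟩

theorem gb_conj_of_PM {W : Type} [Fintype W] [DecidableEq W] (P Q : PM W) : IsConj P.1 Q.1 := by
  rw [Equiv.Perm.isConj_iff_cycleType_eq]
  have key : ∀ R : PM W, R.1.cycleType = Multiset.replicate (Fintype.card W / 2) 2 := by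
    intro R
    have h2 : ∀ n ∈ R.1.cycleType, n = 2 := by
      intro n hn
      have h1 : n ∣ orderOf R.1 := Equiv.Perm.dvd_of_mem_cycleType hn
      have h3 : orderOf R.1 ∣ 2 := by
        rw [orderOf_dvd_iff_pow_eq_one]
        apply Equiv.ext
        intro x
        rw [sq, Equiv.Perm.mul_apply, R.2.1, Equiv.Perm.one_apply]
      have h4 : 2 ≤ n := Equiv.Perm.two_le_of_mem_cycleType hn
      have h5 := Nat.le_of_dvd (by norm_num) (h1.trans h3)
      omega
    have h6 : R.1.cycleType = Multiset.replicate (Multiset.card R.1.cycleType) 2 :=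
      Multiset.eq_replicate.2 ⟨rfl, h2⟩
    have h7 : R.1.cycleType.sum = Fintype.card W := by
      rw [Equiv.Perm.sum_cycleType]
      have : R.1.support = univ := by
        ext x
        simp [R.2.2 x]
      rw [this, card_univ]
    rw [h6, Multiset.sum_replicate, smul_eq_mul] at h7
    rw [h6, ← h7]
    simp
  rw [key P, key Q]

/-- all perfect matchings are conjugate -/
theorem exists_tr {W : Type} [Fintype W] [DecidableEq W] (P : PM V) (Q : PM W)
    (h : Fintype.card V = Fintype.card W) : ∃ e : V ≃ W, tr e P = Q := by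
  have e₀ : V ≃ W := Fintype.equivOfCardEq h
  obtain ⟨g, hg⟩ := isConj_iff.1 (gb_conj_of_PM (tr e₀ P) Q)
  refine ⟨e₀.trans g, ?_⟩
  rw [← gb_tr_trans]
  apply Subtype.ext
  rw [← hg]
  apply Equiv.ext
  intro x
  rfl

theorem sum_tr {W : Type} [Fintype W] [DecidableEq W] (e : V ≃ W) (F : PM W → ℝ) :
    ∑ P : PM V, F (tr e P) = ∑ P : PM W, F P :=
  Equiv.sum_comp (gbTrEquiv e) F

theorem card_PM_congr {W : Type} [Fintype W] [DecidableEq W]
    (h : Fintype.card V = Fintype.card W) : Fintype.card (PM V) = Fintype.card (PM W) :=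
  Fintype.card_congr (gbTrEquiv (Fintype.equivOfCardEq h))

/-- a kernel that is invariant has constant row sums -/
theorem row_const (k : PM V → PM V → ℝ) (hk : Inv k) (P : PM V) :
    ∑ Q, k P Q = rsum k := by
  have h1 : ∀ P', ∑ Q, k P' Q = ∑ Q, k P Q := by
    intro P'
    obtain ⟨g, hg⟩ := exists_tr P P' rfl
    rw [← hg, ← sum_tr g (fun Q => k (tr g P) Q)]
    exact Finset.sum_congr rfl fun Q _ => hk g P Q
  have hne : (Fintype.card (PM V) : ℝ) ≠ 0 := by
    have : 0 < Fintype.card (PM V) := Fintype.card_pos_iff.2 ⟨P⟩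
    positivity
  rw [rsum, Finset.sum_congr rfl fun P' _ => h1 P', Finset.sum_const, card_univ, nsmul_eq_mul]
  field_simp

theorem app_const_one (k : PM V → PM V → ℝ) (hk : Inv k) (P : PM V) :
    app k (fun _ => 1) P = rsum k := by
  rw [← row_const k hk P]
  simp [app]

end Pool.Agent.Helper23.MS
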