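import Pool.Agent.Helper23.MS.Defs
import Pool.Agent.Helper23.MS.Basic

/-! # MS-1b: gluing and closed sets -/

open scoped BigOperators Nat
open Finset

namespace Pool.Agent.Helper23.MS

variable {V : Type} [Fintype V] [DecidableEq V]

theorem glue_left (S : Finset V) (P1 : PM {x // x ∈ S}) (P2 : PM {x // x ∉ S})
    (x : {x // x ∈ S}) : (glue S P1 P2).1 x = P1.1 x := by
  change Equiv.Perm.subtypeCongr P1.1 P2.1 x = _
  rw [Equiv.Perm.subtypeCongr.left_apply _ _ x.2]

theorem glue_right (S : Finset V) (P1 : PM {x // x ∈ S}) (P2 : PM {x // x ∉ S})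
    (x : {x // x ∉ S}) : (glue S P1 P2).1 x = P2.1 x := by
  change Equiv.Perm.subtypeCongr P1.1 P2.1 x = _
  rw [Equiv.Perm.subtypeCongr.right_apply _ _ x.2]

theorem glue_injective (S : Finset V) (P1 Q1 : PM {x // x ∈ S}) (P2 Q2 : PM {x // x ∉ S})
    (h : glue S P1 P2 = glue S Q1 Q2) : P1 = Q1 ∧ P2 = Q2 := by
  constructor
  · apply Subtype.ext
    apply Equiv.ext
    intro x
    apply Subtype.ext
    rw [← glue_left S P1 P2 x, ← glue_left S Q1 Q2 x, h]
  · apply Subtype.ext
    apply Equiv.ext
    intro x
    apply Subtype.ext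
    rw [← glue_right S P1 P2 x, ← glue_right S Q1 Q2 x, h]

theorem gb_glue_closed (S : Finset V) (P1 : PM {x // x ∈ S}) (P2 : PM {x // x ∉ S}) :
    Cl (glue S P1 P2) S := by
  intro x hx
  have := glue_left S P1 P2 ⟨x, hx⟩
  simp only at this
  rw [this]
  exact (P1.1 ⟨x, hx⟩).2

/-- Restriction of a matching to a set that is closed. -/
def gbRestrIn (P : PM V) (S : Finset V) (h : Cl P S) : PM {x // x ∈ S} :=
  ⟨Equiv.Perm.subtypePerm P.1 (fun x => ⟨fun hx => by
      have := h _ hx
      rwa [P.2.1] at this, fun hx => h _ hx⟩), by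
    constructor
    · intro x
      apply Subtype.ext
      simp [P.2.1]
    · intro x hx
      have := congrArg Subtype.val hx
      simp only [Equiv.Perm.subtypePerm_apply] at this
      exact P.2.2 _ this⟩

/-- Restriction of a matching to the complement of a closed set. -/
def gbRestrOut (P : PM V) (S : Finset V) (h : Cl P S) : PM {x // x ∉ S} :=
  ⟨Equiv.Perm.subtypePerm P.1 (fun x => ⟨fun hx hx' => hx (h _ hx'), fun hx hx' => by
      have := h _ hx'
      rw [P.2.1] at this
      exact hx this⟩), by
    constructor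
    · intro x
      apply Subtype.ext
      simp [P.2.1]
    · intro x hx
      have := congrArg Subtype.val hx
      simp only [Equiv.Perm.subtypePerm_apply] at this
      exact P.2.2 _ this⟩

theorem gb_glue_restr (P : PM V) (S : Finset V) (h : Cl P S) :
    glue S (gbRestrIn P S h) (gbRestrOut P S h) = P := by
  apply Subtype.ext
  apply Equiv.ext
  intro x
  by_cases hx : x ∈ S
  · exact glue_left S (gbRestrIn P S h) (gbRestrOut P S h) ⟨x, hx⟩
  · exact glue_right S (gbRestrIn P S h) (gbRestrOut P S h) ⟨x, hx⟩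

open Classical in
theorem sum_closed (S : Finset V) (F : PM V → ℝ) :
    (∑ P : PM V, if Cl P S then F P else 0) =
      ∑ P1 : PM {x // x ∈ S}, ∑ P2 : PM {x // x ∉ S}, F (glue S P1 P2) := by
  rw [← Finset.sum_filter, ← Finset.sum_product']
  symm
  apply Finset.sum_bij (fun (R : PM {x // x ∈ S} × PM {x // x ∉ S}) _ => glue S R.1 R.2)
  · intro R _
    rw [Finset.mem_filter]
    exact ⟨Finset.mem_univ _, gb_glue_closed S _ _⟩
  · intro R _ R' _ h
    obtain ⟨h1, h2⟩ := glue_injective S _ _ _ _ h
    exact Prod.ext h1 h2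
  · intro P hP
    rw [Finset.mem_filter] at hP
    exact ⟨(gbRestrIn P S hP.2, gbRestrOut P S hP.2), by simp, gb_glue_restr P S hP.2⟩
  · intro R _
    rfl

open Classical in
theorem card_closed (N : ℕ) (hV : Fintype.card V = 2 * N) (P : PM V) (a : ℕ) :
    (univ.filter (fun S : Finset V => S.card = 2 * a ∧ Cl P S)).card = N.choose a := by
  let s : Equiv.Perm (Fin N × Bool) :=
    { toFun := fun x => (x.1, !x.2)
      invFun := fun x => (x.1, !x.2)
      left_inv := fun x => by simp
      right_inv := fun x => by simp }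
  have hs : (∀ x, s (s x) = x) ∧ ∀ x, s x ≠ x := by
    refine ⟨fun x => by simp [s], fun x hx => ?_⟩
    have := congrArg Prod.snd hx
    simp [s] at this
  obtain ⟨e, he⟩ := exists_tr (⟨s, hs⟩ : PM (Fin N × Bool)) P (by simp [hV, mul_comm])
  have hPe : ∀ i b, P.1 (e (i, b)) = e (i, !b) := by
    intro i b
    rw [← he]
    simp [s]
  have h1 : (Finset.powersetCard a (univ : Finset (Fin N))).card = N.choose a := by
    rw [Finset.card_powersetCard, Finset.card_univ, Fintype.card_fin]
  rw [← h1]
  symm
  apply Finset.card_bij (fun (T : Finset (Fin N)) _ =>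
    (T ×ˢ (univ : Finset Bool)).map e.toEmbedding)
  · intro T hT
    rw [Finset.mem_powersetCard] at hT
    rw [Finset.mem_filter]
    refine ⟨Finset.mem_univ _, ?_, ?_⟩
    · rw [Finset.card_map, Finset.card_product, hT.2]
      simp [mul_comm]
    · intro x hx
      rw [Finset.mem_map] at hx ⊢
      obtain ⟨⟨i, b⟩, hib, rfl⟩ := hx
      refine ⟨(i, !b), ?_, (hPe i b).symm⟩
      rw [Finset.mem_product] at hib ⊢
      exact ⟨hib.1, Finset.mem_univ _⟩
  · intro T _ T' _ h
    have h2 := Finset.map_injective _ h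
    ext i
    have h3 : (i, true) ∈ T ×ˢ (univ : Finset Bool) ↔ (i, true) ∈ T' ×ˢ (univ : Finset Bool) := by
      rw [h2]
    simpa using h3
  · intro S hS
    rw [Finset.mem_filter] at hS
    obtain ⟨_, hS1, hS2⟩ := hS
    have hcl : ∀ i b, e (i, b) ∈ S → e (i, !b) ∈ S := by
      intro i b h
      rw [← hPe]
      exact hS2 _ h
    have hT : (univ.filter (fun i : Fin N => e (i, true) ∈ S) ×ˢ (univ : Finset Bool)).map
        e.toEmbedding = S := by
      ext x
      rw [Finset.mem_map]
      constructor
      · rintro ⟨⟨i, b⟩, hib, rfl⟩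
        rw [Finset.mem_product, Finset.mem_filter] at hib
        cases b
        · exact hcl i true hib.1.2
        · exact hib.1.2
      · intro hx
        obtain ⟨⟨i, b⟩, rfl⟩ := e.surjective x
        refine ⟨(i, b), ?_, rfl⟩
        rw [Finset.mem_product, Finset.mem_filter]
        refine ⟨⟨Finset.mem_univ _, ?_⟩, Finset.mem_univ _⟩
        cases b
        · exact hcl i false hx
        · exact hx
    refine ⟨univ.filter (fun i : Fin N => e (i, true) ∈ S), ?_, hT⟩
    rw [Finset.mem_powersetCard]
    refine ⟨Finset.subset_univ _, ?_⟩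
    have h4 := congrArg Finset.card hT
    rw [Finset.card_map, Finset.card_product, hS1] at h4
    simp at h4
    omega

theorem card_in (S : Finset V) : Fintype.card {x // x ∈ S} = S.card := by
  simp

theorem card_out (S : Finset V) : Fintype.card {x // x ∉ S} + S.card = Fintype.card V := by
  classical
  rw [Fintype.card_subtype_compl]
  simp only [Fintype.card_coe]
  exact Nat.sub_add_cancel (Finset.card_le_univ S)

end Pool.Agent.Helper23.MS
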