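import Pool.Agent.Helper23.MS.LowFacts
import Pool.Agent.Helper23.MS.GlueBasic

/-! # MS-14a: the class of a transposition, main identity -/

open scoped BigOperators Nat
open Finset

namespace Pool.Agent.Helper23.MS

set_option linter.unusedSectionVars false

variable {V : Type} [Fintype V] [DecidableEq V]

/-- sums over the complement of `W` -/
noncomputable def av (W : Finset V) (f : PM V → ℝ) : PM {x // x ∈ W} → ℝ :=
  fun P1 => ∑ P2 : PM {x // x ∉ W}, f (glue W P1 P2)

namespace AvPf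

omit [Fintype V] [DecidableEq V] in
theorem PM_ext {P Q : PM V} (h : ∀ z, P.1 z = Q.1 z) : P = Q := Subtype.ext (Equiv.ext h)

omit [Fintype V] [DecidableEq V] in
theorem PM_inj (P : PM V) {x y : V} (h : P.1 x = P.1 y) : x = y := P.1.injective h

omit [Fintype V] in
theorem sw (P : PM V) (x y z : V) :
    (tr (Equiv.swap x y) P).1 z = Equiv.swap x y (P.1 (Equiv.swap x y z)) := by
  rw [tr_apply, Equiv.symm_swap]

omit [Fintype V] in
theorem sw_invol (P : PM V) (x y : V) :
    tr (Equiv.swap x y) (tr (Equiv.swap x y) P) = P := by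
  apply PM_ext
  intro z
  rw [sw, sw, Equiv.swap_apply_self, Equiv.swap_apply_self]

omit [Fintype V] in
theorem sw_self (P : PM V) {x y : V} (h : y = x ∨ y = P.1 x) :
    tr (Equiv.swap x y) P = P := by
  apply PM_ext
  intro z
  rw [sw]
  rcases h with rfl | rfl
  · simp
  · by_cases h1 : z = x
    · subst h1
      rw [Equiv.swap_apply_left, P.2.1, Equiv.swap_apply_left]
    · by_cases h2 : z = P.1 x
      · subst h2
        rw [Equiv.swap_apply_right, Equiv.swap_apply_right, P.2.1]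
      · rw [Equiv.swap_apply_of_ne_of_ne h1 h2, Equiv.swap_apply_of_ne_of_ne]
        · intro h
          exact h2 (by rw [← h, P.2.1])
        · intro h
          exact h1 (PM_inj P h)

omit [Fintype V] in
theorem sw_val_x (P : PM V) {x y : V} (h2 : y ≠ P.1 x) :
    (tr (Equiv.swap x y) P).1 x = P.1 y := by
  rw [sw, Equiv.swap_apply_left, Equiv.swap_apply_of_ne_of_ne]
  · intro h
    exact h2 (by rw [← h, P.2.1])
  · exact P.2.2 y

omit [Fintype V] in
theorem sw_val_y (P : PM V) {x y : V} (h2 : y ≠ P.1 x) :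
    (tr (Equiv.swap x y) P).1 y = P.1 x := by
  rw [sw, Equiv.swap_apply_right, Equiv.swap_apply_of_ne_of_ne]
  · exact P.2.2 x
  · exact h2.symm

omit [Fintype V] in
theorem sw_val_Px (P : PM V) {x y : V} (h2 : y ≠ P.1 x) :
    (tr (Equiv.swap x y) P).1 (P.1 x) = y := by
  rw [sw, Equiv.swap_apply_of_ne_of_ne (P.2.2 x) h2.symm, P.2.1, Equiv.swap_apply_left]

omit [Fintype V] in
theorem sw_val_Py (P : PM V) {x y : V} (h2 : y ≠ P.1 x) :
    (tr (Equiv.swap x y) P).1 (P.1 y) = x := by
  have a : P.1 y ≠ x := fun h => h2 (by rw [← h, P.2.1])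
  rw [sw, Equiv.swap_apply_of_ne_of_ne a (P.2.2 y), P.2.1, Equiv.swap_apply_right]

omit [Fintype V] in
theorem sw_val_other (P : PM V) {x y z : V} (h1 : z ≠ x) (h2 : z ≠ y) (h3 : z ≠ P.1 x)
    (h4 : z ≠ P.1 y) : (tr (Equiv.swap x y) P).1 z = P.1 z := by
  rw [sw, Equiv.swap_apply_of_ne_of_ne h1 h2, Equiv.swap_apply_of_ne_of_ne]
  · intro h
    exact h3 (by rw [← h, P.2.1])
  · intro h
    exact h4 (by rw [← h, P.2.1])

/-- the set of vertices where two matchings differ -/
def dif (P Q : PM V) : Finset V := univ.filter (fun z => P.1 z ≠ Q.1 z)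

theorem mem_dif {P Q : PM V} {z : V} : z ∈ dif P Q ↔ P.1 z ≠ Q.1 z := by simp [dif]

theorem dif_sw (P : PM V) {x y : V} (h1 : y ≠ x) (h2 : y ≠ P.1 x) :
    dif P (tr (Equiv.swap x y) P) = {x, y, P.1 x, P.1 y} := by
  ext z
  rw [mem_dif]
  simp only [Finset.mem_insert, Finset.mem_singleton]
  have hxy : P.1 x ≠ P.1 y := fun h => h1 (PM_inj P h).symm
  constructor
  · intro h
    by_contra hcon
    push Not at hcon
    exact h (sw_val_other P hcon.1 hcon.2.1 hcon.2.2.1 hcon.2.2.2).symm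
  · rintro (rfl | rfl | rfl | rfl)
    · rw [sw_val_x P h2]; exact hxy
    · rw [sw_val_y P h2]; exact hxy.symm
    · rw [sw_val_Px P h2, P.2.1]; exact h1.symm
    · rw [sw_val_Py P h2, P.2.1]; exact h1

theorem card_dif_sw (P : PM V) {x y : V} (h1 : y ≠ x) (h2 : y ≠ P.1 x) :
    (dif P (tr (Equiv.swap x y) P)).card = 4 := by
  rw [dif_sw P h1 h2]
  have hxy : P.1 x ≠ P.1 y := fun h => h1 (PM_inj P h).symm
  have h3 : x ≠ P.1 y := fun h => h2 (by rw [h, P.2.1])
  rw [Finset.card_insert_of_notMem, Finset.card_insert_of_notMem, Finset.card_insert_of_notMem,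
    Finset.card_singleton]
  · simpa using hxy
  · simp only [Finset.mem_insert, Finset.mem_singleton, not_or]
    exact ⟨h2, (P.2.2 y).symm⟩
  · simp only [Finset.mem_insert, Finset.mem_singleton, not_or]
    exact ⟨h1.symm, (P.2.2 x).symm, h3⟩

/-- the matchings at distance two are obtained by swaps -/
theorem sw_eq_iff (P Q : PM V) (h4 : (dif P Q).card = 4) {x : V} (hx : x ∈ dif P Q) (y : V) :
    tr (Equiv.swap x y) P = Q ↔ y = P.1 (Q.1 x) := by
  have hx' := mem_dif.mp hx
  constructor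
  · rintro rfl
    by_cases h : y = x ∨ y = P.1 x
    · rw [sw_self P h] at hx'
      exact absurd rfl hx'
    · push Not at h
      rw [sw_val_x P h.2, P.2.1]
  · rintro rfl
    have hPQ : ∀ z, z ∈ dif P Q → P.1 z ∈ dif P Q := by
      intro z hz
      rw [mem_dif] at hz ⊢
      rw [P.2.1]
      intro h
      apply hz
      have := congrArg Q.1 h
      rw [Q.2.1] at this
      exact this.symm
    have hQP : ∀ z, z ∈ dif P Q → Q.1 z ∈ dif P Q := by
      intro z hz
      rw [mem_dif] at hz ⊢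
      rw [Q.2.1]
      intro h
      apply hz
      have := congrArg P.1 h
      rw [P.2.1] at this
      exact this.symm
    have a1 : P.1 (Q.1 x) ≠ x := by
      intro h
      have := congrArg P.1 h
      rw [P.2.1] at this
      exact hx' this.symm
    have a2 : P.1 (Q.1 x) ≠ P.1 x := fun h => Q.2.2 x (PM_inj P h)
    have hS : dif P Q = {x, P.1 (Q.1 x), P.1 x, Q.1 x} := by
      symm
      apply Finset.eq_of_subset_of_card_le
      · intro z hz
        simp only [Finset.mem_insert, Finset.mem_singleton] at hz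
        rcases hz with rfl | rfl | rfl | rfl
        · exact hx
        · exact hPQ _ (hQP _ hx)
        · exact hPQ _ hx
        · exact hQP _ hx
      · rw [h4]
        rw [Finset.card_insert_of_notMem, Finset.card_insert_of_notMem,
          Finset.card_insert_of_notMem, Finset.card_singleton]
        · simpa using hx'
        · simp only [Finset.mem_insert, Finset.mem_singleton, not_or]
          exact ⟨a2, P.2.2 _⟩
        · simp only [Finset.mem_insert, Finset.mem_singleton, not_or]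
          exact ⟨a1.symm, (P.2.2 x).symm, (Q.2.2 x).symm⟩
    have hQPx : Q.1 (P.1 x) = P.1 (Q.1 x) := by
      have h1 := hQP _ (hPQ _ hx)
      rw [hS] at h1
      simp only [Finset.mem_insert, Finset.mem_singleton] at h1
      rcases h1 with h | h | h | h
      · exfalso
        have := congrArg Q.1 h
        rw [Q.2.1] at this
        exact hx' this
      · exact h
      · exact absurd h (Q.2.2 _)
      · exact absurd (PM_inj Q h) (P.2.2 x)
    apply PM_ext
    intro z
    by_cases hz : z ∈ dif P Q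
    · rw [hS] at hz
      simp only [Finset.mem_insert, Finset.mem_singleton] at hz
      rcases hz with rfl | rfl | rfl | rfl
      · rw [sw_val_x P a2, P.2.1]
      · rw [sw_val_y P a2, ← hQPx, Q.2.1]
      · rw [sw_val_Px P a2, hQPx]
      · have := sw_val_Py P (x := x) (y := P.1 (Q.1 x)) a2
        rw [P.2.1] at this
        rw [this, Q.2.1]
    · rw [sw_val_other P, ← not_not (a := P.1 z = Q.1 z)]
      · exact fun h => hz (mem_dif.mpr h)
      · rintro rfl; exact hz hx
      · rintro rfl; exact hz (hPQ _ (hQP _ hx))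
      · rintro rfl; exact hz (hPQ _ hx)
      · rintro rfl; exact hz (by rw [P.2.1]; exact hQP _ hx)

open Classical in
theorem count_sw (P Q : PM V) :
    ∑ x : V, ∑ y : V, (if tr (Equiv.swap x y) P = Q then (1 : ℝ) else 0) =
      4 * kd 2 P Q + (if P = Q then 2 * (Fintype.card V : ℝ) else 0) := by
  have hkd : kd 2 P Q = if (dif P Q).card = 4 then 1 else 0 := rfl
  rw [hkd]
  by_cases h : P = Q
  · subst h
    have h0 : (dif P P).card ≠ 4 := by
      have : dif P P = ∅ := by
        ext z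
        simp [mem_dif]
      rw [this]
      simp
    rw [if_neg h0, if_pos rfl]
    have : ∀ x : V, ∑ y : V, (if tr (Equiv.swap x y) P = P then (1 : ℝ) else 0) = 2 := by
      intro x
      have e : ∀ y : V, (tr (Equiv.swap x y) P = P) ↔ (y ∈ ({x, P.1 x} : Finset V)) := by
        intro y
        simp only [Finset.mem_insert, Finset.mem_singleton]
        constructor
        · intro hy
          by_contra hcon
          push Not at hcon
          have := card_dif_sw P hcon.1 hcon.2
          rw [hy] at this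
          exact h0 this
        · exact sw_self P
      simp_rw [e]
      rw [Finset.sum_ite_mem]
      simp only [Finset.univ_inter, Finset.sum_const, nsmul_eq_mul, mul_one]
      rw [Finset.card_pair (P.2.2 x).symm]
      norm_num
    rw [Finset.sum_congr rfl (fun x _ => this x)]
    simp [mul_comm]
  · rw [if_neg h, add_zero]
    by_cases h4 : (dif P Q).card = 4
    · rw [if_pos h4]
      have : ∀ x : V, ∑ y : V, (if tr (Equiv.swap x y) P = Q then (1 : ℝ) else 0) =
          if x ∈ dif P Q then 1 else 0 := by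
        intro x
        by_cases hx : x ∈ dif P Q
        · rw [if_pos hx]
          simp_rw [sw_eq_iff P Q h4 hx]
          simp
        · rw [if_neg hx]
          refine Finset.sum_eq_zero (fun y _ => if_neg ?_)
          rintro rfl
          by_cases h' : y = x ∨ y = P.1 x
          · exact h (sw_self P h').symm
          · push Not at h'
            apply hx
            rw [dif_sw P h'.1 h'.2]
            simp
      rw [Finset.sum_congr rfl (fun x _ => this x), Finset.sum_ite_mem]
      simp [h4]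
    · rw [if_neg h4, mul_zero]
      refine Finset.sum_eq_zero (fun x _ => Finset.sum_eq_zero (fun y _ => if_neg ?_))
      rintro rfl
      by_cases h' : y = x ∨ y = P.1 x
      · exact h (sw_self P h').symm
      · push Not at h'
        exact h4 (card_dif_sw P h'.1 h'.2)

/-- the sum over all swaps -/
theorem sum_sw (f : PM V → ℝ) (P : PM V) :
    ∑ x : V, ∑ y : V, f (tr (Equiv.swap x y) P) =
      4 * app (kd 2) f P + 2 * (Fintype.card V : ℝ) * f P := by
  classical
  have h1 : ∀ x y : V, f (tr (Equiv.swap x y) P) =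
      ∑ Q : PM V, (if tr (Equiv.swap x y) P = Q then (1 : ℝ) else 0) * f Q := by
    intro x y
    rw [Finset.sum_eq_single (tr (Equiv.swap x y) P)]
    · simp
    · intro Q _ hQ
      rw [if_neg (Ne.symm hQ), zero_mul]
    · intro h
      exact absurd (Finset.mem_univ _) h
  have h2 : ∑ x : V, ∑ y : V, f (tr (Equiv.swap x y) P) =
      ∑ Q : PM V, (∑ x : V, ∑ y : V, (if tr (Equiv.swap x y) P = Q then (1 : ℝ) else 0)) *
        f Q := by
    simp_rw [h1]
    rw [Finset.sum_congr rfl (fun x _ => Finset.sum_comm), Finset.sum_comm]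
    refine Finset.sum_congr rfl (fun Q _ => ?_)
    rw [Finset.sum_mul]
    refine Finset.sum_congr rfl (fun x _ => ?_)
    rw [Finset.sum_mul]
  rw [h2]
  simp_rw [count_sw P, add_mul, Finset.sum_add_distrib]
  unfold app
  rw [Finset.mul_sum]
  congr 1
  · refine Finset.sum_congr rfl (fun Q _ => ?_)
    ring
  · rw [Finset.sum_eq_single P]
    · simp
    · intro Q _ hQ
      rw [if_neg (Ne.symm hQ), zero_mul]
    · intro h
      exact absurd (Finset.mem_univ _) h

/-- `Q` extends the matching `P1` of `W` -/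
def EW (W : Finset V) (P1 : PM {x // x ∈ W}) (Q : PM V) : Prop :=
  ∀ z : {x // x ∈ W}, Q.1 z = P1.1 z

open Classical in
theorem av_eq (W : Finset V) (f : PM V → ℝ) (P1 : PM {x // x ∈ W}) :
    av W f P1 = ∑ Q : PM V, if EW W P1 Q then f Q else 0 := by
  have h := sum_closed W (fun Q => if EW W P1 Q then f Q else 0)
  have hl : ∀ Q : PM V, (if Cl Q W then (if EW W P1 Q then f Q else 0) else 0) =
      if EW W P1 Q then f Q else 0 := by
    intro Q
    by_cases hE : EW W P1 Q
    · have hC : Cl Q W := by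
        intro x hx
        rw [hE ⟨x, hx⟩]
        exact (P1.1 ⟨x, hx⟩).2
      rw [if_pos hC]
    · rw [if_neg hE, ite_self]
  rw [Finset.sum_congr rfl (fun Q _ => hl Q)] at h
  rw [h]
  have hr : ∀ (P1' : PM {x // x ∈ W}) (P2 : PM {x // x ∉ W}),
      EW W P1 (glue W P1' P2) ↔ P1' = P1 := by
    intro P1' P2
    constructor
    · intro hE
      apply PM_ext
      intro z
      apply Subtype.ext
      rw [← hE z, glue_left]
    · rintro rfl z
      rw [glue_left]
  simp_rw [hr]
  rw [Finset.sum_eq_single P1]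
  · simp [av]
  · intro Q _ hQ
    simp [hQ]
  · intro h
    exact absurd (Finset.mem_univ _) h

theorem EW_in (W : Finset V) (P1 : PM {x // x ∈ W}) (Q : PM V) (x y : {x // x ∈ W}) :
    EW W P1 (tr (Equiv.swap (x : V) (y : V)) Q) ↔ EW W (tr (Equiv.swap x y) P1) Q := by
  have hsw : ∀ z : {x // x ∈ W}, Equiv.swap (x : V) (y : V) z =
      ((Equiv.swap x y z : {x // x ∈ W}) : V) := by
    intro z
    by_cases h1 : z = x
    · subst h1; simp
    · by_cases h2 : z = y
      · subst h2; simp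
      · rw [Equiv.swap_apply_of_ne_of_ne h1 h2, Equiv.swap_apply_of_ne_of_ne]
        · exact fun h => h1 (Subtype.ext h)
        · exact fun h => h2 (Subtype.ext h)
  constructor
  · intro h z
    have h1 := h (Equiv.swap x y z)
    rw [sw, hsw, Equiv.swap_apply_self] at h1
    rw [sw, ← hsw, ← h1, Equiv.swap_apply_self]
  · intro h z
    have h1 := h (Equiv.swap x y z)
    rw [sw, Equiv.swap_apply_self] at h1
    rw [sw, hsw, h1, hsw, Equiv.swap_apply_self]

theorem EW_out (W : Finset V) (P1 : PM {x // x ∈ W}) (Q : PM V) {x y : V} (hx : x ∉ W)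
    (hy : y ∉ W) : EW W P1 (tr (Equiv.swap x y) Q) ↔ EW W P1 Q := by
  have hne : ∀ z : V, z ∈ W → z ≠ x ∧ z ≠ y := by
    intro z hz
    constructor
    · rintro rfl; exact hx hz
    · rintro rfl; exact hy hz
  constructor
  · intro h z
    have h1 := h z
    obtain ⟨a1, a2⟩ := hne z z.2
    obtain ⟨b1, b2⟩ := hne (P1.1 z) (P1.1 z).2
    rw [sw, Equiv.swap_apply_of_ne_of_ne a1 a2] at h1
    have h2 := congrArg (Equiv.swap x y) h1
    rw [Equiv.swap_apply_self, Equiv.swap_apply_of_ne_of_ne b1 b2] at h2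
    exact h2
  · intro h z
    obtain ⟨a1, a2⟩ := hne z z.2
    obtain ⟨b1, b2⟩ := hne (P1.1 z) (P1.1 z).2
    rw [sw, Equiv.swap_apply_of_ne_of_ne a1 a2, h z, Equiv.swap_apply_of_ne_of_ne b1 b2]

/-- `Q` agrees with `P1` on `W` except at the edge of `a` -/
def ER (W : Finset V) (P1 : PM {x // x ∈ W}) (a : {x // x ∈ W}) (Q : PM V) : Prop :=
  ∀ z : {x // x ∈ W}, z ≠ a → z ≠ P1.1 a → Q.1 z = P1.1 z

theorem ER_and (W : Finset V) (P1 : PM {x // x ∈ W}) (a : {x // x ∈ W}) (Q : PM V) :
    (ER W P1 a Q ∧ Q.1 a = P1.1 a) ↔ EW W P1 Q := by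
  constructor
  · rintro ⟨h1, h2⟩ z
    by_cases ha : z = a
    · rw [ha, h2]
    · by_cases hb : z = P1.1 a
      · rw [hb, P1.2.1, ← h2, Q.2.1]
      · exact h1 z ha hb
  · intro h
    exact ⟨fun z _ _ => h z, h a⟩

theorem ER_out (W : Finset V) (P1 : PM {x // x ∈ W}) (a : {x // x ∈ W}) (Q : PM V)
    (h : ER W P1 a Q) (hne : Q.1 a ≠ P1.1 a) : Q.1 (P1.1 a) ∉ W := by
  intro hmem
  by_cases h1 : Q.1 (P1.1 a) = a
  · apply hne
    have := congrArg Q.1 h1
    rw [Q.2.1] at this
    exact this.symm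
  · have h2 : Q.1 (P1.1 a) ≠ P1.1 a := Q.2.2 _
    have h3 := h ⟨Q.1 (P1.1 a), hmem⟩ (fun h => h1 (congrArg Subtype.val h))
      (fun h => h2 (congrArg Subtype.val h))
    have h4 : Q.1 (Q.1 (P1.1 a)) = ((P1.1 ⟨Q.1 (P1.1 a), hmem⟩ : {x // x ∈ W}) : V) := h3
    rw [Q.2.1] at h4
    have h5 : P1.1 a = P1.1 ⟨Q.1 (P1.1 a), hmem⟩ := Subtype.ext h4
    have h6 := PM_inj P1 h5
    exact h1 (congrArg Subtype.val h6).symm

theorem EW_mixed (W : Finset V) (P1 : PM {x // x ∈ W}) (a : {x // x ∈ W}) (Q : PM V) {y : V}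
    (hy : y ∉ W) : EW W P1 (tr (Equiv.swap (a : V) y) Q) ↔
      (y = Q.1 (P1.1 a) ∧ (ER W P1 a Q ∧ Q.1 a ≠ P1.1 a)) := by
  have hay : (a : V) ≠ y := fun h => hy (h ▸ a.2)
  have hby : ((P1.1 a : {x // x ∈ W}) : V) ≠ y := fun h => hy (h ▸ (P1.1 a).2)
  have hba : ((P1.1 a : {x // x ∈ W}) : V) ≠ a := fun h => P1.2.2 a (Subtype.ext h)
  constructor
  · intro h
    have ha := h a
    rw [sw, Equiv.swap_apply_left] at ha
    have ha2 := congrArg (Equiv.swap (a : V) y) ha
    rw [Equiv.swap_apply_self, Equiv.swap_apply_of_ne_of_ne hba hby] at ha2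
    have hyQ : y = Q.1 (P1.1 a) := by rw [← ha2, Q.2.1]
    refine ⟨hyQ, ?_, ?_⟩
    · intro z hza hzb
      have hz := h z
      have hza' : (z : V) ≠ a := fun h => hza (Subtype.ext h)
      have hzy : (z : V) ≠ y := fun h => hy (h ▸ z.2)
      rw [sw, Equiv.swap_apply_of_ne_of_ne hza' hzy] at hz
      have hz2 := congrArg (Equiv.swap (a : V) y) hz
      have c1 : ((P1.1 z : {x // x ∈ W}) : V) ≠ a := by
        intro h
        have h' : P1.1 z = a := Subtype.ext h
        exact hzb (by rw [← h', P1.2.1])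
      have c2 : ((P1.1 z : {x // x ∈ W}) : V) ≠ y := fun h => hy (h ▸ (P1.1 z).2)
      rw [Equiv.swap_apply_self, Equiv.swap_apply_of_ne_of_ne c1 c2] at hz2
      exact hz2
    · intro hcon
      rw [← hcon, Q.2.1] at hyQ
      exact hay hyQ.symm
  · rintro ⟨hyQ, hE, hne⟩ z
    by_cases ha : z = a
    · rw [ha, sw, Equiv.swap_apply_left, hyQ, Q.2.1]
      rw [← hyQ, Equiv.swap_apply_of_ne_of_ne hba hby]
    · have hza' : (z : V) ≠ a := fun h => ha (Subtype.ext h)
      have hzy : (z : V) ≠ y := fun h => hy (h ▸ z.2)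
      rw [sw, Equiv.swap_apply_of_ne_of_ne hza' hzy]
      by_cases hb : z = P1.1 a
      · rw [hb, ← hyQ, Equiv.swap_apply_right, P1.2.1]
      · rw [hE z ha hb]
        have c1 : ((P1.1 z : {x // x ∈ W}) : V) ≠ a := by
          intro h
          have h' : P1.1 z = a := Subtype.ext h
          exact hb (by rw [← h', P1.2.1])
        have c2 : ((P1.1 z : {x // x ∈ W}) : V) ≠ y := fun h => hy (h ▸ (P1.1 z).2)
        rw [Equiv.swap_apply_of_ne_of_ne c1 c2]

/-- the partial matching -/
def qa (W : Finset V) (P1 : PM {x // x ∈ W}) (a : {x // x ∈ W}) : Equiv.Perm V :=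
  Equiv.Perm.subtypeCongr P1.1 (1 : Equiv.Perm {x // x ∉ W}) *
    Equiv.swap (a : V) (P1.1 a : V)

theorem qa_in (W : Finset V) (P1 : PM {x // x ∈ W}) (a z : {x // x ∈ W}) (h1 : z ≠ a)
    (h2 : z ≠ P1.1 a) : qa W P1 a z = P1.1 z := by
  unfold qa
  rw [Equiv.Perm.mul_apply, Equiv.swap_apply_of_ne_of_ne (fun h => h1 (Subtype.ext h))
    (fun h => h2 (Subtype.ext h)), Equiv.Perm.subtypeCongr.left_apply _ _ z.2]

theorem qa_a (W : Finset V) (P1 : PM {x // x ∈ W}) (a : {x // x ∈ W}) :
    qa W P1 a a = a := by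
  unfold qa
  rw [Equiv.Perm.mul_apply, Equiv.swap_apply_left,
    Equiv.Perm.subtypeCongr.left_apply _ _ (P1.1 a).2]
  have : P1.1 ⟨((P1.1 a : {x // x ∈ W}) : V), (P1.1 a).2⟩ = a := P1.2.1 a
  rw [this]

theorem qa_b (W : Finset V) (P1 : PM {x // x ∈ W}) (a : {x // x ∈ W}) :
    qa W P1 a (P1.1 a : {x // x ∈ W}) = (P1.1 a : {x // x ∈ W}) := by
  unfold qa
  rw [Equiv.Perm.mul_apply, Equiv.swap_apply_right,
    Equiv.Perm.subtypeCongr.left_apply _ _ a.2]

theorem qa_out (W : Finset V) (P1 : PM {x // x ∈ W}) (a : {x // x ∈ W}) {z : V}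
    (hz : z ∉ W) : qa W P1 a z = z := by
  unfold qa
  rw [Equiv.Perm.mul_apply, Equiv.swap_apply_of_ne_of_ne,
    Equiv.Perm.subtypeCongr.right_apply _ _ hz]
  · rfl
  · rintro rfl; exact hz a.2
  · rintro rfl; exact hz (P1.1 a).2

theorem qa_Ext (W : Finset V) (P1 : PM {x // x ∈ W}) (a : {x // x ∈ W}) (Q : PM V) :
    Ext (qa W P1 a) Q ↔ ER W P1 a Q := by
  constructor
  · intro h z h1 h2
    have h3 := qa_in W P1 a z h1 h2
    rw [← h3]
    apply h
    rw [h3]
    exact fun h => P1.2.2 z (Subtype.ext h)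
  · intro h z hz
    by_cases hzW : z ∈ W
    · by_cases h1 : (⟨z, hzW⟩ : {x // x ∈ W}) = a
      · exfalso
        apply hz
        have hz' : z = (a : V) := congrArg Subtype.val h1
        rw [hz']
        exact qa_a W P1 a
      · by_cases h2 : (⟨z, hzW⟩ : {x // x ∈ W}) = P1.1 a
        · exfalso
          apply hz
          have hz' : z = ((P1.1 a : {x // x ∈ W}) : V) := congrArg Subtype.val h2
          rw [hz']
          exact qa_b W P1 a
        · have h3 := qa_in W P1 a ⟨z, hzW⟩ h1 h2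
          have h4 := h ⟨z, hzW⟩ h1 h2
          exact h4.trans h3.symm
    · exact absurd (qa_out W P1 a hzW) hz

theorem qa_Invol (W : Finset V) (P1 : PM {x // x ∈ W}) (a : {x // x ∈ W}) :
    Invol (qa W P1 a) := by
  intro z
  by_cases hzW : z ∈ W
  · by_cases h1 : (⟨z, hzW⟩ : {x // x ∈ W}) = a
    · have h := qa_a W P1 a
      have hz : z = (a : V) := congrArg Subtype.val h1
      rw [hz, h, h]
    · by_cases h2 : (⟨z, hzW⟩ : {x // x ∈ W}) = P1.1 a
      · have h := qa_b W P1 a
        have hz : z = ((P1.1 a : {x // x ∈ W}) : V) := congrArg Subtype.val h2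
        rw [hz, h, h]
      · have h3 : qa W P1 a z = ((P1.1 ⟨z, hzW⟩ : {x // x ∈ W}) : V) :=
          qa_in W P1 a ⟨z, hzW⟩ h1 h2
        rw [h3, qa_in W P1 a (P1.1 ⟨z, hzW⟩), P1.2.1]
        · intro h
          exact h2 (by rw [← h, P1.2.1])
        · intro h
          exact h1 (PM_inj P1 h)
  · rw [qa_out W P1 a hzW, qa_out W P1 a hzW]

theorem qa_support (W : Finset V) (P1 : PM {x // x ∈ W}) (a : {x // x ∈ W}) :
    (qa W P1 a).support.card < W.card := by
  apply Finset.card_lt_card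
  rw [Finset.ssubset_iff_of_subset]
  · refine ⟨a, a.2, ?_⟩
    rw [Equiv.Perm.notMem_support]
    exact qa_a W P1 a
  · intro z hz
    by_contra hcon
    rw [Equiv.Perm.mem_support] at hz
    exact hz (qa_out W P1 a hcon)

open Classical in
theorem mixed_sum (W : Finset V) (f : PM V → ℝ) (P1 : PM {x // x ∈ W}) (a : {x // x ∈ W})
    (h0 : D f (qa W P1 a) = 0) :
    ∑ y ∈ Wᶜ, ∑ Q : PM V, (if EW W P1 (tr (Equiv.swap (a : V) y) Q) then f Q else 0) =
      - av W f P1 := by
  rw [Finset.sum_comm]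
  have h1 : ∀ Q : PM V,
      ∑ y ∈ Wᶜ, (if EW W P1 (tr (Equiv.swap (a : V) y) Q) then f Q else 0) =
      (if Ext (qa W P1 a) Q then f Q else 0) - (if EW W P1 Q then f Q else 0) := by
    intro Q
    have e1 : ∀ y ∈ Wᶜ, (if EW W P1 (tr (Equiv.swap (a : V) y) Q) then f Q else 0) =
        if y = Q.1 (P1.1 a) then (if ER W P1 a Q ∧ Q.1 a ≠ P1.1 a then f Q else 0) else 0 := by
      intro y hy
      rw [Finset.mem_compl] at hy
      simp only [EW_mixed W P1 a Q hy]
      by_cases h : y = Q.1 (P1.1 a)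
      · simp [h]
      · simp [h]
    rw [Finset.sum_congr rfl e1, Finset.sum_ite_eq']
    by_cases hE : ER W P1 a Q
    · rw [if_pos ((qa_Ext W P1 a Q).mpr hE)]
      by_cases hne : Q.1 a = P1.1 a
      · rw [if_pos ((ER_and W P1 a Q).mp ⟨hE, hne⟩)]
        simp [hne]
      · have h2 : ¬ EW W P1 Q := fun h => hne (h a)
        have h3 := ER_out W P1 a Q hE hne
        rw [if_neg h2, sub_zero, if_pos (Finset.mem_compl.mpr h3), if_pos ⟨hE, hne⟩]
    · have h2 : ¬ EW W P1 Q := fun h => hE ((ER_and W P1 a Q).mpr h).1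
      rw [if_neg h2, if_neg (fun h => hE ((qa_Ext W P1 a Q).mp h)), sub_zero]
      have h3 : ¬ (ER W P1 a Q ∧ Q.1 a ≠ P1.1 a) := fun h => hE h.1
      rw [if_neg h3, ite_self]
  rw [Finset.sum_congr rfl (fun Q _ => h1 Q), Finset.sum_sub_distrib, ← av_eq]
  have h2 : ∑ Q : PM V, (if Ext (qa W P1 a) Q then f Q else 0) = D f (qa W P1 a) := rfl
  rw [h2, h0, zero_sub]

end AvPf

open AvPf in
/-- the main identity -/
theorem av_kd_two (t u : ℕ) (hV : Fintype.card V = 2 * (t + u)) (W : Finset V)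
    (hW : W.card = 2 * t) (f : PM V → ℝ) (hf : Low u f) (P1 : PM {x // x ∈ W}) :
    av W (app (kd 2) f) P1 =
      ((u : ℝ) * (u - 1) - t) * av W f P1 + app (kd 2) (av W f) P1 := by
  classical
  -- the sum over all swaps
  have hT : av W (fun P => ∑ x : V, ∑ y : V, f (tr (Equiv.swap x y) P)) P1 =
      4 * av W (app (kd 2) f) P1 + 2 * (Fintype.card V : ℝ) * av W f P1 := by
    unfold av
    simp_rw [sum_sw f]
    rw [Finset.sum_add_distrib, Finset.mul_sum, Finset.mul_sum]
  set G : V → V → ℝ := fun x y =>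
    ∑ Q : PM V, (if EW W P1 (tr (Equiv.swap x y) Q) then f Q else 0) with hG
  have hTG : av W (fun P => ∑ x : V, ∑ y : V, f (tr (Equiv.swap x y) P)) P1 =
      ∑ x : V, ∑ y : V, G x y := by
    rw [av_eq]
    have e1 : ∀ Q : PM V, (if EW W P1 Q then ∑ x : V, ∑ y : V, f (tr (Equiv.swap x y) Q) else 0)
        = ∑ x : V, ∑ y : V, (if EW W P1 Q then f (tr (Equiv.swap x y) Q) else 0) := by
      intro Q
      by_cases h : EW W P1 Q
      · simp [h]
      · simp [h]
    rw [Finset.sum_congr rfl (fun Q _ => e1 Q), Finset.sum_comm]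
    refine Finset.sum_congr rfl (fun x _ => ?_)
    rw [Finset.sum_comm]
    refine Finset.sum_congr rfl (fun y _ => ?_)
    have := sum_tr (Equiv.swap x y)
      (fun Q : PM V => if EW W P1 (tr (Equiv.swap x y) Q) then f Q else 0)
    simp only [sw_invol] at this
    exact this
  have hcomm : ∀ x y, G x y = G y x := by
    intro x y
    rw [hG]
    simp only [Equiv.swap_comm x y]
  have hin : ∑ x ∈ W, ∑ y ∈ W, G x y =
      4 * app (kd 2) (av W f) P1 + 2 * ((2 * t : ℕ) : ℝ) * av W f P1 := by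
    have h1 := sum_sw (av W f) P1
    rw [card_in, hW] at h1
    rw [← h1, ← Finset.sum_coe_sort W]
    refine Finset.sum_congr rfl (fun x _ => ?_)
    rw [← Finset.sum_coe_sort W]
    refine Finset.sum_congr rfl (fun y _ => ?_)
    rw [av_eq]
    simp only [hG, EW_in]
  have hmix : ∀ a ∈ W, ∑ y ∈ Wᶜ, G a y = - av W f P1 := by
    intro a ha
    refine mixed_sum W f P1 ⟨a, ha⟩ (hf _ (qa_Invol W P1 ⟨a, ha⟩) ?_)
    have := qa_support W P1 ⟨a, ha⟩
    omega
  have hout : ∑ x ∈ Wᶜ, ∑ y ∈ Wᶜ, G x y = ((2 * u : ℕ) : ℝ) ^ 2 * av W f P1 := by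
    have h1 : ∀ x ∈ Wᶜ, ∀ y ∈ Wᶜ, G x y = av W f P1 := by
      intro x hx y hy
      rw [Finset.mem_compl] at hx hy
      rw [av_eq]
      simp only [hG, EW_out W P1 _ hx hy]
    have hc : (Wᶜ).card = 2 * u := by
      rw [Finset.card_compl, hV, hW]; omega
    rw [Finset.sum_congr rfl (fun x hx => Finset.sum_congr rfl (h1 x hx))]
    simp only [Finset.sum_const, nsmul_eq_mul, hc]
    ring
  have htot : ∑ x : V, ∑ y : V, G x y =
      ∑ x ∈ W, ∑ y ∈ W, G x y + 2 * ∑ x ∈ W, ∑ y ∈ Wᶜ, G x y +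
        ∑ x ∈ Wᶜ, ∑ y ∈ Wᶜ, G x y := by
    have h1 : ∀ x : V, ∑ y : V, G x y = ∑ y ∈ W, G x y + ∑ y ∈ Wᶜ, G x y :=
      fun x => (Finset.sum_add_sum_compl W _).symm
    rw [Finset.sum_congr rfl (fun x _ => h1 x), Finset.sum_add_distrib,
      ← Finset.sum_add_sum_compl W (fun x => ∑ y ∈ W, G x y),
      ← Finset.sum_add_sum_compl W (fun x => ∑ y ∈ Wᶜ, G x y)]
    have h2 : ∑ x ∈ Wᶜ, ∑ y ∈ W, G x y = ∑ x ∈ W, ∑ y ∈ Wᶜ, G x y := by
      rw [Finset.sum_comm]
      refine Finset.sum_congr rfl (fun x _ => Finset.sum_congr rfl (fun y _ => hcomm _ _))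
    rw [h2]
    ring
  rw [hTG, htot, hin, Finset.sum_congr rfl hmix, hout, hV] at hT
  simp only [Finset.sum_const, nsmul_eq_mul, hW] at hT
  push_cast at hT
  linarith

end Pool.Agent.Helper23.MS
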