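import Pool.Agent.Helper23.MS.Basic
import Pool.Agent.Helper23.MS.GlueBasic

/-! # MS-6b: facts on levels -/

open scoped BigOperators Nat
open Finset

namespace Pool.Agent.Helper23.MS

variable {V : Type} [Fintype V] [DecidableEq V]

theorem Low_mono {u v : ℕ} (huv : u ≤ v) (f : PM V → ℝ) (hf : Low u f) : Low v f := by
  intro q hq h
  exact hf q hq (by omega)

private theorem D_one (f : PM V → ℝ) : D f 1 = ∑ P, f P := by
  unfold D
  refine sum_congr rfl fun P _ => ?_
  rw [if_pos]
  intro x hx
  exact absurd rfl hx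

/-- level at most `N - 1` is: sum zero -/
theorem Low_top (N : ℕ) (hN : 1 ≤ N) (hV : Fintype.card V = 2 * N) (f : PM V → ℝ) :
    Low (N - 1) f ↔ ∑ P, f P = 0 := by
  constructor
  · intro h
    rw [← D_one]
    apply h 1
    · intro x; rfl
    · rw [Equiv.Perm.support_one, card_empty]
      omega
  · intro h q hq hlt
    have h1 : q.support.card ≤ 1 := by omega
    rw [Equiv.Perm.card_support_le_one] at h1
    rw [h1, D_one, h]

/-- level zero is the zero function -/
theorem Low_bot (N : ℕ) (hN : 1 ≤ N) (hV : Fintype.card V = 2 * N) (f : PM V → ℝ)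
    (hf : Low 0 f) : f = 0 := by
  funext P
  have hne : Nonempty V := by
    rw [← Fintype.card_pos_iff]; omega
  obtain ⟨x0⟩ := hne
  obtain ⟨q, hq⟩ : ∃ q : Equiv.Perm V, q = P.1 * Equiv.swap x0 (P.1 x0) := ⟨_, rfl⟩
  have h0 : q x0 = x0 := by
    rw [hq, Equiv.Perm.mul_apply, Equiv.swap_apply_left, P.2.1]
  have h1 : q (P.1 x0) = P.1 x0 := by
    rw [hq, Equiv.Perm.mul_apply, Equiv.swap_apply_right]
  have h2 : ∀ x, x ≠ x0 → x ≠ P.1 x0 → q x = P.1 x := by
    intro x ha hb
    rw [hq, Equiv.Perm.mul_apply, Equiv.swap_apply_of_ne_of_ne ha hb]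
  have hinv : Invol q := by
    intro x
    by_cases ha : x = x0
    · rw [ha, h0, h0]
    · by_cases hb : x = P.1 x0
      · rw [hb, h1, h1]
      · rw [h2 x ha hb]
        have hc : P.1 x ≠ x0 := fun h => hb (by rw [← h, P.2.1])
        have hd : P.1 x ≠ P.1 x0 := fun h => ha (P.1.injective h)
        rw [h2 _ hc hd, P.2.1]
  have hlt : q.support.card + 2 * 0 < Fintype.card V := by
    rw [mul_zero, add_zero, ← card_univ]
    apply card_lt_card
    rw [ssubset_iff_of_subset (subset_univ _)]
    exact ⟨x0, mem_univ _, by rw [Equiv.Perm.mem_support]; simpa using h0⟩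
  have hD := hf q hinv hlt
  unfold D at hD
  have hunique : ∀ P' : PM V, Ext q P' ↔ P' = P := by
    intro P'
    constructor
    · intro h
      have h3 : ∀ x, x ≠ x0 → x ≠ P.1 x0 → P'.1 x = P.1 x := by
        intro x ha hb
        rw [h x (by rw [h2 x ha hb]; exact P.2.2 x), h2 x ha hb]
      have h4 : P'.1 x0 = P.1 x0 := by
        by_contra hne
        have h5 := h3 (P'.1 x0) (P'.2.2 x0) hne
        rw [P'.2.1] at h5
        apply hne
        have h6 := congrArg P.1 h5
        rw [P.2.1] at h6
        exact h6.symm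
      apply Subtype.ext
      ext x
      by_cases ha : x = x0
      · rw [ha, h4]
      · by_cases hb : x = P.1 x0
        · rw [hb, P.2.1, ← h4, P'.2.1]
        · exact h3 x ha hb
    · rintro rfl x hx
      by_cases ha : x = x0
      · exact absurd h0 (ha ▸ hx)
      · by_cases hb : x = P'.1 x0
        · rw [hb] at hx
          exact absurd h1 hx
        · rw [h2 x ha hb]
  rw [sum_eq_single P] at hD
  · rw [if_pos ((hunique P).2 rfl)] at hD
    exact hD
  · intro P' _ hne
    rw [if_neg]
    intro h
    exact hne ((hunique P').1 h)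
  · intro h
    exact absurd (mem_univ _) h

/-- exact level -/
theorem exact_of_not_low (u : ℕ) (N : ℕ) (hV : Fintype.card V = 2 * N) (f : PM V → ℝ)
    (hf : Low (u + 1) f) (hn : ¬ Low u f) :
    ∃ q : Equiv.Perm V, Invol q ∧ q.support.card + 2 * (u + 1) = Fintype.card V ∧
      D f q ≠ 0 := by
  unfold Low at hn
  push Not at hn
  obtain ⟨q, hq, hlt, hD⟩ := hn
  refine ⟨q, hq, ?_, hD⟩
  have h1 : ¬ (q.support.card + 2 * (u + 1) < Fintype.card V) := fun h => hD (hf q hq h)
  have h2 : 2 ∣ q.support.card := by
    apply Equiv.Perm.two_dvd_card_support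
    ext x
    rw [pow_two, Equiv.Perm.mul_apply, hq x]
    rfl
  omega

/-- restriction to the matchings containing a given matching of `S` -/
theorem Low_glue (u : ℕ) (f : PM V → ℝ) (hf : Low u f) (S : Finset V)
    (P1 : PM {x // x ∈ S}) : Low u (fun P2 : PM {x // x ∉ S} => f (glue S P1 P2)) := by
  classical
  intro q2 hq2 hlt
  obtain ⟨q, hqd⟩ : ∃ q : Equiv.Perm V, q = Equiv.Perm.subtypeCongr P1.1 q2 := ⟨_, rfl⟩
  have hl : ∀ x : {x // x ∈ S}, q x = P1.1 x := by
    intro x
    rw [hqd, Equiv.Perm.subtypeCongr.left_apply_subtype]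
  have hr : ∀ x : {x // x ∉ S}, q x = q2 x := by
    intro x
    rw [hqd, Equiv.Perm.subtypeCongr.right_apply_subtype]
  have hinv : Invol q := by
    intro x
    by_cases hx : x ∈ S
    · have h1 := hl ⟨x, hx⟩
      simp only at h1
      rw [h1, hl, P1.2.1]
    · have h1 := hr ⟨x, hx⟩
      simp only at h1
      rw [h1, hr, hq2]
  have hsupp : q.support = S ∪ q2.support.map (Function.Embedding.subtype _) := by
    ext x
    rw [Equiv.Perm.mem_support, mem_union, mem_map]
    by_cases hx : x ∈ S
    · have h1 := hl ⟨x, hx⟩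
      simp only at h1
      rw [h1]
      constructor
      · intro _; exact Or.inl hx
      · intro _ h
        exact P1.2.2 ⟨x, hx⟩ (Subtype.ext h)
    · have h1 := hr ⟨x, hx⟩
      simp only at h1
      rw [h1]
      constructor
      · intro h
        refine Or.inr ⟨⟨x, hx⟩, ?_, rfl⟩
        rw [Equiv.Perm.mem_support]
        intro h2
        exact h (congrArg Subtype.val h2)
      · rintro (h | ⟨z, hz, hzx⟩)
        · exact absurd h hx
        · intro h2
          rw [Equiv.Perm.mem_support] at hz
          apply hz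
          have : z = ⟨x, hx⟩ := Subtype.ext hzx
          rw [this]
          exact Subtype.ext h2
  have hcard : q.support.card = S.card + q2.support.card := by
    rw [hsupp, card_union_of_disjoint, card_map]
    rw [Finset.disjoint_left]
    intro x hx h2
    rw [mem_map] at h2
    obtain ⟨z, -, hz⟩ := h2
    exact z.2 (by rw [show (z : V) = x from hz]; exact hx)
  have hlt' : q.support.card + 2 * u < Fintype.card V := by
    have := card_out S
    omega
  have hD := hf q hinv hlt'
  have hext : ∀ (P1' : PM {x // x ∈ S}) (P2 : PM {x // x ∉ S}),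
      Ext q (glue S P1' P2) ↔ (P1' = P1 ∧ Ext q2 P2) := by
    intro P1' P2
    constructor
    · intro h
      refine ⟨?_, ?_⟩
      · apply Subtype.ext
        ext x
        have h1 := h x (by
          rw [hl]
          intro h2
          exact P1.2.2 x (Subtype.ext h2))
        rw [glue_left, hl] at h1
        exact h1
      · intro x hx
        have h1 := h x (by
          rw [hr]
          intro h2
          exact hx (Subtype.ext h2))
        rw [glue_right, hr] at h1
        exact Subtype.ext h1
    · rintro ⟨rfl, h⟩ x hx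
      by_cases hxS : x ∈ S
      · have h1 := hl ⟨x, hxS⟩
        have h2 := glue_left S P1' P2 ⟨x, hxS⟩
        simp only at h1 h2
        rw [h1, h2]
      · have h1 := hr ⟨x, hxS⟩
        have h2 := glue_right S P1' P2 ⟨x, hxS⟩
        simp only at h1 h2
        rw [h1] at hx ⊢
        rw [h2, h ⟨x, hxS⟩ (fun h3 => hx (congrArg Subtype.val h3))]
  have hcl : ∀ P : PM V, Ext q P → Cl P S := by
    intro P h x hx
    have h1 := hl ⟨x, hx⟩
    simp only at h1
    have h2 := h x (by
      rw [h1]
      intro h2
      exact P1.2.2 ⟨x, hx⟩ (Subtype.ext h2))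
    rw [h2, h1]
    exact (P1.1 ⟨x, hx⟩).2
  have e1 : D f q = ∑ P : PM V, if Cl P S then (if Ext q P then f P else 0) else 0 := by
    unfold D
    refine sum_congr rfl fun P _ => ?_
    by_cases h : Ext q P
    · rw [if_pos h, if_pos (hcl P h)]
    · rw [if_neg h, ite_self]
  have e2 := sum_closed S (fun P : PM V => if Ext q P then f P else 0)
  rw [e1] at hD
  have e3 : (∑ P1' : PM {x // x ∈ S}, ∑ P2 : PM {x // x ∉ S},
      if Ext q (glue S P1' P2) then f (glue S P1' P2) else 0) =
      D (fun P2 : PM {x // x ∉ S} => f (glue S P1 P2)) q2 := by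
    rw [sum_eq_single P1]
    · unfold D
      refine sum_congr rfl fun P2 _ => ?_
      apply if_congr _ rfl rfl
      rw [hext]
      exact ⟨fun h => h.2, fun h => ⟨rfl, h⟩⟩
    · intro P1' _ hne
      refine sum_eq_zero fun P2 _ => ?_
      rw [if_neg]
      rw [hext]
      exact fun h => hne h.1
    · intro h
      exact absurd (mem_univ _) h
  rw [← e3, ← e2]
  exact hD

end Pool.Agent.Helper23.MS
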