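import Pool.Agent.Helper23.MS.Defs

/-! # MS-8: quadratic forms and eigenvalues on an invariant submodule -/

open scoped BigOperators Nat
open Finset

namespace Pool.Agent.Helper23.MS

variable {X : Type} [Fintype X]

/-- coordinates in an orthonormal eigenbasis of the restriction of a symmetric kernel -/
private theorem h51_eig (k : X → X → ℝ) (hs : ∀ x y, k x y = k y x)
    (U : Submodule ℝ (X → ℝ)) (hU : ∀ f ∈ U, app k f ∈ U) :
    ∃ (n : ℕ) (lam : Fin n → ℝ) (v : Fin n → X → ℝ) (co : (X → ℝ) → Fin n → ℝ),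
      (∀ i, v i ∈ U ∧ nrm (v i) = 1 ∧ ∀ x, app k (v i) x = lam i * v i x) ∧
      ∀ f ∈ U, nrm f = ∑ i, co f i ^ 2 ∧ quad k f = ∑ i, lam i * co f i ^ 2 ∧
        nrm (app k f) = ∑ i, lam i ^ 2 * co f i ^ 2 := by
  classical
  let E := EuclideanSpace ℝ X
  let e : E ≃ₗ[ℝ] (X → ℝ) := WithLp.linearEquiv 2 ℝ (X → ℝ)
  have he : ∀ (x : E) (i : X), e x i = x i := fun _ _ => rfl
  let A : (X → ℝ) →ₗ[ℝ] (X → ℝ) :=
    { toFun := app k
      map_add' := by
        intro f g; funext x
        simp [app, mul_add, Finset.sum_add_distrib]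
      map_smul' := by
        intro c f; funext x
        simp [app, Finset.mul_sum, mul_left_comm] }
  let T : E →ₗ[ℝ] E := (e.symm : (X → ℝ) →ₗ[ℝ] E) ∘ₗ A ∘ₗ (e : E →ₗ[ℝ] (X → ℝ))
  have hTa : ∀ (x : E) (i : X), (T x) i = app k (e x) i := fun _ _ => rfl
  have hinner : ∀ x y : E, inner ℝ x y = ∑ i, x i * y i := by
    intro x y
    rw [PiLp.inner_apply]
    refine Finset.sum_congr rfl fun i _ => ?_
    simp [mul_comm]
  have hT : T.IsSymmetric := by
    intro x y
    rw [hinner, hinner]
    simp only [hTa, app, he]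
    simp_rw [Finset.sum_mul, Finset.mul_sum]
    rw [Finset.sum_comm]
    refine Finset.sum_congr rfl fun i _ => Finset.sum_congr rfl fun j _ => ?_
    rw [hs j i]; ring
  let U' : Submodule ℝ E := U.comap (e : E →ₗ[ℝ] (X → ℝ))
  have hres : ∀ x ∈ U', T x ∈ U' := by
    intro x hx
    have : e (T x) = app k (e x) := rfl
    change e (T x) ∈ U
    rw [this]
    exact hU _ hx
  have hS := hT.restrict_invariant hres
  let b := hS.eigenvectorBasis (rfl : Module.finrank ℝ U' = Module.finrank ℝ U')
  have hnrm : ∀ x : E, ‖x‖ ^ 2 = nrm (e x) := by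
    intro x
    rw [EuclideanSpace.norm_sq_eq]
    simp [nrm, he]
  have hb1 : ∀ (x : U') i, b.repr (T.restrict hres x) i =
      hS.eigenvalues rfl i * b.repr x i := by
    intro x i
    exact hS.eigenvectorBasis_apply_self_apply rfl x i
  refine ⟨Module.finrank ℝ U', fun i => hS.eigenvalues rfl i, fun i => e (b i : E),
    fun f i => if h : f ∈ U then b.repr ⟨e.symm f, by
      change e (e.symm f) ∈ U
      rw [LinearEquiv.apply_symm_apply]; exact h⟩ i else 0, ?_, ?_⟩
  · intro i
    refine ⟨(b i).2, ?_, ?_⟩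
    · rw [← hnrm]
      have : ‖((b i : U') : E)‖ = 1 := by
        have := b.orthonormal.1 i
        rw [← Submodule.coe_norm]; exact this
      rw [this]; norm_num
    · intro x
      have h1 := hS.apply_eigenvectorBasis rfl i
      have h2 := congrArg (fun u : U' => (u : E) x) h1
      exact h2
  · intro f hf
    have hmem : e.symm f ∈ U' := by
      change e (e.symm f) ∈ U
      rw [LinearEquiv.apply_symm_apply]; exact hf
    set x : U' := ⟨e.symm f, hmem⟩ with hx
    have hex : e (x : E) = f := by simp [hx]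
    simp only [dif_pos hf]
    refine ⟨?_, ?_, ?_⟩
    · have h0 : nrm f = ‖x‖ ^ 2 := by rw [Submodule.coe_norm, hnrm, hex]
      rw [h0, ← b.repr.norm_map, EuclideanSpace.norm_sq_eq]
      refine Finset.sum_congr rfl fun i _ => ?_
      rw [Real.norm_eq_abs, sq_abs]
    · have h1 : quad k f = inner ℝ (T.restrict hres x) x := by
        rw [Submodule.coe_inner, hinner]
        simp only [LinearMap.restrict_apply, hTa, hex]
        have hxi : ∀ i, (x : E) i = f i := fun i => by rw [← he, hex]
        simp only [hxi, quad, app]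
        refine Finset.sum_congr rfl fun i _ => ?_
        rw [Finset.sum_mul]
        refine Finset.sum_congr rfl fun j _ => ?_
        ring
      rw [h1, ← b.repr.inner_map_map, PiLp.inner_apply]
      refine Finset.sum_congr rfl fun i _ => ?_
      rw [hb1]
      simp [hx]; ring
    · have h1 : nrm (app k f) = ‖T.restrict hres x‖ ^ 2 := by
        rw [Submodule.coe_norm, hnrm]
        have : e ((T.restrict hres x : U') : E) = app k f := by
          rw [LinearMap.restrict_apply]
          change app k (e (x : E)) = app k f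
          rw [hex]
        rw [this]
      rw [h1, ← b.repr.norm_map, EuclideanSpace.norm_sq_eq]
      refine Finset.sum_congr rfl fun i _ => ?_
      rw [hb1, Real.norm_eq_abs, sq_abs, mul_pow]

theorem spectral (k : X → X → ℝ) (hs : ∀ x y, k x y = k y x)
    (U : Submodule ℝ (X → ℝ)) (hU : ∀ f ∈ U, app k f ∈ U) (c : ℝ)
    (h : ∀ f ∈ U, f ≠ 0 → ∀ θ : ℝ, (∀ x, app k f x = θ * f x) → θ ≤ c) :
    ∀ f ∈ U, quad k f ≤ c * nrm f := by
  obtain ⟨n, lam, v, co, hv, hco⟩ := h51_eig k hs U hU
  intro f hf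
  obtain ⟨h1, h2, -⟩ := hco f hf
  rw [h1, h2, Finset.mul_sum]
  refine Finset.sum_le_sum fun i _ => mul_le_mul_of_nonneg_right ?_ (sq_nonneg _)
  obtain ⟨a1, a2, a3⟩ := hv i
  refine h (v i) a1 ?_ (lam i) a3
  intro h0
  rw [h0] at a2
  simp [nrm] at a2

theorem norm_of_quad (k : X → X → ℝ) (hs : ∀ x y, k x y = k y x)
    (U : Submodule ℝ (X → ℝ)) (hU : ∀ f ∈ U, app k f ∈ U) (c : ℝ)
    (h : ∀ f ∈ U, |quad k f| ≤ c * nrm f) :
    ∀ f ∈ U, nrm (app k f) ≤ c ^ 2 * nrm f := by
  obtain ⟨n, lam, v, co, hv, hco⟩ := h51_eig k hs U hU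
  intro f hf
  obtain ⟨h1, -, h3⟩ := hco f hf
  rw [h1, h3, Finset.mul_sum]
  refine Finset.sum_le_sum fun i _ => mul_le_mul_of_nonneg_right ?_ (sq_nonneg _)
  obtain ⟨a1, a2, a3⟩ := hv i
  have h4 := h (v i) a1
  have h5 : quad k (v i) = lam i := by
    have : quad k (v i) = ∑ x, app k (v i) x * v i x := by
      simp only [quad, app]
      refine Finset.sum_congr rfl fun x _ => ?_
      rw [Finset.sum_mul]
      refine Finset.sum_congr rfl fun y _ => ?_
      ring
    rw [this]
    simp only [a3]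
    have : ∀ x, lam i * v i x * v i x = lam i * v i x ^ 2 := fun x => by ring
    simp only [this]
    rw [← Finset.mul_sum]
    have : ∑ x, v i x ^ 2 = 1 := a2
    rw [this, mul_one]
  rw [h5, a2, mul_one] at h4
  exact sq_le_sq' (by linarith [neg_abs_le (lam i)]) (le_trans (le_abs_self _) h4)

end Pool.Agent.Helper23.MS
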