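import Pool.Agent.Helper23.MS.Basic

/-! # MS-10: the type of a pair of matchings -/

open scoped BigOperators Nat
open Finset

namespace Pool.Agent.Helper23.MS

variable {V : Type} [Fintype V] [DecidableEq V]

private theorem conn_symm (P Q : PM V) {x y : V} (h : Conn P Q x y) : Conn P Q y x := by
  induction h with
  | refl => exact Relation.ReflTransGen.refl
  | tail _ h2 ih =>
    refine Relation.ReflTransGen.head ?_ ih
    rcases h2 with h2 | h2
    · left; rw [← h2, P.2.1]
    · right; rw [← h2, Q.2.1]

private theorem conn_swap (P Q : PM V) {x y : V} (h : Conn P Q x y) : Conn Q P x y := by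
  induction h with
  | refl => exact Relation.ReflTransGen.refl
  | tail _ h2 ih => exact Relation.ReflTransGen.tail ih (Or.symm h2)

private theorem conn_P (P Q : PM V) (x : V) : Conn P Q x (P.1 x) :=
  Relation.ReflTransGen.single (Or.inl rfl)

private theorem conn_Q (P Q : PM V) (x : V) : Conn P Q x (Q.1 x) :=
  Relation.ReflTransGen.single (Or.inr rfl)

private theorem mem_blk' (P Q : PM V) (x y : V) : y ∈ blk P Q x ↔ Conn P Q x y := by
  simp [blk]

private theorem blk_eq_of_mem (P Q : PM V) {x y : V} (h : y ∈ blk P Q x) :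
    blk P Q y = blk P Q x := by
  rw [mem_blk'] at h
  ext z
  rw [mem_blk', mem_blk']
  exact ⟨fun hz => Relation.ReflTransGen.trans h hz,
    fun hz => Relation.ReflTransGen.trans (conn_symm P Q h) hz⟩

private theorem self_mem_blk (P Q : PM V) (x : V) : x ∈ blk P Q x := by
  rw [mem_blk']; exact Relation.ReflTransGen.refl

private theorem blk_eq_iff (P Q : PM V) (x y : V) : blk P Q x = blk P Q y ↔ x ∈ blk P Q y := by
  constructor
  · intro h; rw [← h]; exact self_mem_blk P Q x
  · intro h; exact blk_eq_of_mem P Q h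

private theorem mem_blocks (P Q : PM V) (B : Finset V) :
    B ∈ blocks P Q ↔ ∃ x, blk P Q x = B := by
  simp [blocks]

private theorem card_filter_blk (P Q : PM V) (p : Finset V → Prop) [DecidablePred p] :
    (univ.filter (fun x => p (blk P Q x))).card
      = ∑ B ∈ (blocks P Q).filter p, B.card := by
  classical
  rw [Finset.card_eq_sum_card_fiberwise (f := blk P Q) (t := (blocks P Q).filter p)]
  · apply Finset.sum_congr rfl
    intro B hB
    rw [Finset.mem_filter, mem_blocks] at hB
    obtain ⟨⟨y, rfl⟩, hp⟩ := hB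
    congr 1
    ext x
    simp only [Finset.mem_filter, Finset.mem_univ, true_and]
    rw [blk_eq_iff]
    constructor
    · exact fun h => h.2
    · intro h
      exact ⟨by rw [blk_eq_of_mem P Q h]; exact hp, h⟩
  · intro x hx
    have hx' : p (blk P Q x) := by simpa using hx
    simp only [Finset.coe_filter, Set.mem_setOf_eq]
    exact ⟨(mem_blocks P Q _).2 ⟨x, rfl⟩, hx'⟩

private theorem even_card_blk (P Q : PM V) (x : V) : Even (blk P Q x).card := by
  have h : ∑ y ∈ blk P Q x, (1 : ZMod 2) = 0 := by
    apply Finset.sum_involution (fun y _ => P.1 y)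
    · intro y _; decide
    · intro y _ _; exact P.2.2 y
    · intro y hy
      rw [mem_blk'] at hy ⊢
      exact Relation.ReflTransGen.trans hy (conn_P P Q y)
    · intro y _; exact P.2.1 y
  rw [Finset.sum_const, nsmul_eq_mul, mul_one, ZMod.natCast_eq_zero_iff] at h
  exact even_iff_two_dvd.2 h

private theorem two_le_card_blk (P Q : PM V) (x : V) : 2 ≤ (blk P Q x).card := by
  have h : ({x, P.1 x} : Finset V) ⊆ blk P Q x := by
    intro y hy
    rw [Finset.mem_insert, Finset.mem_singleton] at hy
    rw [mem_blk']
    rcases hy with rfl | rfl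
    · exact Relation.ReflTransGen.refl
    · exact conn_P P Q x
  have h2 := Finset.card_le_card h
  rwa [Finset.card_pair (P.2.2 x).symm] at h2

private theorem conn_tr {W : Type} [Fintype W] [DecidableEq W] (e : V ≃ W) (P Q : PM V)
    {x y : V} (h : Conn P Q x y) : Conn (tr e P) (tr e Q) (e x) (e y) := by
  induction h with
  | refl => exact Relation.ReflTransGen.refl
  | tail _ h2 ih =>
    refine Relation.ReflTransGen.tail ih ?_
    rcases h2 with h2 | h2
    · left; simp [h2]
    · right; simp [h2]

private theorem tr_symm_tr_aux {W : Type} [Fintype W] [DecidableEq W] (e : V ≃ W) (P : PM V) :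
    tr e.symm (tr e P) = P := by
  apply Subtype.ext
  ext x
  simp

private theorem conn_tr_iff {W : Type} [Fintype W] [DecidableEq W] (e : V ≃ W) (P Q : PM V)
    {x y : V} : Conn (tr e P) (tr e Q) (e x) (e y) ↔ Conn P Q x y := by
  constructor
  · intro h
    have h2 := conn_tr e.symm _ _ h
    rwa [tr_symm_tr_aux, tr_symm_tr_aux, e.symm_apply_apply, e.symm_apply_apply] at h2
  · exact conn_tr e P Q

private theorem blk_tr {W : Type} [Fintype W] [DecidableEq W] (e : V ≃ W) (P Q : PM V)
    (x : V) : blk (tr e P) (tr e Q) (e x) = (blk P Q x).map e.toEmbedding := by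
  ext z
  obtain ⟨y, rfl⟩ := e.surjective z
  rw [mem_blk', conn_tr_iff, Finset.mem_map]
  constructor
  · intro h; exact ⟨y, (mem_blk' P Q x y).2 h, rfl⟩
  · rintro ⟨y', hy', h⟩
    have : y' = y := e.injective (by simpa using h)
    rw [← this]; exact (mem_blk' P Q x y').1 hy'

private theorem blocks_tr {W : Type} [Fintype W] [DecidableEq W] (e : V ≃ W) (P Q : PM V) :
    blocks (tr e P) (tr e Q)
      = (blocks P Q).map (Finset.mapEmbedding e.toEmbedding).toEmbedding := by
  ext B
  rw [mem_blocks, Finset.mem_map]
  constructor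
  · rintro ⟨z, rfl⟩
    obtain ⟨x, rfl⟩ := e.surjective z
    exact ⟨blk P Q x, (mem_blocks P Q _).2 ⟨x, rfl⟩, (blk_tr e P Q x).symm⟩
  · rintro ⟨B', hB', rfl⟩
    obtain ⟨x, rfl⟩ := (mem_blocks P Q _).1 hB'
    exact ⟨e x, blk_tr e P Q x⟩

theorem typ_tr {W : Type} [Fintype W] [DecidableEq W] (e : V ≃ W) (P Q : PM V) :
    typ (tr e P) (tr e Q) = typ P Q := by
  unfold typ
  rw [blocks_tr, Finset.map_val, Multiset.map_map]
  apply Multiset.map_congr rfl
  intro B _
  simp [Finset.mapEmbedding]

theorem typ_comm (P Q : PM V) : typ P Q = typ Q P := by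
  have h : ∀ x, blk P Q x = blk Q P x := by
    intro x
    ext y
    rw [mem_blk', mem_blk']
    exact ⟨conn_swap P Q, conn_swap Q P⟩
  have h2 : blocks P Q = blocks Q P := by
    unfold blocks
    exact Finset.image_congr (fun x _ => h x)
  unfold typ
  rw [h2]

private theorem half_card (P Q : PM V) (B : Finset V) (hB : B ∈ blocks P Q) :
    2 * (B.card / 2) = B.card := by
  obtain ⟨x, rfl⟩ := (mem_blocks P Q B).1 hB
  exact Nat.two_mul_div_two_of_even (even_card_blk P Q x)

theorem typ_sum (P Q : PM V) : 2 * (typ P Q).sum = Fintype.card V := by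
  have h := card_filter_blk P Q (fun _ => True)
  rw [Finset.filter_true_of_mem (fun _ _ => trivial),
    Finset.filter_true_of_mem (fun _ _ => trivial), Finset.card_univ] at h
  rw [h]
  have h2 : (typ P Q).sum = ∑ B ∈ blocks P Q, B.card / 2 := rfl
  rw [h2, Finset.mul_sum]
  exact Finset.sum_congr rfl (fun B hB => half_card P Q B hB)

theorem typ_pos (P Q : PM V) : ∀ c ∈ typ P Q, 1 ≤ c := by
  intro c hc
  unfold typ at hc
  rw [Multiset.mem_map] at hc
  obtain ⟨B, hB, rfl⟩ := hc
  obtain ⟨x, rfl⟩ := (mem_blocks P Q B).1 hB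
  have := two_le_card_blk P Q x
  omega

private theorem blk_card_two_iff (P Q : PM V) (x : V) :
    (blk P Q x).card = 2 ↔ P.1 x = Q.1 x := by
  constructor
  · intro h
    have hsub : ({x, P.1 x} : Finset V) ⊆ blk P Q x := by
      intro y hy
      rw [Finset.mem_insert, Finset.mem_singleton] at hy
      rw [mem_blk']
      rcases hy with rfl | rfl
      · exact Relation.ReflTransGen.refl
      · exact conn_P P Q x
    have heq : ({x, P.1 x} : Finset V) = blk P Q x := by
      apply Finset.eq_of_subset_of_card_le hsub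
      rw [h, Finset.card_pair (P.2.2 x).symm]
    have hq : Q.1 x ∈ blk P Q x := (mem_blk' P Q x _).2 (conn_Q P Q x)
    rw [← heq, Finset.mem_insert, Finset.mem_singleton] at hq
    rcases hq with hq | hq
    · exact absurd hq (Q.2.2 x)
    · exact hq.symm
  · intro h
    have hsub : blk P Q x ⊆ ({x, P.1 x} : Finset V) := by
      intro y hy
      rw [mem_blk'] at hy
      induction hy with
      | refl => simp
      | tail _ h2 ih =>
        rw [Finset.mem_insert, Finset.mem_singleton] at ih ⊢
        rcases ih with ih | ih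
        · subst ih
          rcases h2 with h2 | h2
          · right; exact h2.symm
          · right; rw [← h2, h]
        · subst ih
          rcases h2 with h2 | h2
          · left; rw [← h2, P.2.1]
          · left; rw [← h2, h, Q.2.1]
    have h1 := Finset.card_le_card hsub
    rw [Finset.card_pair (P.2.2 x).symm] at h1
    exact le_antisymm h1 (two_le_card_blk P Q x)

theorem typ_count_one (P Q : PM V) :
    2 * (typ P Q).count 1 = (univ.filter (fun x => P.1 x = Q.1 x)).card := by
  classical
  have h1 : (univ.filter (fun x => P.1 x = Q.1 x))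
      = univ.filter (fun x => (blk P Q x).card = 2) := by
    apply Finset.filter_congr
    intro x _
    exact (blk_card_two_iff P Q x).symm
  rw [h1, card_filter_blk P Q (fun B => B.card = 2)]
  have h2 : (typ P Q).count 1 = ((blocks P Q).filter (fun B => B.card = 2)).card := by
    unfold typ
    rw [Multiset.count_map, Finset.card_def, Finset.filter_val]
    congr 1
    apply Multiset.filter_congr
    intro B hB
    have := half_card P Q B hB
    constructor
    · intro h; omega
    · intro h; omega
  rw [h2]
  have h3 : ∑ B ∈ (blocks P Q).filter (fun B => B.card = 2), B.card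
      = ∑ _B ∈ (blocks P Q).filter (fun B => B.card = 2), 2 := by
    apply Finset.sum_congr rfl
    intro B hB
    exact (Finset.mem_filter.1 hB).2
  rw [h3, Finset.sum_const, smul_eq_mul, mul_comm]

theorem kern_Inv (ν : Multiset ℕ) : Inv (kern (V := V) ν) := by
  intro g P Q
  unfold kern
  rw [typ_tr]

theorem kern_symm (ν : Multiset ℕ) (P Q : PM V) : kern ν P Q = kern ν Q P := by
  unfold kern
  rw [typ_comm]

theorem kern_nonneg (ν : Multiset ℕ) (P Q : PM V) : 0 ≤ kern ν P Q := by
  unfold kern
  split_ifs <;> norm_num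

theorem rsum_kern_congr {W : Type} [Fintype W] [DecidableEq W] (ν : Multiset ℕ)
    (h : Fintype.card V = Fintype.card W) :
    rsum (kern (V := V) ν) = rsum (kern (V := W) ν) := by
  have e : V ≃ W := Fintype.equivOfCardEq h
  unfold rsum
  rw [card_PM_congr h]
  congr 1
  rw [← sum_tr e (fun P => ∑ Q : PM W, kern ν P Q)]
  apply Finset.sum_congr rfl
  intro P _
  rw [← sum_tr e (fun Q => kern ν (tr e P) Q)]
  apply Finset.sum_congr rfl
  intro Q _
  unfold kern
  rw [typ_tr]

theorem rsum_kern_nonneg (ν : Multiset ℕ) : 0 ≤ rsum (kern (V := V) ν) := by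
  unfold rsum
  apply div_nonneg
  · exact Finset.sum_nonneg (fun P _ => Finset.sum_nonneg (fun Q _ => kern_nonneg ν P Q))
  · exact Nat.cast_nonneg _

theorem kd_Inv (d : ℕ) : Inv (kd (V := V) d) := by
  intro g P Q
  unfold kd
  have h : (univ.filter (fun x => (tr g P).1 x ≠ (tr g Q).1 x))
      = (univ.filter (fun x => P.1 x ≠ Q.1 x)).map g.toEmbedding := by
    ext z
    obtain ⟨y, rfl⟩ := g.surjective z
    simp
  rw [h, Finset.card_map]

theorem kd_symm (d : ℕ) (P Q : PM V) : kd d P Q = kd d Q P := by
  unfold kd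
  have h : (univ.filter (fun x => P.1 x ≠ Q.1 x)) = univ.filter (fun x => Q.1 x ≠ P.1 x) := by
    apply Finset.filter_congr
    intro x _
    exact ne_comm
  rw [h]

end Pool.Agent.Helper23.MS
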