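import Pool.Agent.Helper23.MS.LowApp
import Pool.Agent.Helper23.MS.LowFacts
import Pool.Agent.Helper23.MS.Spectral
import Pool.Agent.Helper23.MS.Typ

/-! # MS-9: climbing the levels -/

open scoped BigOperators Nat
open Finset

namespace Pool.Agent.Helper23.MS

variable {V : Type} [Fintype V] [DecidableEq V]

theorem level_upper (N : ℕ) (hV : Fintype.card V = 2 * N) (k : PM V → PM V → ℝ)
    (hk : Inv k) (hs : ∀ P Q, k P Q = k Q P) (u : ℕ) (c : ℝ)
    (h0 : ∀ f : PM V → ℝ, Low u f → quad k f ≤ c * nrm f)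
    (h1 : ∀ (f : PM V → ℝ) (θ : ℝ), (∀ P, app k f P = θ * f P) → Low (u + 1) f →
      (∃ q : Equiv.Perm V, Invol q ∧ q.support.card + 2 * (u + 1) = Fintype.card V ∧
        D f q ≠ 0) → θ ≤ c) :
    ∀ f : PM V → ℝ, Low (u + 1) f → quad k f ≤ c * nrm f := by
  intro f hf
  refine spectral k hs (lowSub V (u + 1)) (fun g hg => Low_app k hk (u + 1) g hg) c ?_ f hf
  intro g hg hg0 θ hθ
  by_cases hl : Low u g
  · have h2 := h0 g hl
    have h3 : quad k g = θ * nrm g := by
      unfold quad nrm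
      rw [Finset.mul_sum]
      refine Finset.sum_congr rfl fun P _ => ?_
      have h4 : ∑ Q, k P Q * g P * g Q = g P * app k g P := by
        unfold app
        rw [Finset.mul_sum]
        refine Finset.sum_congr rfl fun Q _ => ?_
        ring
      rw [h4, hθ P]; ring
    have h5 : 0 < nrm g := by
      obtain ⟨P, hP⟩ := Function.ne_iff.1 hg0
      refine Finset.sum_pos' (fun _ _ => sq_nonneg _) ⟨P, Finset.mem_univ P, ?_⟩
      exact lt_of_le_of_ne (sq_nonneg _) (Ne.symm (pow_ne_zero 2 hP))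
    rw [h3] at h2
    exact le_of_mul_le_mul_right h2 h5
  · exact h1 g θ hθ hg (exact_of_not_low u N hV g hg hl)

theorem level_abs (ν : Multiset ℕ) (u : ℕ) (x : ℝ) (h0 : QB ν u x)
    (h1 : EB ν (u + 1) x) : QB ν (u + 1) x := by
  intro V _ _ hV f hf
  rw [abs_le]
  constructor
  · have h2 := level_upper ν.sum hV (fun P Q => - kern ν P Q)
      (fun g P Q => congrArg Neg.neg (kern_Inv ν g P Q)) (fun P Q => congrArg Neg.neg (kern_symm ν P Q)) u
      (x * rsum (kern (V := V) ν)) ?_ ?_ f hf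
    · have h3 : quad (fun P Q => - kern ν P Q) f = - quad (kern ν) f := by
        unfold quad
        simp only [neg_mul, Finset.sum_neg_distrib]
      rw [h3] at h2
      linarith
    · intro g hg
      have h3 : quad (fun P Q => - kern ν P Q) g = - quad (kern ν) g := by
        unfold quad
        simp only [neg_mul, Finset.sum_neg_distrib]
      rw [h3]
      exact (neg_le_abs _).trans (h0 V hV g hg)
    · intro g θ hθ hg hq
      have h3 := h1 V hV g (-θ) (fun P => ?_) hg hq
      · exact (neg_neg θ ▸ neg_le_abs (-θ)).trans h3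
      · have h4 := hθ P
        have h5 : app (fun P Q => - kern ν P Q) g P = - app (kern ν) g P := by
          unfold app
          simp only [neg_mul, Finset.sum_neg_distrib]
        rw [h5] at h4
        linarith
  · refine level_upper ν.sum hV (kern ν) (kern_Inv ν) (kern_symm ν) u
      (x * rsum (kern (V := V) ν)) ?_ ?_ f hf
    · intro g hg
      exact (le_abs_self _).trans (h0 V hV g hg)
    · intro g θ hθ hg hq
      exact (le_abs_self _).trans (h1 V hV g θ hθ hg hq)

theorem QB_to_NB (ν : Multiset ℕ) (u : ℕ) (x : ℝ) (h : QB ν u x) : NB ν u x := by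
  intro V _ _ hV f hf
  exact norm_of_quad (kern ν) (kern_symm ν) (lowSub V u)
    (fun g hg => Low_app (kern ν) (kern_Inv ν) u g hg) (x * rsum (kern (V := V) ν))
    (fun g hg => h V hV g hg) f hf

theorem QB_zero (ν : Multiset ℕ) (h : 1 ≤ ν.sum) (x : ℝ) : QB ν 0 x := by
  intro V _ _ hV f hf
  rw [Low_bot ν.sum h hV f hf]
  have h1 : quad (kern (V := V) ν) 0 = 0 := by
    unfold quad
    simp
  have h2 : nrm (0 : PM V → ℝ) = 0 := by
    unfold nrm
    simp
  rw [h1, h2, abs_zero, mul_zero]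

theorem QB_mono (ν : Multiset ℕ) {u v : ℕ} (huv : u ≤ v) (x : ℝ) (h : QB ν v x) :
    QB ν u x := by
  intro V _ _ hV f hf
  exact h V hV f (Low_mono huv f hf)

theorem QB_le (ν : Multiset ℕ) (u : ℕ) {x y : ℝ} (hxy : x ≤ y) (h : QB ν u x) :
    QB ν u y := by
  intro V _ _ hV f hf
  refine (h V hV f hf).trans ?_
  have h1 : 0 ≤ nrm f := Finset.sum_nonneg fun _ _ => sq_nonneg _
  exact mul_le_mul_of_nonneg_right
    (mul_le_mul_of_nonneg_right hxy (rsum_kern_nonneg ν)) h1

theorem EB_le (ν : Multiset ℕ) (u : ℕ) {x y : ℝ} (hxy : x ≤ y) (h : EB ν u x) :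
    EB ν u y := by
  intro V _ _ hV f θ hθ hf hq
  refine (h V hV f θ hθ hf hq).trans ?_
  exact mul_le_mul_of_nonneg_right hxy (rsum_kern_nonneg ν)

end Pool.Agent.Helper23.MS
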