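import Pool.Agent.Helper23.MS.LowApp
import Pool.Agent.Helper23.MS.LowFacts

/-! # MS-13: restriction to the matchings containing an edge -/

open scoped BigOperators Nat
open Finset

namespace Pool.Agent.Helper23.MS

variable {V : Type} [Fintype V] [DecidableEq V]

theorem nrm_restrict (N : ℕ) (hV : Fintype.card V = 2 * N) (f : PM V → ℝ) :
    (N : ℝ) * nrm f = ∑ S ∈ univ.filter (fun S : Finset V => S.card = 2),
      ∑ P1 : PM {x // x ∈ S}, nrm (fun P2 : PM {x // x ∉ S} => f (glue S P1 P2)) := by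
  classical
  unfold nrm
  have h1 : ∀ S : Finset V, ∑ P1 : PM {x // x ∈ S},
      ∑ P2 : PM {x // x ∉ S}, f (glue S P1 P2) ^ 2 = ∑ P : PM V, if Cl P S then f P ^ 2 else 0 :=
    fun S => (sum_closed S (fun P => f P ^ 2)).symm
  rw [Finset.sum_congr rfl fun S _ => h1 S, Finset.sum_comm, Finset.mul_sum]
  refine Finset.sum_congr rfl fun P _ => ?_
  rw [← Finset.sum_filter, Finset.filter_filter, Finset.sum_const, nsmul_eq_mul]
  have h2 := card_closed N hV P 1
  rw [mul_one, Nat.choose_one_right] at h2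
  rw [h2]

omit [Fintype V] in
/-- a closed set with two elements is an edge -/
theorem restr_closed_two {P : PM V} {S : Finset V} (hS : S.card = 2) (hcl : Cl P S) {x : V}
    (hx : x ∈ S) : S = {x, P.1 x} := by
  symm
  apply Finset.eq_of_subset_of_card_le
  · intro y hy
    rw [mem_insert, mem_singleton] at hy
    rcases hy with h | h
    · rw [h]; exact hx
    · rw [h]; exact hcl x hx
  · rw [hS, Finset.card_pair (P.2.2 x).symm]

open Classical in
/-- the number of common edges -/
theorem restr_common (N : ℕ) (hV : Fintype.card V = 2 * N) (P Q : PM V) (d : ℕ)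
    (h : (univ.filter (fun x => P.1 x ≠ Q.1 x)).card = 2 * d) :
    (univ.filter (fun S : Finset V => S.card = 2 ∧ Cl P S ∧ Cl Q S)).card + d = N := by
  set T := univ.filter (fun S : Finset V => S.card = 2 ∧ Cl P S ∧ Cl Q S) with hT
  have hmem : ∀ S ∈ T, S.card = 2 ∧ Cl P S ∧ Cl Q S := fun S hS => (mem_filter.1 hS).2
  have h1 : univ.filter (fun x => P.1 x = Q.1 x) = T.biUnion id := by
    ext x
    rw [mem_filter, mem_biUnion]
    constructor
    · rintro ⟨-, hx⟩
      refine ⟨{x, P.1 x}, ?_, by simp⟩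
      rw [hT, mem_filter]
      refine ⟨mem_univ _, Finset.card_pair (P.2.2 x).symm, ?_, ?_⟩
      · intro y hy
        rw [mem_insert, mem_singleton] at hy
        rcases hy with h2 | h2
        · rw [h2]; simp
        · rw [h2, P.2.1]; simp
      · intro y hy
        rw [mem_insert, mem_singleton] at hy
        rcases hy with h2 | h2
        · rw [h2, hx]; simp
        · rw [h2, hx, Q.2.1]; simp
    · rintro ⟨S, hS, hx⟩
      obtain ⟨h2, h3, h4⟩ := hmem S hS
      refine ⟨mem_univ _, ?_⟩
      have h5 := restr_closed_two h2 h3 hx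
      have h6 := h4 x hx
      rw [h5, mem_insert, mem_singleton] at h6
      rcases h6 with h7 | h7
      · exact absurd h7 (Q.2.2 x)
      · exact h7.symm
  have hdisj : ∀ S ∈ T, ∀ S' ∈ T, S ≠ S' → Disjoint (id S) (id S') := by
    intro S hS S' hS' hne
    rw [Finset.disjoint_left]
    intro x hx hx'
    apply hne
    rw [restr_closed_two (hmem S hS).1 (hmem S hS).2.1 hx,
      restr_closed_two (hmem S' hS').1 (hmem S' hS').2.1 hx']
  have h2 : (univ.filter (fun x => P.1 x = Q.1 x)).card = T.card * 2 := by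
    rw [h1, Finset.card_biUnion hdisj]
    have h2' : ∑ S ∈ T, (id S).card = ∑ S ∈ T, 2 :=
      Finset.sum_congr rfl fun S hS => (hmem S hS).1
    rw [h2', Finset.sum_const, smul_eq_mul]
  have h3 := Finset.card_filter_add_card_filter_not (s := (univ : Finset V))
    (fun x => P.1 x = Q.1 x)
  rw [Finset.card_univ, hV, h2] at h3
  have h4 : (univ.filter (fun x => ¬ P.1 x = Q.1 x)).card = 2 * d := h
  omega

/-- on a set with two elements there is at most one matching -/
theorem restr_unique {S : Finset V} (hS : S.card = 2) (P1 Q1 : PM {x // x ∈ S}) : P1 = Q1 := by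
  apply Subtype.ext
  apply Equiv.ext
  intro x
  have h1 := P1.2.2 x
  have h2 := Q1.2.2 x
  by_contra hne
  have h3 : ({x, P1.1 x, Q1.1 x} : Finset {x // x ∈ S}).card = 3 := by
    rw [Finset.card_eq_three]
    exact ⟨x, P1.1 x, Q1.1 x, h1.symm, h2.symm, hne, rfl⟩
  have h4 := Finset.card_le_univ ({x, P1.1 x, Q1.1 x} : Finset {x // x ∈ S})
  rw [card_in, hS, h3] at h4
  omega

/-- the kernel of two glued matchings -/
theorem restr_kd (d : ℕ) (S : Finset V) (P1 : PM {x // x ∈ S}) (P2 Q2 : PM {x // x ∉ S}) :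
    kd d (glue S P1 P2) (glue S P1 Q2) = kd d P2 Q2 := by
  unfold kd
  have h1 : (univ.filter (fun x => (glue S P1 P2).1 x ≠ (glue S P1 Q2).1 x)).card =
      (univ.filter (fun x => P2.1 x ≠ Q2.1 x)).card := by
    symm
    refine Finset.card_bij (fun x _ => (x : V)) ?_ ?_ ?_
    · intro x hx
      rw [mem_filter] at hx ⊢
      refine ⟨mem_univ _, ?_⟩
      rw [glue_right, glue_right]
      intro h
      exact hx.2 (Subtype.ext h)
    · intro x _ y _ h
      exact Subtype.ext h
    · intro x hx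
      rw [mem_filter] at hx
      by_cases hxS : x ∈ S
      · exfalso
        apply hx.2
        rw [glue_left S P1 P2 ⟨x, hxS⟩, glue_left S P1 Q2 ⟨x, hxS⟩]
      · refine ⟨⟨x, hxS⟩, ?_, rfl⟩
        rw [mem_filter]
        refine ⟨mem_univ _, fun h => hx.2 ?_⟩
        rw [glue_right S P1 P2 ⟨x, hxS⟩, glue_right S P1 Q2 ⟨x, hxS⟩, h]
  rw [h1]

theorem kd_restrict (N : ℕ) (hV : Fintype.card V = 2 * N) (d : ℕ) (f : PM V → ℝ) :
    ((N : ℝ) - d) * quad (kd d) f = ∑ S ∈ univ.filter (fun S : Finset V => S.card = 2),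
      ∑ P1 : PM {x // x ∈ S},
        quad (kd d) (fun P2 : PM {x // x ∉ S} => f (glue S P1 P2)) := by
  classical
  have h1 : ∀ S ∈ univ.filter (fun S : Finset V => S.card = 2), ∑ P1 : PM {x // x ∈ S},
      quad (kd d) (fun P2 : PM {x // x ∉ S} => f (glue S P1 P2)) =
      ∑ P : PM V, ∑ Q : PM V, if Cl P S ∧ Cl Q S then kd d P Q * f P * f Q else 0 := by
    intro S hS
    have hS2 : S.card = 2 := (mem_filter.1 hS).2
    have h2 : ∀ P : PM V, (∑ Q : PM V, if Cl P S ∧ Cl Q S then kd d P Q * f P * f Q else 0) =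
        if Cl P S then (∑ Q1 : PM {x // x ∈ S}, ∑ Q2 : PM {x // x ∉ S},
          kd d P (glue S Q1 Q2) * f P * f (glue S Q1 Q2)) else 0 := by
      intro P
      by_cases hP : Cl P S
      · rw [if_pos hP, ← sum_closed S (fun Q => kd d P Q * f P * f Q)]
        refine Finset.sum_congr rfl fun Q _ => ?_
        simp only [hP, true_and]
      · rw [if_neg hP]
        refine Finset.sum_eq_zero fun Q _ => ?_
        rw [if_neg fun h => hP h.1]
    rw [Finset.sum_congr rfl fun P _ => h2 P, sum_closed S (fun P => ∑ Q1 : PM {x // x ∈ S},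
      ∑ Q2 : PM {x // x ∉ S}, kd d P (glue S Q1 Q2) * f P * f (glue S Q1 Q2))]
    refine Finset.sum_congr rfl fun P1 _ => ?_
    unfold quad
    refine Finset.sum_congr rfl fun P2 _ => ?_
    rw [Finset.sum_eq_single P1]
    · refine Finset.sum_congr rfl fun Q2 _ => ?_
      rw [restr_kd]
    · intro Q1 _ hne
      exact absurd (restr_unique hS2 Q1 P1) hne
    · intro h
      exact absurd (mem_univ _) h
  rw [Finset.sum_congr rfl h1, Finset.sum_comm, quad, Finset.mul_sum]
  refine Finset.sum_congr rfl fun P _ => ?_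
  rw [Finset.sum_comm, Finset.mul_sum]
  refine Finset.sum_congr rfl fun Q _ => ?_
  rw [← Finset.sum_filter, Finset.filter_filter, Finset.sum_const, nsmul_eq_mul]
  by_cases h : (univ.filter (fun x => P.1 x ≠ Q.1 x)).card = 2 * d
  · have h2 := restr_common N hV P Q d h
    have h3 : (N : ℝ) - d =
        ((univ.filter (fun S : Finset V => S.card = 2 ∧ Cl P S ∧ Cl Q S)).card : ℝ) := by
      rw [← h2]
      push_cast
      ring
    rw [h3]
  · have h2 : kd d P Q = 0 := by
      unfold kd
      rw [if_neg h]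
    rw [h2]
    ring

/-- climbing from `N` to `N + 1` by restriction -/
theorem kd_climb (u d : ℕ) (c : ℝ) (N : ℕ) (hd : d ≤ N)
    (h : ∀ (W : Type) [Fintype W] [DecidableEq W], Fintype.card W = 2 * N →
      ∀ f : PM W → ℝ, Low u f → quad (kd d) f ≤ c * (N.choose d : ℝ) * nrm f)
    (hV : Fintype.card V = 2 * (N + 1)) (f : PM V → ℝ) (hf : Low u f) :
    quad (kd d) f ≤ c * ((N + 1).choose d : ℝ) * nrm f := by
  have h1 := kd_restrict (N + 1) hV d f
  have h2 := nrm_restrict (N + 1) hV f
  have h3 : ∑ S ∈ univ.filter (fun S : Finset V => S.card = 2), ∑ P1 : PM {x // x ∈ S},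
        quad (kd d) (fun P2 : PM {x // x ∉ S} => f (glue S P1 P2)) ≤
      ∑ S ∈ univ.filter (fun S : Finset V => S.card = 2), ∑ P1 : PM {x // x ∈ S},
        c * (N.choose d : ℝ) * nrm (fun P2 : PM {x // x ∉ S} => f (glue S P1 P2)) := by
    refine Finset.sum_le_sum fun S hS => Finset.sum_le_sum fun P1 _ => ?_
    have hS2 : S.card = 2 := (mem_filter.1 hS).2
    have h4 := card_out S
    exact h _ (by omega) _ (Low_glue u f hf S P1)
  simp_rw [← Finset.mul_sum] at h3
  rw [← h1, ← h2] at h3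
  have h5 : (N.choose d : ℝ) * (N + 1) = ((N + 1).choose d : ℝ) * ((N + 1 : ℕ) - d : ℝ) := by
    have h6 := Nat.choose_mul_succ_eq N d
    have h7 : ((N + 1 - d : ℕ) : ℝ) = ((N + 1 : ℕ) : ℝ) - d := by
      rw [Nat.cast_sub (by omega)]
    rw [← h7]
    exact_mod_cast h6
  have h8 : (0 : ℝ) < ((N + 1 : ℕ) : ℝ) - d := by
    have : (d : ℝ) ≤ N := by exact_mod_cast hd
    push_cast
    linarith
  have h9 : c * (N.choose d : ℝ) * (((N + 1 : ℕ) : ℝ) * nrm f) =
      (((N + 1 : ℕ) : ℝ) - d) * (c * ((N + 1).choose d : ℝ) * nrm f) := by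
    have : c * (N.choose d : ℝ) * (((N + 1 : ℕ) : ℝ) * nrm f) =
      c * ((N.choose d : ℝ) * (N + 1)) * nrm f := by
      push_cast
      ring
    rw [this, h5]
    ring
  rw [h9] at h3
  exact le_of_mul_le_mul_left h3 h8

end Pool.Agent.Helper23.MS
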