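import Pool.Agent.Helper23.MS.Av
import Pool.Agent.Helper23.MS.Level
import Pool.Agent.Helper23.MS.Restr

/-! # MS-14b: the class of a transposition, bounds -/

open scoped BigOperators Nat
open Finset

namespace Pool.Agent.Helper23.MS

set_option linter.unusedSectionVars false

variable {V : Type} [Fintype V] [DecidableEq V]

namespace AvBPf

/-- the matching of the support of an involution -/
def rs (q : Equiv.Perm V) (hq : Invol q) : PM {x // x ∈ q.support} :=
  ⟨q.subtypePerm (fun x => by rw [Equiv.Perm.apply_mem_support]), by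
    constructor
    · intro x
      apply Subtype.ext
      simp only [Equiv.Perm.subtypePerm_apply]
      exact hq x
    · intro x h
      have h1 := congrArg Subtype.val h
      simp only [Equiv.Perm.subtypePerm_apply] at h1
      exact (Equiv.Perm.mem_support.mp x.2) h1⟩

theorem rs_val (q : Equiv.Perm V) (hq : Invol q) (z : {x // x ∈ q.support}) :
    (((rs q hq).1 z : {x // x ∈ q.support}) : V) = q z := rfl

theorem rs_EW (q : Equiv.Perm V) (hq : Invol q) (Q : PM V) :
    AvPf.EW q.support (rs q hq) Q ↔ Ext q Q := by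
  constructor
  · intro h x hx
    exact h ⟨x, Equiv.Perm.mem_support.mpr hx⟩
  · intro h z
    rw [rs_val]
    exact h z (Equiv.Perm.mem_support.mp z.2)

end AvBPf

open AvBPf AvPf

theorem av_exact (t u : ℕ) (hV : Fintype.card V = 2 * (t + u)) (f : PM V → ℝ)
    (hex : ∃ q : Equiv.Perm V, Invol q ∧ q.support.card + 2 * u = Fintype.card V ∧
      D f q ≠ 0) : ∃ W : Finset V, W.card = 2 * t ∧ av W f ≠ 0 := by
  classical
  obtain ⟨q, hq, hc, hD⟩ := hex
  refine ⟨q.support, by omega, ?_⟩
  intro h0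
  apply hD
  have h1 := congrFun h0 (rs q hq)
  rw [av_eq] at h1
  simp only [rs_EW, Pi.zero_apply] at h1
  exact h1

theorem av_mean (t u : ℕ) (hut : u < t) (hV : Fintype.card V = 2 * (t + u))
    (W : Finset V) (hW : W.card = 2 * t) (f : PM V → ℝ) (hf : Low u f) :
    ∑ P1, av W f P1 = 0 := by
  classical
  unfold av
  rw [Finset.sum_comm]
  refine Finset.sum_eq_zero (fun P2 _ => ?_)
  set q : Equiv.Perm V := Equiv.Perm.subtypeCongr (1 : Equiv.Perm {x // x ∈ W}) P2.1 with hq
  have qin : ∀ z ∈ W, q z = z := by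
    intro z hz
    rw [hq, Equiv.Perm.subtypeCongr.left_apply _ _ hz]
    rfl
  have qout : ∀ (z : V) (hz : z ∉ W), q z = P2.1 ⟨z, hz⟩ := by
    intro z hz
    rw [hq, Equiv.Perm.subtypeCongr.right_apply _ _ hz]
  have hinv : Invol q := by
    intro z
    by_cases hz : z ∈ W
    · rw [qin z hz, qin z hz]
    · rw [qout z hz, qout _ (P2.1 ⟨z, hz⟩).2]
      exact congrArg Subtype.val (P2.2.1 ⟨z, hz⟩)
  have hsupp : q.support.card ≤ (Wᶜ).card := by
    apply Finset.card_le_card
    intro z hz
    rw [Finset.mem_compl]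
    intro hzW
    exact (Equiv.Perm.mem_support.mp hz) (qin z hzW)
  have hcc : (Wᶜ).card = 2 * u := by
    rw [Finset.card_compl, hV, hW]; omega
  have hD := hf q hinv (by omega)
  unfold D at hD
  have h := sum_closed W (fun Q => if Ext q Q then f Q else 0)
  have hl : ∀ Q : PM V, (if Cl Q W then (if Ext q Q then f Q else 0) else 0) =
      if Ext q Q then f Q else 0 := by
    intro Q
    by_cases hE : Ext q Q
    · have hC : Cl Q W := by
        intro x hx
        by_contra hcon
        have h1 : Q.1 (Q.1 x) = q (Q.1 x) := by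
          apply hE
          rw [qout _ hcon]
          exact fun h => P2.2.2 _ (Subtype.ext h)
        rw [Q.2.1, qout _ hcon] at h1
        exact (P2.1 ⟨Q.1 x, hcon⟩).2 (h1 ▸ hx)
      rw [if_pos hC]
    · rw [if_neg hE, ite_self]
  rw [Finset.sum_congr rfl (fun Q _ => hl Q), hD] at h
  have hr : ∀ (P1' : PM {x // x ∈ W}) (P2' : PM {x // x ∉ W}),
      Ext q (glue W P1' P2') ↔ P2' = P2 := by
    intro P1' P2'
    constructor
    · intro hE
      apply PM_ext
      intro z
      apply Subtype.ext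
      rw [← glue_right W P1' P2' z, hE z, qout z z.2]
      rw [qout z z.2]
      exact fun h => P2.2.2 _ (Subtype.ext h)
    · rintro rfl z hz
      by_cases hzW : z ∈ W
      · exact absurd (qin z hzW) hz
      · rw [qout z hzW]
        exact glue_right W P1' P2' ⟨z, hzW⟩
  simp_rw [hr] at h
  rw [h]
  refine Finset.sum_congr rfl (fun P1 _ => ?_)
  rw [Finset.sum_eq_single P2]
  · simp
  · intro Q _ hQ
    simp [hQ]
  · intro h
    exact absurd (Finset.mem_univ _) h

namespace AvBPf

theorem app_kd_two_one (N : ℕ) (hV : Fintype.card V = 2 * N) (P : PM V) :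
    app (kd 2) (fun _ => (1 : ℝ)) P = (N : ℝ) * (N - 1) := by
  have h := sum_sw (fun _ => (1 : ℝ)) P
  simp only [Finset.sum_const, Finset.card_univ, hV, nsmul_eq_mul, mul_one] at h
  push_cast at h
  nlinarith

theorem quad_eig {X : Type} [Fintype X] (k : X → X → ℝ) (f : X → ℝ) (θ : ℝ)
    (h : ∀ x, app k f x = θ * f x) : quad k f = θ * nrm f := by
  unfold quad nrm
  rw [Finset.mul_sum]
  refine Finset.sum_congr rfl (fun x _ => ?_)
  have : ∑ y, k x y * f x * f y = f x * app k f x := by
    unfold app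
    rw [Finset.mul_sum]
    refine Finset.sum_congr rfl (fun y _ => ?_)
    ring
  rw [this, h]
  ring

theorem nrm_nonneg {X : Type} [Fintype X] (f : X → ℝ) : 0 ≤ nrm f :=
  Finset.sum_nonneg (fun _ _ => sq_nonneg _)

theorem nrm_pos {X : Type} [Fintype X] {f : X → ℝ} (h : f ≠ 0) : 0 < nrm f := by
  obtain ⟨x, hx⟩ := Function.ne_iff.mp h
  have : 0 < f x ^ 2 := by
    have : f x ≠ 0 := hx
    positivity
  exact lt_of_lt_of_le this (Finset.single_le_sum (f := fun x => f x ^ 2)
    (fun _ _ => sq_nonneg _) (Finset.mem_univ x))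

/-- an eigenvalue of the class of a transposition is at most the row sum -/
theorem eig_le (N : ℕ) (hV : Fintype.card V = 2 * N) (a : PM V → ℝ) (ha : a ≠ 0) (l : ℝ)
    (h : ∀ P, app (kd 2) a P = l * a P) : l ≤ (N : ℝ) * (N - 1) := by
  obtain ⟨P0, hP0⟩ := Function.ne_iff.mp ha
  obtain ⟨P, -, hP⟩ := Finset.exists_max_image univ (fun P => |a P|) ⟨P0, Finset.mem_univ _⟩
  have hpos : 0 < |a P| := lt_of_lt_of_le (abs_pos.mpr hP0) (hP P0 (Finset.mem_univ _))
  have h1 := sum_sw a P
  rw [h P, hV] at h1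
  have h2 : |∑ x : V, ∑ y : V, a (tr (Equiv.swap x y) P)| ≤ (2 * N : ℝ) ^ 2 * |a P| := by
    calc |∑ x : V, ∑ y : V, a (tr (Equiv.swap x y) P)|
        ≤ ∑ x : V, |∑ y : V, a (tr (Equiv.swap x y) P)| := Finset.abs_sum_le_sum_abs _ _
      _ ≤ ∑ x : V, ∑ y : V, |a (tr (Equiv.swap x y) P)| :=
          Finset.sum_le_sum (fun _ _ => Finset.abs_sum_le_sum_abs _ _)
      _ ≤ ∑ x : V, ∑ y : V, |a P| :=
          Finset.sum_le_sum (fun _ _ => Finset.sum_le_sum (fun _ _ => hP _ (Finset.mem_univ _)))
      _ = (2 * N : ℝ) ^ 2 * |a P| := by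
          simp only [Finset.sum_const, Finset.card_univ, hV, nsmul_eq_mul]
          push_cast
          ring
  have h3 : 4 * (l * a P) + 2 * ((2 * N : ℕ) : ℝ) * a P = (4 * l + 4 * N) * a P := by
    push_cast; ring
  rw [h1, h3, abs_mul] at h2
  have h4 : |4 * l + 4 * N| ≤ (2 * N : ℝ) ^ 2 := le_of_mul_le_mul_right h2 hpos
  have h5 := (le_abs_self _).trans h4
  nlinarith

end AvBPf

theorem rsum_kd_two (N : ℕ) (hV : Fintype.card V = 2 * N) :
    rsum (kd (V := V) 2) = (N : ℝ) * (N - 1) := by
  unfold rsum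
  have hc : (Fintype.card (PM V) : ℝ) ≠ 0 := by
    exact_mod_cast (card_PM_pos N hV).ne'
  have h : ∀ P : PM V, ∑ Q : PM V, kd 2 P Q = (N : ℝ) * (N - 1) := by
    intro P
    rw [← app_kd_two_one N hV P]
    simp [app]
  rw [Finset.sum_congr rfl (fun P _ => h P), Finset.sum_const, nsmul_eq_mul, Finset.card_univ]
  field_simp

theorem kd_two_exact (t u : ℕ) (hV : Fintype.card V = 2 * (t + u)) (f : PM V → ℝ)
    (θ : ℝ) (hf : ∀ P, app (kd 2) f P = θ * f P) (hlow : Low u f)
    (hex : ∃ q : Equiv.Perm V, Invol q ∧ q.support.card + 2 * u = Fintype.card V ∧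
      D f q ≠ 0) : θ ≤ (u : ℝ) * (u - 1) + t * (t - 2) := by
  obtain ⟨W, hW, ha⟩ := av_exact t u hV f hex
  have h1 : ∀ P1, app (kd 2) (av W f) P1 = (θ - (u : ℝ) * (u - 1) + t) * av W f P1 := by
    intro P1
    have h := av_kd_two t u hV W hW f hlow P1
    have h2 : av W (app (kd 2) f) P1 = θ * av W f P1 := by
      unfold av
      rw [Finset.mul_sum]
      exact Finset.sum_congr rfl (fun _ _ => hf _)
    rw [h2] at h
    linarith
  have h3 := eig_le t (by rw [card_in, hW]) (av W f) ha _ h1
  nlinarith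

/-- the bound with a binomial coefficient -/
theorem kd_two_aux (u : ℕ) (hu : 1 ≤ u) : ∀ N : ℕ, 2 * u ≤ N →
    ∀ (W : Type) [Fintype W] [DecidableEq W], Fintype.card W = 2 * N →
      ∀ f : PM W → ℝ, Low u f →
        quad (kd 2) f ≤ ((2 * u - 3) / (2 * u - 1) : ℝ) * (N.choose 2 : ℝ) * nrm f := by
  have hch : ∀ N : ℕ, (N.choose 2 : ℝ) = (N : ℝ) * (N - 1) / 2 := fun N => Nat.cast_choose_two ℝ N
  have climb : ∀ u : ℕ, ∀ c : ℝ,
      (∀ (W : Type) [Fintype W] [DecidableEq W], Fintype.card W = 2 * (2 * u) →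
        ∀ f : PM W → ℝ, Low u f → quad (kd 2) f ≤ c * ((2 * u).choose 2 : ℝ) * nrm f) →
      1 ≤ u → ∀ N : ℕ, 2 * u ≤ N →
      ∀ (W : Type) [Fintype W] [DecidableEq W], Fintype.card W = 2 * N →
      ∀ f : PM W → ℝ, Low u f → quad (kd 2) f ≤ c * (N.choose 2 : ℝ) * nrm f := by
    intro u c h0 hu N hN
    induction N, hN using Nat.le_induction with
    | base => exact h0
    | succ N hN ih =>
      intro W _ _ hW f hf
      exact kd_climb u 2 c N (by omega) ih hW f hf
  induction u, hu using Nat.le_induction with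
  | base =>
    refine climb 1 _ ?_ le_rfl
    intro W _ _ hW f hf
    refine level_upper 2 (by omega) (kd 2) (kd_Inv 2) (kd_symm 2) 0 _ ?_ ?_ f hf
    · intro g hg
      have := Low_bot 2 (by norm_num) (by omega) g hg
      subst this
      simp [quad, nrm]
    · intro g θ hg hl hex
      have := kd_two_exact 1 1 (by omega) g θ hg hl hex
      rw [hch]
      norm_num at this ⊢
      linarith
  | succ u hu ih =>
    refine climb (u + 1) _ ?_ (by omega)
    intro W _ _ hW f hf
    have hu' : (1 : ℝ) ≤ u := by exact_mod_cast hu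
    refine level_upper (2 * (u + 1)) hW (kd 2) (kd_Inv 2) (kd_symm 2) u _ ?_ ?_ f hf
    · intro g hg
      refine (ih (2 * (u + 1)) (by omega) W hW g hg).trans ?_
      refine mul_le_mul_of_nonneg_right ?_ (nrm_nonneg g)
      refine mul_le_mul_of_nonneg_right ?_ (by positivity)
      push_cast
      rw [div_le_div_iff₀ (by linarith) (by linarith)]
      nlinarith
    · intro g θ hg hl hex
      have := kd_two_exact (u + 1) (u + 1) (by omega) g θ hg hl hex
      rw [hch]
      push_cast at this ⊢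
      have e : (2 * ((u : ℝ) + 1) - 3) / (2 * ((u : ℝ) + 1) - 1) *
          (2 * ((u : ℝ) + 1) * (2 * ((u : ℝ) + 1) - 1) / 2) =
          (2 * ((u : ℝ) + 1) - 3) * ((u : ℝ) + 1) := by
        have : (2 * ((u : ℝ) + 1) - 1) ≠ 0 := by linarith
        field_simp
      rw [e]
      nlinarith

theorem kd_two_bound (u N : ℕ) (hu : 1 ≤ u) (hN : 2 * u ≤ N)
    (hV : Fintype.card V = 2 * N) (f : PM V → ℝ) (hf : Low u f) :
    quad (kd 2) f ≤ (2 * u - 3) / (2 * (2 * u - 1)) * (N * (N - 1)) * nrm f := by
  have h := kd_two_aux u hu N hN V hV f hf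
  have hu' : (1 : ℝ) ≤ u := by exact_mod_cast hu
  rw [Nat.cast_choose_two] at h
  refine h.trans (le_of_eq ?_)
  have : (2 * (u : ℝ) - 1) ≠ 0 := by linarith
  field_simp

/-- on mean-zero functions for three edges the class of a transposition is at most 1 -/
theorem kd_two_three (hV : Fintype.card V = 6) (f : PM V → ℝ) (hf : Low 2 f) :
    quad (kd 2) f ≤ 1 * nrm f := by
  refine level_upper 3 (by omega) (kd 2) (kd_Inv 2) (kd_symm 2) 1 _ ?_ ?_ f hf
  · intro g hg
    have := kd_two_bound 1 3 le_rfl (by norm_num) (by omega) g hg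
    have h2 := nrm_nonneg g
    norm_num at this ⊢
    linarith
  · intro g θ hg hl hex
    have := kd_two_exact 1 2 (by omega) g θ hg hl hex
    norm_num at this ⊢
    linarith

theorem kd_two_five (hV : Fintype.card V = 10) (f : PM V → ℝ) (hf : Low 2 f) :
    quad (kd 2) f ≤ 0 := by
  have h : quad (kd 2) f ≤ 0 * nrm f := by
    refine level_upper 5 (by omega) (kd 2) (kd_Inv 2) (kd_symm 2) 1 _ ?_ ?_ f hf
    · intro g hg
      have := kd_two_bound 1 5 le_rfl (by norm_num) (by omega) g hg
      have h2 := nrm_nonneg g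
      norm_num at this ⊢
      linarith
    · intro g θ hg hl hex
      obtain ⟨W, hW, ha⟩ := av_exact 3 2 (by omega) g hex
      have hm := av_mean 3 2 (by norm_num) (by omega) W hW g hl
      have hlow : Low 2 (av W g) :=
        (Low_top 3 (by norm_num) (by rw [card_in, hW]) (av W g)).mpr hm
      have h1 : ∀ P1, app (kd 2) (av W g) P1 = (θ + 1) * av W g P1 := by
        intro P1
        have h := av_kd_two 3 2 (by omega) W hW g hl P1
        have h2 : av W (app (kd 2) g) P1 = θ * av W g P1 := by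
          unfold av
          rw [Finset.mul_sum]
          exact Finset.sum_congr rfl (fun _ _ => hg _)
        rw [h2] at h
        push_cast at h
        linarith
      have h3 := kd_two_three (by rw [card_in, hW]) (av W g) hlow
      rw [quad_eig _ _ _ h1] at h3
      have h4 := le_of_mul_le_mul_right h3 (nrm_pos ha)
      linarith
  linarith

theorem kd_two_six (hV : Fintype.card V = 12) (f : PM V → ℝ) (hf : Low 2 f) :
    quad (kd 2) f ≤ 0 := by
  have h := kd_climb (V := V) 2 2 0 5 (by norm_num) (fun W _ _ hW g hg => by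
    have := kd_two_five (by omega) g hg
    simpa using this) (by omega) f hf
  simpa using h

end Pool.Agent.Helper23.MS
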