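import Pool.Agent.Helper23.MS.Typ
import Pool.Agent.Helper23.MS.GlueBasic

/-! # MS-11a: sets closed under both matchings, types of glued matchings -/

open scoped BigOperators Nat
open Finset

namespace Pool.Agent.Helper23.MS

/-! ## multisets -/

theorem clo_powerset_map {α β : Type*} (f : α → β) (s : Multiset α) :
    (s.map f).powerset = s.powerset.map (Multiset.map f) := by
  induction s using Multiset.induction_on with
  | empty => simp
  | cons a s ih =>
    rw [Multiset.map_cons, Multiset.powerset_cons, Multiset.powerset_cons, ih, Multiset.map_add,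
      Multiset.map_map, Multiset.map_map]
    congr 1
    apply Multiset.map_congr rfl
    intro t _
    simp

theorem clo_powerset_val {α : Type*} (s : Finset α) :
    s.powerset.val.map Finset.val = s.val.powerset := by
  unfold Finset.powerset
  rw [Multiset.map_pmap]
  simp [Multiset.pmap_eq_map]

theorem clo_card_filter {α β : Type*} (f : α → β) (s : Finset α) (p : Multiset β → Prop)
    [DecidablePred p] [DecidablePred fun u : Finset α => p (u.val.map f)] :
    ((s.val.map f).powerset.filter p).card =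
      (s.powerset.filter (fun u => p (u.val.map f))).card := by
  rw [clo_powerset_map, ← clo_powerset_val, Multiset.map_map, Multiset.filter_map,
    Multiset.card_map]
  rw [Finset.card_def, Finset.filter_val]
  congr 1
  apply Multiset.filter_congr
  intro u _
  rfl

/-! ## the equivalence relation and the blocks -/

section

variable {V : Type}

theorem clo_refl (P Q : PM V) (x : V) : Conn P Q x x := Relation.ReflTransGen.refl

theorem clo_trans {P Q : PM V} {x y z : V} (h : Conn P Q x y) (h' : Conn P Q y z) :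
    Conn P Q x z := Relation.ReflTransGen.trans h h'

theorem clo_symm {P Q : PM V} {x y : V} (h : Conn P Q x y) : Conn P Q y x := by
  induction h with
  | refl => exact Relation.ReflTransGen.refl
  | tail _ hbc ih =>
    refine Relation.ReflTransGen.head ?_ ih
    rcases hbc with h | h
    · left; rw [← h]; exact P.2.1 _
    · right; rw [← h]; exact Q.2.1 _

end

variable {V : Type} [Fintype V] [DecidableEq V]

theorem clo_mem_blk {P Q : PM V} {x y : V} : y ∈ blk P Q x ↔ Conn P Q x y := by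
  classical
  unfold blk
  simp

theorem clo_blk_eq {P Q : PM V} {x y : V} (h : Conn P Q x y) : blk P Q x = blk P Q y := by
  ext z
  rw [clo_mem_blk, clo_mem_blk]
  exact ⟨fun h' => clo_trans (clo_symm h) h', fun h' => clo_trans h h'⟩

theorem clo_mem_blocks {P Q : PM V} {B : Finset V} : B ∈ blocks P Q ↔ ∃ x, blk P Q x = B := by
  unfold blocks
  simp

theorem clo_mem_self (P Q : PM V) (x : V) : x ∈ blk P Q x := clo_mem_blk.mpr (clo_refl P Q x)

theorem clo_block_unique {P Q : PM V} {B B' : Finset V} (hB : B ∈ blocks P Q)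
    (hB' : B' ∈ blocks P Q) {x : V} (hx : x ∈ B) (hx' : x ∈ B') : B = B' := by
  obtain ⟨y, rfl⟩ := clo_mem_blocks.mp hB
  obtain ⟨z, rfl⟩ := clo_mem_blocks.mp hB'
  rw [clo_mem_blk] at hx hx'
  rw [clo_blk_eq hx, clo_blk_eq hx']

theorem clo_block_nonempty {P Q : PM V} {B : Finset V} (hB : B ∈ blocks P Q) : B.Nonempty := by
  obtain ⟨y, rfl⟩ := clo_mem_blocks.mp hB
  exact ⟨y, clo_mem_self P Q y⟩

theorem clo_conn_mem {P Q : PM V} {S : Finset V} (hP : Cl P S) (hQ : Cl Q S) {x y : V}
    (hx : x ∈ S) (h : Conn P Q x y) : y ∈ S := by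
  induction h with
  | refl => exact hx
  | tail _ hbc ih =>
    rcases hbc with h | h
    · rw [← h]; exact hP _ ih
    · rw [← h]; exact hQ _ ih

theorem clo_block_subset {P Q : PM V} {S : Finset V} (hP : Cl P S) (hQ : Cl Q S) {x : V}
    (hx : x ∈ S) : blk P Q x ⊆ S := by
  intro y hy
  exact clo_conn_mem hP hQ hx (clo_mem_blk.mp hy)

theorem clo_block_closed {P Q : PM V} {B : Finset V} (hB : B ∈ blocks P Q) :
    Cl P B ∧ Cl Q B := by
  obtain ⟨y, rfl⟩ := clo_mem_blocks.mp hB
  constructor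
  · intro x hx
    rw [clo_mem_blk] at hx ⊢
    exact hx.tail (Or.inl rfl)
  · intro x hx
    rw [clo_mem_blk] at hx ⊢
    exact hx.tail (Or.inr rfl)

/-! ## gluing -/

theorem clo_iff {P : PM V} {S : Finset V} (h : Cl P S) (x : V) : P.1 x ∈ S ↔ x ∈ S := by
  constructor
  · intro hx
    have := h _ hx
    rwa [P.2.1] at this
  · exact h x

/-- restriction of a matching to a closed set -/
def clo_res (P : PM V) (S : Finset V) (h : Cl P S) : PM {x // x ∈ S} :=
  ⟨P.1.subtypePerm (clo_iff h), by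
    constructor
    · intro x
      apply Subtype.ext
      exact P.2.1 x.1
    · intro x hx
      exact P.2.2 x.1 (congrArg Subtype.val hx)⟩

/-- restriction of a matching to the complement of a closed set -/
def clo_res' (P : PM V) (S : Finset V) (h : Cl P S) : PM {x // x ∉ S} :=
  ⟨P.1.subtypePerm (fun x => not_congr (clo_iff h x)), by
    constructor
    · intro x
      apply Subtype.ext
      exact P.2.1 x.1
    · intro x hx
      exact P.2.2 x.1 (congrArg Subtype.val hx)⟩

theorem clo_glue_left (S : Finset V) (P1 : PM {x // x ∈ S}) (P2 : PM {x // x ∉ S})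
    (x : {x // x ∈ S}) : (glue S P1 P2).1 x = P1.1 x :=
  Equiv.Perm.subtypeCongr.left_apply _ _ x.2

theorem clo_glue_right (S : Finset V) (P1 : PM {x // x ∈ S}) (P2 : PM {x // x ∉ S})
    (x : {x // x ∉ S}) : (glue S P1 P2).1 x = P2.1 x :=
  Equiv.Perm.subtypeCongr.right_apply _ _ x.2

theorem clo_glue_res (P : PM V) (S : Finset V) (h : Cl P S) :
    glue S (clo_res P S h) (clo_res' P S h) = P := by
  apply Subtype.ext
  ext x
  by_cases hx : x ∈ S
  · exact clo_glue_left S _ _ ⟨x, hx⟩
  · exact clo_glue_right S _ _ ⟨x, hx⟩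

theorem clo_glue_closed (S : Finset V) (P1 : PM {x // x ∈ S}) (P2 : PM {x // x ∉ S}) :
    Cl (glue S P1 P2) S := by
  intro x hx
  rw [clo_glue_left S P1 P2 ⟨x, hx⟩]
  exact (P1.1 ⟨x, hx⟩).2

theorem clo_conn_left (S : Finset V) (P1 Q1 : PM {x // x ∈ S}) (P2 Q2 : PM {x // x ∉ S})
    (x : {x // x ∈ S}) (y : V) :
    Conn (glue S P1 P2) (glue S Q1 Q2) x y ↔ ∃ hy : y ∈ S, Conn P1 Q1 x ⟨y, hy⟩ := by
  constructor
  · intro h
    induction h with
    | refl => exact ⟨x.2, clo_refl _ _ _⟩
    | tail _ hbc ih =>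
      obtain ⟨hb, ih⟩ := ih
      rcases hbc with h | h
      · have h1 := clo_glue_left S P1 P2 ⟨_, hb⟩
        simp only at h1
        rw [h] at h1
        subst h1
        exact ⟨(P1.1 _).2, ih.tail (Or.inl rfl)⟩
      · have h1 := clo_glue_left S Q1 Q2 ⟨_, hb⟩
        simp only at h1
        rw [h] at h1
        subst h1
        exact ⟨(Q1.1 _).2, ih.tail (Or.inr rfl)⟩
  · rintro ⟨hy, h⟩
    have h1 : ∀ z : {x // x ∈ S}, Conn P1 Q1 x z →
        Conn (glue S P1 P2) (glue S Q1 Q2) x z := by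
      intro z hz
      induction hz with
      | refl => exact clo_refl _ _ _
      | tail _ hbc ih =>
        refine ih.tail ?_
        rcases hbc with h | h
        · left
          rw [clo_glue_left, h]
        · right
          rw [clo_glue_left, h]
    exact h1 ⟨y, hy⟩ h

theorem clo_conn_right (S : Finset V) (P1 Q1 : PM {x // x ∈ S}) (P2 Q2 : PM {x // x ∉ S})
    (x : {x // x ∉ S}) (y : V) :
    Conn (glue S P1 P2) (glue S Q1 Q2) x y ↔ ∃ hy : y ∉ S, Conn P2 Q2 x ⟨y, hy⟩ := by
  constructor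
  · intro h
    induction h with
    | refl => exact ⟨x.2, clo_refl _ _ _⟩
    | tail _ hbc ih =>
      obtain ⟨hb, ih⟩ := ih
      rcases hbc with h | h
      · have h1 := clo_glue_right S P1 P2 ⟨_, hb⟩
        simp only at h1
        rw [h] at h1
        subst h1
        exact ⟨(P2.1 _).2, ih.tail (Or.inl rfl)⟩
      · have h1 := clo_glue_right S Q1 Q2 ⟨_, hb⟩
        simp only at h1
        rw [h] at h1
        subst h1
        exact ⟨(Q2.1 _).2, ih.tail (Or.inr rfl)⟩
  · rintro ⟨hy, h⟩
    have h1 : ∀ z : {x // x ∉ S}, Conn P2 Q2 x z →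
        Conn (glue S P1 P2) (glue S Q1 Q2) x z := by
      intro z hz
      induction hz with
      | refl => exact clo_refl _ _ _
      | tail _ hbc ih =>
        refine ih.tail ?_
        rcases hbc with h | h
        · left
          rw [clo_glue_right, h]
        · right
          rw [clo_glue_right, h]
    exact h1 ⟨y, hy⟩ h

/-- the embedding of finite sets -/
def cloE (p : V → Prop) : Finset {x // p x} ↪ Finset V :=
  ⟨Finset.map (Function.Embedding.subtype p), Finset.map_injective _⟩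

theorem clo_blk_left (S : Finset V) (P1 Q1 : PM {x // x ∈ S}) (P2 Q2 : PM {x // x ∉ S})
    (x : {x // x ∈ S}) :
    blk (glue S P1 P2) (glue S Q1 Q2) x = cloE (· ∈ S) (blk P1 Q1 x) := by
  ext y
  rw [clo_mem_blk, clo_conn_left]
  change _ ↔ y ∈ Finset.map _ _
  rw [Finset.mem_map]
  constructor
  · rintro ⟨hy, h⟩
    exact ⟨⟨y, hy⟩, clo_mem_blk.mpr h, rfl⟩
  · rintro ⟨z, hz, rfl⟩
    exact ⟨z.2, clo_mem_blk.mp hz⟩

theorem clo_blk_right (S : Finset V) (P1 Q1 : PM {x // x ∈ S}) (P2 Q2 : PM {x // x ∉ S})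
    (x : {x // x ∉ S}) :
    blk (glue S P1 P2) (glue S Q1 Q2) x = cloE (· ∉ S) (blk P2 Q2 x) := by
  ext y
  rw [clo_mem_blk, clo_conn_right]
  change _ ↔ y ∈ Finset.map _ _
  rw [Finset.mem_map]
  constructor
  · rintro ⟨hy, h⟩
    exact ⟨⟨y, hy⟩, clo_mem_blk.mpr h, rfl⟩
  · rintro ⟨z, hz, rfl⟩
    exact ⟨z.2, clo_mem_blk.mp hz⟩

theorem clo_blocks_left (S : Finset V) (P1 Q1 : PM {x // x ∈ S}) (P2 Q2 : PM {x // x ∉ S}) :
    (blocks (glue S P1 P2) (glue S Q1 Q2)).filter (· ⊆ S) =
      (blocks P1 Q1).map (cloE (· ∈ S)) := by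
  ext B
  rw [Finset.mem_filter, Finset.mem_map]
  constructor
  · rintro ⟨hB, hS⟩
    obtain ⟨x, rfl⟩ := clo_mem_blocks.mp hB
    have hx : x ∈ S := hS (clo_mem_self _ _ x)
    refine ⟨blk P1 Q1 ⟨x, hx⟩, clo_mem_blocks.mpr ⟨_, rfl⟩, ?_⟩
    exact (clo_blk_left S P1 Q1 P2 Q2 ⟨x, hx⟩).symm
  · rintro ⟨B', hB', rfl⟩
    obtain ⟨x, rfl⟩ := clo_mem_blocks.mp hB'
    rw [← clo_blk_left S P1 Q1 P2 Q2 x]
    exact ⟨clo_mem_blocks.mpr ⟨_, rfl⟩, clo_block_subset (clo_glue_closed S P1 P2)
      (clo_glue_closed S Q1 Q2) x.2⟩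

theorem clo_blocks_right (S : Finset V) (P1 Q1 : PM {x // x ∈ S}) (P2 Q2 : PM {x // x ∉ S}) :
    (blocks (glue S P1 P2) (glue S Q1 Q2)).filter (fun B => ¬ B ⊆ S) =
      (blocks P2 Q2).map (cloE (· ∉ S)) := by
  ext B
  rw [Finset.mem_filter, Finset.mem_map]
  constructor
  · rintro ⟨hB, hS⟩
    obtain ⟨x, rfl⟩ := clo_mem_blocks.mp hB
    have hx : x ∉ S := fun hx => hS (clo_block_subset (clo_glue_closed S P1 P2)
      (clo_glue_closed S Q1 Q2) hx)
    refine ⟨blk P2 Q2 ⟨x, hx⟩, clo_mem_blocks.mpr ⟨_, rfl⟩, ?_⟩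
    exact (clo_blk_right S P1 Q1 P2 Q2 ⟨x, hx⟩).symm
  · rintro ⟨B', hB', rfl⟩
    obtain ⟨x, rfl⟩ := clo_mem_blocks.mp hB'
    rw [← clo_blk_right S P1 Q1 P2 Q2 x]
    exact ⟨clo_mem_blocks.mpr ⟨_, rfl⟩, fun h => x.2 (h (clo_mem_self _ _ _))⟩

theorem clo_typ_map (p : V → Prop) (s : Finset (Finset {x // p x})) :
    (s.map (cloE p)).val.map (fun B => B.card / 2) = s.val.map (fun B => B.card / 2) := by
  rw [Finset.map_val, Multiset.map_map]
  apply Multiset.map_congr rfl
  intro B _
  change (Finset.map _ B).card / 2 = B.card / 2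
  rw [Finset.card_map]

theorem clo_typ_left (S : Finset V) (P1 Q1 : PM {x // x ∈ S}) (P2 Q2 : PM {x // x ∉ S}) :
    ((blocks (glue S P1 P2) (glue S Q1 Q2)).filter (· ⊆ S)).val.map (fun B => B.card / 2) =
      typ P1 Q1 := by
  rw [clo_blocks_left, clo_typ_map]
  rfl

theorem typ_glue (S : Finset V) (P1 Q1 : PM {x // x ∈ S}) (P2 Q2 : PM {x // x ∉ S}) :
    typ (glue S P1 P2) (glue S Q1 Q2) = typ P1 Q1 + typ P2 Q2 := by
  have h1 : (blocks (glue S P1 P2) (glue S Q1 Q2)).val =
      ((blocks (glue S P1 P2) (glue S Q1 Q2)).filter (· ⊆ S)).val +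
      ((blocks (glue S P1 P2) (glue S Q1 Q2)).filter (fun B => ¬ B ⊆ S)).val := by
    rw [Finset.filter_val, Finset.filter_val, Multiset.filter_add_not]
  unfold typ
  rw [h1, Multiset.map_add, clo_blocks_left, clo_blocks_right, clo_typ_map, clo_typ_map]

/-! ## closed sets and sets of blocks -/

theorem clo_even {P : PM V} {S : Finset V} (h : Cl P S) : 2 ∣ S.card := by
  have h1 : (clo_res P S h).1.support = univ := by
    ext x
    rw [Equiv.Perm.mem_support]
    exact ⟨fun _ => mem_univ x, fun _ => (clo_res P S h).2.2 x⟩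
  have h2 : (clo_res P S h).1 ^ 2 = 1 := by
    ext x
    rw [pow_two]
    exact congrArg Subtype.val ((clo_res P S h).2.1 x)
  have h3 := Equiv.Perm.two_dvd_card_support h2
  rw [h1, Finset.card_univ, Fintype.card_coe] at h3
  exact h3

/-- the blocks inside a set -/
noncomputable def cloB (P Q : PM V) (S : Finset V) : Finset (Finset V) := (blocks P Q).filter (· ⊆ S)

theorem clo_union {P Q : PM V} {S : Finset V} (hP : Cl P S) (hQ : Cl Q S) :
    (cloB P Q S).biUnion id = S := by
  ext x
  rw [Finset.mem_biUnion]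
  unfold cloB
  constructor
  · rintro ⟨B, hB, hx⟩
    exact (Finset.mem_filter.mp hB).2 hx
  · intro hx
    exact ⟨blk P Q x, Finset.mem_filter.mpr ⟨clo_mem_blocks.mpr ⟨x, rfl⟩,
      clo_block_subset hP hQ hx⟩, clo_mem_self P Q x⟩

theorem clo_of_union {P Q : PM V} {U : Finset (Finset V)} (hU : U ⊆ blocks P Q) :
    cloB P Q (U.biUnion id) = U := by
  ext B
  unfold cloB
  rw [Finset.mem_filter]
  constructor
  · rintro ⟨hB, hS⟩
    obtain ⟨x, hx⟩ := clo_block_nonempty hB
    obtain ⟨B', hB', hx'⟩ := Finset.mem_biUnion.mp (hS hx)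
    rw [clo_block_unique hB (hU hB') hx hx']
    exact hB'
  · intro hB
    exact ⟨hU hB, Finset.subset_biUnion_of_mem id hB⟩

theorem clo_union_closed {P Q : PM V} {U : Finset (Finset V)} (hU : U ⊆ blocks P Q) :
    Cl P (U.biUnion id) ∧ Cl Q (U.biUnion id) := by
  constructor
  · intro x hx
    obtain ⟨B, hB, hx'⟩ := Finset.mem_biUnion.mp hx
    exact Finset.mem_biUnion.mpr ⟨B, hB, (clo_block_closed (hU hB)).1 x hx'⟩
  · intro x hx
    obtain ⟨B, hB, hx'⟩ := Finset.mem_biUnion.mp hx
    exact Finset.mem_biUnion.mpr ⟨B, hB, (clo_block_closed (hU hB)).2 x hx'⟩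

theorem clo_card_union {P Q : PM V} {U : Finset (Finset V)} (hU : U ⊆ blocks P Q) :
    (U.biUnion id).card = 2 * (U.val.map (fun B => B.card / 2)).sum := by
  rw [Finset.card_biUnion]
  · change ∑ B ∈ U, (id B).card = 2 * ∑ B ∈ U, B.card / 2
    rw [Finset.mul_sum]
    apply Finset.sum_congr rfl
    intro B hB
    have := clo_even (clo_block_closed (hU hB)).1
    simp only [id]
    omega
  · intro B hB B' hB' hne
    change Disjoint B B'
    rw [Finset.disjoint_left]
    intro x hx hx'
    exact hne (clo_block_unique (hU hB) (hU hB') hx hx')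

open Classical in
/-- counting closed sets by their sets of blocks -/
theorem clo_count (P Q : PM V) (p : Finset V → Prop) (q : Multiset ℕ → Prop)
    (h : ∀ S, p S ↔ (Cl P S ∧ Cl Q S) ∧ q ((cloB P Q S).val.map (fun B => B.card / 2))) :
    (univ.filter p).card = ((typ P Q).powerset.filter q).card := by
  unfold typ
  rw [clo_card_filter]
  refine Finset.card_nbij' (fun S => cloB P Q S) (fun U => U.biUnion id) ?_ ?_ ?_ ?_
  · intro S hS
    rw [Finset.mem_coe, Finset.mem_filter] at hS
    rw [Finset.mem_coe, Finset.mem_filter, Finset.mem_powerset]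
    exact ⟨Finset.filter_subset _ _, ((h S).mp hS.2).2⟩
  · intro U hU
    rw [Finset.mem_coe, Finset.mem_filter, Finset.mem_powerset] at hU
    rw [Finset.mem_coe, Finset.mem_filter]
    refine ⟨mem_univ _, (h _).mpr ⟨clo_union_closed hU.1, ?_⟩⟩
    rw [clo_of_union hU.1]
    exact hU.2
  · intro S hS
    rw [Finset.mem_coe, Finset.mem_filter] at hS
    exact clo_union ((h S).mp hS.2).1.1 ((h S).mp hS.2).1.2
  · intro U hU
    rw [Finset.mem_coe, Finset.mem_filter, Finset.mem_powerset] at hU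
    exact clo_of_union hU.1

open Classical in
/-- number of sets of `2 t` vertices closed under both matchings -/
theorem card_both_closed (P Q : PM V) (t : ℕ) :
    (univ.filter (fun S : Finset V => S.card = 2 * t ∧ Cl P S ∧ Cl Q S)).card =
      cc (typ P Q) t := by
  unfold cc
  have h := clo_count P Q (fun S : Finset V => S.card = 2 * t ∧ Cl P S ∧ Cl Q S)
    (fun s => s.sum = t) (by
      intro S
      constructor
      · rintro ⟨h1, h2, h3⟩
        refine ⟨⟨h2, h3⟩, ?_⟩
        have h4 := clo_card_union (P := P) (Q := Q) (U := cloB P Q S) (Finset.filter_subset _ _)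
        rw [clo_union h2 h3, h1] at h4
        omega
      · rintro ⟨⟨h2, h3⟩, h5⟩
        refine ⟨?_, h2, h3⟩
        have h4 := clo_card_union (P := P) (Q := Q) (U := cloB P Q S) (Finset.filter_subset _ _)
        rw [clo_union h2 h3, h5] at h4
        exact h4)
  convert h

open Classical in
/-- number of closed sets on which the type is `ν1` -/
theorem card_typ_on (P Q : PM V) (ν1 : Multiset ℕ) :
    (univ.filter (fun S : Finset V => ∃ (P1 Q1 : PM {x // x ∈ S})
      (P2 Q2 : PM {x // x ∉ S}), P = glue S P1 P2 ∧ Q = glue S Q1 Q2 ∧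
        typ P1 Q1 = ν1)).card = (typ P Q).powerset.count ν1 := by
  rw [Multiset.count_eq_card_filter_eq]
  have h := clo_count P Q (fun S : Finset V => ∃ (P1 Q1 : PM {x // x ∈ S})
      (P2 Q2 : PM {x // x ∉ S}), P = glue S P1 P2 ∧ Q = glue S Q1 Q2 ∧
        typ P1 Q1 = ν1)
    (fun s => ν1 = s) (by
      intro S
      constructor
      · rintro ⟨P1, Q1, P2, Q2, rfl, rfl, h3⟩
        refine ⟨⟨clo_glue_closed _ _ _, clo_glue_closed _ _ _⟩, ?_⟩
        rw [← h3]
        exact (clo_typ_left S P1 Q1 P2 Q2).symm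
      · rintro ⟨⟨h2, h3⟩, h5⟩
        refine ⟨clo_res P S h2, clo_res Q S h3, clo_res' P S h2, clo_res' Q S h3,
          (clo_glue_res P S h2).symm, (clo_glue_res Q S h3).symm, ?_⟩
        have h6 := clo_typ_left S (clo_res P S h2) (clo_res Q S h3) (clo_res' P S h2)
          (clo_res' Q S h3)
        rw [clo_glue_res, clo_glue_res] at h6
        rw [← h6, h5]
        rfl)
  convert h

end Pool.Agent.Helper23.MS
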