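import Pool.Agent.Helper23.MS.Defs

/-! # MS-2: counting extensions of a partial matching -/

open scoped BigOperators Nat
open Finset

namespace Pool.Agent.Helper23.MS

set_option linter.unusedSectionVars false

variable {V : Type} [Fintype V] [DecidableEq V]

private theorem qs_left {q : Equiv.Perm V} {b y : V} (hy : q y = y) :
    (q * Equiv.swap b y) b = y := by
  rw [Equiv.Perm.mul_apply, Equiv.swap_apply_left, hy]

private theorem qs_right {q : Equiv.Perm V} {b y : V} (hb : q b = b) :
    (q * Equiv.swap b y) y = b := by
  rw [Equiv.Perm.mul_apply, Equiv.swap_apply_right, hb]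

private theorem qs_other {q : Equiv.Perm V} {b y x : V} (h1 : x ≠ b) (h2 : x ≠ y) :
    (q * Equiv.swap b y) x = q x := by
  rw [Equiv.Perm.mul_apply, Equiv.swap_apply_of_ne_of_ne h1 h2]

private theorem qs_invol {q : Equiv.Perm V} (hq : Invol q) {b y : V} (hb : q b = b)
    (hy : q y = y) : Invol (q * Equiv.swap b y) := by
  intro x
  by_cases h1 : x = b
  · subst h1
    rw [qs_left hy, qs_right hb]
  · by_cases h2 : x = y
    · subst h2
      rw [qs_right hb, qs_left hy]
    · rw [qs_other h1 h2]
      have h3 : q x ≠ b := by
        intro h
        apply h1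
        rw [← hq x, h, hb]
      have h4 : q x ≠ y := by
        intro h
        apply h2
        rw [← hq x, h, hy]
      rw [qs_other h3 h4, hq x]

private theorem qs_support {q : Equiv.Perm V} {b y : V} (hb : q b = b)
    (hy : q y = y) (hby : b ≠ y) :
    (q * Equiv.swap b y).support = insert b (insert y q.support) := by
  ext x
  rw [Equiv.Perm.mem_support, mem_insert, mem_insert, Equiv.Perm.mem_support]
  by_cases h1 : x = b
  · subst h1
    rw [qs_left hy]
    simp [hby.symm]
  · by_cases h2 : x = y
    · subst h2
      rw [qs_right hb]
      simp [hby]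
    · rw [qs_other h1 h2]
      simp [h1, h2]

private theorem qs_card {q : Equiv.Perm V} {b y : V} (hb : q b = b)
    (hy : q y = y) (hby : b ≠ y) :
    (q * Equiv.swap b y).support.card = q.support.card + 2 := by
  rw [qs_support hb hy hby, card_insert_of_notMem, card_insert_of_notMem]
  · rw [Equiv.Perm.mem_support]
    simpa using hy
  · rw [mem_insert, Equiv.Perm.mem_support]
    push Not
    exact ⟨hby, hb⟩

private theorem qs_ext {q : Equiv.Perm V} {b y : V} (hb : q b = b)
    (hy : q y = y) (P : PM V) (hby : b ≠ y) :
    Ext (q * Equiv.swap b y) P ↔ (Ext q P ∧ P.1 b = y) := by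
  constructor
  · intro h
    refine ⟨?_, ?_⟩
    · intro x hx
      have h1 : x ≠ b := by rintro rfl; exact hx hb
      have h2 : x ≠ y := by rintro rfl; exact hx hy
      have := h x (by rw [qs_other h1 h2]; exact hx)
      rwa [qs_other h1 h2] at this
    · have := h b (by rw [qs_left hy]; exact hby.symm)
      rwa [qs_left hy] at this
  · rintro ⟨h, hPb⟩ x hx
    by_cases h1 : x = b
    · subst h1
      rw [qs_left hy]
      exact hPb
    · by_cases h2 : x = y
      · subst h2
        rw [qs_right hb, ← hPb, P.2.1]
      · rw [qs_other h1 h2] at hx ⊢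
        exact h x hx

/-- the partner of a vertex outside of the support is outside of the support -/
private theorem partner_fix {q : Equiv.Perm V} (hq : Invol q) {P : PM V} (h : Ext q P) {b : V}
    (hb : q b = b) : q (P.1 b) = P.1 b := by
  by_contra hne
  have h1 := h (P.1 b) hne
  rw [P.2.1] at h1
  have h2 := hq (P.1 b)
  rw [← h1, hb] at h2
  exact P.2.2 b h2.symm

open Classical in
private theorem step_empty (q : Equiv.Perm V) (hq : Invol q) {b : V} (hb : q b = b) (c : ℕ)
    (H : ∀ y, q y = y → y ≠ b →
      (univ.filter (fun P : PM V => Ext (q * Equiv.swap b y) P ∧ Ind P ∅)).card = c) :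
    (univ.filter (fun P : PM V => Ext q P ∧ Ind P ∅)).card =
      (univ.filter (fun y : V => q y = y ∧ y ≠ b)).card * c := by
  rw [card_eq_sum_card_fiberwise (f := fun P : PM V => P.1 b)
    (t := univ.filter (fun y : V => q y = y ∧ y ≠ b))]
  · rw [sum_congr rfl (g := fun _ => c), sum_const, smul_eq_mul]
    intro y hy
    rw [mem_filter] at hy
    rw [← H y hy.2.1 hy.2.2]
    congr 1
    ext P
    simp only [mem_filter, mem_univ, true_and]
    rw [qs_ext hb hy.2.1 P hy.2.2.symm]
    tauto
  · intro P hP
    simp only [coe_filter, mem_univ, true_and, Set.mem_setOf_eq] at hP ⊢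
    exact ⟨partner_fix hq hP.1 hb, P.2.2 b⟩

open Classical in
private theorem step_insert (q : Equiv.Perm V) (hq : Invol q) {b : V} (hb : q b = b)
    {B : Finset V} (hbB : b ∉ B) (c : ℕ)
    (H : ∀ y, q y = y → y ∉ insert b B →
      (univ.filter (fun P : PM V => Ext (q * Equiv.swap b y) P ∧ Ind P B)).card = c) :
    (univ.filter (fun P : PM V => Ext q P ∧ Ind P (insert b B))).card =
      (univ.filter (fun y : V => q y = y ∧ y ∉ insert b B)).card * c := by
  rw [card_eq_sum_card_fiberwise (f := fun P : PM V => P.1 b)
    (t := univ.filter (fun y : V => q y = y ∧ y ∉ insert b B))]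
  · rw [sum_congr rfl (g := fun _ => c), sum_const, smul_eq_mul]
    intro y hy
    rw [mem_filter] at hy
    rw [← H y hy.2.1 hy.2.2]
    have hyb : y ≠ b := fun h => hy.2.2 (by rw [h]; exact mem_insert_self _ _)
    have hyB : y ∉ B := fun h => hy.2.2 (mem_insert_of_mem h)
    congr 1
    ext P
    simp only [mem_filter, mem_univ, true_and]
    rw [qs_ext hb hy.2.1 P hyb.symm]
    constructor
    · rintro ⟨⟨h1, h2⟩, h3⟩
      exact ⟨⟨h1, h3⟩, fun x hx hPx => h2 x (mem_insert_of_mem hx) (mem_insert_of_mem hPx)⟩
    · rintro ⟨⟨h1, h3⟩, h2⟩
      refine ⟨⟨h1, ?_⟩, h3⟩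
      intro x hx hPx
      rw [mem_insert] at hx hPx
      rcases hx with rfl | hx
      · rcases hPx with h | h
        · exact P.2.2 x h
        · exact hyB (h3 ▸ h)
      · rcases hPx with h | h
        · have : x = y := by rw [← P.2.1 x, h, h3]
          exact hyB (this ▸ hx)
        · exact h2 x hx h
  · intro P hP
    simp only [coe_filter, mem_univ, true_and, Set.mem_setOf_eq] at hP ⊢
    exact ⟨partner_fix hq hP.1 hb, hP.2 b (mem_insert_self _ _)⟩

private theorem card_fix (q : Equiv.Perm V) :
    (univ.filter (fun y : V => q y = y)).card + q.support.card = Fintype.card V := by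
  have h : q.support = univ.filter (fun y : V => ¬ q y = y) := by
    ext x; simp [Equiv.Perm.mem_support]
  rw [h, Finset.card_filter_add_card_filter_not, card_univ]

private theorem card_fix_sub (q : Equiv.Perm V) (B : Finset V) (hB : Disjoint q.support B) :
    (univ.filter (fun y : V => q y = y ∧ y ∉ B)).card + q.support.card + B.card =
      Fintype.card V := by
  have h1 : (univ.filter (fun y : V => q y = y ∧ y ∉ B)) =
      (univ.filter (fun y : V => q y = y)) \ B := by
    ext x; simp
  have h2 : B ⊆ univ.filter (fun y : V => q y = y) := by
    intro x hx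
    rw [mem_filter]
    refine ⟨mem_univ _, ?_⟩
    by_contra h
    exact Finset.disjoint_left.1 hB (Equiv.Perm.mem_support.2 h) hx
  have h3 := card_fix q
  have h4 := card_sdiff_add_card_eq_card h2
  rw [h1]
  omega

open Classical in
private theorem card_ext_aux : ∀ (N : ℕ) (q : Equiv.Perm V) (_ : Invol q) (B : Finset V)
    (_ : Disjoint q.support B), Fintype.card V - q.support.card = N →
    (univ.filter (fun P : PM V => Ext q P ∧ Ind P B)).card =
      cnt B.card (Fintype.card V - q.support.card - B.card) := by
  intro N
  induction N using Nat.strong_induction_on with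
  | _ N ih =>
    intro q hq B hB hN
    have hle : q.support.card ≤ Fintype.card V := card_le_univ _
    rcases B.eq_empty_or_nonempty with rfl | ⟨b, hbB⟩
    · rw [card_empty, Nat.sub_zero, hN]
      match N, hN, ih with
      | 0, hN, _ =>
        have hfull : q.support.card = Fintype.card V := by omega
        have hall : ∀ x, q x ≠ x := by
          intro x
          have : q.support = univ := by
            rw [← card_eq_iff_eq_univ]; exact hfull
          rw [← Equiv.Perm.mem_support, this]
          exact mem_univ _
        rw [cnt, card_eq_one]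
        refine ⟨⟨q, hq, hall⟩, ?_⟩
        ext P
        simp only [mem_filter, mem_univ, true_and, mem_singleton]
        constructor
        · rintro ⟨h, -⟩
          apply Subtype.ext
          ext x
          exact h x (hall x)
        · rintro rfl
          exact ⟨fun x _ => rfl, fun x hx => by simp at hx⟩
      | 1, hN, _ =>
        have h1 := card_fix q
        have h2 : (univ.filter (fun y : V => q y = y)).card = 1 := by omega
        obtain ⟨b, hb⟩ := card_eq_one.1 h2
        have hbf : q b = b := by
          have : b ∈ univ.filter (fun y : V => q y = y) := by rw [hb]; exact mem_singleton_self _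
          exact (mem_filter.1 this).2
        rw [step_empty q hq hbf 0]
        · simp [cnt]
        · intro y hy hyb
          exfalso
          have : y ∈ univ.filter (fun y : V => q y = y) := mem_filter.2 ⟨mem_univ _, hy⟩
          rw [hb, mem_singleton] at this
          exact hyb this
      | (n + 2), hN, ih =>
        have h1 := card_fix q
        have h2 : 0 < (univ.filter (fun y : V => q y = y)).card := by omega
        obtain ⟨b, hb⟩ := card_pos.1 h2
        have hbf : q b = b := (mem_filter.1 hb).2
        rw [step_empty q hq hbf (cnt 0 n)]
        · have h3 : (univ.filter (fun y : V => q y = y ∧ y ≠ b)).card = n + 1 := by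
            have : (univ.filter (fun y : V => q y = y ∧ y ≠ b)) =
                (univ.filter (fun y : V => q y = y)).erase b := by
              ext x; simp [and_comm]
            rw [this, card_erase_of_mem hb]
            omega
          rw [h3, cnt]
        · intro y hy hyb
          have h4 := qs_card hbf hy hyb.symm
          have h5 := ih n (by omega) (q * Equiv.swap b y) (qs_invol hq hbf hy) ∅
            (disjoint_empty_right _) (by omega)
          rw [h5, card_empty, Nat.sub_zero]
          congr 1
          omega
    · have hbf : q b = b := by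
        by_contra h
        exact Finset.disjoint_left.1 hB (Equiv.Perm.mem_support.2 h) hbB
      obtain ⟨B', hbB', rfl⟩ : ∃ B', b ∉ B' ∧ B = insert b B' :=
        ⟨B.erase b, notMem_erase _ _, (insert_erase hbB).symm⟩
      have h1 := card_fix_sub q (insert b B') hB
      have h0 : (insert b B').card = B'.card + 1 := card_insert_of_notMem hbB'
      have hstep : ∀ y, q y = y → y ∉ insert b B' →
          (univ.filter (fun P : PM V => Ext (q * Equiv.swap b y) P ∧ Ind P B')).card =
            cnt B'.card (Fintype.card V - q.support.card - (insert b B').card - 1) := by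
        intro y hy hyB
        have hyb : b ≠ y := fun h => hyB (by rw [← h]; exact mem_insert_self _ _)
        have h4 := qs_card hbf hy hyb
        have h6 : q.support.card + 2 ≤ Fintype.card V := by
          rw [← h4]; exact card_le_univ _
        have h5 := ih (N - 2) (by omega) (q * Equiv.swap b y) (qs_invol hq hbf hy) B' (by
          rw [qs_support hbf hy hyb, disjoint_insert_left, disjoint_insert_left]
          refine ⟨hbB', fun h => hyB (mem_insert_of_mem h), ?_⟩
          exact Disjoint.mono_right (subset_insert _ _) hB) (by omega)
        rw [h5]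
        congr 1
        omega
      rw [step_insert q hq hbf hbB' _ hstep]
      have h7 : (univ.filter (fun y : V => q y = y ∧ y ∉ insert b B')).card =
          Fintype.card V - q.support.card - (insert b B').card := by omega
      rw [h7, h0]
      rcases Nat.eq_zero_or_pos (Fintype.card V - q.support.card - (B'.card + 1)) with h8 | h8
      · rw [h8, zero_mul, cnt]
      · obtain ⟨n, hn⟩ : ∃ n, Fintype.card V - q.support.card - (B'.card + 1) = n + 1 :=
          ⟨_, (Nat.succ_pred_eq_of_pos h8).symm⟩
        rw [hn, Nat.add_sub_cancel, cnt]

open Classical in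
theorem card_ext (q : Equiv.Perm V) (hq : Invol q) (B : Finset V)
    (hB : Disjoint q.support B) :
    (univ.filter (fun P : PM V => Ext q P ∧ Ind P B)).card =
      cnt B.card (Fintype.card V - q.support.card - B.card) :=
  card_ext_aux _ q hq B hB rfl

end Pool.Agent.Helper23.MS
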