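import Pool.Agent.Helper23.MS.Typ
import Pool.Agent.Helper23.MS.GlueBasic

/-! # MS-11b: edges leaving a set -/

open scoped BigOperators Nat
open Finset

namespace Pool.Agent.Helper23.MS

variable {V : Type} [Fintype V] [DecidableEq V]

open Classical in
/-- number of `P`-closed sets all of whose vertices are matched outside by `Q` -/
theorem card_alternating (N : ℕ) (hV : Fintype.card V = 2 * N) (t : ℕ) (ht : N = 2 * t)
    (P Q : PM V) :
    (univ.filter (fun S : Finset V => S.card = 2 * t ∧ Cl P S ∧ out Q S = 2 * t)).card ≤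
      2 ^ (typ P Q).card := by
  -- basic facts on the sets `S`
  have hQ : ∀ S : Finset V, S.card = 2 * t → out Q S = 2 * t → ∀ x, x ∈ S ↔ Q.1 x ∉ S := by
    intro S hS hout
    have h1 : S.filter (fun x => Q.1 x ∉ S) = S := by
      apply Finset.eq_of_subset_of_card_le (Finset.filter_subset _ _)
      rw [hS]
      exact le_of_eq hout.symm
    have h2 : ∀ x ∈ S, Q.1 x ∉ S := by
      intro x hx
      rw [← h1, Finset.mem_filter] at hx
      exact hx.2
    have h3 : S.map Q.1.toEmbedding = Sᶜ := by
      apply Finset.eq_of_subset_of_card_le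
      · intro y hy
        rw [Finset.mem_map] at hy
        obtain ⟨x, hx, rfl⟩ := hy
        rw [Finset.mem_compl]
        exact h2 x hx
      · rw [Finset.card_map, Finset.card_compl, hS, hV]
        omega
    intro x
    constructor
    · exact h2 x
    · intro hx
      rw [← Finset.mem_compl, ← h3, Finset.mem_map] at hx
      obtain ⟨y, hy, hyx⟩ := hx
      have : y = x := Q.1.injective hyx
      rw [← this]
      exact hy
  have hP : ∀ S : Finset V, Cl P S → ∀ x, x ∈ S ↔ P.1 x ∈ S := by
    intro S hS x
    refine ⟨fun h => hS x h, fun h => ?_⟩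
    have := hS _ h
    rwa [P.2.1] at this
  have hbase : ∀ B : {B // B ∈ blocks P Q}, ∃ b : V, blk P Q b = B.1 := by
    intro B
    obtain ⟨b, _, hb⟩ := Finset.mem_image.1 B.2
    exact ⟨b, hb⟩
  choose base hbase using hbase
  have hconn : ∀ x : V, ∃ B : {B // B ∈ blocks P Q}, Conn P Q (base B) x := by
    intro x
    refine ⟨⟨blk P Q x, Finset.mem_image_of_mem _ (Finset.mem_univ _)⟩, ?_⟩
    have h1 := hbase ⟨blk P Q x, Finset.mem_image_of_mem _ (Finset.mem_univ _)⟩
    have h2 : x ∈ blk P Q x := by
      rw [blk, Finset.mem_filter]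
      exact ⟨Finset.mem_univ _, Relation.ReflTransGen.refl⟩
    have h3 : x ∈ blk P Q (base ⟨blk P Q x,
        Finset.mem_image_of_mem _ (Finset.mem_univ _)⟩) := by
      rw [h1]
      exact h2
    rw [blk, Finset.mem_filter] at h3
    exact h3.2
  have hcard : (Finset.univ : Finset (Finset {B // B ∈ blocks P Q})).card =
      2 ^ (typ P Q).card := by
    rw [Finset.card_univ, Fintype.card_finset, Fintype.card_coe]
    simp [typ]
  rw [← hcard]
  apply Finset.card_le_card_of_injOn
    (fun S => Finset.univ.filter (fun B : {B // B ∈ blocks P Q} => base B ∈ S))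
  · intro S _
    exact Finset.mem_coe.2 (Finset.mem_univ _)
  · intro S hS S' hS' heq
    rw [Finset.mem_coe, Finset.mem_filter] at hS hS'
    obtain ⟨_, hS1, hS2, hS3⟩ := hS
    obtain ⟨_, hS1', hS2', hS3'⟩ := hS'
    have hb : ∀ B : {B // B ∈ blocks P Q}, base B ∈ S ↔ base B ∈ S' := by
      intro B
      have := congrArg (fun T => B ∈ T) heq
      simpa using this
    ext x
    obtain ⟨B, hB⟩ := hconn x
    induction hB with
    | refl => exact hb B
    | tail _ h2 ih =>
      rcases h2 with h2 | h2
      · rw [← h2, ← hP S hS2, ← hP S' hS2']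
        exact ih
      · have e1 := hQ S hS1 hS3
        have e2 := hQ S' hS1' hS3'
        rw [← h2]
        constructor
        · intro h
          by_contra h'
          exact ((e1 _).1 (ih.2 ((e2 _).2 h'))) h
        · intro h
          by_contra h'
          exact ((e2 _).1 (ih.1 ((e1 _).2 h'))) h

/-- `out` is even for a set of even size -/
theorem even_out (Q : PM V) (W : Finset V) (h : Even W.card) : Even (out Q W) := by
  have h1 : Even (W.filter (fun x => Q.1 x ∈ W)).card := by
    have h2 : ∑ x ∈ W.filter (fun x => Q.1 x ∈ W), (1 : ZMod 2) = 0 := by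
      apply Finset.sum_involution (fun x _ => Q.1 x)
      · intro x _
        decide
      · intro x _ _
        exact Q.2.2 x
      · intro x hx
        rw [Finset.mem_filter] at hx ⊢
        rw [Q.2.1]
        exact ⟨hx.2, hx.1⟩
      · intro x _
        exact Q.2.1 x
    rw [Finset.sum_const, nsmul_eq_mul, mul_one] at h2
    exact (ZMod.natCast_eq_zero_iff_even).1 h2
  have h3 : (W.filter (fun x => Q.1 x ∈ W)).card + out Q W = W.card := by
    rw [out]
    exact Finset.card_filter_add_card_filter_not _
  rw [← h3] at h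
  exact (Nat.even_add.1 h).1 h1

theorem out_le (Q : PM V) (W : Finset V) : out Q W + W.card ≤ Fintype.card V := by
  have h1 : Disjoint ((W.filter (fun x => Q.1 x ∉ W)).map Q.1.toEmbedding) W := by
    rw [Finset.disjoint_left]
    intro y hy hyW
    rw [Finset.mem_map] at hy
    obtain ⟨x, hx, rfl⟩ := hy
    rw [Finset.mem_filter] at hx
    exact hx.2 hyW
  calc out Q W + W.card = ((W.filter (fun x => Q.1 x ∉ W)).map Q.1.toEmbedding).card + W.card := by
        rw [Finset.card_map, out]
    _ = (((W.filter (fun x => Q.1 x ∉ W)).map Q.1.toEmbedding) ∪ W).card :=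
        (Finset.card_union_of_disjoint h1).symm
    _ ≤ Fintype.card V := Finset.card_le_univ _

theorem out_eq_zero (Q : PM V) (W : Finset V) : out Q W = 0 ↔ Cl Q W := by
  rw [out, Finset.card_eq_zero, Finset.filter_eq_empty_iff]
  simp only [not_not]
  rfl

open Classical in
/-- double counting of the `Q`-edges inside pairs of `P`-edges, when `P` and `Q` have no
common edge -/
theorem sum_out_two (N : ℕ) (hV : Fintype.card V = 2 * N) (P Q : PM V)
    (h : ∀ x, P.1 x ≠ Q.1 x) :
    ∑ W ∈ univ.filter (fun W : Finset V => W.card = 4 ∧ Cl P W), (4 - out Q W) =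
      2 * N := by
  have h1 : ∀ W ∈ univ.filter (fun W : Finset V => W.card = 4 ∧ Cl P W), 4 - out Q W =
      ∑ x : V, if x ∈ W ∧ Q.1 x ∈ W then 1 else 0 := by
    intro W hW
    rw [Finset.mem_filter] at hW
    have h3 : (W.filter (fun x => Q.1 x ∈ W)).card + out Q W = W.card := by
      rw [out]
      exact Finset.card_filter_add_card_filter_not _
    have h4 : (∑ x : V, if x ∈ W ∧ Q.1 x ∈ W then 1 else 0) =
        (W.filter (fun x => Q.1 x ∈ W)).card := by
      rw [← Finset.card_filter]
      congr 1
      ext x
      simp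
    rw [h4]
    omega
  rw [Finset.sum_congr rfl h1, Finset.sum_comm]
  have h2 : ∀ x : V, (∑ W ∈ univ.filter (fun W : Finset V => W.card = 4 ∧ Cl P W),
      if x ∈ W ∧ Q.1 x ∈ W then 1 else 0) = 1 := by
    intro x
    rw [← Finset.card_filter, Finset.filter_filter, Finset.card_eq_one]
    have d1 : x ≠ P.1 x := fun e => P.2.2 x e.symm
    have d2 : x ≠ Q.1 x := fun e => Q.2.2 x e.symm
    have d3 : P.1 x ≠ Q.1 x := h x
    have d4 : x ≠ P.1 (Q.1 x) := fun e => by
      apply d3
      have := congrArg P.1 e
      rwa [P.2.1] at this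
    have d5 : P.1 x ≠ P.1 (Q.1 x) := fun e => d2 (P.1.injective e)
    have d6 : Q.1 x ≠ P.1 (Q.1 x) := fun e => P.2.2 _ e.symm
    have hc : ({x, P.1 x, Q.1 x, P.1 (Q.1 x)} : Finset V).card = 4 := by
      rw [Finset.card_insert_of_notMem, Finset.card_insert_of_notMem,
        Finset.card_insert_of_notMem, Finset.card_singleton]
      · simpa using d6
      · simp [d3, d5]
      · simp [d1, d2, d4]
    refine ⟨{x, P.1 x, Q.1 x, P.1 (Q.1 x)}, ?_⟩
    ext W
    rw [Finset.mem_filter, Finset.mem_singleton]
    constructor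
    · rintro ⟨_, ⟨hW1, hW2⟩, hW3, hW4⟩
      symm
      apply Finset.eq_of_subset_of_card_le
      · intro y hy
        simp only [Finset.mem_insert, Finset.mem_singleton] at hy
        rcases hy with rfl | rfl | rfl | rfl
        · exact hW3
        · exact hW2 _ hW3
        · exact hW4
        · exact hW2 _ hW4
      · rw [hc, hW1]
    · rintro rfl
      refine ⟨Finset.mem_univ _, ⟨hc, ?_⟩, ?_, ?_⟩
      · intro y hy
        simp only [Finset.mem_insert, Finset.mem_singleton] at hy ⊢
        rcases hy with rfl | rfl | rfl | rfl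
        · simp
        · rw [P.2.1]; simp
        · simp
        · rw [P.2.1]; simp
      · simp
      · simp
  rw [Finset.sum_congr rfl fun x _ => h2 x, Finset.sum_const, Finset.card_univ, hV]
  simp

end Pool.Agent.Helper23.MS
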