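import Pool.Agent.Helper23.MS.Closed
import Pool.Agent.Helper23.MS.Out

/-! # MS-18a: crossing two edges -/

open scoped BigOperators Nat
open Finset

namespace Pool.Agent.Helper23.MS

variable {V : Type} [Fintype V] [DecidableEq V]

omit [Fintype V] [DecidableEq V] in
theorem h20_conn_symm (P Q : PM V) {x y : V} (h : Conn P Q x y) : Conn P Q y x := by
  induction h with
  | refl => exact Relation.ReflTransGen.refl
  | tail _ h ih =>
    refine (Relation.ReflTransGen.single ?_).trans ih
    rcases h with h | h
    · exact Or.inl (by rw [← h, P.2.1])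
    · exact Or.inr (by rw [← h, Q.2.1])

/-- a pair has type `{n}` iff its union is connected -/
theorem h20_typ_single (P Q : PM V) (n : ℕ) :
    typ P Q = {n} ↔ Nonempty V ∧ (∀ x y, Conn P Q x y) ∧ Fintype.card V = 2 * n := by
  classical
  constructor
  · intro h
    have hcard : (blocks P Q).card = 1 := by
      have h1 := congrArg Multiset.card h
      simpa [typ] using h1
    obtain ⟨B, hB⟩ := Finset.card_eq_one.1 hcard
    have hmem : ∀ x, blk P Q x = B := by
      intro x
      have h1 : blk P Q x ∈ blocks P Q := Finset.mem_image_of_mem _ (Finset.mem_univ x)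
      rw [hB] at h1
      exact Finset.mem_singleton.1 h1
    refine ⟨?_, ?_, ?_⟩
    · have hne : B ∈ blocks P Q := by rw [hB]; exact Finset.mem_singleton_self B
      obtain ⟨x, _, _⟩ := Finset.mem_image.1 hne
      exact ⟨x⟩
    · intro x y
      have h1 : y ∈ blk P Q y := by
        rw [blk, Finset.mem_filter]
        exact ⟨Finset.mem_univ y, Relation.ReflTransGen.refl⟩
      rw [hmem y, ← hmem x, blk, Finset.mem_filter] at h1
      exact h1.2
    · rw [← typ_sum P Q, h, Multiset.sum_singleton]
  · rintro ⟨⟨x0⟩, hc, hn⟩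
    have hblk : ∀ x, blk P Q x = univ := by
      intro x
      rw [blk, Finset.filter_eq_self]
      intro y _
      exact hc x y
    have hb : blocks P Q = {univ} := by
      unfold blocks
      ext B
      rw [Finset.mem_image, Finset.mem_singleton]
      constructor
      · rintro ⟨x, _, rfl⟩
        exact hblk x
      · rintro rfl
        exact ⟨x0, Finset.mem_univ _, hblk x0⟩
    rw [typ, hb, Finset.singleton_val, Multiset.map_singleton, Finset.card_univ, hn]
    congr 1
    omega

omit [Fintype V] [DecidableEq V] in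
/-- a set closed under a fixed point free involution has even size -/
theorem h20_even (P : PM V) (T : Finset V) (h : ∀ x ∈ T, P.1 x ∈ T) : Even T.card := by
  have h1 : ∑ _x ∈ T, (1 : ZMod 2) = 0 := by
    refine Finset.sum_involution (fun x _ => P.1 x) ?_ ?_ ?_ ?_
    · intro x _
      decide
    · intro x _ _
      exact P.2.2 x
    · intro x hx
      exact h x hx
    · intro x _
      exact P.2.1 x
  rw [Finset.sum_const, nsmul_eq_mul, mul_one] at h1
  exact (ZMod.natCast_eq_zero_iff_even).1 h1

omit [Fintype V] in
/-- a set containing `y`, closed under `P`, and closed under `Q` except possibly at the edge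
of `y`, is everything when the union is connected -/
theorem h20_sweep (P Q : PM V) (hc : ∀ x x', Conn P Q x x') (T : Finset V) (y : V)
    (hy : y ∈ T) (hP : ∀ x ∈ T, P.1 x ∈ T)
    (hQ : ∀ x ∈ T, x ≠ y → Q.1 x ≠ y → Q.1 x ∈ T) : ∀ x, x ∈ T := by
  by_cases hQy : Q.1 y ∈ T
  · have hQ' : ∀ x ∈ T, Q.1 x ∈ T := by
      intro x hx
      by_cases h1 : x = y
      · rw [h1]; exact hQy
      · by_cases h2 : Q.1 x = y
        · rw [h2]; exact hy
        · exact hQ x hx h1 h2
    intro x
    have := hc y x
    induction this with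
    | refl => exact hy
    | tail _ h ih =>
      rcases h with h | h
      · rw [← h]; exact hP _ ih
      · rw [← h]; exact hQ' _ ih
  · exfalso
    have h1 : Even T.card := h20_even P T hP
    have h2 : Even (T.erase y).card := by
      apply h20_even Q
      intro x hx
      rw [Finset.mem_erase] at hx ⊢
      have h3 : Q.1 x ≠ y := by
        intro h3
        apply hQy
        rw [← h3, Q.2.1]
        exact hx.2
      exact ⟨h3, hQ x hx.2 hx.1 h3⟩
    have h3 := Finset.card_erase_add_one hy
    rw [← h3] at h1
    exact (Nat.even_add_one.1 h1) h2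

/-- crossing two edges in different components of a glued pair with two components gives
one component -/
theorem typ_cross (a b : ℕ) (S : Finset V) (P1 Q1 : PM {x // x ∈ S})
    (P2 Q2 : PM {x // x ∉ S}) (h1 : typ P1 Q1 = {a}) (h2 : typ P2 Q2 = {b})
    (y z : V) (hy : y ∈ S) (hz : z ∉ S) :
    typ (glue S P1 P2) (tr (Equiv.swap y z) (glue S Q1 Q2)) = {a + b} := by
  classical
  obtain ⟨-, hc1, hn1⟩ := (h20_typ_single P1 Q1 a).1 h1
  obtain ⟨-, hc2, hn2⟩ := (h20_typ_single P2 Q2 b).1 h2
  set P := glue S P1 P2 with hPdef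
  set Q := glue S Q1 Q2 with hQdef
  set R := tr (Equiv.swap y z) Q with hRdef
  have hyz : y ≠ z := by rintro rfl; exact hz hy
  have hPS : ∀ x : {x // x ∈ S}, P.1 x = P1.1 x := glue_left S P1 P2
  have hPT : ∀ x : {x // x ∉ S}, P.1 x = P2.1 x := glue_right S P1 P2
  have hQS : ∀ x : {x // x ∈ S}, Q.1 x = Q1.1 x := glue_left S Q1 Q2
  have hQT : ∀ x : {x // x ∉ S}, Q.1 x = Q2.1 x := glue_right S Q1 Q2
  have hQy : Q.1 y ∈ S := by
    have := hQS ⟨y, hy⟩
    simp only at this
    rw [this]
    exact (Q1.1 ⟨y, hy⟩).2
  have hR : ∀ x, x ≠ y → x ≠ z → Q.1 x ≠ y → Q.1 x ≠ z → R.1 x = Q.1 x := by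
    intro x hxy hxz hqy hqz
    rw [hRdef, tr_apply, Equiv.symm_swap, Equiv.swap_apply_of_ne_of_ne hxy hxz,
      Equiv.swap_apply_of_ne_of_ne hqy hqz]
  have hRQy : R.1 (Q.1 y) = z := by
    have e1 : Q.1 y ≠ y := Q.2.2 y
    have e2 : Q.1 y ≠ z := by intro h; rw [h] at hQy; exact hz hQy
    rw [hRdef, tr_apply, Equiv.symm_swap, Equiv.swap_apply_of_ne_of_ne e1 e2, Q.2.1,
      Equiv.swap_apply_left]
  -- everything in `S` is reached from `y`
  have hS : ∀ x, x ∈ S → Conn P R y x := by
    have key := h20_sweep P1 Q1 hc1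
      (univ.filter fun x : {x // x ∈ S} => Conn P R y x) ⟨y, hy⟩
      (by
        rw [Finset.mem_filter]
        exact ⟨Finset.mem_univ _, Relation.ReflTransGen.refl⟩)
      (by
        intro x hx
        rw [Finset.mem_filter] at hx ⊢
        refine ⟨Finset.mem_univ _, hx.2.tail (Or.inl ?_)⟩
        exact hPS x)
      (by
        intro x hx hxy hqy
        rw [Finset.mem_filter] at hx ⊢
        refine ⟨Finset.mem_univ _, hx.2.tail (Or.inr ?_)⟩
        rw [hR]
        · exact hQS x
        · intro h; exact hxy (Subtype.ext h)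
        · intro h
          exact hz (h ▸ x.2)
        · rw [hQS x]
          intro h
          exact hqy (Subtype.ext h)
        · rw [hQS x]
          intro h
          exact hz (h ▸ (Q1.1 x).2))
    intro x hx
    have := key ⟨x, hx⟩
    rw [Finset.mem_filter] at this
    exact this.2
  have hyz' : Conn P R y z := (hS _ hQy).tail (Or.inr hRQy)
  have hT : ∀ x, x ∉ S → Conn P R y x := by
    have key := h20_sweep P2 Q2 hc2
      (univ.filter fun x : {x // x ∉ S} => Conn P R y x) ⟨z, hz⟩
      (by
        rw [Finset.mem_filter]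
        exact ⟨Finset.mem_univ _, hyz'⟩)
      (by
        intro x hx
        rw [Finset.mem_filter] at hx ⊢
        refine ⟨Finset.mem_univ _, hx.2.tail (Or.inl ?_)⟩
        exact hPT x)
      (by
        intro x hx hxz hqz
        rw [Finset.mem_filter] at hx ⊢
        refine ⟨Finset.mem_univ _, hx.2.tail (Or.inr ?_)⟩
        rw [hR]
        · exact hQT x
        · intro h
          exact x.2 (h ▸ hy)
        · intro h; exact hxz (Subtype.ext h)
        · rw [hQT x]
          intro h
          exact (Q2.1 x).2 (h ▸ hy)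
        · rw [hQT x]
          intro h
          exact hqz (Subtype.ext h))
    intro x hx
    have := key ⟨x, hx⟩
    rw [Finset.mem_filter] at this
    exact this.2
  have hall : ∀ x, Conn P R y x := by
    intro x
    by_cases hx : x ∈ S
    · exact hS x hx
    · exact hT x hx
  rw [h20_typ_single]
  refine ⟨⟨y⟩, fun x x' => (h20_conn_symm P R (hall x)).trans (hall x'), ?_⟩
  have h3 := card_out S
  have h4 := card_in S
  omega

end Pool.Agent.Helper23.MS
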