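import Pool.Agent.Helper23.MS.Cross

/-! # MS-18b: pairs of matchings with one component -/

open scoped BigOperators Nat
open Finset

namespace Pool.Agent.Helper23.MS

variable {V : Type} [Fintype V] [DecidableEq V]

/-- first matching of the model cycle -/
def h20_P0 (n : ℕ) : PM (ZMod n × Bool) :=
  ⟨{ toFun := fun x => (x.1, !x.2)
     invFun := fun x => (x.1, !x.2)
     left_inv := by rintro ⟨k, b⟩; simp
     right_inv := by rintro ⟨k, b⟩; simp }, by
    constructor
    · rintro ⟨k, b⟩; simp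
    · rintro ⟨k, b⟩ h
      have := congrArg Prod.snd h
      simp at this⟩

/-- second matching of the model cycle -/
def h20_Q0 (n : ℕ) : PM (ZMod n × Bool) :=
  ⟨{ toFun := fun x => (bif x.2 then x.1 - 1 else x.1 + 1, !x.2)
     invFun := fun x => (bif x.2 then x.1 - 1 else x.1 + 1, !x.2)
     left_inv := by rintro ⟨k, b⟩; cases b <;> simp
     right_inv := by rintro ⟨k, b⟩; cases b <;> simp }, by
    constructor
    · rintro ⟨k, b⟩; cases b <;> simp
    · rintro ⟨k, b⟩ h
      have := congrArg Prod.snd h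
      simp at this⟩

theorem h20_model_conn (n : ℕ) (x y : ZMod n × Bool) : Conn (h20_P0 n) (h20_Q0 n) x y := by
  have hP : ∀ (k : ZMod n) (b : Bool), Conn (h20_P0 n) (h20_Q0 n) (k, b) (k, !b) :=
    fun k b => Relation.ReflTransGen.single (Or.inl rfl)
  have hPb : ∀ (k : ZMod n) (b c : Bool), Conn (h20_P0 n) (h20_Q0 n) (k, b) (k, c) := by
    intro k b c
    by_cases h : b = c
    · rw [h]; exact Relation.ReflTransGen.refl
    · have : c = !b := by revert h; cases b <;> cases c <;> simp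
      rw [this]; exact hP k b
  have hstep : ∀ k : ZMod n, Conn (h20_P0 n) (h20_Q0 n) (k, false) (k + 1, false) := by
    intro k
    have h1 : Conn (h20_P0 n) (h20_Q0 n) (k, false) (k + 1, true) :=
      Relation.ReflTransGen.single (Or.inr rfl)
    exact h1.trans (hPb _ _ _)
  have hnat : ∀ (m : ℕ) (k : ZMod n), Conn (h20_P0 n) (h20_Q0 n) (k, false) (k + m, false) := by
    intro m
    induction m with
    | zero => intro k; simpa using hPb k false false
    | succ m ih =>
      intro k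
      have h1 := (ih k).trans (hstep (k + m))
      rw [add_assoc] at h1
      push_cast
      exact h1
  have hint : ∀ (m : ℤ) (k : ZMod n), Conn (h20_P0 n) (h20_Q0 n) (k, false) (k + m, false) := by
    intro m k
    rcases Int.eq_nat_or_neg m with ⟨j, rfl | rfl⟩
    · have := hnat j k
      push_cast
      exact this
    · have h1 := hnat j (k + ((-(j : ℤ) : ℤ) : ZMod n))
      have h2 : k + ((-(j : ℤ) : ℤ) : ZMod n) + (j : ZMod n) = k := by push_cast; ring
      rw [h2] at h1
      exact h20_conn_symm _ _ h1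
  obtain ⟨k, b⟩ := x
  obtain ⟨l, c⟩ := y
  obtain ⟨i, hi⟩ := ZMod.intCast_surjective (l - k)
  have h1 := hint i k
  rw [hi, add_sub_cancel] at h1
  exact (hPb k b false).trans (h1.trans (hPb l false c))

theorem exists_one_cycle (n : ℕ) (hn : 1 ≤ n) (hV : Fintype.card V = 2 * n) :
    ∃ P Q : PM V, typ P Q = {n} := by
  have : NeZero n := ⟨by omega⟩
  have hcard : Fintype.card (ZMod n × Bool) = Fintype.card V := by
    rw [Fintype.card_prod, ZMod.card, Fintype.card_bool, hV]
    ring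
  let e : ZMod n × Bool ≃ V := Fintype.equivOfCardEq hcard
  refine ⟨tr e (h20_P0 n), tr e (h20_Q0 n), ?_⟩
  rw [typ_tr, h20_typ_single]
  exact ⟨⟨(0, false)⟩, h20_model_conn n, by rw [hcard, hV]⟩

/-- a pair with one component is a transport of the model -/
theorem h20_exists_model (n : ℕ) (P Q : PM V) (h : typ P Q = {n}) :
    ∃ e : ZMod n × Bool ≃ V, tr e (h20_P0 n) = P ∧ tr e (h20_Q0 n) = Q := by
  classical
  obtain ⟨⟨x0⟩, hc, hn⟩ := (h20_typ_single P Q n).1 h
  set σ : Equiv.Perm V := P.1 * Q.1 with hσ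
  let F : ℤ → Bool → V := fun i b => bif b then P.1 ((σ ^ i) x0) else (σ ^ i) x0
  have hPP : P.1 * P.1 = 1 := by ext x; simp [P.2.1]
  have hQQ : Q.1 * Q.1 = 1 := by ext x; simp [Q.2.1]
  have hPi : P.1⁻¹ = P.1 := inv_eq_of_mul_eq_one_left hPP
  have hQi : Q.1⁻¹ = Q.1 := inv_eq_of_mul_eq_one_left hQQ
  have hσi : σ⁻¹ = Q.1 * P.1 := by rw [hσ, mul_inv_rev, hPi, hQi]
  have hconj : ∀ i : ℤ, P.1 * σ ^ i = σ ^ (-i) * P.1 := by
    intro i
    have h1 : P.1 * σ * P.1⁻¹ = σ⁻¹ := by
      rw [hσi, hσ, hPi, ← mul_assoc P.1 P.1, hPP, one_mul]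
    have h2 : P.1 * σ ^ i * P.1⁻¹ = σ ^ (-i) := by
      rw [← conj_zpow, h1, inv_zpow, zpow_neg]
    rw [← h2, inv_mul_cancel_right]
  have hconj' : ∀ (i : ℤ) (x : V), P.1 ((σ ^ i) x) = (σ ^ (-i)) (P.1 x) := by
    intro i x
    have := congrArg (fun g : Equiv.Perm V => g x) (hconj i)
    simpa [Equiv.Perm.mul_apply] using this
  have hFP : ∀ i b, P.1 (F i b) = F i (!b) := by
    intro i b
    cases b
    · rfl
    · exact P.2.1 _
  have hFQ0 : ∀ i, Q.1 (F i false) = F (i + 1) true := by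
    intro i
    show Q.1 ((σ ^ i) x0) = P.1 ((σ ^ (i + 1)) x0)
    rw [add_comm, zpow_add, zpow_one, Equiv.Perm.mul_apply, hσ, Equiv.Perm.mul_apply, P.2.1]
  have hFQ1 : ∀ i, Q.1 (F i true) = F (i - 1) false := by
    intro i
    show Q.1 (P.1 ((σ ^ i) x0)) = (σ ^ (i - 1)) x0
    rw [sub_eq_neg_add, zpow_add, zpow_neg, zpow_one, Equiv.Perm.mul_apply, hσi,
      Equiv.Perm.mul_apply]
  have hsurj : ∀ x, ∃ i b, F i b = x := by
    intro x
    have := hc x0 x
    induction this with
    | refl => exact ⟨0, false, by simp [F]⟩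
    | tail _ h ih =>
      obtain ⟨i, b, rfl⟩ := ih
      rcases h with h | h
      · exact ⟨i, !b, by rw [← h, hFP]⟩
      · cases b
        · exact ⟨i + 1, true, by rw [← h, hFQ0]⟩
        · exact ⟨i - 1, false, by rw [← h, hFQ1]⟩
  -- the two orbits are disjoint
  have hdisj : ∀ i j : ℤ, P.1 ((σ ^ i) x0) ≠ (σ ^ j) x0 := by
    intro i j hij
    rw [hconj'] at hij
    have h1 : P.1 x0 = (σ ^ (i + j)) x0 := by
      rw [zpow_add, Equiv.Perm.mul_apply, ← hij, ← Equiv.Perm.mul_apply, ← zpow_add]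
      simp
    rcases Int.even_or_odd' (i + j) with ⟨m, hm | hm⟩
    · apply P.2.2 ((σ ^ m) x0)
      rw [hconj', h1, ← Equiv.Perm.mul_apply, ← zpow_add, hm]
      congr 2
      ring
    · apply Q.2.2 ((σ ^ m) x0)
      have h2 : P.1 ((σ ^ m) x0) = (σ ^ (m + 1)) x0 := by
        rw [hconj', h1, ← Equiv.Perm.mul_apply, ← zpow_add, hm]
        congr 2
        ring
      rw [add_comm, zpow_add, zpow_one, Equiv.Perm.mul_apply, hσ, Equiv.Perm.mul_apply] at h2
      exact (P.1.injective h2).symm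
  set d := Function.minimalPeriod (fun x => σ • x) x0 with hd
  have hper : ∀ i j : ℤ, (σ ^ i) x0 = (σ ^ j) x0 ↔ ((i : ZMod d) = (j : ZMod d)) := by
    intro i j
    rw [ZMod.intCast_eq_intCast_iff_dvd_sub, ← MulAction.zpow_smul_eq_iff_minimalPeriod_dvd]
    rw [Equiv.Perm.smul_def, sub_eq_neg_add, zpow_add, zpow_neg, Equiv.Perm.mul_apply,
      Equiv.Perm.inv_eq_iff_eq]
    exact eq_comm
  have hF : ∀ i b j c, F i b = F j c ↔ (((i : ZMod d), b) : ZMod d × Bool) = ((j : ZMod d), c) := by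
    intro i b j c
    rw [Prod.mk.injEq, ← hper]
    cases b <;> cases c
    · simp [F]
    · simp only [F, cond_true, cond_false, Bool.false_eq_true, and_false, iff_false]
      exact fun h => hdisj j i h.symm
    · simp only [F, cond_true, cond_false, Bool.true_eq_false, and_false, iff_false]
      exact hdisj i j
    · simp [F]
  let G : ZMod d × Bool → V := fun x => F (ZMod.cast x.1 : ℤ) x.2
  have hG : ∀ (i : ℤ) (b : Bool), G ((i : ZMod d), b) = F i b := by
    intro i b
    show F (ZMod.cast (i : ZMod d) : ℤ) b = F i b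
    rw [hF]
    simp
  have hGi : Function.Injective G := by
    rintro ⟨k, b⟩ ⟨l, c⟩ hkl
    obtain ⟨i, rfl⟩ := ZMod.intCast_surjective k
    obtain ⟨j, rfl⟩ := ZMod.intCast_surjective l
    rw [hG, hG, hF] at hkl
    exact hkl
  have hGs : Function.Surjective G := by
    intro x
    obtain ⟨i, b, rfl⟩ := hsurj x
    exact ⟨_, hG i b⟩
  let e : ZMod d × Bool ≃ V := Equiv.ofBijective G ⟨hGi, hGs⟩
  have hdn : d = n := by
    have h1 : Nat.card (ZMod d × Bool) = Fintype.card V := by
      rw [Nat.card_congr e, Nat.card_eq_fintype_card]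
    rw [Nat.card_prod, Nat.card_zmod, Nat.card_eq_fintype_card, Fintype.card_bool, hn] at h1
    omega
  rw [← hdn]
  refine ⟨e, ?_, ?_⟩
  · apply Subtype.ext
    ext x
    obtain ⟨y, rfl⟩ := e.surjective x
    rw [tr_apply, Equiv.symm_apply_apply]
    obtain ⟨k, b⟩ := y
    obtain ⟨i, rfl⟩ := ZMod.intCast_surjective k
    show G ((i : ZMod d), !b) = P.1 (G ((i : ZMod d), b))
    rw [hG, hG, hFP]
  · apply Subtype.ext
    ext x
    obtain ⟨y, rfl⟩ := e.surjective x
    rw [tr_apply, Equiv.symm_apply_apply]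
    obtain ⟨k, b⟩ := y
    obtain ⟨i, rfl⟩ := ZMod.intCast_surjective k
    cases b
    · show G ((i : ZMod d) + 1, true) = Q.1 (G ((i : ZMod d), false))
      have : (i : ZMod d) + 1 = ((i + 1 : ℤ) : ZMod d) := by push_cast; rfl
      rw [this, hG, hG, hFQ0]
    · show G ((i : ZMod d) - 1, false) = Q.1 (G ((i : ZMod d), true))
      have : (i : ZMod d) - 1 = ((i - 1 : ℤ) : ZMod d) := by push_cast; rfl
      rw [this, hG, hG, hFQ1]

/-- pairs of matchings with one component are conjugate -/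
theorem exists_tr_pair (n : ℕ) (P Q P' Q' : PM V) (h : typ P Q = {n})
    (h' : typ P' Q' = {n}) : ∃ g : Equiv.Perm V, tr g P = P' ∧ tr g Q = Q' := by
  obtain ⟨e, h1, h2⟩ := h20_exists_model n P Q h
  obtain ⟨e', h1', h2'⟩ := h20_exists_model n P' Q' h'
  refine ⟨e.symm.trans e', ?_, ?_⟩
  · rw [← h1, ← h1']
    apply Subtype.ext
    ext x
    simp
  · rw [← h2, ← h2']
    apply Subtype.ext
    ext x
    simp

end Pool.Agent.Helper23.MS
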