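import Pool.Agent.Helper23.MS.Cross
import Pool.Agent.Helper23.MS.OneCycle

/-! # MS-18c: the crossing identity -/

open scoped BigOperators Nat
open Finset

namespace Pool.Agent.Helper23.MS

variable {V : Type} [Fintype V] [DecidableEq V]

open Classical in
/-- weight of the pairs of glued matchings equal to a given pair -/
private noncomputable def KK (a b : ℕ) (S : Finset V) (P R : PM V) : ℝ :=
  ∑ P1 : PM {x // x ∈ S}, ∑ Q1 : PM {x // x ∈ S},
    ∑ P2 : PM {x // x ∉ S}, ∑ Q2 : PM {x // x ∉ S},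
      if glue S P1 P2 = P ∧ glue S Q1 Q2 = R then kern {a} P1 Q1 * kern {b} P2 Q2 else 0

private theorem KK_nonneg (a b : ℕ) (S : Finset V) (P R : PM V) : 0 ≤ KK a b S P R := by
  classical
  unfold KK
  refine sum_nonneg fun P1 _ => sum_nonneg fun Q1 _ => sum_nonneg fun P2 _ =>
    sum_nonneg fun Q2 _ => ?_
  split_ifs
  · exact mul_nonneg (kern_nonneg _ _ _) (kern_nonneg _ _ _)
  · exact le_rfl

omit [Fintype V] in
private theorem tr_swap_swap (y z : V) (Q : PM V) :
    tr (Equiv.swap y z) (tr (Equiv.swap y z) Q) = Q := by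
  apply Subtype.ext
  apply Equiv.ext
  intro x
  simp

private theorem sum_KK (a b : ℕ) (S : Finset V) (y z : V) (f g : PM V → ℝ) :
    ∑ P1 : PM {x // x ∈ S}, ∑ Q1 : PM {x // x ∈ S},
          ∑ P2 : PM {x // x ∉ S}, ∑ Q2 : PM {x // x ∉ S},
            kern {a} P1 Q1 * kern {b} P2 Q2 * f (glue S P1 P2) *
              g (tr (Equiv.swap y z) (glue S Q1 Q2)) =
      ∑ P : PM V, ∑ Q : PM V, KK a b S P (tr (Equiv.swap y z) Q) * f P * g Q := by
  classical
  have h1 : ∀ P : PM V, ∑ Q : PM V, KK a b S P (tr (Equiv.swap y z) Q) * f P * g Q =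
      ∑ R : PM V, KK a b S P R * f P * g (tr (Equiv.swap y z) R) := by
    intro P
    rw [← sum_tr (Equiv.swap y z) (fun R => KK a b S P R * f P *
      g (tr (Equiv.swap y z) R))]
    refine sum_congr rfl fun Q _ => ?_
    rw [tr_swap_swap]
  rw [sum_congr rfl fun P _ => h1 P]
  unfold KK
  simp only [sum_mul]
  symm
  -- move the sums over P and R inside
  calc ∑ P : PM V, ∑ R : PM V, ∑ P1 : PM {x // x ∈ S}, ∑ Q1 : PM {x // x ∈ S},
          ∑ P2 : PM {x // x ∉ S}, ∑ Q2 : PM {x // x ∉ S},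
            (if glue S P1 P2 = P ∧ glue S Q1 Q2 = R then kern {a} P1 Q1 * kern {b} P2 Q2
              else 0) * f P * g (tr (Equiv.swap y z) R)
      = ∑ P1 : PM {x // x ∈ S}, ∑ Q1 : PM {x // x ∈ S},
          ∑ P2 : PM {x // x ∉ S}, ∑ Q2 : PM {x // x ∉ S}, ∑ P : PM V, ∑ R : PM V,
            (if glue S P1 P2 = P ∧ glue S Q1 Q2 = R then kern {a} P1 Q1 * kern {b} P2 Q2
              else 0) * f P * g (tr (Equiv.swap y z) R) := by
        have e1 : ∀ P : PM V, ∑ R : PM V, ∑ P1 : PM {x // x ∈ S}, ∑ Q1 : PM {x // x ∈ S},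
          ∑ P2 : PM {x // x ∉ S}, ∑ Q2 : PM {x // x ∉ S},
            (if glue S P1 P2 = P ∧ glue S Q1 Q2 = R then kern {a} P1 Q1 * kern {b} P2 Q2
              else 0) * f P * g (tr (Equiv.swap y z) R) =
            ∑ P1 : PM {x // x ∈ S}, ∑ Q1 : PM {x // x ∈ S},
          ∑ P2 : PM {x // x ∉ S}, ∑ Q2 : PM {x // x ∉ S}, ∑ R : PM V,
            (if glue S P1 P2 = P ∧ glue S Q1 Q2 = R then kern {a} P1 Q1 * kern {b} P2 Q2
              else 0) * f P * g (tr (Equiv.swap y z) R) := by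
          intro P
          rw [sum_comm]
          refine sum_congr rfl fun P1 _ => ?_
          rw [sum_comm]
          refine sum_congr rfl fun Q1 _ => ?_
          rw [sum_comm]
          refine sum_congr rfl fun P2 _ => ?_
          rw [sum_comm]
        rw [sum_congr rfl fun P _ => e1 P]
        rw [sum_comm]
        refine sum_congr rfl fun P1 _ => ?_
        rw [sum_comm]
        refine sum_congr rfl fun Q1 _ => ?_
        rw [sum_comm]
        refine sum_congr rfl fun P2 _ => ?_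
        rw [sum_comm]
    _ = _ := by
        refine sum_congr rfl fun P1 _ => sum_congr rfl fun Q1 _ => sum_congr rfl fun P2 _ =>
          sum_congr rfl fun Q2 _ => ?_
        rw [sum_eq_single (glue S P1 P2)]
        · rw [sum_eq_single (glue S Q1 Q2)]
          · simp
          · intro R _ hR
            rw [if_neg (fun h => hR h.2.symm)]
            ring
          · intro h; exact absurd (mem_univ _) h
        · intro P _ hP
          refine sum_eq_zero fun R _ => ?_
          rw [if_neg (fun h => hP h.1.symm)]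
          ring
        · intro h; exact absurd (mem_univ _) h

private theorem tr_glue (S : Finset V) (g : Equiv.Perm V)
    (h1 : ∀ x, x ∈ S ↔ g x ∈ S.map g.toEmbedding)
    (h2 : ∀ x, x ∉ S ↔ g x ∉ S.map g.toEmbedding)
    (P1 : PM {x // x ∈ S}) (P2 : PM {x // x ∉ S}) :
    tr g (glue S P1 P2) = glue (S.map g.toEmbedding)
      (tr (g.subtypeEquiv h1) P1) (tr (g.subtypeEquiv h2) P2) := by
  apply Subtype.ext
  apply Equiv.ext
  intro x
  obtain ⟨w, rfl⟩ := g.surjective x
  have e0 : (tr g (glue S P1 P2)).1 (g w) = g ((glue S P1 P2).1 w) := by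
    rw [tr_apply, Equiv.symm_apply_apply]
  rw [e0]
  by_cases hw : w ∈ S
  · have e1 : (glue S P1 P2).1 w = P1.1 ⟨w, hw⟩ := by
      change Equiv.Perm.subtypeCongr P1.1 P2.1 w = _
      rw [Equiv.Perm.subtypeCongr.left_apply _ _ hw]
    have e2 : (glue (S.map g.toEmbedding)
      (tr (g.subtypeEquiv h1) P1) (tr (g.subtypeEquiv h2) P2)).1 (g w) =
        (tr (g.subtypeEquiv h1) P1).1 ⟨g w, (h1 w).1 hw⟩ := by
      change Equiv.Perm.subtypeCongr (tr (g.subtypeEquiv h1) P1).1 _ (g w) = _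
      rw [Equiv.Perm.subtypeCongr.left_apply _ _ ((h1 w).1 hw)]
    rw [e1, e2, tr_apply]
    have e3 : (g.subtypeEquiv h1).symm ⟨g w, (h1 w).1 hw⟩ = ⟨w, hw⟩ := by
      rw [Equiv.symm_apply_eq]; rfl
    rw [e3]; rfl
  · have e1 : (glue S P1 P2).1 w = P2.1 ⟨w, hw⟩ := by
      change Equiv.Perm.subtypeCongr P1.1 P2.1 w = _
      rw [Equiv.Perm.subtypeCongr.right_apply _ _ hw]
    have e2 : (glue (S.map g.toEmbedding)
      (tr (g.subtypeEquiv h1) P1) (tr (g.subtypeEquiv h2) P2)).1 (g w) =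
        (((tr (g.subtypeEquiv h2) P2).1 ⟨g w, (h2 w).1 hw⟩ :
          {x // x ∉ S.map g.toEmbedding}) : V) := by
      change Equiv.Perm.subtypeCongr _ (tr (g.subtypeEquiv h2) P2).1 (g w) = _
      rw [Equiv.Perm.subtypeCongr.right_apply _ _ ((h2 w).1 hw)]
    rw [e1, e2, tr_apply]
    have e3 : (g.subtypeEquiv h2).symm (⟨g w, (h2 w).1 hw⟩ :
        {x // x ∉ S.map g.toEmbedding}) = (⟨w, hw⟩ : {x // x ∉ S}) := by
      rw [Equiv.symm_apply_eq]; rfl
    rw [e3]; rfl

omit [Fintype V] [DecidableEq V] in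
private theorem tr_injective (g : Equiv.Perm V) (P Q : PM V) (h : tr g P = tr g Q) :
    P = Q := by
  apply Subtype.ext
  apply Equiv.ext
  intro x
  have := congrArg (fun R : PM V => R.1 (g x)) h
  simp only [tr_apply, Equiv.symm_apply_apply] at this
  exact g.injective this

private theorem kern_tr {W : Type} [Fintype W] [DecidableEq W] {U : Type} [Fintype U]
    [DecidableEq U] (ν : Multiset ℕ) (e : U ≃ W) (P Q : PM U) :
    kern ν (tr e P) (tr e Q) = kern ν P Q := by
  unfold kern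
  rw [typ_tr]

private theorem KK_tr (a b : ℕ) (S : Finset V) (g : Equiv.Perm V) (P R : PM V) :
    KK a b (S.map g.toEmbedding) (tr g P) (tr g R) = KK a b S P R := by
  classical
  have h1 : ∀ x, x ∈ S ↔ g x ∈ S.map g.toEmbedding := by intro x; simp
  have h2 : ∀ x, x ∉ S ↔ g x ∉ S.map g.toEmbedding := by intro x; simp
  unfold KK
  rw [← sum_tr (g.subtypeEquiv h1)]
  refine sum_congr rfl fun P1 _ => ?_
  rw [← sum_tr (g.subtypeEquiv h1)]
  refine sum_congr rfl fun Q1 _ => ?_
  rw [← sum_tr (g.subtypeEquiv h2)]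
  refine sum_congr rfl fun P2 _ => ?_
  rw [← sum_tr (g.subtypeEquiv h2)]
  refine sum_congr rfl fun Q2 _ => ?_
  rw [← tr_glue S g h1 h2, ← tr_glue S g h1 h2, kern_tr, kern_tr]
  by_cases h : glue S P1 P2 = P ∧ glue S Q1 Q2 = R
  · rw [if_pos h, if_pos ⟨by rw [h.1], by rw [h.2]⟩]
  · rw [if_neg h, if_neg]
    intro h'
    exact h ⟨tr_injective g _ _ h'.1, tr_injective g _ _ h'.2⟩

/-- the weight of a pair in the crossing identity -/
private noncomputable def kap (a b : ℕ) (P Q : PM V) : ℝ :=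
  ∑ S ∈ univ.filter (fun S : Finset V => S.card = 2 * a), ∑ y ∈ S, ∑ z ∈ Sᶜ,
    KK a b S P (tr (Equiv.swap y z) Q)

private theorem kap_tr (a b : ℕ) (g : Equiv.Perm V) (P Q : PM V) :
    kap a b (tr g P) (tr g Q) = kap a b P Q := by
  classical
  unfold kap
  symm
  refine sum_bij (fun S _ => S.map g.toEmbedding) ?_ ?_ ?_ ?_
  · intro S hS
    simp only [mem_filter, mem_univ, true_and, card_map] at hS ⊢
    exact hS
  · intro S _ T _ h
    exact map_injective _ h
  · intro T hT
    simp only [mem_filter, mem_univ, true_and] at hT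
    refine ⟨T.map g.symm.toEmbedding, ?_, ?_⟩
    · simp [hT]
    · ext x; simp
  · intro S _
    rw [sum_map]
    refine sum_congr rfl fun y _ => ?_
    have hc : (S.map g.toEmbedding)ᶜ = Sᶜ.map g.toEmbedding := by
      ext x; simp
    rw [hc, sum_map]
    refine sum_congr rfl fun z _ => ?_
    have e : tr (Equiv.swap (g.toEmbedding y) (g.toEmbedding z)) (tr g Q) =
        tr g (tr (Equiv.swap y z) Q) := by
      apply Subtype.ext
      apply Equiv.ext
      intro x
      simp only [tr_apply, Equiv.symm_swap, Equiv.coe_toEmbedding]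
      have k1 : ∀ w, Equiv.swap (g y) (g z) (g w) = g (Equiv.swap y z w) := by
        intro w
        exact (g.injective.map_swap y z w).symm
      have k2 : ∀ w, g.symm (Equiv.swap (g y) (g z) w) = Equiv.swap y z (g.symm w) := by
        intro w
        rw [Equiv.symm_apply_eq, ← k1, Equiv.apply_symm_apply]
      rw [k1, k2]
    rw [e, KK_tr]

private theorem kap_nonneg (a b : ℕ) (P Q : PM V) : 0 ≤ kap a b P Q :=
  sum_nonneg fun _ _ => sum_nonneg fun _ _ => sum_nonneg fun _ _ => KK_nonneg _ _ _ _ _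

private theorem kap_zero (a b : ℕ) (P Q : PM V) (h : typ P Q ≠ {a + b}) :
    kap a b P Q = 0 := by
  classical
  unfold kap
  refine sum_eq_zero fun S _ => sum_eq_zero fun y hy => sum_eq_zero fun z hz => ?_
  unfold KK
  refine sum_eq_zero fun P1 _ => sum_eq_zero fun Q1 _ => sum_eq_zero fun P2 _ =>
    sum_eq_zero fun Q2 _ => ?_
  split_ifs with hc
  · unfold kern
    by_cases h1 : typ P1 Q1 = {a}
    · by_cases h2 : typ P2 Q2 = {b}
      · exfalso
        apply h
        have := typ_cross a b S P1 Q1 P2 Q2 h1 h2 y z hy (by simpa using hz)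
        rw [hc.1, hc.2, tr_swap_swap] at this
        exact this
      · simp [h2]
    · simp [h1]
  · rfl

/-- the crossing identity -/
theorem crossing (a b : ℕ) (ha : 1 ≤ a) (hb : 1 ≤ b)
    (hV : Fintype.card V = 2 * (a + b)) : ∃ κ : ℝ, 0 < κ ∧ ∀ f g : PM V → ℝ,
    κ * ∑ P : PM V, ∑ Q : PM V, kern {a + b} P Q * f P * g Q =
      ∑ S ∈ univ.filter (fun S : Finset V => S.card = 2 * a), ∑ y ∈ S, ∑ z ∈ Sᶜ,
        ∑ P1 : PM {x // x ∈ S}, ∑ Q1 : PM {x // x ∈ S},
          ∑ P2 : PM {x // x ∉ S}, ∑ Q2 : PM {x // x ∉ S},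
            kern {a} P1 Q1 * kern {b} P2 Q2 * f (glue S P1 P2) *
              g (tr (Equiv.swap y z) (glue S Q1 Q2)) := by
  classical
  -- a base pair
  obtain ⟨S0, -, hS0⟩ := exists_subset_card_eq (s := (univ : Finset V)) (n := 2 * a)
    (by rw [card_univ, hV]; omega)
  have c1 : Fintype.card {x // x ∈ S0} = 2 * a := by
    rw [Fintype.card_coe, hS0]
  have c2 : Fintype.card {x // x ∉ S0} = 2 * b := by
    rw [Fintype.card_subtype_compl, Fintype.card_coe, hS0, hV]; omega
  obtain ⟨P1, Q1, h1⟩ := exists_one_cycle (V := {x // x ∈ S0}) a ha c1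
  obtain ⟨P2, Q2, h2⟩ := exists_one_cycle (V := {x // x ∉ S0}) b hb c2
  obtain ⟨y0, hy0⟩ : S0.Nonempty := by rw [← card_pos, hS0]; omega
  obtain ⟨z0, hz0⟩ : S0ᶜ.Nonempty := by
    rw [← card_pos, card_compl, hS0, hV]; omega
  have hz0' : z0 ∉ S0 := by simpa using hz0
  set P0 : PM V := glue S0 P1 P2 with hP0
  set Q0 : PM V := tr (Equiv.swap y0 z0) (glue S0 Q1 Q2) with hQ0
  have h0 : typ P0 Q0 = {a + b} := typ_cross a b S0 P1 Q1 P2 Q2 h1 h2 y0 z0 hy0 hz0'
  have hpos : 0 < kap a b P0 Q0 := by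
    have k1 : 0 < KK a b S0 P0 (tr (Equiv.swap y0 z0) Q0) := by
      unfold KK
      have k2 : (1 : ℝ) ≤ ∑ P1 : PM {x // x ∈ S0}, ∑ Q1 : PM {x // x ∈ S0},
          ∑ P2 : PM {x // x ∉ S0}, ∑ Q2 : PM {x // x ∉ S0},
          if glue S0 P1 P2 = P0 ∧ glue S0 Q1 Q2 = tr (Equiv.swap y0 z0) Q0 then
            kern {a} P1 Q1 * kern {b} P2 Q2 else 0 := by
        have nn : ∀ (P1 : PM {x // x ∈ S0}) (Q1 : PM {x // x ∈ S0})
          (P2 : PM {x // x ∉ S0}) (Q2 : PM {x // x ∉ S0}), (0 : ℝ) ≤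
          if glue S0 P1 P2 = P0 ∧ glue S0 Q1 Q2 = tr (Equiv.swap y0 z0) Q0 then
            kern {a} P1 Q1 * kern {b} P2 Q2 else 0 := by
          intro P1 Q1 P2 Q2
          split_ifs
          · exact mul_nonneg (kern_nonneg _ _ _) (kern_nonneg _ _ _)
          · exact le_rfl
        refine le_trans ?_ (single_le_sum (fun P1 _ => sum_nonneg fun Q1 _ =>
          sum_nonneg fun P2 _ => sum_nonneg fun Q2 _ => nn P1 Q1 P2 Q2) (mem_univ P1))
        refine le_trans ?_ (single_le_sum (fun Q1 _ =>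
          sum_nonneg fun P2 _ => sum_nonneg fun Q2 _ => nn P1 Q1 P2 Q2) (mem_univ Q1))
        refine le_trans ?_ (single_le_sum (fun P2 _ =>
          sum_nonneg fun Q2 _ => nn P1 Q1 P2 Q2) (mem_univ P2))
        refine le_trans ?_ (single_le_sum (fun Q2 _ => nn P1 Q1 P2 Q2) (mem_univ Q2))
        rw [if_pos ⟨rfl, by rw [hQ0, tr_swap_swap]⟩]
        unfold kern
        rw [if_pos h1, if_pos h2]; norm_num
      linarith
    unfold kap
    refine lt_of_lt_of_le k1 ?_
    refine le_trans ?_ (single_le_sum (fun S _ => sum_nonneg fun y _ =>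
      sum_nonneg fun z _ => KK_nonneg a b S P0 (tr (Equiv.swap y z) Q0))
      (show S0 ∈ univ.filter (fun S : Finset V => S.card = 2 * a) by simp [hS0]))
    refine le_trans ?_ (single_le_sum (fun y _ =>
      sum_nonneg fun z _ => KK_nonneg a b S0 P0 (tr (Equiv.swap y z) Q0)) hy0)
    exact single_le_sum (f := fun z => KK a b S0 P0 (tr (Equiv.swap y0 z) Q0))
      (fun z _ => KK_nonneg a b S0 P0 (tr (Equiv.swap y0 z) Q0)) hz0
  have hconst : ∀ P Q : PM V, kap a b P Q = kap a b P0 Q0 * kern {a + b} P Q := by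
    intro P Q
    unfold kern
    split_ifs with h
    · obtain ⟨g, hg1, hg2⟩ := exists_tr_pair (a + b) P0 Q0 P Q h0 h
      rw [mul_one, ← hg1, ← hg2, kap_tr]
    · rw [mul_zero]; exact kap_zero a b P Q h
  refine ⟨kap a b P0 Q0, hpos, fun f g => ?_⟩
  have hR : ∑ S ∈ univ.filter (fun S : Finset V => S.card = 2 * a), ∑ y ∈ S, ∑ z ∈ Sᶜ,
        ∑ P1 : PM {x // x ∈ S}, ∑ Q1 : PM {x // x ∈ S},
          ∑ P2 : PM {x // x ∉ S}, ∑ Q2 : PM {x // x ∉ S},
            kern {a} P1 Q1 * kern {b} P2 Q2 * f (glue S P1 P2) *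
              g (tr (Equiv.swap y z) (glue S Q1 Q2)) =
      ∑ P : PM V, ∑ Q : PM V, kap a b P Q * f P * g Q := by
    calc _ = ∑ S ∈ univ.filter (fun S : Finset V => S.card = 2 * a), ∑ y ∈ S, ∑ z ∈ Sᶜ,
        ∑ P : PM V, ∑ Q : PM V, KK a b S P (tr (Equiv.swap y z) Q) * f P * g Q := by
          refine sum_congr rfl fun S _ => sum_congr rfl fun y _ => sum_congr rfl fun z _ => ?_
          exact sum_KK a b S y z f g
      _ = ∑ P : PM V, ∑ S ∈ univ.filter (fun S : Finset V => S.card = 2 * a), ∑ y ∈ S,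
          ∑ z ∈ Sᶜ, ∑ Q : PM V, KK a b S P (tr (Equiv.swap y z) Q) * f P * g Q := by
          symm
          rw [sum_comm]
          refine sum_congr rfl fun S _ => ?_
          rw [sum_comm]
          refine sum_congr rfl fun y _ => ?_
          rw [sum_comm]
      _ = _ := by
          refine sum_congr rfl fun P _ => ?_
          symm
          unfold kap
          simp only [sum_mul]
          rw [sum_comm]
          refine sum_congr rfl fun S _ => ?_
          rw [sum_comm]
          refine sum_congr rfl fun y _ => ?_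
          rw [sum_comm]
  rw [hR, mul_sum]
  refine sum_congr rfl fun P _ => ?_
  rw [mul_sum]
  refine sum_congr rfl fun Q _ => ?_
  rw [hconst P Q]; ring

end Pool.Agent.Helper23.MS
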