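import Pool.Agent.Helper23.MS.Basic
import Pool.Agent.Helper23.MS.GlueBasic
import Pool.Agent.Helper23.MS.Count

/-! # MS-15a: the weights of the averages over two and three edges -/

open scoped BigOperators Nat
open Finset

namespace Pool.Agent.Helper23.MS

set_option linter.unusedSectionVars false

variable {V : Type} [Fintype V] [DecidableEq V]

private theorem glue_agree (S : Finset V) (P1 Q1 : PM {x // x ∈ S})
    (P2 Q2 : PM {x // x ∉ S}) :
    (∀ x, x ∉ S → (glue S Q1 Q2).1 x = (glue S P1 P2).1 x) ↔ Q2 = P2 := by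
  constructor
  · intro h
    apply Subtype.ext
    apply Equiv.ext
    intro x
    have := h x.1 x.2
    rw [glue_right, glue_right] at this
    exact Subtype.ext this
  · rintro rfl x hx
    have e1 := glue_right S Q1 Q2 ⟨x, hx⟩
    have e2 := glue_right S P1 Q2 ⟨x, hx⟩
    rw [e1, e2]

private theorem Cl_compl {P : PM V} {S : Finset V} (h : Cl P S) (x : V) (hx : x ∉ S) :
    P.1 x ∉ S := by
  intro h'
  have := h _ h'
  rw [P.2.1] at this
  exact hx this

private theorem Cl_of_agree {P Q : PM V} {S : Finset V} (h : Cl P S)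
    (ha : ∀ x, x ∉ S → Q.1 x = P.1 x) : Cl Q S := by
  intro x hx
  by_contra hc
  have h1 := ha _ hc
  rw [Q.2.1] at h1
  exact Cl_compl h _ hc (h1 ▸ hx)

private theorem Cl_glue (S : Finset V) (P1 : PM {x // x ∈ S}) (P2 : PM {x // x ∉ S}) :
    Cl (glue S P1 P2) S := by
  intro x hx
  have := glue_left S P1 P2 ⟨x, hx⟩
  rw [this]
  exact (P1.1 ⟨x, hx⟩).2

open Classical in
private theorem sum_agree (S : Finset V) (P1 : PM {x // x ∈ S}) (P2 : PM {x // x ∉ S})
    (F : PM V → ℝ) :
    (∑ Q : PM V, if (∀ x, x ∉ S → Q.1 x = (glue S P1 P2).1 x) then F Q else 0) =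
      ∑ Q1 : PM {x // x ∈ S}, F (glue S Q1 P2) := by
  have h1 : ∀ Q : PM V,
      (if (∀ x, x ∉ S → Q.1 x = (glue S P1 P2).1 x) then F Q else 0) =
      if Cl Q S then (if (∀ x, x ∉ S → Q.1 x = (glue S P1 P2).1 x) then F Q else 0)
        else 0 := by
    intro Q
    by_cases h : ∀ x, x ∉ S → Q.1 x = (glue S P1 P2).1 x
    · rw [if_pos h, if_pos (Cl_of_agree (Cl_glue S P1 P2) h)]
    · rw [if_neg h]; simp
  rw [sum_congr rfl fun Q _ => h1 Q]
  rw [sum_closed S (fun Q => if (∀ x, x ∉ S → Q.1 x = (glue S P1 P2).1 x) then F Q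
    else 0)]
  refine sum_congr rfl fun Q1 _ => ?_
  rw [sum_eq_single P2]
  · rw [if_pos ((glue_agree S P1 Q1 P2 P2).2 rfl)]
  · intro Q2 _ h2
    rw [if_neg (fun h => h2 ((glue_agree S P1 Q1 P2 Q2).1 h))]
  · intro h; exact absurd (mem_univ _) h

private theorem Ex_glue (S : Finset V) (P1 : PM {x // x ∈ S}) (P2 : PM {x // x ∉ S})
    (f : PM V → ℝ) :
    Ex f S (glue S P1 P2) = (∑ Q1 : PM {x // x ∈ S}, f (glue S Q1 P2)) /
      (Fintype.card (PM {x // x ∈ S}) : ℝ) := by
  classical
  unfold Ex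
  rw [sum_agree S P1 P2 f, sum_agree S P1 P2 (fun _ => 1)]
  simp

/-- the weight in terms of gluing -/
theorem Wt_glue (a : ℕ) (f : PM V → ℝ) :
    Wt a f = ∑ S ∈ univ.filter (fun S : Finset V => S.card = 2 * a),
      (∑ P2 : PM {x // x ∉ S}, (∑ P1 : PM {x // x ∈ S}, f (glue S P1 P2)) ^ 2) /
        (Fintype.card (PM {x // x ∈ S}) : ℝ) := by
  classical
  unfold Wt
  rw [sum_filter]
  refine sum_congr rfl fun S _ => ?_
  by_cases hS : S.card = 2 * a
  · rw [if_pos hS]
    have h1 : ∀ P : PM V, (if S.card = 2 * a ∧ Cl P S then Ex f S P ^ 2 else 0) =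
        if Cl P S then Ex f S P ^ 2 else 0 := by
      intro P; simp [hS]
    rw [sum_congr rfl fun P _ => h1 P, sum_closed S (fun P => Ex f S P ^ 2)]
    rw [sum_comm, sum_div]
    refine sum_congr rfl fun P2 _ => ?_
    rw [sum_congr rfl fun P1 _ => by rw [Ex_glue]]
    rw [sum_const, nsmul_eq_mul, card_univ]
    by_cases hc : (Fintype.card (PM {x // x ∈ S}) : ℝ) = 0
    · rw [hc]; simp
    · field_simp
  · rw [if_neg hS]
    refine sum_eq_zero fun P _ => ?_
    rw [if_neg (fun h => hS h.1)]

open Classical in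
/-- the vertices at which two matchings differ -/
private noncomputable def df (P Q : PM V) : Finset V := univ.filter (fun x => P.1 x ≠ Q.1 x)

private theorem mem_df (P Q : PM V) (x : V) : x ∈ df P Q ↔ P.1 x ≠ Q.1 x := by
  unfold df; simp

private theorem df_Cl (P Q : PM V) : Cl P (df P Q) := by
  intro x hx
  rw [mem_df] at hx ⊢
  intro h
  rw [P.2.1] at h
  apply hx
  have := congrArg Q.1 h
  rw [Q.2.1] at this
  exact this.symm

private theorem Cl_even (P : PM V) (S : Finset V) (h : Cl P S) : Even S.card := by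
  classical
  have h1 : ∑ x ∈ S, (1 : ZMod 2) = 0 := by
    refine sum_involution (fun x _ => P.1 x) ?_ ?_ ?_ ?_
    · intro x _; decide
    · intro x _ _; exact P.2.2 x
    · intro x hx; exact h x hx
    · intro x _; exact P.2.1 x
  rw [sum_const, nsmul_eq_mul, mul_one] at h1
  exact (ZMod.natCast_eq_zero_iff_even).1 h1

private theorem df_card_ne_two (P Q : PM V) : (df P Q).card ≠ 2 := by
  classical
  intro h
  obtain ⟨x, hx⟩ : (df P Q).Nonempty := by rw [← card_pos]; omega
  have hxP := df_Cl P Q x hx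
  have hQc : Cl Q (df P Q) := by
    refine Cl_of_agree (df_Cl P Q) ?_
    intro z hz
    by_contra hc
    exact hz ((mem_df P Q z).2 (fun e => hc e.symm))
  have hxQ := hQc x hx
  have hne := (mem_df P Q x).1 hx
  have h3 : ({x, P.1 x, Q.1 x} : Finset V) ⊆ df P Q := by
    intro z hz
    simp only [mem_insert, mem_singleton] at hz
    rcases hz with rfl | rfl | rfl
    · exact hx
    · exact hxP
    · exact hxQ
  have h4 := card_le_card h3
  rw [card_eq_three.2 ⟨x, P.1 x, Q.1 x, (P.2.2 x).symm, (Q.2.2 x).symm, hne, rfl⟩] at h4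
  omega

open Classical in
/-- number of closed sets of `2 a` vertices containing the difference set -/
private noncomputable def ct (a : ℕ) (P Q : PM V) : ℕ :=
  (univ.filter (fun S : Finset V => S.card = 2 * a ∧ Cl P S ∧ df P Q ⊆ S)).card

private theorem ct_eq (N : ℕ) (hV : Fintype.card V = 2 * N) (P Q : PM V) (t a : ℕ)
    (hT : (df P Q).card = 2 * t) (hta : t ≤ a) : ct a P Q = (N - t).choose (a - t) := by
  classical
  set T := df P Q with hTdef
  have hcl : Cl P T := df_Cl P Q
  have hg := gb_glue_restr P T hcl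
  set P2 := gbRestrOut P T hcl with hP2
  have hP2v : ∀ x : {x // x ∉ T}, ((P2.1 x : {x // x ∉ T}) : V) = P.1 x := by
    intro x
    have := glue_right T (gbRestrIn P T hcl) P2 x
    rw [hg] at this
    exact this.symm
  have hc : Fintype.card {x // x ∉ T} = 2 * (N - t) := by
    have := card_out T
    omega
  rw [← card_closed (V := {x // x ∉ T}) (N - t) hc P2 (a - t)]
  unfold ct
  symm
  refine card_bij (fun (S' : Finset {x // x ∉ T}) _ =>
    T ∪ S'.map (Function.Embedding.subtype _)) ?_ ?_ ?_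
  · intro S' hS'
    simp only [mem_filter, mem_univ, true_and] at hS' ⊢
    refine ⟨?_, ?_, subset_union_left⟩
    · rw [card_union_of_disjoint, card_map, hS'.1, hT]
      · omega
      · rw [disjoint_left]
        intro x hx hx'
        rw [mem_map] at hx'
        obtain ⟨w, _, rfl⟩ := hx'
        exact w.2 hx
    · intro x hx
      rw [mem_union] at hx ⊢
      rcases hx with hx | hx
      · exact Or.inl (hcl x hx)
      · right
        rw [mem_map] at hx ⊢
        obtain ⟨w, hw, rfl⟩ := hx
        exact ⟨P2.1 w, hS'.2 w hw, hP2v w⟩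
  · intro S1 _ S2 _ h
    ext x
    have h1 : ∀ S' : Finset {x // x ∉ T}, x ∈ S' ↔
        (x : V) ∈ T ∪ S'.map (Function.Embedding.subtype _) := by
      intro S'
      rw [mem_union, mem_map]
      constructor
      · intro hx; exact Or.inr ⟨x, hx, rfl⟩
      · rintro (hx | ⟨w, hw, hwx⟩)
        · exact absurd hx x.2
        · have : w = x := Subtype.ext hwx
          exact this ▸ hw
    rw [h1 S1, h1 S2, h]
  · intro S hS
    simp only [mem_filter, mem_univ, true_and] at hS
    have hun : T ∪ (S.subtype (fun x => x ∉ T)).map (Function.Embedding.subtype _) = S := by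
      ext x
      rw [mem_union, mem_map]
      constructor
      · rintro (hx | ⟨w, hw, hwx⟩)
        · exact hS.2.2 hx
        · rw [mem_subtype] at hw
          rw [← hwx]; exact hw
      · intro hx
        by_cases hxT : x ∈ T
        · exact Or.inl hxT
        · exact Or.inr ⟨⟨x, hxT⟩, by rw [mem_subtype]; exact hx, rfl⟩
    refine ⟨S.subtype (fun x => x ∉ T), ?_, hun⟩
    simp only [mem_filter, mem_univ, true_and]
    constructor
    · have h1 : (T ∪ (S.subtype (fun x => x ∉ T)).map
          (Function.Embedding.subtype _)).card = 2 * a := by rw [hun]; exact hS.1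
      rw [card_union_of_disjoint, card_map, hT] at h1
      · omega
      · rw [disjoint_left]
        intro x hx hx'
        rw [mem_map] at hx'
        obtain ⟨w, _, rfl⟩ := hx'
        exact w.2 hx
    · intro w hw
      rw [mem_subtype] at hw ⊢
      rw [hP2v]
      exact hS.2.1 _ hw

private theorem ct_zero (P Q : PM V) (a : ℕ) (h : 2 * a < (df P Q).card) :
    ct a P Q = 0 := by
  classical
  unfold ct
  rw [card_eq_zero, filter_eq_empty_iff]
  rintro S _ ⟨h1, _, h3⟩
  have := card_le_card h3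
  omega

private theorem kd_df (d : ℕ) (P Q : PM V) :
    kd d P Q = if (df P Q).card = 2 * d then 1 else 0 := by
  unfold kd df
  rfl

private theorem eq_iff_df (P Q : PM V) : P = Q ↔ (df P Q).card = 0 := by
  rw [card_eq_zero]
  constructor
  · rintro rfl
    ext x; rw [mem_df]; simp
  · intro h
    apply Subtype.ext
    apply Equiv.ext
    intro x
    by_contra hc
    have := (mem_df P Q x).2 hc
    rw [h] at this
    exact absurd this (notMem_empty _)

private theorem df_even (P Q : PM V) : ∃ t, (df P Q).card = 2 * t := by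
  obtain ⟨t, ht⟩ := Cl_even P _ (df_Cl P Q)
  exact ⟨t, by omega⟩

open Classical in
private theorem ct_two (N : ℕ) (hV : Fintype.card V = 2 * N) (P Q : PM V) :
    (ct 2 P Q : ℝ) = (if P = Q then (N.choose 2 : ℝ) else 0) + kd 2 P Q := by
  obtain ⟨t, ht⟩ := df_even P Q
  have h2 := df_card_ne_two P Q
  rw [kd_df]
  have hPQ := eq_iff_df P Q
  rcases Nat.lt_or_ge 2 t with h | h
  · rw [ct_zero P Q 2 (by omega), if_neg (by rw [hPQ]; omega), if_neg (by omega)]
    simp
  · rw [ct_eq N hV P Q t 2 ht h]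
    interval_cases t
    · rw [if_pos (by rw [hPQ]; omega), if_neg (by omega)]
      simp
    · omega
    · rw [if_neg (by rw [hPQ]; omega), if_pos (by omega)]
      simp

open Classical in
private theorem ct_three (N : ℕ) (hV : Fintype.card V = 2 * N) (P Q : PM V) :
    (ct 3 P Q : ℝ) = (if P = Q then (N.choose 3 : ℝ) else 0) + ((N : ℝ) - 2) * kd 2 P Q +
      kd 3 P Q := by
  obtain ⟨t, ht⟩ := df_even P Q
  have h2 := df_card_ne_two P Q
  have hle : (df P Q).card ≤ Fintype.card V := card_le_univ _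
  rw [kd_df, kd_df]
  have hPQ := eq_iff_df P Q
  rcases Nat.lt_or_ge 3 t with h | h
  · rw [ct_zero P Q 3 (by omega), if_neg (by rw [hPQ]; omega), if_neg (by omega),
      if_neg (by omega)]
    simp
  · rw [ct_eq N hV P Q t 3 ht h]
    interval_cases t
    · rw [if_pos (by rw [hPQ]; omega), if_neg (by omega), if_neg (by omega)]
      simp
    · omega
    · rw [if_neg (by rw [hPQ]; omega), if_pos (by omega), if_neg (by omega)]
      have h1 : 2 ≤ N := by omega
      have h3 : (N - 2).choose (3 - 2) = N - 2 := by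
        rw [show 3 - 2 = 1 from rfl, Nat.choose_one_right]
      rw [h3, Nat.cast_sub h1]
      push_cast; ring
    · rw [if_neg (by rw [hPQ]; omega), if_neg (by omega), if_pos (by omega)]
      simp

open Classical in
private theorem sum_S (S : Finset V) (f : PM V → ℝ) :
    (∑ P2 : PM {x // x ∉ S}, (∑ P1 : PM {x // x ∈ S}, f (glue S P1 P2)) ^ 2) =
      ∑ P : PM V, ∑ Q : PM V, if Cl P S ∧ df P Q ⊆ S then f P * f Q else 0 := by
  classical
  have h1 : ∀ P : PM V, (∑ Q : PM V, if Cl P S ∧ df P Q ⊆ S then f P * f Q else 0) =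
      if Cl P S then f P * ∑ Q : PM V,
        (if (∀ x, x ∉ S → Q.1 x = P.1 x) then f Q else 0) else 0 := by
    intro P
    by_cases hP : Cl P S
    · rw [if_pos hP, mul_sum]
      refine sum_congr rfl fun Q _ => ?_
      have e : (Cl P S ∧ df P Q ⊆ S) ↔ (∀ x, x ∉ S → Q.1 x = P.1 x) := by
        constructor
        · rintro ⟨_, h⟩ x hx
          by_contra hc
          exact hx (h ((mem_df P Q x).2 (fun e => hc e.symm)))
        · intro h
          refine ⟨hP, fun x hx => ?_⟩
          by_contra hc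
          exact (mem_df P Q x).1 hx (h x hc).symm
      by_cases h : ∀ x, x ∉ S → Q.1 x = P.1 x
      · rw [if_pos (e.2 h), if_pos h]
      · rw [if_neg (fun h' => h (e.1 h')), if_neg h, mul_zero]
    · rw [if_neg hP]
      refine sum_eq_zero fun Q _ => ?_
      rw [if_neg (fun h => hP h.1)]
  rw [sum_congr rfl fun P _ => h1 P]
  rw [sum_closed S (fun P => f P * ∑ Q : PM V,
        (if (∀ x, x ∉ S → Q.1 x = P.1 x) then f Q else 0))]
  rw [sum_comm]
  refine sum_congr rfl fun P2 _ => ?_
  rw [sq, sum_mul]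
  refine sum_congr rfl fun P1 _ => ?_
  rw [sum_agree S P1 P2 f]

private theorem sum_all (a c : ℕ) (hc : ∀ S : Finset V, S.card = 2 * a →
    Fintype.card (PM {x // x ∈ S}) = c) (hc0 : c ≠ 0) (f : PM V → ℝ) :
    (c : ℝ) * Wt a f = ∑ P : PM V, ∑ Q : PM V, (ct a P Q : ℝ) * (f P * f Q) := by
  classical
  rw [Wt_glue, mul_sum]
  have hcR : (c : ℝ) ≠ 0 := by exact_mod_cast hc0
  have h1 : ∀ S ∈ univ.filter (fun S : Finset V => S.card = 2 * a),
      (c : ℝ) * ((∑ P2 : PM {x // x ∉ S}, (∑ P1 : PM {x // x ∈ S}, f (glue S P1 P2)) ^ 2) /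
        (Fintype.card (PM {x // x ∈ S}) : ℝ)) =
      ∑ P : PM V, ∑ Q : PM V, if Cl P S ∧ df P Q ⊆ S then f P * f Q else 0 := by
    intro S hS
    rw [mem_filter] at hS
    rw [hc S hS.2, sum_S S f, mul_div_cancel₀ _ hcR]
  rw [sum_congr rfl h1, sum_comm]
  refine sum_congr rfl fun P _ => ?_
  rw [sum_comm]
  refine sum_congr rfl fun Q _ => ?_
  unfold ct
  rw [← sum_filter, filter_filter, sum_const, nsmul_eq_mul]

private theorem card_PM_eq (n : ℕ) (S : Finset V) (hS : S.card = n) :
    Fintype.card (PM {x // x ∈ S}) = cnt 0 n := by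
  classical
  have h := card_ext (V := {x // x ∈ S}) 1 (fun x => rfl) ∅ (disjoint_empty_right _)
  rw [card_empty, Nat.sub_zero] at h
  have h2 : (1 : Equiv.Perm {x // x ∈ S}).support.card = 0 := by simp
  rw [h2, Nat.sub_zero, Fintype.card_coe, hS] at h
  rw [← h, ← card_univ]
  congr 1
  ext P
  simp only [mem_univ, mem_filter, true_and, true_iff]
  refine ⟨fun x hx => absurd rfl hx, fun x hx => absurd hx (notMem_empty _)⟩

theorem Wt_two (N : ℕ) (hV : Fintype.card V = 2 * N) (f : PM V → ℝ) :
    3 * Wt 2 f = (N.choose 2 : ℝ) * nrm f + quad (kd 2) f := by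
  classical
  have h := sum_all 2 3 (fun S hS => by
    rw [card_PM_eq (2 * 2) S hS]; rfl) (by norm_num) f
  push_cast at h
  rw [h]
  unfold nrm quad
  rw [mul_sum, ← sum_add_distrib]
  refine sum_congr rfl fun P _ => ?_
  have h2 : ∀ Q : PM V, (ct 2 P Q : ℝ) * (f P * f Q) =
      (if P = Q then (N.choose 2 : ℝ) * f P ^ 2 else 0) + kd 2 P Q * f P * f Q := by
    intro Q
    rw [ct_two N hV]
    by_cases e : P = Q
    · rw [if_pos e, if_pos e, ← e]; ring
    · rw [if_neg e, if_neg e]; ring
  rw [sum_congr rfl fun Q _ => h2 Q, sum_add_distrib]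
  simp

theorem Wt_three (N : ℕ) (hV : Fintype.card V = 2 * N) (f : PM V → ℝ) :
    15 * Wt 3 f = (N.choose 3 : ℝ) * nrm f + ((N : ℝ) - 2) * quad (kd 2) f +
      quad (kd 3) f := by
  classical
  have h := sum_all 3 15 (fun S hS => by
    rw [card_PM_eq (2 * 3) S hS]; rfl) (by norm_num) f
  push_cast at h
  rw [h]
  unfold nrm quad
  rw [mul_sum, mul_sum, ← sum_add_distrib, ← sum_add_distrib]
  refine sum_congr rfl fun P _ => ?_
  have h2 : ∀ Q : PM V, (ct 3 P Q : ℝ) * (f P * f Q) =
      (if P = Q then (N.choose 3 : ℝ) * f P ^ 2 else 0) +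
        (((N : ℝ) - 2) * (kd 2 P Q * f P * f Q) + kd 3 P Q * f P * f Q) := by
    intro Q
    rw [ct_three N hV]
    by_cases e : P = Q
    · rw [if_pos e, if_pos e, ← e]; ring
    · rw [if_neg e, if_neg e]; ring
  rw [sum_congr rfl fun Q _ => h2 Q, sum_add_distrib, sum_add_distrib, ← mul_sum]
  simp
  ring

end Pool.Agent.Helper23.MS
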