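import Pool.Agent.Helper23.MS.Basic
import Pool.Agent.Helper23.MS.GlueBasic

/-! # MS-15b: monotonicity of the weights -/

open scoped BigOperators Nat
open Finset

namespace Pool.Agent.Helper23.MS

variable {V : Type} [Fintype V] [DecidableEq V]

private lemma avg_fiber {α β : Type} [DecidableEq β] (C : Finset α) (h : α → β) (f : α → ℝ) :
    ∑ Q ∈ C, (∑ R ∈ C.filter (fun R => h R = h Q), f R) /
      ((C.filter (fun R => h R = h Q)).card : ℝ) = ∑ R ∈ C, f R := by
  have h1 : ∀ Q ∈ C, (∑ R ∈ C.filter (fun R => h R = h Q), f R) /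
      ((C.filter (fun R => h R = h Q)).card : ℝ) =
      ∑ R ∈ C, if h R = h Q then f R / ((C.filter (fun S => h S = h R)).card : ℝ) else 0 := by
    intro Q _
    rw [Finset.sum_div, Finset.sum_filter]
    refine Finset.sum_congr rfl fun R _ => ?_
    by_cases e : h R = h Q
    · simp [e]
    · simp [e]
  rw [Finset.sum_congr rfl h1, Finset.sum_comm]
  refine Finset.sum_congr rfl fun R hR => ?_
  rw [← Finset.sum_filter]
  have h2 : (C.filter (fun Q => h R = h Q)) = C.filter (fun S => h S = h R) := by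
    ext Q; simp only [Finset.mem_filter]; constructor
    · rintro ⟨a, b⟩; exact ⟨a, b.symm⟩
    · rintro ⟨a, b⟩; exact ⟨a, b.symm⟩
  rw [h2, Finset.sum_const, nsmul_eq_mul]
  have h3 : ((C.filter (fun S => h S = h R)).card : ℝ) ≠ 0 := by
    have : 0 < (C.filter (fun S => h S = h R)).card :=
      Finset.card_pos.2 ⟨R, by simp [hR]⟩
    positivity
  field_simp

/-- the matchings equal to `P` off `S` -/
private noncomputable def cls (S : Finset V) (P : PM V) : Finset (PM V) :=
  univ.filter (fun Q : PM V => ∀ x, x ∉ S → Q.1 x = P.1 x)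

private lemma mem_cls {S : Finset V} {P Q : PM V} :
    Q ∈ cls S P ↔ ∀ x, x ∉ S → Q.1 x = P.1 x := by
  simp [cls]

private lemma Ex_eq (f : PM V → ℝ) (S : Finset V) (P : PM V) :
    Ex f S P = (∑ Q ∈ cls S P, f Q) / ((cls S P).card : ℝ) := by
  unfold Ex cls
  rw [← Finset.sum_filter, ← Finset.sum_filter, Finset.sum_const, nsmul_eq_mul, mul_one]

private lemma self_mem (S : Finset V) (P : PM V) : P ∈ cls S P := mem_cls.2 fun _ _ => rfl

private lemma cls_card_pos (S : Finset V) (P : PM V) : (0 : ℝ) < ((cls S P).card : ℝ) := by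
  exact_mod_cast Finset.card_pos.2 ⟨P, self_mem S P⟩

private lemma cl_of {S : Finset V} {P Q : PM V} (h : Q ∈ cls S P) (hP : Cl P S) : Cl Q S := by
  rw [mem_cls] at h
  intro x hx
  by_contra hc
  have h1 := h _ hc
  rw [Q.2.1] at h1
  have h2 : P.1 x = Q.1 x := by
    conv_lhs => rw [h1]
    exact P.2.1 _
  exact hc (h2 ▸ hP x hx)

/-- remove the edge at `x` -/
private def rem (S : Finset V) (Q : PM V) (x : V) : Finset V := (S.erase x).erase (Q.1 x)

private lemma cls_rem {S : Finset V} {P Q : PM V} (hQ : Q ∈ cls S P) {x : V} (hx : x ∈ S) :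
    cls (rem S Q x) Q = (cls S P).filter (fun R => R.1 x = Q.1 x) := by
  rw [mem_cls] at hQ
  ext R
  rw [Finset.mem_filter, mem_cls, mem_cls]
  constructor
  · intro h
    refine ⟨fun z hz => ?_, h x ?_⟩
    · rw [h z ?_, hQ z hz]
      intro h2
      exact hz (Finset.mem_of_mem_erase (Finset.mem_of_mem_erase h2))
    · intro h2
      exact (Finset.notMem_erase x S) (Finset.mem_of_mem_erase h2)
  · rintro ⟨h1, h2⟩ z hz
    by_cases hzS : z ∈ S
    · by_cases hzx : z = x
      · rw [hzx, h2]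
      · have hzq : z = Q.1 x := by
          by_contra hc
          exact hz (Finset.mem_erase.2 ⟨hc, Finset.mem_erase.2 ⟨hzx, hzS⟩⟩)
        rw [hzq, Q.2.1, ← h2, R.2.1]
    · rw [h1 z hzS, hQ z hzS]

private lemma sum_rem (f : PM V → ℝ) (S : Finset V) (P : PM V) {x : V} (hx : x ∈ S) :
    ∑ Q ∈ cls S P, Ex f (rem S Q x) Q = ∑ Q ∈ cls S P, f Q := by
  rw [← avg_fiber (cls S P) (fun R => R.1 x) f]
  refine Finset.sum_congr rfl fun Q hQ => ?_
  rw [Ex_eq, cls_rem hQ hx]

private noncomputable def gg (f : PM V → ℝ) (S : Finset V) (Q : PM V) : ℝ :=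
  ∑ x ∈ S, Ex f (rem S Q x) Q ^ 2

private lemma ex_sq (f : PM V → ℝ) (S : Finset V) (P : PM V) :
    (S.card : ℝ) * Ex f S P ^ 2 ≤ (∑ Q ∈ cls S P, gg f S Q) / ((cls S P).card : ℝ) := by
  rcases Finset.eq_empty_or_nonempty S with rfl | hne
  · simp [gg]
  have hS : (0 : ℝ) < (S.card : ℝ) := by exact_mod_cast Finset.card_pos.2 hne
  have hc := cls_card_pos S P
  have h1 : (S.card : ℝ) * ∑ Q ∈ cls S P, f Q =
      ∑ p ∈ S ×ˢ cls S P, Ex f (rem S p.2 p.1) p.2 := by
    rw [Finset.sum_product, Finset.sum_congr rfl (fun x hx => sum_rem f S P hx),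
      Finset.sum_const, nsmul_eq_mul]
  have h2 := sq_sum_le_card_mul_sum_sq (s := S ×ˢ cls S P)
    (f := fun p : V × PM V => Ex f (rem S p.2 p.1) p.2)
  rw [← h1, Finset.card_product, Finset.sum_product_right] at h2
  have h3 : ∑ y ∈ cls S P, ∑ x ∈ S, Ex f (rem S y x) y ^ 2 = ∑ Q ∈ cls S P, gg f S Q := rfl
  have h4 : ((S.card : ℝ) * ∑ Q ∈ cls S P, f Q) ^ 2 ≤
      (S.card : ℝ) * ((cls S P).card : ℝ) * ∑ Q ∈ cls S P, gg f S Q := by
    rw [← h3]; push_cast at h2; exact h2
  rw [Ex_eq, le_div_iff₀ hc, div_pow]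
  have h5 : (S.card : ℝ) * ((∑ Q ∈ cls S P, f Q) ^ 2 / ((cls S P).card : ℝ) ^ 2) *
      ((cls S P).card : ℝ) = ((S.card : ℝ) * ∑ Q ∈ cls S P, f Q) ^ 2 /
        ((S.card : ℝ) * ((cls S P).card : ℝ)) := by
    field_simp
  rw [h5, div_le_iff₀ (by positivity)]
  linarith [h4]

open Classical in
private lemma sum_cls (S : Finset V) (g : PM V → ℝ) :
    ∑ P ∈ univ.filter (fun P : PM V => Cl P S),
      (∑ Q ∈ cls S P, g Q) / ((cls S P).card : ℝ) =
      ∑ P ∈ univ.filter (fun P : PM V => Cl P S), g P := by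
  rw [← avg_fiber (univ.filter (fun P : PM V => Cl P S))
    (fun (P : PM V) (x : {x // x ∉ S}) => P.1 x) g]
  refine Finset.sum_congr rfl fun P hP => ?_
  have hP' : Cl P S := by simpa using hP
  have h1 : cls S P = (univ.filter (fun P : PM V => Cl P S)).filter
      (fun R => (fun x : {x // x ∉ S} => R.1 (x : V)) = (fun x : {x // x ∉ S} => P.1 (x : V))) := by
    ext R
    rw [Finset.mem_filter, mem_cls]
    constructor
    · intro h
      refine ⟨?_, ?_⟩
      · simp only [Finset.mem_filter, Finset.mem_univ, true_and]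
        exact cl_of (mem_cls.2 h) hP'
      · funext x; exact h x.1 x.2
    · rintro ⟨_, h⟩ x hx
      exact congrFun h ⟨x, hx⟩
  rw [h1]

open Classical in
private lemma Wt_eq (a : ℕ) (f : PM V → ℝ) :
    Wt a f = ∑ S ∈ univ.filter (fun S : Finset V => S.card = 2 * a),
      ∑ P ∈ univ.filter (fun P : PM V => Cl P S), Ex f S P ^ 2 := by
  unfold Wt
  rw [Finset.sum_filter]
  refine Finset.sum_congr rfl fun S _ => ?_
  by_cases h : S.card = 2 * a
  · simp only [h, true_and, if_true, Finset.sum_filter]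
  · simp [h]

open Classical in
private lemma step1 (a : ℕ) (f : PM V → ℝ) :
    (2 * ((a : ℝ) + 1)) * Wt (a + 1) f ≤
      ∑ S ∈ univ.filter (fun S : Finset V => S.card = 2 * (a + 1)),
        ∑ P ∈ univ.filter (fun P : PM V => Cl P S), gg f S P := by
  rw [Wt_eq, Finset.mul_sum]
  refine Finset.sum_le_sum fun S hS => ?_
  have hS' : S.card = 2 * (a + 1) := by simpa using hS
  rw [← sum_cls S (gg f S), Finset.mul_sum]
  refine Finset.sum_le_sum fun P _ => ?_
  have h := ex_sq f S P
  rw [hS'] at h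
  push_cast at h
  exact h

private lemma rem_card {S : Finset V} {Q : PM V} (hQ : Cl Q S) {x : V} (hx : x ∈ S) :
    (rem S Q x).card + 2 = S.card := by
  unfold rem
  have h1 : Q.1 x ∈ S.erase x := Finset.mem_erase.2 ⟨Q.2.2 x, hQ x hx⟩
  have h2 := Finset.card_erase_add_one h1
  have h3 := Finset.card_erase_add_one hx
  omega

private lemma rem_cl {S : Finset V} {Q : PM V} (hQ : Cl Q S) (x : V) :
    Cl Q (rem S Q x) := by
  intro z hz
  unfold rem at hz ⊢
  simp only [Finset.mem_erase] at hz ⊢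
  obtain ⟨h1, h2, h3⟩ := hz
  refine ⟨?_, ?_, hQ z h3⟩
  · intro h; exact h2 (Q.1.injective h)
  · intro h; apply h1; rw [← h, Q.2.1]

open Classical in
private lemma step2 (a : ℕ) (f : PM V → ℝ) :
    ∑ S ∈ univ.filter (fun S : Finset V => S.card = 2 * (a + 1)),
        ∑ P ∈ univ.filter (fun P : PM V => Cl P S), gg f S P =
      ((Fintype.card V - 2 * a : ℕ) : ℝ) * Wt a f := by
  rw [Wt_eq, Finset.mul_sum]
  -- left: triples
  have hL : ∑ S ∈ univ.filter (fun S : Finset V => S.card = 2 * (a + 1)),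
        ∑ P ∈ univ.filter (fun P : PM V => Cl P S), gg f S P =
      ∑ p ∈ (univ : Finset (PM V × Finset V × V)).filter
        (fun p => p.2.1.card = 2 * (a + 1) ∧ Cl p.1 p.2.1 ∧ p.2.2 ∈ p.2.1),
        Ex f (rem p.2.1 p.1 p.2.2) p.1 ^ 2 := by
    rw [Finset.sum_filter, Finset.sum_filter, Fintype.sum_prod_type]
    simp_rw [Fintype.sum_prod_type]
    rw [Finset.sum_comm]
    refine Finset.sum_congr rfl fun S _ => ?_
    by_cases h : S.card = 2 * (a + 1)
    · simp only [h, true_and, if_true]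
      rw [Finset.sum_filter]
      refine Finset.sum_congr rfl fun P _ => ?_
      by_cases h2 : Cl P S
      · simp only [h2, true_and, if_true, gg]
        rw [← Finset.sum_filter]
        congr 1
        ext x; simp
      · simp [h2]
    · simp [h]
  have hR : ∑ S ∈ univ.filter (fun S : Finset V => S.card = 2 * a),
      ((Fintype.card V - 2 * a : ℕ) : ℝ) *
        ∑ P ∈ univ.filter (fun P : PM V => Cl P S), Ex f S P ^ 2 =
      ∑ p ∈ (univ : Finset (PM V × Finset V × V)).filter
        (fun p => p.2.1.card = 2 * a ∧ Cl p.1 p.2.1 ∧ p.2.2 ∉ p.2.1),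
        Ex f p.2.1 p.1 ^ 2 := by
    rw [Finset.sum_filter, Finset.sum_filter, Fintype.sum_prod_type]
    simp_rw [Fintype.sum_prod_type]
    rw [Finset.sum_comm]
    refine Finset.sum_congr rfl fun S _ => ?_
    by_cases h : S.card = 2 * a
    · simp only [h, true_and, if_true]
      rw [Finset.sum_filter, Finset.mul_sum]
      refine Finset.sum_congr rfl fun P _ => ?_
      by_cases h2 : Cl P S
      · simp only [h2, true_and, if_true]
        rw [← Finset.sum_filter, Finset.sum_const, nsmul_eq_mul]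
        congr 2
        rw [← h, ← Finset.card_compl]
        congr 1
        ext x; simp
      · simp [h2]
    · simp [h]
  rw [hL, hR]
  refine Finset.sum_bij' (fun p _ => (p.1, rem p.2.1 p.1 p.2.2, p.2.2))
    (fun p _ => (p.1, insert p.2.2 (insert (p.1.1 p.2.2) p.2.1), p.2.2)) ?_ ?_ ?_ ?_ ?_
  · rintro ⟨P, S, x⟩ hp
    simp only [Finset.mem_filter, Finset.mem_univ, true_and] at hp ⊢
    obtain ⟨h1, h2, h3⟩ := hp
    have h4 := rem_card h2 h3
    refine ⟨by omega, rem_cl h2 x, ?_⟩
    unfold rem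
    simp
  · rintro ⟨P, S, x⟩ hp
    simp only [Finset.mem_filter, Finset.mem_univ, true_and] at hp ⊢
    obtain ⟨h1, h2, h3⟩ := hp
    have h4 : P.1 x ∉ S := by
      intro h
      have := h2 _ h
      rw [P.2.1] at this
      exact h3 this
    have h5 : x ∉ insert (P.1 x) S := by
      simp only [Finset.mem_insert, not_or]
      exact ⟨fun h => P.2.2 x h.symm, h3⟩
    refine ⟨?_, ?_, by simp⟩
    · rw [Finset.card_insert_of_notMem h5, Finset.card_insert_of_notMem h4]; omega
    · intro z hz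
      simp only [Finset.mem_insert] at hz ⊢
      rcases hz with rfl | rfl | hz
      · right; left; rfl
      · left; exact P.2.1 x
      · right; right; exact h2 z hz
  · rintro ⟨P, S, x⟩ hp
    simp only [Finset.mem_filter, Finset.mem_univ, true_and] at hp
    obtain ⟨h1, h2, h3⟩ := hp
    have h4 : P.1 x ∈ S.erase x := Finset.mem_erase.2 ⟨P.2.2 x, h2 x h3⟩
    simp only [rem, Finset.insert_erase h4, Finset.insert_erase h3]
  · rintro ⟨P, S, x⟩ hp
    simp only [Finset.mem_filter, Finset.mem_univ, true_and] at hp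
    obtain ⟨h1, h2, h3⟩ := hp
    have h4 : P.1 x ∉ S := by
      intro h
      have := h2 _ h
      rw [P.2.1] at this
      exact h3 this
    have h5 : x ∉ insert (P.1 x) S := by
      simp only [Finset.mem_insert, not_or]
      exact ⟨fun h => P.2.2 x h.symm, h3⟩
    simp only [rem, Finset.erase_insert h5, Finset.erase_insert h4]
  · rintro ⟨P, S, x⟩ _
    rfl

theorem Wt_mono (N a : ℕ) (hV : Fintype.card V = 2 * N) (f : PM V → ℝ) :
    ((a : ℝ) + 1) * Wt (a + 1) f ≤ ((N - a : ℕ) : ℝ) * Wt a f := by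
  have h1 := step1 a f
  rw [step2, hV] at h1
  have h2 : ((2 * N - 2 * a : ℕ) : ℝ) = 2 * ((N - a : ℕ) : ℝ) := by
    rw [← Nat.mul_sub]; push_cast; ring
  rw [h2] at h1
  linarith

theorem Wt_nonneg (a : ℕ) (f : PM V → ℝ) : 0 ≤ Wt a f := by
  unfold Wt
  refine Finset.sum_nonneg fun S _ => Finset.sum_nonneg fun P _ => ?_
  split_ifs
  · positivity
  · exact le_refl _

end Pool.Agent.Helper23.MS
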