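import Pool.Agent.Helper23.MS.Crossing
import Pool.Agent.Helper23.MS.Wt
import Pool.Agent.Helper23.MS.WtMono
import Pool.Agent.Helper23.MS.Level

/-! # MS-18d: the cutting lemma for one cycle -/

open scoped BigOperators Nat
open Finset

namespace Pool.Agent.Helper23.MS

variable {V : Type} [Fintype V] [DecidableEq V]

/-! ### two factors -/

private lemma app_sub' {X : Type} [Fintype X] (k : X → X → ℝ) (f g : X → ℝ) (x : X) :
    app k (fun y => f y - g y) x = app k f x - app k g x := by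
  simp only [app, mul_sub, Finset.sum_sub_distrib]

private lemma app_sum' {X Y : Type} [Fintype X] [Fintype Y] (k : X → X → ℝ)
    (f : Y → X → ℝ) (x : X) : app k (fun y => ∑ i, f i y) x = ∑ i, app k (f i) x := by
  simp only [app, Finset.mul_sum]
  rw [Finset.sum_comm]

private lemma two_factor {X1 X2 : Type} [Fintype X1] [Fintype X2]
    (hne : 0 < Fintype.card X1)
    (k1 : X1 → X1 → ℝ) (k2 : X2 → X2 → ℝ) (r1 r2 x1 x2 : ℝ)
    (hs1 : ∀ P Q, k1 P Q = k1 Q P) (hs2 : ∀ P Q, k2 P Q = k2 Q P)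
    (hr1 : ∀ P, ∑ Q, k1 P Q = r1)
    (n1 : ∀ f : X1 → ℝ, ∑ P, f P = 0 → nrm (app k1 f) ≤ (x1 * r1) ^ 2 * nrm f)
    (U : Submodule ℝ (X2 → ℝ))
    (n2 : ∀ f ∈ U, nrm (app k2 f) ≤ (x2 * r2) ^ 2 * nrm f)
    (F : X1 → X2 → ℝ) (hF : ∀ P1, F P1 ∈ U) :
    ∑ Q1, ∑ Q2, (∑ P1, ∑ P2, k1 P1 Q1 * k2 P2 Q2 * F P1 P2) ^ 2 ≤
      (r1 * r2 * x2) ^ 2 * ((∑ P2, (∑ P1, F P1 P2) ^ 2 / (Fintype.card X1 : ℝ)) +
        x1 ^ 2 * ((∑ P1, ∑ P2, F P1 P2 ^ 2) -
          ∑ P2, (∑ P1, F P1 P2) ^ 2 / (Fintype.card X1 : ℝ))) := by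
  have hn : (0 : ℝ) < (Fintype.card X1 : ℝ) := by exact_mod_cast hne
  set n : ℝ := (Fintype.card X1 : ℝ) with hn'
  set F0 : X2 → ℝ := fun P2 => (∑ P1, F P1 P2) / n with hF0
  set F1 : X1 → X2 → ℝ := fun P1 P2 => F P1 P2 - F0 P2 with hF1
  have hF0U : F0 ∈ U := by
    have h : F0 = (n⁻¹ : ℝ) • ∑ P1, F P1 := by
      funext P2
      simp only [hF0, Pi.smul_apply, Finset.sum_apply, smul_eq_mul]
      rw [div_eq_inv_mul]
    rw [h]
    exact U.smul_mem _ (U.sum_mem fun P1 _ => hF P1)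
  have hF1U : ∀ P1, F1 P1 ∈ U := by
    intro P1
    have h : F1 P1 = F P1 - F0 := rfl
    rw [h]; exact U.sub_mem (hF P1) hF0U
  have hzero : ∀ P2, ∑ P1, F1 P1 P2 = 0 := by
    intro P2
    simp only [hF1, hF0, Finset.sum_sub_distrib, Finset.sum_const, Finset.card_univ,
      nsmul_eq_mul, ← hn']
    field_simp
    ring
  set E : X1 → X2 → ℝ := fun P1 => app k2 (F1 P1) with hE
  have hEzero : ∀ Q2, ∑ P1, E P1 Q2 = 0 := by
    intro Q2
    simp only [hE]
    rw [← app_sum' k2 F1 Q2]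
    have : (fun y => ∑ i, F1 i y) = fun _ => 0 := by funext y; exact hzero y
    rw [this]; simp [app]
  set a : X2 → ℝ := app k2 F0 with ha
  set b : X1 → X2 → ℝ := fun Q1 Q2 => app k1 (fun P1 => E P1 Q2) Q1 with hb
  have hH : ∀ Q1 Q2, (∑ P1, ∑ P2, k1 P1 Q1 * k2 P2 Q2 * F P1 P2) = r1 * a Q2 + b Q1 Q2 := by
    intro Q1 Q2
    have h1 : ∀ P1, ∑ P2, k1 P1 Q1 * k2 P2 Q2 * F P1 P2 = k1 Q1 P1 * (a Q2 + E P1 Q2) := by
      intro P1
      have h2 : a Q2 + E P1 Q2 = app k2 (F P1) Q2 := by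
        simp only [ha, hE]
        rw [show F1 P1 = fun y => F P1 y - F0 y from rfl, app_sub']
        ring
      rw [h2, hs1 Q1 P1]
      simp only [app, Finset.mul_sum]
      refine Finset.sum_congr rfl fun P2 _ => ?_
      rw [hs2 Q2 P2]; ring
    rw [Finset.sum_congr rfl fun P1 _ => h1 P1]
    simp only [mul_add, Finset.sum_add_distrib]
    rw [← Finset.sum_mul, hr1 Q1]
    simp only [hb, app]
  have hbzero : ∀ Q2, ∑ Q1, b Q1 Q2 = 0 := by
    intro Q2
    simp only [hb, app]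
    rw [Finset.sum_comm]
    have : ∀ P1, ∑ Q1, k1 Q1 P1 * E P1 Q2 = r1 * E P1 Q2 := by
      intro P1
      rw [← Finset.sum_mul]
      congr 1
      rw [← hr1 P1]
      exact Finset.sum_congr rfl fun Q _ => hs1 _ _
    rw [Finset.sum_congr rfl fun P1 _ => this P1, ← Finset.mul_sum, hEzero, mul_zero]
  have hexp : ∑ Q1, ∑ Q2, (∑ P1, ∑ P2, k1 P1 Q1 * k2 P2 Q2 * F P1 P2) ^ 2 =
      n * r1 ^ 2 * nrm a + ∑ Q2, nrm (fun Q1 => b Q1 Q2) := by
    simp only [hH]
    rw [Finset.sum_comm]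
    have h3 : ∀ Q2, ∑ Q1, (r1 * a Q2 + b Q1 Q2) ^ 2 =
        n * r1 ^ 2 * (a Q2) ^ 2 + nrm (fun Q1 => b Q1 Q2) := by
      intro Q2
      have h4 : ∀ Q1, (r1 * a Q2 + b Q1 Q2) ^ 2 =
          r1 ^ 2 * (a Q2) ^ 2 + 2 * r1 * a Q2 * b Q1 Q2 + b Q1 Q2 ^ 2 := by
        intro Q1; ring
      simp only [h4, Finset.sum_add_distrib, Finset.sum_const, Finset.card_univ,
        nsmul_eq_mul, ← Finset.mul_sum, hbzero, nrm, ← hn']
      ring
    rw [Finset.sum_congr rfl fun Q2 _ => h3 Q2, Finset.sum_add_distrib, ← Finset.mul_sum]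
    rfl
  have hA : nrm a ≤ (x2 * r2) ^ 2 * nrm F0 := n2 F0 hF0U
  have hB : ∑ Q2, nrm (fun Q1 => b Q1 Q2) ≤
      (x1 * r1) ^ 2 * ((x2 * r2) ^ 2 * ∑ P1, nrm (F1 P1)) := by
    calc ∑ Q2, nrm (fun Q1 => b Q1 Q2) ≤ ∑ Q2, (x1 * r1) ^ 2 * nrm (fun P1 => E P1 Q2) := by
          refine Finset.sum_le_sum fun Q2 _ => ?_
          exact n1 (fun P1 => E P1 Q2) (hEzero Q2)
      _ = (x1 * r1) ^ 2 * ∑ P1, nrm (E P1) := by
          rw [← Finset.mul_sum]
          congr 1
          simp only [nrm]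
          rw [Finset.sum_comm]
      _ ≤ (x1 * r1) ^ 2 * ∑ P1, (x2 * r2) ^ 2 * nrm (F1 P1) := by
          refine mul_le_mul_of_nonneg_left ?_ (sq_nonneg _)
          exact Finset.sum_le_sum fun P1 _ => n2 (F1 P1) (hF1U P1)
      _ = _ := by rw [← Finset.mul_sum]
  have hw : ∑ P2, (∑ P1, F P1 P2) ^ 2 / n = n * nrm F0 := by
    simp only [nrm, hF0, Finset.mul_sum, div_pow]
    refine Finset.sum_congr rfl fun P2 _ => ?_
    field_simp
  have ht : ∑ P1, nrm (F1 P1) = (∑ P1, ∑ P2, F P1 P2 ^ 2) - n * nrm F0 := by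
    have h5 : ∀ P1 P2, F1 P1 P2 ^ 2 = F P1 P2 ^ 2 - 2 * F0 P2 * F1 P1 P2 - F0 P2 ^ 2 := by
      intro P1 P2; simp only [hF1]; ring
    have h6 : ∑ P1, nrm (F1 P1) = ∑ P2, ∑ P1, F1 P1 P2 ^ 2 := by
      simp only [nrm]; rw [Finset.sum_comm]
    have h7 : ∑ P1, ∑ P2, F P1 P2 ^ 2 = ∑ P2, ∑ P1, F P1 P2 ^ 2 := by
      rw [Finset.sum_comm]
    rw [h6, h7]
    simp only [h5, Finset.sum_sub_distrib, ← Finset.mul_sum, hzero, Finset.sum_const,
      Finset.card_univ, nsmul_eq_mul, ← hn', nrm]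
    simp
  rw [hexp, hw]
  rw [ht] at hB
  have hA' : n * r1 ^ 2 * nrm a ≤ n * r1 ^ 2 * ((x2 * r2) ^ 2 * nrm F0) :=
    mul_le_mul_of_nonneg_left hA (by positivity)
  nlinarith [hA', hB]

/-! ### the constants -/

private lemma Cl_tr (e : Equiv.Perm V) (P : PM V) (S : Finset V) :
    Cl (tr e P) S ↔ Cl P (S.image e.symm) := by
  constructor
  · intro h x hx
    rw [Finset.mem_image] at hx ⊢
    obtain ⟨y, hy, rfl⟩ := hx
    refine ⟨_, h y hy, ?_⟩
    simp
  · intro h x hx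
    have h1 := h (e.symm x) (Finset.mem_image_of_mem _ hx)
    rw [Finset.mem_image] at h1
    obtain ⟨y, hy, h2⟩ := h1
    have : (tr e P).1 x = y := by
      rw [tr_apply, ← h2]; simp
    rw [this]; exact hy

open Classical in
private lemma sum_closed_sets (N : ℕ) (hV : Fintype.card V = 2 * N) (a : ℕ) (g : PM V → ℝ) :
    ∑ S ∈ univ.filter (fun S : Finset V => S.card = 2 * a),
      (∑ P : PM V, if Cl P S then g P else 0) = (N.choose a : ℝ) * ∑ P, g P := by
  rw [Finset.sum_comm, Finset.mul_sum]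
  refine Finset.sum_congr rfl fun P _ => ?_
  rw [← card_closed N hV P a, ← Finset.filter_filter, ← Finset.sum_filter, Finset.sum_const,
    nsmul_eq_mul]

open Classical in
private lemma count_triples (a b : ℕ) (hV : Fintype.card V = 2 * (a + b)) (P : PM V) :
    ∑ S ∈ univ.filter (fun S : Finset V => S.card = 2 * a), ∑ y ∈ S, ∑ z ∈ Sᶜ,
      (if Cl (tr (Equiv.swap y z) P) S then (1 : ℝ) else 0) =
    (2 * a) * (2 * b) * ((a + b).choose a : ℝ) := by
  have hL : ∑ S ∈ univ.filter (fun S : Finset V => S.card = 2 * a), ∑ y ∈ S, ∑ z ∈ Sᶜ,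
      (if Cl (tr (Equiv.swap y z) P) S then (1 : ℝ) else 0) =
      ∑ p ∈ (univ : Finset (Finset V × V × V)).filter (fun p => p.1.card = 2 * a ∧
        p.2.1 ∈ p.1 ∧ p.2.2 ∉ p.1 ∧ Cl (tr (Equiv.swap p.2.1 p.2.2) P) p.1), (1 : ℝ) := by
    rw [Finset.sum_filter, Finset.sum_filter, Fintype.sum_prod_type]
    simp_rw [Fintype.sum_prod_type]
    refine Finset.sum_congr rfl fun S _ => ?_
    by_cases h : S.card = 2 * a
    · simp only [h, true_and, if_true]
      rw [← Finset.sum_filter_add_sum_filter_not univ (fun y => y ∈ S)]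
      rw [Finset.sum_eq_zero (s := univ.filter (fun y => ¬ y ∈ S))]
      · rw [add_zero]
        refine Finset.sum_congr (by ext; simp) fun y hy => ?_
        have hy' : y ∈ S := by simpa using hy
        simp only [hy', true_and]
        rw [← Finset.sum_filter_add_sum_filter_not univ (fun z => z ∉ S)]
        rw [Finset.sum_eq_zero (s := univ.filter (fun z => ¬ z ∉ S))]
        · rw [add_zero]
          refine Finset.sum_congr (by ext; simp) fun z hz => ?_
          have hz' : z ∉ S := by simpa using hz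
          simp [hz']
        · intro z hz
          have hz' : z ∈ S := by simpa using hz
          simp [hz']
      · intro y hy
        have hy' : y ∉ S := by simpa using hy
        simp [hy']
    · simp [h]
  have hR : ∑ S ∈ univ.filter (fun S : Finset V => S.card = 2 * a), ∑ y ∈ S, ∑ z ∈ Sᶜ,
      (if Cl P S then (1 : ℝ) else 0) =
      ∑ p ∈ (univ : Finset (Finset V × V × V)).filter (fun p => p.1.card = 2 * a ∧
        p.2.1 ∈ p.1 ∧ p.2.2 ∉ p.1 ∧ Cl P p.1), (1 : ℝ) := by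
    rw [Finset.sum_filter, Finset.sum_filter, Fintype.sum_prod_type]
    simp_rw [Fintype.sum_prod_type]
    refine Finset.sum_congr rfl fun S _ => ?_
    by_cases h : S.card = 2 * a
    · simp only [h, true_and, if_true]
      rw [← Finset.sum_filter_add_sum_filter_not univ (fun y => y ∈ S)]
      rw [Finset.sum_eq_zero (s := univ.filter (fun y => ¬ y ∈ S))]
      · rw [add_zero]
        refine Finset.sum_congr (by ext; simp) fun y hy => ?_
        have hy' : y ∈ S := by simpa using hy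
        simp only [hy', true_and]
        rw [← Finset.sum_filter_add_sum_filter_not univ (fun z => z ∉ S)]
        rw [Finset.sum_eq_zero (s := univ.filter (fun z => ¬ z ∉ S))]
        · rw [add_zero]
          refine Finset.sum_congr (by ext; simp) fun z hz => ?_
          have hz' : z ∉ S := by simpa using hz
          simp [hz']
        · intro z hz
          have hz' : z ∈ S := by simpa using hz
          simp [hz']
      · intro y hy
        have hy' : y ∉ S := by simpa using hy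
        simp [hy']
    · simp [h]
  have hLR : ∑ S ∈ univ.filter (fun S : Finset V => S.card = 2 * a), ∑ y ∈ S, ∑ z ∈ Sᶜ,
      (if Cl (tr (Equiv.swap y z) P) S then (1 : ℝ) else 0) =
      ∑ S ∈ univ.filter (fun S : Finset V => S.card = 2 * a), ∑ y ∈ S, ∑ z ∈ Sᶜ,
      (if Cl P S then (1 : ℝ) else 0) := by
    rw [hL, hR]
    have key : ∀ (S : Finset V) (y z : V),
        (S.image (Equiv.swap y z)).image (Equiv.swap z y) = S := by
      intro S y z
      rw [Finset.image_image, Equiv.swap_comm z y]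
      have : (⇑(Equiv.swap y z) ∘ ⇑(Equiv.swap y z)) = id := by
        funext w; simp
      rw [this, Finset.image_id]
    refine Finset.sum_bij' (fun p _ => (p.1.image (Equiv.swap p.2.1 p.2.2), p.2.2, p.2.1))
      (fun p _ => (p.1.image (Equiv.swap p.2.1 p.2.2), p.2.2, p.2.1)) ?_ ?_ ?_ ?_ ?_
    · rintro ⟨S, y, z⟩ hp
      simp only [Finset.mem_filter, Finset.mem_univ, true_and] at hp ⊢
      obtain ⟨h1, h2, h3, h4⟩ := hp
      refine ⟨?_, ?_, ?_, ?_⟩
      · rw [Finset.card_image_of_injective _ (Equiv.injective _), h1]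
      · exact Finset.mem_image.2 ⟨y, h2, Equiv.swap_apply_left _ _⟩
      · intro h
        obtain ⟨w, hw, h5⟩ := Finset.mem_image.1 h
        have : w = z := by
          have := congrArg (Equiv.swap y z) h5
          simpa using this
        exact h3 (this ▸ hw)
      · rw [Cl_tr] at h4
        simpa using h4
    · rintro ⟨S, y, z⟩ hp
      simp only [Finset.mem_filter, Finset.mem_univ, true_and] at hp ⊢
      obtain ⟨h1, h2, h3, h4⟩ := hp
      refine ⟨?_, ?_, ?_, ?_⟩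
      · rw [Finset.card_image_of_injective _ (Equiv.injective _), h1]
      · exact Finset.mem_image.2 ⟨y, h2, Equiv.swap_apply_left _ _⟩
      · intro h
        obtain ⟨w, hw, h5⟩ := Finset.mem_image.1 h
        have : w = z := by
          have := congrArg (Equiv.swap y z) h5
          simpa using this
        exact h3 (this ▸ hw)
      · rw [Cl_tr, Equiv.symm_swap, key]
        exact h4
    · rintro ⟨S, y, z⟩ _
      simp only [key]
    · rintro ⟨S, y, z⟩ _
      simp only [key]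
    · rintro ⟨S, y, z⟩ _
      rfl
  rw [hLR]
  have hS : ∀ S ∈ univ.filter (fun S : Finset V => S.card = 2 * a),
      ∑ y ∈ S, ∑ z ∈ Sᶜ, (if Cl P S then (1 : ℝ) else 0) =
      (2 * a) * (2 * b) * (if Cl P S then (1 : ℝ) else 0) := by
    intro S hS
    have h1 : S.card = 2 * a := by simpa using hS
    have h2 : (Sᶜ).card = 2 * b := by rw [Finset.card_compl, hV, h1]; omega
    rw [Finset.sum_const, Finset.sum_const, h1, h2]
    simp only [nsmul_eq_mul]
    push_cast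
    ring
  rw [Finset.sum_congr rfl hS, ← Finset.mul_sum, ← Finset.sum_filter, Finset.filter_filter,
    Finset.sum_const, nsmul_eq_mul, mul_one, card_closed (a + b) hV P a]

open Classical in
private lemma sum_G (a b : ℕ) (hV : Fintype.card V = 2 * (a + b)) (f : PM V → ℝ) :
    ∑ S ∈ univ.filter (fun S : Finset V => S.card = 2 * a), ∑ y ∈ S, ∑ z ∈ Sᶜ,
      ∑ Q1 : PM {x // x ∈ S}, ∑ Q2 : PM {x // x ∉ S},
        f (tr (Equiv.swap y z) (glue S Q1 Q2)) ^ 2 =
    (2 * a) * (2 * b) * ((a + b).choose a : ℝ) * nrm f := by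
  have h1 : ∀ (S : Finset V) (y z : V), ∑ Q1 : PM {x // x ∈ S}, ∑ Q2 : PM {x // x ∉ S},
        f (tr (Equiv.swap y z) (glue S Q1 Q2)) ^ 2 =
      ∑ P : PM V, f P ^ 2 * (if Cl (tr (Equiv.swap y z) P) S then (1 : ℝ) else 0) := by
    intro S y z
    rw [← sum_closed S (fun P => f (tr (Equiv.swap y z) P) ^ 2)]
    rw [← sum_tr (Equiv.swap y z)
      (fun P => f P ^ 2 * (if Cl (tr (Equiv.swap y z) P) S then (1 : ℝ) else 0))]
    refine Finset.sum_congr rfl fun P _ => ?_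
    have h2 : tr (Equiv.swap y z) (tr (Equiv.swap y z) P) = P := by
      apply Subtype.ext
      apply Equiv.ext
      intro x
      simp
    rw [h2]
    split_ifs <;> simp
  simp only [h1]
  have h2 : ∑ S ∈ univ.filter (fun S : Finset V => S.card = 2 * a), ∑ y ∈ S, ∑ z ∈ Sᶜ,
      ∑ P : PM V, f P ^ 2 * (if Cl (tr (Equiv.swap y z) P) S then (1 : ℝ) else 0) =
      ∑ P : PM V, f P ^ 2 * ∑ S ∈ univ.filter (fun S : Finset V => S.card = 2 * a),
        ∑ y ∈ S, ∑ z ∈ Sᶜ, (if Cl (tr (Equiv.swap y z) P) S then (1 : ℝ) else 0) := by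
    simp only [Finset.mul_sum]
    symm
    rw [Finset.sum_comm]
    refine Finset.sum_congr rfl fun S _ => ?_
    rw [Finset.sum_comm]
    refine Finset.sum_congr rfl fun y _ => ?_
    rw [Finset.sum_comm]
  rw [h2]
  have h3 : ∀ P : PM V, f P ^ 2 * ∑ S ∈ univ.filter (fun S : Finset V => S.card = 2 * a),
        ∑ y ∈ S, ∑ z ∈ Sᶜ, (if Cl (tr (Equiv.swap y z) P) S then (1 : ℝ) else 0) =
      ((2 * a) * (2 * b) * ((a + b).choose a : ℝ)) * f P ^ 2 := by
    intro P
    rw [count_triples a b hV P]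
    ring
  rw [Finset.sum_congr rfl fun P _ => h3 P, ← Finset.mul_sum]
  rfl

open Classical in
private lemma sum_F (a b : ℕ) (hV : Fintype.card V = 2 * (a + b)) (f : PM V → ℝ) :
    ∑ S ∈ univ.filter (fun S : Finset V => S.card = 2 * a),
      ∑ Q1 : PM {x // x ∈ S}, ∑ Q2 : PM {x // x ∉ S}, f (glue S Q1 Q2) ^ 2 =
    ((a + b).choose a : ℝ) * nrm f := by
  rw [nrm, ← sum_closed_sets (a + b) hV a (fun P => f P ^ 2)]
  refine Finset.sum_congr rfl fun S _ => ?_
  rw [← sum_closed S (fun P => f P ^ 2)]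

private lemma kappa_eq (a b : ℕ) (hV : Fintype.card V = 2 * (a + b)) (κ : ℝ)
    (h : ∀ f g : PM V → ℝ,
    κ * ∑ P : PM V, ∑ Q : PM V, kern {a + b} P Q * f P * g Q =
      ∑ S ∈ univ.filter (fun S : Finset V => S.card = 2 * a), ∑ y ∈ S, ∑ z ∈ Sᶜ,
        ∑ P1 : PM {x // x ∈ S}, ∑ Q1 : PM {x // x ∈ S},
          ∑ P2 : PM {x // x ∉ S}, ∑ Q2 : PM {x // x ∉ S},
            kern {a} P1 Q1 * kern {b} P2 Q2 * f (glue S P1 P2) *
              g (tr (Equiv.swap y z) (glue S Q1 Q2)))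
    (R1 R2 : ℝ)
    (hR1 : ∀ S : Finset V, S.card = 2 * a → rsum (kern (V := {x // x ∈ S}) {a}) = R1)
    (hR2 : ∀ S : Finset V, S.card = 2 * a → rsum (kern (V := {x // x ∉ S}) {b}) = R2) :
    κ * rsum (kern (V := V) {a + b}) = (2 * a) * (2 * b) * ((a + b).choose a : ℝ) *
      (R1 * R2) := by
  classical
  have h1 := h (fun _ => 1) (fun _ => 1)
  simp only [mul_one] at h1
  have hc : (0 : ℝ) < (Fintype.card (PM V) : ℝ) := by
    exact_mod_cast card_PM_pos (a + b) hV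
  have h2 : ∑ P : PM V, ∑ Q : PM V, kern {a + b} P Q =
      rsum (kern (V := V) {a + b}) * (Fintype.card (PM V) : ℝ) := by
    rw [rsum]; field_simp
  have h3 : ∀ S ∈ univ.filter (fun S : Finset V => S.card = 2 * a),
      ∑ y ∈ S, ∑ z ∈ Sᶜ, ∑ P1 : PM {x // x ∈ S}, ∑ Q1 : PM {x // x ∈ S},
          ∑ P2 : PM {x // x ∉ S}, ∑ Q2 : PM {x // x ∉ S},
            kern {a} P1 Q1 * kern {b} P2 Q2 =
      (2 * a) * (2 * b) * (R1 * R2) *
          (∑ P : PM V, if Cl P S then (1 : ℝ) else 0) := by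
    intro S hS
    have hS1 : S.card = 2 * a := by simpa using hS
    have hS2 : (Sᶜ).card = 2 * b := by rw [Finset.card_compl, hV, hS1]; omega
    have hc1 : Fintype.card {x // x ∈ S} = 2 * a := by rw [card_in, hS1]
    have hc2 : Fintype.card {x // x ∉ S} = 2 * b := by
      have := card_out S; omega
    have hp1 : (0 : ℝ) < (Fintype.card (PM {x // x ∈ S}) : ℝ) := by
      exact_mod_cast card_PM_pos a hc1
    have hp2 : (0 : ℝ) < (Fintype.card (PM {x // x ∉ S}) : ℝ) := by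
      exact_mod_cast card_PM_pos b hc2
    have e1 := (hR1 S hS1).symm
    have e2 := (hR2 S hS1).symm
    have h4 : ∑ P1 : PM {x // x ∈ S}, ∑ Q1 : PM {x // x ∈ S},
          ∑ P2 : PM {x // x ∉ S}, ∑ Q2 : PM {x // x ∉ S},
            kern {a} P1 Q1 * kern {b} P2 Q2 =
        (∑ P1 : PM {x // x ∈ S}, ∑ Q1 : PM {x // x ∈ S}, kern {a} P1 Q1) *
        (∑ P2 : PM {x // x ∉ S}, ∑ Q2 : PM {x // x ∉ S}, kern {b} P2 Q2) := by
      rw [Finset.sum_mul]
      refine Finset.sum_congr rfl fun P1 _ => ?_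
      rw [Finset.sum_mul]
      refine Finset.sum_congr rfl fun Q1 _ => ?_
      rw [Finset.mul_sum]
      refine Finset.sum_congr rfl fun P2 _ => ?_
      rw [Finset.mul_sum]
    have h5 : (∑ P : PM V, if Cl P S then (1 : ℝ) else 0) =
        (Fintype.card (PM {x // x ∈ S}) : ℝ) * (Fintype.card (PM {x // x ∉ S}) : ℝ) := by
      rw [sum_closed S (fun _ => (1 : ℝ))]
      simp
    rw [Finset.sum_const, Finset.sum_const, hS1, hS2, h4, h5, e1, e2]
    simp only [nsmul_eq_mul, rsum]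
    push_cast
    field_simp
  rw [Finset.sum_congr rfl h3, ← Finset.mul_sum,
    sum_closed_sets (a + b) hV a (fun _ => (1 : ℝ)), h2] at h1
  have h6 : ∑ P : PM V, (1 : ℝ) = (Fintype.card (PM V) : ℝ) := by simp
  rw [h6] at h1
  have h7 : (κ * rsum (kern (V := V) {a + b})) * (Fintype.card (PM V) : ℝ) =
      ((2 * a) * (2 * b) * ((a + b).choose a : ℝ) * (R1 * R2)) *
        (Fintype.card (PM V) : ℝ) := by
    linear_combination h1
  exact mul_right_cancel₀ hc.ne' h7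

theorem cut (a b u : ℕ) (x1 x2 q : ℝ) (ha : 1 ≤ a) (hu : u < b)
    (hx1 : 0 ≤ x1) (hx1' : x1 ≤ 1) (hx2 : 0 ≤ x2) (hq0 : 0 ≤ q) (hq1 : q ≤ 1)
    (h1 : QB {a} (a - 1) x1) (h2 : QB {b} u x2) (hq : WB a u q (a + b)) :
    QB {a + b} u (x2 * Real.sqrt (q + (1 - q) * x1 ^ 2)) := by
  classical
  intro V _ _ hV f hf
  rw [Multiset.sum_singleton] at hV
  obtain ⟨κ, hκ, hcr⟩ := crossing a b ha (by omega) hV
  obtain ⟨S0, -, hS0⟩ := Finset.exists_subset_card_eq
    (show 2 * a ≤ (univ : Finset V).card by rw [Finset.card_univ, hV]; omega)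
  obtain ⟨R1, hR1d⟩ : ∃ R1, R1 = rsum (kern (V := {x // x ∈ S0}) {a}) := ⟨_, rfl⟩
  obtain ⟨R2, hR2d⟩ : ∃ R2, R2 = rsum (kern (V := {x // x ∉ S0}) {b}) := ⟨_, rfl⟩
  have hR1 : ∀ S : Finset V, S.card = 2 * a → rsum (kern (V := {x // x ∈ S}) {a}) = R1 := by
    intro S hS
    rw [hR1d]
    exact rsum_kern_congr _ (by rw [card_in, card_in, hS, hS0])
  have hR2 : ∀ S : Finset V, S.card = 2 * a → rsum (kern (V := {x // x ∉ S}) {b}) = R2 := by
    intro S hS
    rw [hR2d]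
    refine rsum_kern_congr _ ?_
    have h3 := card_out S
    have h4 := card_out S0
    omega
  have hk := kappa_eq a b hV κ hcr R1 R2 hR1 hR2
  have hcrf := hcr f f
  have hNB1 := QB_to_NB _ _ _ h1
  have hNB2 := QB_to_NB _ _ _ h2
  have hWt := hq V hV f hf
  have hR1n : 0 ≤ R1 := by rw [hR1d]; exact rsum_kern_nonneg _
  have hR2n : 0 ≤ R2 := by rw [hR2d]; exact rsum_kern_nonneg _
  have hrn : 0 ≤ rsum (kern (V := V) {a + b}) := rsum_kern_nonneg _
  set T : ℝ := ((a + b).choose a : ℝ) * nrm f with hT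
  have hnf : 0 ≤ nrm f := Finset.sum_nonneg fun _ _ => sq_nonneg _
  have hT0 : 0 ≤ T := by positivity
  have hquad : ∑ P : PM V, ∑ Q : PM V, kern {a + b} P Q * f P * f Q =
      quad (kern {a + b}) f := rfl
  rw [hquad] at hcrf
  -- the terms
  let w : Finset V → ℝ := fun S => ∑ P2 : PM {x // x ∉ S},
    (∑ P1 : PM {x // x ∈ S}, f (glue S P1 P2)) ^ 2 / (Fintype.card (PM {x // x ∈ S}) : ℝ)
  let t : Finset V → ℝ := fun S => ∑ P1 : PM {x // x ∈ S}, ∑ P2 : PM {x // x ∉ S},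
    f (glue S P1 P2) ^ 2
  let hh : Finset V → ℝ := fun S => ∑ Q1 : PM {x // x ∈ S}, ∑ Q2 : PM {x // x ∉ S},
    (∑ P1 : PM {x // x ∈ S}, ∑ P2 : PM {x // x ∉ S},
      kern {a} P1 Q1 * kern {b} P2 Q2 * f (glue S P1 P2)) ^ 2
  let gg : Finset V → V → V → ℝ := fun S y z => ∑ Q1 : PM {x // x ∈ S},
    ∑ Q2 : PM {x // x ∉ S}, f (tr (Equiv.swap y z) (glue S Q1 Q2)) ^ 2
  let cc : Finset V → V → V → ℝ := fun S y z => ∑ P1 : PM {x // x ∈ S},
    ∑ Q1 : PM {x // x ∈ S}, ∑ P2 : PM {x // x ∉ S}, ∑ Q2 : PM {x // x ∉ S},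
      kern {a} P1 Q1 * kern {b} P2 Q2 * f (glue S P1 P2) *
        f (tr (Equiv.swap y z) (glue S Q1 Q2))
  have hh0 : ∀ S, 0 ≤ hh S := fun S => Finset.sum_nonneg fun _ _ =>
    Finset.sum_nonneg fun _ _ => sq_nonneg _
  have gg0 : ∀ S y z, 0 ≤ gg S y z := fun S y z => Finset.sum_nonneg fun _ _ =>
    Finset.sum_nonneg fun _ _ => sq_nonneg _
  have hcs : ∀ S y z, cc S y z ^ 2 ≤ hh S * gg S y z := by
    intro S y z
    have e : cc S y z = ∑ Q1 : PM {x // x ∈ S}, ∑ Q2 : PM {x // x ∉ S},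
        (∑ P1 : PM {x // x ∈ S}, ∑ P2 : PM {x // x ∉ S},
          kern {a} P1 Q1 * kern {b} P2 Q2 * f (glue S P1 P2)) *
          f (tr (Equiv.swap y z) (glue S Q1 Q2)) := by
      simp only [cc]
      rw [Finset.sum_comm]
      refine Finset.sum_congr rfl fun Q1 _ => ?_
      simp only [Finset.sum_mul]
      rw [Finset.sum_comm (s := univ (α := PM {x // x ∉ S})) (t := univ (α := PM {x // x ∈ S}))]
      refine Finset.sum_congr rfl fun P1 _ => ?_
      rw [Finset.sum_comm]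
    rw [e]
    refine sum_sq_le_sum_mul_sum_of_sq_le_mul _ (fun _ _ => Finset.sum_nonneg fun _ _ =>
      sq_nonneg _) (fun _ _ => Finset.sum_nonneg fun _ _ => sq_nonneg _) ?_
    intro Q1 _
    exact sum_mul_sq_le_sq_mul_sq _ _ _
  have hCS : (κ * quad (kern {a + b}) f) ^ 2 ≤
      (∑ S ∈ univ.filter (fun S : Finset V => S.card = 2 * a), ∑ y ∈ S, ∑ z ∈ Sᶜ, hh S) *
      (∑ S ∈ univ.filter (fun S : Finset V => S.card = 2 * a), ∑ y ∈ S, ∑ z ∈ Sᶜ,
        gg S y z) := by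
    rw [hcrf]
    refine sum_sq_le_sum_mul_sum_of_sq_le_mul _ (fun _ _ => Finset.sum_nonneg fun _ _ =>
      Finset.sum_nonneg fun _ _ => hh0 _) (fun _ _ => Finset.sum_nonneg fun _ _ =>
      Finset.sum_nonneg fun _ _ => gg0 _ _ _) ?_
    intro S _
    refine sum_sq_le_sum_mul_sum_of_sq_le_mul _ (fun _ _ => 
      Finset.sum_nonneg fun _ _ => hh0 _) (fun _ _ => 
      Finset.sum_nonneg fun _ _ => gg0 _ _ _) ?_
    intro y _
    refine sum_sq_le_sum_mul_sum_of_sq_le_mul _ (fun _ _ => hh0 _) (fun _ _ => gg0 _ _ _) ?_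
    intro z _
    exact hcs S y z
  have hG : ∑ S ∈ univ.filter (fun S : Finset V => S.card = 2 * a), ∑ y ∈ S, ∑ z ∈ Sᶜ,
        gg S y z = (2 * a) * (2 * b) * T := by
    simp only [gg]
    rw [sum_G a b hV f, hT]; ring
  have hwt : ∀ S ∈ univ.filter (fun S : Finset V => S.card = 2 * a),
      hh S ≤ (R1 * R2 * x2) ^ 2 * (w S + x1 ^ 2 * (t S - w S)) := by
    intro S hS
    have hS1 : S.card = 2 * a := by simpa using hS
    have hc1 : Fintype.card {x // x ∈ S} = 2 * a := by rw [card_in, hS1]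
    have hc2 : Fintype.card {x // x ∉ S} = 2 * b := by
      have := card_out S; omega
    have e1 := (hR1 S hS1).symm
    have e2 := (hR2 S hS1).symm
    refine two_factor (card_PM_pos a hc1) (kern (V := {x // x ∈ S}) {a})
      (kern (V := {x // x ∉ S}) {b}) R1 R2 x1 x2 (kern_symm _) (kern_symm _) ?_ ?_
      (lowSub {x // x ∉ S} u) ?_ (fun P1 P2 => f (glue S P1 P2)) ?_
    · intro P; rw [e1]; exact row_const _ (kern_Inv _) P
    · intro g hg
      rw [e1]
      exact hNB1 {x // x ∈ S} (by rw [Multiset.sum_singleton, hc1]) g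
        ((Low_top a ha hc1 g).2 hg)
    · intro g hg
      rw [e2]
      exact hNB2 {x // x ∉ S} (by rw [Multiset.sum_singleton, hc2]) g hg
    · intro P1
      exact Low_glue u f hf S P1
  have hW : ∑ S ∈ univ.filter (fun S : Finset V => S.card = 2 * a), w S = Wt a f := by
    rw [Wt_glue]
    refine Finset.sum_congr rfl fun S _ => ?_
    simp only [w]
    rw [Finset.sum_div]
  have hTt : ∑ S ∈ univ.filter (fun S : Finset V => S.card = 2 * a), t S = T :=
    sum_F a b hV f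
  have hH : ∑ S ∈ univ.filter (fun S : Finset V => S.card = 2 * a), ∑ y ∈ S, ∑ z ∈ Sᶜ, hh S ≤
      (2 * a) * (2 * b) * ((R1 * R2 * x2) ^ 2 * (Wt a f + x1 ^ 2 * (T - Wt a f))) := by
    calc ∑ S ∈ univ.filter (fun S : Finset V => S.card = 2 * a), ∑ y ∈ S, ∑ z ∈ Sᶜ, hh S
        = ∑ S ∈ univ.filter (fun S : Finset V => S.card = 2 * a),
          ((2 * a) * (2 * b) : ℝ) * hh S := by
          refine Finset.sum_congr rfl fun S hS => ?_
          have hS1 : S.card = 2 * a := by simpa using hS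
          have hS2 : (Sᶜ).card = 2 * b := by rw [Finset.card_compl, hV, hS1]; omega
          rw [Finset.sum_const, Finset.sum_const, hS1, hS2]
          simp only [nsmul_eq_mul]
          push_cast
          ring
      _ ≤ ∑ S ∈ univ.filter (fun S : Finset V => S.card = 2 * a),
          ((2 * a) * (2 * b) : ℝ) * ((R1 * R2 * x2) ^ 2 * (w S + x1 ^ 2 * (t S - w S))) := by
          refine Finset.sum_le_sum fun S hS => ?_
          exact mul_le_mul_of_nonneg_left (hwt S hS) (by positivity)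
      _ = _ := by
          rw [← Finset.mul_sum, ← Finset.mul_sum, Finset.sum_add_distrib, ← Finset.mul_sum,
            Finset.sum_sub_distrib, hW, hTt]
  set c : ℝ := q + (1 - q) * x1 ^ 2 with hc
  have hc0 : 0 ≤ c := by
    have : 0 ≤ (1 - q) * x1 ^ 2 := mul_nonneg (by linarith) (sq_nonneg _)
    linarith
  have hWc : Wt a f + x1 ^ 2 * (T - Wt a f) ≤ c * T := by
    have h3 : Wt a f ≤ q * T := by rw [hT]; linarith [hWt]
    have h4 : 0 ≤ 1 - x1 ^ 2 := by nlinarith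
    have h5 := mul_le_mul_of_nonneg_left h3 h4
    rw [hc]
    nlinarith [h5]
  have hfin : (κ * quad (kern {a + b}) f) ^ 2 ≤
      ((2 * a) * (2 * b) * (R1 * R2) * T * x2 * Real.sqrt c) ^ 2 := by
    have h6 : (∑ S ∈ univ.filter (fun S : Finset V => S.card = 2 * a),
        ∑ y ∈ S, ∑ z ∈ Sᶜ, hh S) ≤
        (2 * a) * (2 * b) * ((R1 * R2 * x2) ^ 2 * (c * T)) := by
      refine hH.trans ?_
      have : (0 : ℝ) ≤ (2 * a) * (2 * b) := by positivity
      refine mul_le_mul_of_nonneg_left ?_ this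
      exact mul_le_mul_of_nonneg_left hWc (sq_nonneg _)
    have h7 : (0 : ℝ) ≤ (2 * a) * (2 * b) * T := by positivity
    have h8 := mul_le_mul_of_nonneg_right h6 h7
    rw [hG] at hCS
    refine hCS.trans (h8.trans (le_of_eq ?_))
    have h9 : Real.sqrt c ^ 2 = c := Real.sq_sqrt hc0
    have h10 : ((2 * a) * (2 * b) * (R1 * R2) * T * x2 * Real.sqrt c) ^ 2 =
        ((2 * a) * (2 * b) * (R1 * R2) * T * x2) ^ 2 * Real.sqrt c ^ 2 := by ring
    rw [h10, h9]; ring
  have hfin2 : |κ * quad (kern {a + b}) f| ≤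
      (2 * a) * (2 * b) * (R1 * R2) * T * x2 * Real.sqrt c := by
    refine abs_le_of_sq_le_sq hfin ?_
    have := Real.sqrt_nonneg c
    positivity
  have hfin3 : κ * |quad (kern {a + b}) f| ≤
      κ * (x2 * Real.sqrt c * rsum (kern (V := V) {a + b}) * nrm f) := by
    rw [abs_mul, abs_of_pos hκ] at hfin2
    refine hfin2.trans (le_of_eq ?_)
    have : κ * (x2 * Real.sqrt c * rsum (kern (V := V) {a + b}) * nrm f) =
        (κ * rsum (kern (V := V) {a + b})) * (x2 * Real.sqrt c * nrm f) := by ring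
    rw [this, hk, hT]; ring
  exact le_of_mul_le_mul_left hfin3 hκ

end Pool.Agent.Helper23.MS
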