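import Pool.Agent.Helper23.MS.LowApp
import Pool.Agent.Helper23.MS.LowFacts

/-! # MS-7: the D-lemma -/

open scoped BigOperators Nat
open Finset

namespace Pool.Agent.Helper23.MS

variable {V : Type} [Fintype V] [DecidableEq V]

namespace DL

/-- the involution equal to `P` on the closed set `W`, and to the identity off `W` -/
def res (P : PM V) (W : Finset V) (h : Cl P W) : Equiv.Perm V :=
  Function.Involutive.toPerm (fun x => if x ∈ W then P.1 x else x) (by
    intro x
    by_cases hx : x ∈ W
    · simp [hx, h x hx, P.2.1]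
    · simp [hx])

theorem res_apply (P : PM V) (W : Finset V) (h : Cl P W) (x : V) :
    res P W h x = if x ∈ W then P.1 x else x := rfl

theorem res_invol (P : PM V) (W : Finset V) (h : Cl P W) : Invol (res P W h) := by
  intro x
  rw [res_apply, res_apply]
  by_cases hx : x ∈ W
  · simp [hx, h x hx, P.2.1]
  · simp [hx]

theorem res_support (P : PM V) (W : Finset V) (h : Cl P W) : (res P W h).support = W := by
  ext x
  rw [Equiv.Perm.mem_support, res_apply]
  by_cases hx : x ∈ W
  · simp [hx, P.2.2 x]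
  · simp [hx]

theorem res_ext (P : PM V) (W : Finset V) (h : Cl P W) : Ext (res P W h) P := by
  intro x hx
  rw [res_apply] at hx ⊢
  by_cases h1 : x ∈ W
  · simp [h1]
  · simp [h1] at hx

theorem cl_of_ext (q : Equiv.Perm V) (hq : Invol q) (P : PM V) (h : Ext q P) :
    Cl P q.support := by
  intro x hx
  rw [Equiv.Perm.mem_support] at hx ⊢
  rw [h x hx, hq x]
  exact fun h1 => hx h1.symm

open Classical in
theorem sum_supp (t : ℕ) (P : PM V) (F : Finset V → ℝ) :
    (∑ q ∈ univ.filter (fun q : Equiv.Perm V => Invol q ∧ q.support.card = 2 * t),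
      if Ext q P then F q.support else 0) =
    ∑ W ∈ univ.filter (fun W : Finset V => W.card = 2 * t ∧ Cl P W), F W := by
  rw [← Finset.sum_filter, Finset.filter_filter]
  refine Finset.sum_nbij (fun q => q.support) ?_ ?_ ?_ (fun _ _ => rfl)
  · intro q hq
    simp only [Finset.mem_filter, Finset.mem_univ, true_and] at hq ⊢
    exact ⟨hq.1.2, cl_of_ext q hq.1.1 P hq.2⟩
  · intro q hq q' hq' h
    simp only [Finset.coe_filter, Finset.mem_univ, true_and, Set.mem_setOf_eq] at hq hq' h
    ext x
    by_cases hx : x ∈ q.support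
    · have hx' : x ∈ q'.support := h ▸ hx
      rw [← hq.2 x (Equiv.Perm.mem_support.1 hx), ← hq'.2 x (Equiv.Perm.mem_support.1 hx')]
    · have hx' : x ∉ q'.support := h ▸ hx
      rw [Equiv.Perm.notMem_support.1 hx, Equiv.Perm.notMem_support.1 hx']
  · intro W hW
    simp only [Finset.coe_filter, Finset.mem_univ, true_and, Set.mem_setOf_eq] at hW
    refine ⟨res P W hW.2, ?_, res_support P W hW.2⟩
    simp only [Finset.coe_filter, Finset.mem_univ, true_and, Set.mem_setOf_eq]
    exact ⟨⟨res_invol P W hW.2, by rw [res_support, hW.1]⟩, res_ext P W hW.2⟩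

open Classical in
/-- the weighted number of pairs -/
noncomputable def AA (k : PM V → PM V → ℝ) (u : ℕ) (q : Equiv.Perm V) : ℝ :=
  ∑ P : PM V, ∑ Q : PM V, if Ext q P then k P Q * phi u (out Q q.support) else 0

theorem ext_conj (g q : Equiv.Perm V) (P : PM V) :
    Ext (g * q * g⁻¹) (tr g P) ↔ Ext q P := by
  constructor
  · intro h x hx
    have h1 := h (g x)
    have h0 : g⁻¹ (g x) = x := g.symm_apply_apply x
    simp only [Equiv.Perm.mul_apply, tr_apply, Equiv.symm_apply_apply, h0] at h1
    have h2 := h1 (fun h3 => hx (g.injective h3))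
    exact g.injective h2
  · intro h x hx
    simp only [Equiv.Perm.mul_apply, tr_apply] at hx ⊢
    have h1 : q (g⁻¹ x) ≠ g⁻¹ x := by
      intro h2
      apply hx
      rw [h2]
      exact g.apply_symm_apply x
    have h2 := h (g⁻¹ x) h1
    have h3 : g.symm x = g⁻¹ x := rfl
    rw [h3, h2]

theorem out_conj (g q : Equiv.Perm V) (Q : PM V) :
    out (tr g Q) (g * q * g⁻¹).support = out Q q.support := by
  unfold out
  rw [Equiv.Perm.support_conj, Finset.filter_map, Finset.card_map]
  congr 1
  apply Finset.filter_congr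
  intro x _
  simp [tr_apply]

theorem AA_conj (k : PM V → PM V → ℝ) (hk : Inv k) (u : ℕ) (g q : Equiv.Perm V) :
    AA k u (g * q * g⁻¹) = AA k u q := by
  classical
  unfold AA
  rw [← sum_tr g]
  refine Finset.sum_congr rfl fun P _ => ?_
  rw [← sum_tr g]
  refine Finset.sum_congr rfl fun Q _ => ?_
  rw [hk, out_conj]
  simp only [ext_conj]

theorem isConj_of (q q' : Equiv.Perm V) (hq : Invol q) (hq' : Invol q')
    (h : q.support.card = q'.support.card) : ∃ g : Equiv.Perm V, g * q * g⁻¹ = q' := by
  have key : ∀ p : Equiv.Perm V, Invol p →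
      p.cycleType = Multiset.replicate p.cycleType.card 2 := by
    intro p hp
    rw [Multiset.eq_replicate]
    refine ⟨rfl, ?_⟩
    haveI : Fact (Nat.Prime 2) := ⟨Nat.prime_two⟩
    apply (Equiv.Perm.pow_prime_eq_one_iff (σ := p) (p := 2)).1
    ext x
    rw [pow_two, Equiv.Perm.mul_apply, hp x]
    rfl
  have h1 := Equiv.Perm.sum_cycleType q
  have h2 := Equiv.Perm.sum_cycleType q'
  rw [key q hq, Multiset.sum_replicate, smul_eq_mul] at h1
  rw [key q' hq', Multiset.sum_replicate, smul_eq_mul] at h2
  have h3 : q.cycleType = q'.cycleType := by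
    rw [key q hq, key q' hq']
    congr 1
    omega
  have h4 := Equiv.Perm.isConj_iff_cycleType_eq.2 h3
  exact isConj_iff.1 h4

end DL

open DL

open Classical in
theorem dlemma (t u : ℕ) (hV : Fintype.card V = 2 * (t + u)) (k : PM V → PM V → ℝ)
    (hk : Inv k) (hk0 : ∀ P Q, 0 ≤ k P Q) (β : ℝ)
    (hβ : ∀ P Q, k P Q ≠ 0 →
      ∑ W ∈ univ.filter (fun W : Finset V => W.card = 2 * t ∧ Cl P W), phi u (out Q W) ≤
        β * ((t + u).choose t : ℝ))
    (f : PM V → ℝ) (θ : ℝ) (hf : ∀ P, app k f P = θ * f P) (hlow : Low u f)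
    (hex : ∃ q : Equiv.Perm V, Invol q ∧ q.support.card + 2 * u = Fintype.card V ∧
      D f q ≠ 0) :
    |θ| ≤ β * rsum k := by
  obtain ⟨q1, hq1, hq1c, hq1D⟩ := hex
  set I : Finset (Equiv.Perm V) :=
    univ.filter (fun q : Equiv.Perm V => Invol q ∧ q.support.card = 2 * t) with hI
  have hq1I : q1 ∈ I := by
    rw [hI, Finset.mem_filter]
    exact ⟨Finset.mem_univ _, hq1, by omega⟩
  obtain ⟨q0, hq0I, hmax⟩ := Finset.exists_max_image I (fun q => |D f q|) ⟨q1, hq1I⟩
  have hq0 := (Finset.mem_filter.1 hq0I).2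
  set C : ℝ := |D f q0| with hC
  have hCpos : 0 < C := lt_of_lt_of_le (abs_pos.2 hq1D) (hmax q1 hq1I)
  -- number of extensions
  have hcard : ∀ q ∈ I, (univ.filter (fun P : PM V => Ext q P)).card = cnt 0 (2 * u) := by
    intro q hq
    have hq' := (Finset.mem_filter.1 hq).2
    have h1 := card_ext q hq'.1 ∅ (Finset.disjoint_empty_right _)
    have h2 : Fintype.card V - q.support.card - (∅ : Finset V).card = 2 * u := by
      rw [Finset.card_empty]; omega
    rw [h2, Finset.card_empty] at h1
    rw [← h1]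
    congr 1
    apply Finset.filter_congr
    intro P _
    simp [Ind]
  have hexP : ∃ P, Ext q0 P := by
    by_contra hcon
    push Not at hcon
    have : D f q0 = 0 := by
      unfold D
      exact Finset.sum_eq_zero fun P _ => if_neg (hcon P)
    rw [hC, this, abs_zero] at hCpos
    exact lt_irrefl _ hCpos
  obtain ⟨P0, hP0⟩ := hexP
  have hc0 : 0 < cnt 0 (2 * u) := by
    rw [← hcard q0 hq0I]
    exact Finset.card_pos.2 ⟨P0, Finset.mem_filter.2 ⟨Finset.mem_univ _, hP0⟩⟩
  have hc0' : (0 : ℝ) < (cnt 0 (2 * u) : ℝ) := by exact_mod_cast hc0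
  -- the main estimate
  have hmain : |θ| * (cnt 0 (2 * u) : ℝ) ≤ AA k u q0 := by
    set M : PM V → ℝ := fun Q => ∑ P : PM V, if Ext q0 P then k P Q else 0 with hM
    have hM0 : ∀ Q, 0 ≤ M Q := fun Q =>
      Finset.sum_nonneg fun P _ => by split_ifs <;> [exact hk0 P Q; exact le_rfl]
    have hMinv : ∀ g : Equiv.Perm V, (∀ x ∈ q0.support, g x = x) → ∀ Q, M (tr g Q) = M Q := by
      intro g hg Q
      rw [hM]
      show (∑ P : PM V, if Ext q0 P then k P (tr g Q) else 0) =
        ∑ P : PM V, if Ext q0 P then k P Q else 0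
      rw [← sum_tr g]
      refine Finset.sum_congr rfl fun P _ => ?_
      rw [hk]
      have : Ext q0 (tr g P) ↔ Ext q0 P := by
        have hginv : ∀ x ∈ q0.support, g.symm x = x := by
          intro x hx
          rw [Equiv.symm_apply_eq, hg x hx]
        constructor
        · intro h x hx
          have hx' := Equiv.Perm.mem_support.2 hx
          have h1 := h x hx
          rw [tr_apply, hginv x hx'] at h1
          have h2 : q0 x ∈ q0.support := Equiv.Perm.apply_mem_support.2 hx'
          rw [← hg _ h2] at h1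
          exact g.injective h1
        · intro h x hx
          have hx' := Equiv.Perm.mem_support.2 hx
          rw [tr_apply, hginv x hx', h x hx]
          exact hg _ (Equiv.Perm.apply_mem_support.2 hx')
      simp only [this]
    have h1 : θ * D f q0 = ∑ Q, M Q * f Q := by
      unfold D
      rw [Finset.mul_sum]
      have : ∀ P : PM V, θ * (if Ext q0 P then f P else 0) =
          ∑ Q, (if Ext q0 P then k P Q else 0) * f Q := by
        intro P
        split_ifs with h
        · rw [← hf P]; rfl
        · simp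
      rw [Finset.sum_congr rfl fun P _ => this P, Finset.sum_comm]
      refine Finset.sum_congr rfl fun Q _ => ?_
      rw [← Finset.sum_mul]
    rw [trace_sum q0.support M f hMinv] at h1
    have h2 : ∀ Q : PM V, |(∑ Q' : PM V, if SameTr q0.support Q Q' then f Q' else 0) /
        (∑ Q' : PM V, if SameTr q0.support Q Q' then (1 : ℝ) else 0)| ≤
        phi u (out Q q0.support) * (C / (cnt 0 (2 * u) : ℝ)) := by
      intro Q
      obtain ⟨q, B, hq, hqW, hBW, hdis, hcd, hBo, hST⟩ := sameTr_eq q0.support Q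
      have hnum : (∑ Q' : PM V, if SameTr q0.support Q Q' then f Q' else 0) = DI f q B := by
        unfold DI
        refine Finset.sum_congr rfl fun Q' _ => ?_
        simp only [hST Q']
      have hden : (∑ Q' : PM V, if SameTr q0.support Q Q' then (1 : ℝ) else 0) =
          (cnt (out Q q0.support) (2 * u) : ℝ) := by
        have h3 := card_ext q hq B hdis
        have h4 : Fintype.card V - q.support.card - B.card = 2 * u := by omega
        rw [h4, hBo] at h3
        rw [← h3, Finset.card_filter]
        push_cast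
        refine Finset.sum_congr rfl fun Q' _ => ?_
        simp only [hST Q']
      have hdpos : (0 : ℝ) < (cnt (out Q q0.support) (2 * u) : ℝ) := by
        rw [← hden]
        have : (1 : ℝ) ≤ ∑ Q' : PM V, if SameTr q0.support Q Q' then (1 : ℝ) else 0 := by
          have h5 : (if SameTr q0.support Q Q then (1 : ℝ) else 0) = 1 :=
            if_pos (fun _ _ _ _ => Iff.rfl)
          calc (1 : ℝ) = if SameTr q0.support Q Q then (1 : ℝ) else 0 := h5.symm
            _ ≤ _ := Finset.single_le_sum (f := fun Q' : PM V =>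
                if SameTr q0.support Q Q' then (1 : ℝ) else 0)
                (fun Q' _ => by split_ifs <;> norm_num) (Finset.mem_univ Q)
        linarith
      have hDI := DI_le f (2 * t) C hCpos.le
        (fun q' hq' hlt => hlow q' hq' (by omega))
        (fun q' hq' heq => hmax q' (Finset.mem_filter.2 ⟨Finset.mem_univ _, hq', heq⟩))
        B q hq hdis (by omega)
      rw [hnum, hden, abs_div, abs_of_pos hdpos, hBo] at *
      unfold phi
      rw [div_le_iff₀ hdpos]
      calc |DI f q B| ≤ ((out Q q0.support - 1)‼ : ℕ) * C := hDI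
        _ = _ := by field_simp
    have h3 : |θ| * C ≤ ∑ Q, M Q * (phi u (out Q q0.support) * (C / (cnt 0 (2 * u) : ℝ))) := by
      rw [hC, ← abs_mul, h1]
      refine (Finset.abs_sum_le_sum_abs _ _).trans (Finset.sum_le_sum fun Q _ => ?_)
      rw [abs_mul, abs_of_nonneg (hM0 Q)]
      exact mul_le_mul_of_nonneg_left (h2 Q) (hM0 Q)
    have h4 : ∑ Q, M Q * (phi u (out Q q0.support) * (C / (cnt 0 (2 * u) : ℝ))) =
        AA k u q0 * (C / (cnt 0 (2 * u) : ℝ)) := by
      unfold AA
      rw [Finset.sum_comm, Finset.sum_mul]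
      refine Finset.sum_congr rfl fun Q _ => ?_
      rw [hM]
      simp only []
      rw [Finset.sum_mul, Finset.sum_mul]
      refine Finset.sum_congr rfl fun P _ => ?_
      split_ifs <;> ring
    rw [h4] at h3
    have h5 : |θ| * C * (cnt 0 (2 * u) : ℝ) ≤ AA k u q0 * C := by
      calc |θ| * C * (cnt 0 (2 * u) : ℝ) ≤
          AA k u q0 * (C / (cnt 0 (2 * u) : ℝ)) * (cnt 0 (2 * u) : ℝ) :=
            mul_le_mul_of_nonneg_right h3 hc0'.le
        _ = AA k u q0 * C := by field_simp
    have h6 : |θ| * (cnt 0 (2 * u) : ℝ) * C ≤ AA k u q0 * C := by linarith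
    exact le_of_mul_le_mul_right h6 hCpos
  -- summation over all q
  have hsum : ∑ q ∈ I, AA k u q = (I.card : ℝ) * AA k u q0 := by
    rw [Finset.sum_congr rfl (g := fun _ => AA k u q0), Finset.sum_const, nsmul_eq_mul]
    intro q hq
    have hq' := (Finset.mem_filter.1 hq).2
    obtain ⟨g, hg⟩ := isConj_of q0 q hq0.1 hq'.1 (by rw [hq0.2, hq'.2])
    rw [← hg, AA_conj k hk]
  have hsum2 : ∑ q ∈ I, AA k u q ≤
      β * ((t + u).choose t : ℝ) * ((Fintype.card (PM V) : ℝ) * rsum k) := by
    have h1 : ∑ q ∈ I, AA k u q = ∑ P : PM V, ∑ Q : PM V, k P Q *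
        ∑ W ∈ univ.filter (fun W : Finset V => W.card = 2 * t ∧ Cl P W), phi u (out Q W) := by
      unfold AA
      rw [Finset.sum_comm]
      refine Finset.sum_congr rfl fun P _ => ?_
      rw [Finset.sum_comm]
      refine Finset.sum_congr rfl fun Q _ => ?_
      rw [← sum_supp t P (fun W => phi u (out Q W)), Finset.mul_sum]
      refine Finset.sum_congr rfl fun q _ => ?_
      split_ifs <;> simp
    rw [h1]
    have h2 : ((Fintype.card (PM V) : ℝ) * rsum k) = ∑ P : PM V, ∑ Q : PM V, k P Q := by
      unfold rsum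
      have : (Fintype.card (PM V) : ℝ) ≠ 0 := by
        have := card_PM_pos (t + u) hV
        positivity
      field_simp
    rw [h2, Finset.mul_sum]
    refine Finset.sum_le_sum fun P _ => ?_
    rw [Finset.mul_sum]
    refine Finset.sum_le_sum fun Q _ => ?_
    by_cases h : k P Q = 0
    · rw [h]; simp
    · have := mul_le_mul_of_nonneg_left (hβ P Q h) (hk0 P Q)
      linarith
  have hcount : (I.card : ℝ) * (cnt 0 (2 * u) : ℝ) =
      (Fintype.card (PM V) : ℝ) * ((t + u).choose t : ℝ) := by
    have h1 : ∑ q ∈ I, ∑ P : PM V, (if Ext q P then (1 : ℝ) else 0) =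
        (I.card : ℝ) * (cnt 0 (2 * u) : ℝ) := by
      rw [Finset.sum_congr rfl (g := fun _ => (cnt 0 (2 * u) : ℝ)), Finset.sum_const,
        nsmul_eq_mul]
      intro q hq
      rw [← hcard q hq, Finset.card_filter]
      push_cast
      rfl
    have h2 : ∑ q ∈ I, ∑ P : PM V, (if Ext q P then (1 : ℝ) else 0) =
        (Fintype.card (PM V) : ℝ) * ((t + u).choose t : ℝ) := by
      rw [Finset.sum_comm]
      rw [Finset.sum_congr rfl (g := fun _ => ((t + u).choose t : ℝ)), Finset.sum_const,
        nsmul_eq_mul, Finset.card_univ]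
      intro P _
      have := sum_supp t P (fun _ => (1 : ℝ))
      rw [hI, this, ← card_closed (t + u) hV P t, Finset.sum_const, nsmul_eq_mul, mul_one]
    rw [← h1, h2]
  have hIpos : (0 : ℝ) < (I.card : ℝ) := by
    have : 0 < I.card := Finset.card_pos.2 ⟨q0, hq0I⟩
    exact_mod_cast this
  have hPMpos : (0 : ℝ) < (Fintype.card (PM V) : ℝ) := by
    have := card_PM_pos (t + u) hV
    exact_mod_cast this
  have hchpos : (0 : ℝ) < ((t + u).choose t : ℝ) := by
    have := Nat.choose_pos (n := t + u) (k := t) (by omega)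
    exact_mod_cast this
  have h1 : (I.card : ℝ) * (|θ| * (cnt 0 (2 * u) : ℝ)) ≤ (I.card : ℝ) * AA k u q0 :=
    mul_le_mul_of_nonneg_left hmain hIpos.le
  rw [← hsum] at h1
  have h2 := h1.trans hsum2
  have h3 : |θ| * ((Fintype.card (PM V) : ℝ) * ((t + u).choose t : ℝ)) ≤
      (β * rsum k) * ((Fintype.card (PM V) : ℝ) * ((t + u).choose t : ℝ)) := by
    calc |θ| * ((Fintype.card (PM V) : ℝ) * ((t + u).choose t : ℝ)) =
        |θ| * ((I.card : ℝ) * (cnt 0 (2 * u) : ℝ)) := by rw [hcount]
      _ = (I.card : ℝ) * (|θ| * (cnt 0 (2 * u) : ℝ)) := by ring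
      _ ≤ β * ((t + u).choose t : ℝ) * ((Fintype.card (PM V) : ℝ) * rsum k) := h2
      _ = (β * rsum k) * ((Fintype.card (PM V) : ℝ) * ((t + u).choose t : ℝ)) := by ring
  exact le_of_mul_le_mul_right h3 (mul_pos hPMpos hchpos)

end Pool.Agent.Helper23.MS
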