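import Mathlib

/-!
# Perfect matching scheme: definitions (problem MP_4128fd_co)

`PM V` is the type of perfect matchings of the complete graph on `V`, seen as
involutions without fixed points.  `typ P Q` is the multiset of half sizes of the
connected components of the union of `P` and `Q`.
-/

open scoped BigOperators Nat
open Finset

namespace Pool.Agent.Helper23.MS

noncomputable section

/-- Perfect matchings of the complete graph on `V`, as involutions without fixed
points: `P x` is the partner of `x`. -/
abbrev PM (V : Type) : Type :=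
  {P : Equiv.Perm V // (∀ x, P (P x) = x) ∧ ∀ x, P x ≠ x}

/-- Transport of a perfect matching along a bijection of the vertex sets. -/
def tr {V W : Type} (e : V ≃ W) (P : PM V) : PM W :=
  ⟨(e.symm.trans P.1).trans e, by
    constructor
    · intro x; simp [P.2.1]
    · intro x h
      have h1 : e (P.1 (e.symm x)) = x := h
      have h2 : P.1 (e.symm x) = e.symm x := by
        apply e.injective; simpa using h1
      exact P.2.2 _ h2⟩

@[simp] theorem tr_apply {V W : Type} (e : V ≃ W) (P : PM V) (x : W) :
    (tr e P).1 x = e (P.1 (e.symm x)) := rfl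

/-! ### functions on a finite set, kernels -/

/-- The function `k f`. -/
def app {X : Type} [Fintype X] (k : X → X → ℝ) (f : X → ℝ) : X → ℝ :=
  fun x => ∑ y, k x y * f y

/-- The quadratic form of a kernel. -/
def quad {X : Type} [Fintype X] (k : X → X → ℝ) (f : X → ℝ) : ℝ :=
  ∑ x, ∑ y, k x y * f x * f y

/-- The squared euclidean norm. -/
def nrm {X : Type} [Fintype X] (f : X → ℝ) : ℝ := ∑ x, f x ^ 2

/-- The average row sum of a kernel. -/
def rsum {X : Type} [Fintype X] (k : X → X → ℝ) : ℝ :=
  (∑ x, ∑ y, k x y) / (Fintype.card X : ℝ)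

section

variable {V : Type} [Fintype V] [DecidableEq V]

/-! ### types of pairs of matchings -/

/-- `Conn P Q x y`: `x` and `y` lie in the same component of the union of `P`
and `Q`. -/
def Conn (P Q : PM V) : V → V → Prop :=
  Relation.ReflTransGen (fun a b => P.1 a = b ∨ Q.1 a = b)

open Classical in
/-- The component of `x` in the union of `P` and `Q`. -/
def blk (P Q : PM V) (x : V) : Finset V := univ.filter (fun y => Conn P Q x y)

/-- The set of components of the union of `P` and `Q`. -/
def blocks (P Q : PM V) : Finset (Finset V) := univ.image (blk P Q)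

/-- The multiset of half sizes of the components of the union of `P` and `Q`. -/
def typ (P Q : PM V) : Multiset ℕ := (blocks P Q).val.map (fun B => B.card / 2)

open Classical in
/-- The matrix `A_ν` of the perfect matching scheme. -/
def kern (ν : Multiset ℕ) (P Q : PM V) : ℝ := if typ P Q = ν then 1 else 0

open Classical in
/-- The kernel of the relation: `P` and `Q` differ at exactly `2 d` vertices. -/
def kd (d : ℕ) (P Q : PM V) : ℝ :=
  if (univ.filter (fun x => P.1 x ≠ Q.1 x)).card = 2 * d then 1 else 0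

/-- A kernel invariant under all permutations of the vertices. -/
def Inv (k : PM V → PM V → ℝ) : Prop :=
  ∀ (g : Equiv.Perm V) (P Q : PM V), k (tr g P) (tr g Q) = k P Q

/-! ### partial matchings: involutions `q` -/

/-- `q` is an involution (a partial matching, with vertex set `q.support`). -/
def Invol (q : Equiv.Perm V) : Prop := ∀ x, q (q x) = x

/-- `P` extends the partial matching `q`. -/
def Ext (q : Equiv.Perm V) (P : PM V) : Prop := ∀ x, q x ≠ x → P.1 x = q x

/-- `B` is independent in `P`. -/
def Ind (P : PM V) (B : Finset V) : Prop := ∀ x ∈ B, P.1 x ∉ B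

open Classical in
/-- The sum of `f` over the perfect matchings extending `q`. -/
def D (f : PM V → ℝ) (q : Equiv.Perm V) : ℝ := ∑ P, if Ext q P then f P else 0

open Classical in
/-- The sum of `f` over the perfect matchings extending `q` in which `B` is
independent. -/
def DI (f : PM V → ℝ) (q : Equiv.Perm V) (B : Finset V) : ℝ :=
  ∑ P, if Ext q P ∧ Ind P B then f P else 0

/-- `Low u f`: the function `f` lives on the components `2λ` with `λ_1 ≤ u`. -/
def Low (u : ℕ) (f : PM V → ℝ) : Prop :=
  ∀ q : Equiv.Perm V, Invol q → q.support.card + 2 * u < Fintype.card V → D f q = 0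

/-- Number of perfect matchings of `j + r` points in which `j` given points are
independent. -/
def cnt : ℕ → ℕ → ℕ
  | 0, 0 => 1
  | 0, 1 => 0
  | 0, (n + 2) => (n + 1) * cnt 0 n
  | (_ + 1), 0 => 0
  | (k + 1), (n + 1) => (n + 1) * cnt k n

/-- The weight of the `D`-lemma. -/
def phi (u j : ℕ) : ℝ :=
  (((j - 1)‼ : ℕ) : ℝ) * (cnt 0 (2 * u) : ℝ) / (cnt j (2 * u) : ℝ)

/-- `S` is closed under `P`. -/
def Cl (P : PM V) (S : Finset V) : Prop := ∀ x ∈ S, P.1 x ∈ S

/-- The number of vertices of `W` matched outside `W`. -/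
def out (Q : PM V) (W : Finset V) : ℕ := (W.filter (fun x => Q.1 x ∉ W)).card

/-! ### gluing -/

/-- Glue a matching of `S` and a matching of the complement. -/
def glue (S : Finset V) (P1 : PM {x // x ∈ S}) (P2 : PM {x // x ∉ S}) : PM V :=
  ⟨Equiv.Perm.subtypeCongr P1.1 P2.1, by
    constructor
    · intro x
      by_cases hx : x ∈ S
      · simp [Equiv.Perm.subtypeCongr.left_apply, hx, P1.2.1]
      · simp [Equiv.Perm.subtypeCongr.right_apply, hx, P2.2.1]
    · intro x
      by_cases hx : x ∈ S
      · rw [Equiv.Perm.subtypeCongr.left_apply _ _ hx]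
        intro h; exact P1.2.2 ⟨x, hx⟩ (Subtype.ext h)
      · rw [Equiv.Perm.subtypeCongr.right_apply _ _ hx]
        intro h; exact P2.2.2 ⟨x, hx⟩ (Subtype.ext h)⟩

open Classical in
/-- The average of `f` over the perfect matchings equal to `P` off `S`. -/
def Ex (f : PM V → ℝ) (S : Finset V) (P : PM V) : ℝ :=
  (∑ Q : PM V, if (∀ x, x ∉ S → Q.1 x = P.1 x) then f Q else 0) /
    (∑ Q : PM V, if (∀ x, x ∉ S → Q.1 x = P.1 x) then (1 : ℝ) else 0)

open Classical in
/-- The weight of `f` on the averages over `a` edges. -/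
def Wt (a : ℕ) (f : PM V → ℝ) : ℝ :=
  ∑ S : Finset V, ∑ P : PM V, if S.card = 2 * a ∧ Cl P S then Ex f S P ^ 2 else 0

/-- The functions `P ↦ ∑_{e ∈ P} g e`, where `g` is a function on the edges with sum
`0` at every vertex: the component `V_{[2n-2,2]}`. -/
def V2 (f : PM V → ℝ) : Prop :=
  ∃ g : V → V → ℝ, (∀ x y, g x y = g y x) ∧ (∀ x, g x x = 0) ∧
    (∀ x, ∑ y, g x y = 0) ∧ ∀ P : PM V, f P = ∑ x, g x (P.1 x)

end

/-! ### bounds -/

/-- Number of sub-multisets (with multiplicity) of `ν` with sum `t`. -/
def cc (ν : Multiset ℕ) (t : ℕ) : ℕ := (ν.powerset.filter (fun s => s.sum = t)).card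

/-- Quadratic bound for `A_ν` on the functions of level at most `u`. -/
def QB (ν : Multiset ℕ) (u : ℕ) (x : ℝ) : Prop :=
  ∀ (V : Type) [Fintype V] [DecidableEq V], Fintype.card V = 2 * ν.sum →
    ∀ f : PM V → ℝ, Low u f →
      |quad (kern ν) f| ≤ x * rsum (kern (V := V) ν) * nrm f

/-- Norm bound for `A_ν` on the functions of level at most `u`. -/
def NB (ν : Multiset ℕ) (u : ℕ) (x : ℝ) : Prop :=
  ∀ (V : Type) [Fintype V] [DecidableEq V], Fintype.card V = 2 * ν.sum →
    ∀ f : PM V → ℝ, Low u f →
      nrm (app (kern ν) f) ≤ (x * rsum (kern (V := V) ν)) ^ 2 * nrm f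

/-- Bound for the eigenvalues of `A_ν` at exact level `u`. -/
def EB (ν : Multiset ℕ) (u : ℕ) (x : ℝ) : Prop :=
  ∀ (V : Type) [Fintype V] [DecidableEq V], Fintype.card V = 2 * ν.sum →
    ∀ (f : PM V → ℝ) (θ : ℝ), (∀ P, app (kern ν) f P = θ * f P) → Low u f →
      (∃ q : Equiv.Perm V, Invol q ∧ q.support.card + 2 * u = Fintype.card V ∧
        D f q ≠ 0) → |θ| ≤ x * rsum (kern (V := V) ν)

/-- Bound for the weight of the averages over `a` edges. -/
def WB (a u : ℕ) (q : ℝ) (N : ℕ) : Prop :=
  ∀ (V : Type) [Fintype V] [DecidableEq V], Fintype.card V = 2 * N →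
    ∀ f : PM V → ℝ, Low u f → Wt a f ≤ q * (N.choose a : ℝ) * nrm f

/-- One-sided quadratic bound for `A_μ` on the functions of mean zero. -/
def UB (μ : Multiset ℕ) (c : ℝ) : Prop :=
  ∀ (V : Type) [Fintype V] [DecidableEq V], Fintype.card V = 2 * μ.sum →
    ∀ f : PM V → ℝ, ∑ P, f P = 0 →
      quad (kern μ) f ≤ c * rsum (kern (V := V) μ) * nrm f

/-- The normalised eigenvalue on `V_{[2n-2,2]}` of a type with `k` parts `1`. -/
def om (n k : ℕ) : ℝ := ((2 * n - 1) * k - n) / (2 * n * (n - 1))

/-- The target bound for types without parts `1`. -/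
def tgt (N : ℕ) : ℝ :=
  if N ≤ 14 then 1 - 31 * N / 480 else (3 * N + 4) / (2 * (N + 1) * (N + 2))

end

end Pool.Agent.Helper23.MS
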