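import Pool.Agent.Helper23.MS.Glue
import Pool.Agent.Helper23.MS.Restr
import Pool.Agent.Helper23.MS.Level

/-! # MS-24: the top level and the induction on the number of parts one -/

open scoped BigOperators Nat
open Finset

namespace Pool.Agent.Helper23.MS

variable {V : Type} [Fintype V] [DecidableEq V]

/-- The sum of `k P Q` over the matchings `P` containing the edge `x y`. -/
private noncomputable def CC (k : PM V → PM V → ℝ) (x y : V) (Q : PM V) : ℝ :=
  ∑ P : PM V, if P.1 x = y then k P Q else 0

private theorem CC_tr (k : PM V → PM V → ℝ) (hk : Inv k) (g : Equiv.Perm V) (x y : V)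
    (Q : PM V) : CC k (g x) (g y) (tr g Q) = CC k x y Q := by
  unfold CC
  rw [← sum_tr g]
  apply Finset.sum_congr rfl
  intro P _
  rw [hk g P Q]
  simp [tr_apply]

private theorem exists_move (x y x' y' : V) (h : x ≠ y) (h' : x' ≠ y') :
    ∃ g : Equiv.Perm V, g x = x' ∧ g y = y' := by
  refine ⟨Equiv.swap (Equiv.swap x x' y) y' * Equiv.swap x x', ?_, ?_⟩
  · rw [Equiv.Perm.mul_apply, Equiv.swap_apply_left]
    apply Equiv.swap_apply_of_ne_of_ne
    · intro h1
      have h2 : Equiv.swap x x' x = Equiv.swap x x' y := by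
        rw [Equiv.swap_apply_left]; exact h1
      exact h ((Equiv.swap x x').injective h2)
    · exact h'
  · rw [Equiv.Perm.mul_apply, Equiv.swap_apply_left]

private theorem CC_const (k : PM V → PM V → ℝ) (hk : Inv k) (x y x' y' : V) (Q Q' : PM V)
    (h : x ≠ y) (h' : x' ≠ y') (hh : Q.1 x = y ↔ Q'.1 x' = y') :
    CC k x y Q = CC k x' y' Q' := by
  obtain ⟨g, hgx, hgy⟩ := exists_move x y x' y' h h'
  have hs : SameTr {x', y'} (tr g Q) Q' := by
    have e1 : (tr g Q).1 x' = y' ↔ Q'.1 x' = y' := by
      rw [← hh, tr_apply, ← hgx, ← hgy]; simp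
    have e2 : ∀ R : PM V, (R.1 y' = x' ↔ R.1 x' = y') := by
      intro R
      constructor
      · intro h1; rw [← h1]; exact R.2.1 y'
      · intro h1; rw [← h1]; exact R.2.1 x'
    intro a ha b hb
    simp only [Finset.mem_insert, Finset.mem_singleton] at ha hb
    rcases ha with rfl | rfl <;> rcases hb with rfl | rfl
    · exact iff_of_false ((tr g Q).2.2 _) (Q'.2.2 _)
    · exact e1
    · rw [e2, e2]; exact e1
    · exact iff_of_false ((tr g Q).2.2 _) (Q'.2.2 _)
  obtain ⟨g2, hfix, hg2⟩ := exists_cj {x', y'} (tr g Q) Q' hs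
  have hx2 : g2 x' = x' := hfix x' (by simp)
  have hy2 : g2 y' = y' := hfix y' (by simp)
  calc CC k x y Q = CC k (g x) (g y) (tr g Q) := (CC_tr k hk g x y Q).symm
    _ = CC k x' y' (tr g Q) := by rw [hgx, hgy]
    _ = CC k (g2 x') (g2 y') (tr g2 (tr g Q)) := (CC_tr k hk g2 x' y' _).symm
    _ = CC k x' y' Q' := by rw [hx2, hy2, hg2]

private theorem CC_sum (k : PM V → PM V → ℝ) (x : V) (Q : PM V) :
    ∑ y, CC k x y Q = ∑ P, k P Q := by
  unfold CC
  rw [Finset.sum_comm]
  apply Finset.sum_congr rfl
  intro P _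
  rw [Finset.sum_ite_eq]
  simp

private theorem CC_self (k : PM V → PM V → ℝ) (x : V) (Q : PM V) : CC k x x Q = 0 := by
  unfold CC
  apply Finset.sum_eq_zero
  intro P _
  rw [if_neg (P.2.2 x)]

private theorem CC_diag (μ : Multiset ℕ) (Q : PM V) :
    ∑ x, CC (kern μ) x (Q.1 x) Q = 2 * (μ.count 1 : ℝ) * ∑ P : PM V, kern μ P Q := by
  unfold CC
  rw [Finset.sum_comm, Finset.mul_sum]
  apply Finset.sum_congr rfl
  intro P _
  rw [← Finset.sum_filter, Finset.sum_const, nsmul_eq_mul]
  by_cases h : typ P Q = μ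
  · have h1 := typ_count_one P Q
    rw [h] at h1
    rw [← h1]
    push_cast
    ring
  · have : kern μ P Q = 0 := by unfold kern; rw [if_neg h]
    rw [this]; ring

private theorem CC_vals (μ : Multiset ℕ) (n : ℕ) (h2 : 2 ≤ n)
    (hV : Fintype.card V = 2 * n) :
    ∃ α β : ℝ, (∀ (x y : V) (Q : PM V), x ≠ y →
      CC (kern μ) x y Q = if Q.1 x = y then α else β) ∧
      α - β = om n (μ.count 1) * rsum (kern (V := V) μ) := by
  have hpos := card_PM_pos n hV
  obtain ⟨Q0⟩ : Nonempty (PM V) := Fintype.card_pos_iff.mp hpos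
  have hVpos : 0 < Fintype.card V := by omega
  obtain ⟨x0⟩ : Nonempty V := Fintype.card_pos_iff.mp hVpos
  obtain ⟨y0, hy0⟩ : ∃ y0 : V, y0 ∉ ({x0, Q0.1 x0} : Finset V) := by
    by_contra hcon
    push Not at hcon
    have h3 : (univ : Finset V) ⊆ {x0, Q0.1 x0} := fun y _ => hcon y
    have h4 := Finset.card_le_card h3
    have h5 : ({x0, Q0.1 x0} : Finset V).card ≤ 2 := Finset.card_le_two
    rw [Finset.card_univ] at h4
    omega
  simp only [Finset.mem_insert, Finset.mem_singleton, not_or] at hy0
  have hInv := kern_Inv (V := V) μ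
  refine ⟨CC (kern μ) x0 (Q0.1 x0) Q0, CC (kern μ) x0 y0 Q0, ?_, ?_⟩
  · intro x y Q hxy
    by_cases h : Q.1 x = y
    · rw [if_pos h]
      exact CC_const _ hInv _ _ _ _ _ _ hxy (Ne.symm (Q0.2.2 x0)) (iff_of_true h rfl)
    · rw [if_neg h]
      exact CC_const _ hInv _ _ _ _ _ _ hxy (Ne.symm hy0.1)
        (iff_of_false h (Ne.symm hy0.2))
  · set α := CC (kern μ) x0 (Q0.1 x0) Q0 with hα
    set β := CC (kern μ) x0 y0 Q0 with hβ
    set r := rsum (kern (V := V) μ) with hr
    have hrow : ∑ P : PM V, kern μ P Q0 = r := by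
      rw [hr, ← row_const (kern μ) hInv Q0]
      apply Finset.sum_congr rfl
      intro P _
      exact kern_symm μ P Q0
    have h1 : 2 * (n : ℝ) * α = 2 * (μ.count 1 : ℝ) * r := by
      have h3 := CC_diag μ Q0
      rw [hrow] at h3
      rw [← h3]
      have h4 : ∀ x : V, CC (kern μ) x (Q0.1 x) Q0 = α := by
        intro x
        exact CC_const _ hInv _ _ _ _ _ _ (Ne.symm (Q0.2.2 x)) (Ne.symm (Q0.2.2 x0))
          (iff_of_true rfl rfl)
      rw [Finset.sum_congr rfl (fun x _ => h4 x), Finset.sum_const, Finset.card_univ, hV,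
        nsmul_eq_mul]
      push_cast
      ring
    have h2' : α + (2 * (n : ℝ) - 2) * β = r := by
      have h3 := CC_sum (kern μ) x0 Q0
      rw [hrow] at h3
      rw [← h3]
      have h4 : ∀ y : V, CC (kern μ) x0 y Q0 =
          β + (if y = Q0.1 x0 then α - β else 0) + (if y = x0 then -β else 0) := by
        intro y
        by_cases hy1 : y = x0
        · subst hy1
          rw [CC_self, if_neg (Ne.symm (Q0.2.2 y)), if_pos rfl]
          ring
        · by_cases hy2 : y = Q0.1 x0
          · rw [if_pos hy2, if_neg hy1, hy2]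
            ring
          · rw [if_neg hy2, if_neg hy1, add_zero, add_zero]
            exact CC_const _ hInv _ _ _ _ _ _ (Ne.symm hy1) (Ne.symm hy0.1)
              (iff_of_false (fun h => hy2 h.symm) (fun h => hy0.2 h.symm))
      rw [Finset.sum_congr rfl (fun y _ => h4 y), Finset.sum_add_distrib,
        Finset.sum_add_distrib, Finset.sum_const, Finset.card_univ, hV, nsmul_eq_mul,
        Finset.sum_ite_eq', Finset.sum_ite_eq']
      simp only [Finset.mem_univ, if_true]
      push_cast
      ring
    have hn0 : (n : ℝ) ≠ 0 := by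
      have : 0 < n := by omega
      positivity
    have hn1 : (n : ℝ) - 1 ≠ 0 := by
      have : (2 : ℝ) ≤ n := by exact_mod_cast h2
      intro h
      linarith
    have ha : α = (μ.count 1 : ℝ) * r / n := by
      field_simp
      linarith
    have hb : β = (r - α) / (2 * (n - 1)) := by
      field_simp
      linarith
    rw [hb, ha]
    unfold om
    field_simp
    ring

private theorem D_one (f : PM V → ℝ) : D f 1 = ∑ P, f P := by
  unfold D
  apply Finset.sum_congr rfl
  intro P _
  rw [if_pos]
  intro x hx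
  exact absurd rfl hx

private theorem ext_swap (x y : V) (hxy : x ≠ y) (P : PM V) :
    Ext (Equiv.swap x y) P ↔ P.1 x = y := by
  constructor
  · intro h
    have := h x (by rw [Equiv.swap_apply_left]; exact hxy.symm)
    rw [Equiv.swap_apply_left] at this
    exact this
  · intro h z hz
    by_cases h1 : z = x
    · rw [h1, Equiv.swap_apply_left]; exact h
    · by_cases h2 : z = y
      · rw [h2, Equiv.swap_apply_right, ← h]
        exact P.2.1 x
      · exact absurd (Equiv.swap_apply_of_ne_of_ne h1 h2) hz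

private theorem D_swap (f : PM V → ℝ) (x y : V) (hxy : x ≠ y) :
    D f (Equiv.swap x y) = ∑ P : PM V, if P.1 x = y then f P else 0 := by
  unfold D
  apply Finset.sum_congr rfl
  intro P _
  by_cases h : P.1 x = y
  · rw [if_pos h, if_pos ((ext_swap x y hxy P).2 h)]
  · rw [if_neg h, if_neg (fun h' => h ((ext_swap x y hxy P).1 h'))]

theorem top_exact (μ : Multiset ℕ) (n : ℕ) (hn : μ.sum = n) (h2 : 2 ≤ n)
    (hV : Fintype.card V = 2 * n) (f : PM V → ℝ) (θ : ℝ)
    (hf : ∀ P, app (kern μ) f P = θ * f P) (hlow : Low (n - 1) f)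
    (hex : ∃ q : Equiv.Perm V, Invol q ∧ q.support.card + 2 * (n - 1) = Fintype.card V ∧
      D f q ≠ 0) : θ = om n (μ.count 1) * rsum (kern (V := V) μ) := by
  obtain ⟨α, β, hC, hab⟩ := CC_vals (V := V) μ n h2 hV
  obtain ⟨q, hq, hcard, hD⟩ := hex
  have hc2 : q.support.card = 2 := by omega
  obtain ⟨x, y, hxy, rfl⟩ : q.IsSwap := Equiv.Perm.card_support_eq_two.mp hc2
  have hsum : ∑ P, f P = 0 := (Low_top n (by omega) hV f).1 hlow
  have key : θ * D f (Equiv.swap x y) = (α - β) * D f (Equiv.swap x y) := by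
    have e1 : θ * D f (Equiv.swap x y) =
        ∑ Q : PM V, CC (kern μ) x y Q * f Q := by
      rw [D_swap f x y hxy, Finset.mul_sum]
      calc ∑ P : PM V, θ * (if P.1 x = y then f P else 0)
          = ∑ P : PM V, ∑ Q : PM V, (if P.1 x = y then kern μ P Q else 0) * f Q := by
            apply Finset.sum_congr rfl
            intro P _
            by_cases h : P.1 x = y
            · rw [if_pos h, ← hf P]
              unfold app
              apply Finset.sum_congr rfl
              intro Q _
              rw [if_pos h]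
            · rw [if_neg h, mul_zero]
              symm
              apply Finset.sum_eq_zero
              intro Q _
              rw [if_neg h, zero_mul]
        _ = ∑ Q : PM V, CC (kern μ) x y Q * f Q := by
            rw [Finset.sum_comm]
            apply Finset.sum_congr rfl
            intro Q _
            unfold CC
            rw [Finset.sum_mul]
    rw [e1, D_swap f x y hxy]
    have e2 : ∀ Q : PM V, CC (kern μ) x y Q * f Q =
        β * f Q + (α - β) * (if Q.1 x = y then f Q else 0) := by
      intro Q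
      rw [hC x y Q hxy]
      split_ifs <;> ring
    rw [Finset.sum_congr rfl (fun Q _ => e2 Q), Finset.sum_add_distrib, ← Finset.mul_sum,
      ← Finset.mul_sum, hsum, mul_zero, zero_add]
  rw [← hab]
  exact mul_right_cancel₀ hD key

theorem V2_eig (μ : Multiset ℕ) (n : ℕ) (hn : μ.sum = n) (h2 : 2 ≤ n)
    (hV : Fintype.card V = 2 * n) (f : PM V → ℝ) (hf : V2 f) (P : PM V) :
    app (kern μ) f P = om n (μ.count 1) * rsum (kern (V := V) μ) * f P := by
  obtain ⟨α, β, hC, hab⟩ := CC_vals (V := V) μ n h2 hV
  obtain ⟨g, hsym, hdiag, hrow, hfg⟩ := hf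
  rw [← hab]
  unfold app
  calc ∑ Q : PM V, kern μ P Q * f Q
      = ∑ Q : PM V, ∑ x, ∑ y, g x y * (if Q.1 x = y then kern μ Q P else 0) := by
        apply Finset.sum_congr rfl
        intro Q _
        rw [hfg Q, Finset.mul_sum]
        apply Finset.sum_congr rfl
        intro x _
        have : ∀ y, g x y * (if Q.1 x = y then kern μ Q P else 0) =
            if Q.1 x = y then g x y * kern μ Q P else 0 := by
          intro y; split_ifs <;> ring
        rw [Finset.sum_congr rfl (fun y _ => this y), Finset.sum_ite_eq]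
        simp only [Finset.mem_univ, if_true]
        rw [kern_symm μ P Q]
        ring
    _ = ∑ x, ∑ y, g x y * CC (kern μ) x y P := by
        rw [Finset.sum_comm]
        apply Finset.sum_congr rfl
        intro x _
        rw [Finset.sum_comm]
        apply Finset.sum_congr rfl
        intro y _
        unfold CC
        rw [Finset.mul_sum]
    _ = ∑ x, (β * (∑ y, g x y) + (α - β) * g x (P.1 x)) := by
        apply Finset.sum_congr rfl
        intro x _
        have : ∀ y, g x y * CC (kern μ) x y P =
            β * g x y + (if P.1 x = y then (α - β) * g x y else 0) := by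
          intro y
          by_cases hxy : x = y
          · subst hxy
            rw [hdiag x, if_neg (P.2.2 x)]
            ring
          · rw [hC x y P hxy]
            split_ifs <;> ring
        rw [Finset.sum_congr rfl (fun y _ => this y), Finset.sum_add_distrib,
          Finset.sum_ite_eq, ← Finset.mul_sum]
        simp only [Finset.mem_univ, if_true]
    _ = (α - β) * f P := by
        rw [hfg P, Finset.mul_sum]
        apply Finset.sum_congr rfl
        intro x _
        rw [hrow x]
        ring

theorem V2_mean (f : PM V → ℝ) (hf : V2 f) : ∑ P, f P = 0 := by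
  obtain ⟨g, hsym, hdiag, hrow, hfg⟩ := hf
  let Nn : V → V → ℝ := fun x y => ∑ P : PM V, if P.1 x = y then (1 : ℝ) else 0
  have hN : ∀ x y y' : V, x ≠ y → x ≠ y' → Nn x y = Nn x y' := by
    intro x y y' h h'
    show (∑ P : PM V, if P.1 x = y then (1 : ℝ) else 0) =
      ∑ P : PM V, if P.1 x = y' then (1 : ℝ) else 0
    rw [← sum_tr (Equiv.swap y y') (fun P => if P.1 x = y' then (1 : ℝ) else 0)]
    apply Finset.sum_congr rfl
    intro P _
    have hx : (Equiv.swap y y').symm x = x := by
      rw [Equiv.symm_swap]; exact Equiv.swap_apply_of_ne_of_ne h h'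
    have : (tr (Equiv.swap y y') P).1 x = y' ↔ P.1 x = y := by
      rw [tr_apply, hx]
      constructor
      · intro h1
        have : Equiv.swap y y' (P.1 x) = Equiv.swap y y' y := by
          rw [Equiv.swap_apply_left]; exact h1
        exact (Equiv.swap y y').injective this
      · intro h1; rw [h1, Equiv.swap_apply_left]
    simp only [this]
  calc ∑ P, f P = ∑ P : PM V, ∑ x, ∑ y, g x y * (if P.1 x = y then (1 : ℝ) else 0) := by
        apply Finset.sum_congr rfl
        intro P _
        rw [hfg P]
        apply Finset.sum_congr rfl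
        intro x _
        have : ∀ y, g x y * (if P.1 x = y then (1 : ℝ) else 0) =
            if P.1 x = y then g x y else 0 := by
          intro y; split_ifs <;> ring
        rw [Finset.sum_congr rfl (fun y _ => this y), Finset.sum_ite_eq]
        simp only [Finset.mem_univ, if_true]
    _ = ∑ x, ∑ y, g x y * Nn x y := by
        rw [Finset.sum_comm]
        apply Finset.sum_congr rfl
        intro x _
        rw [Finset.sum_comm]
        apply Finset.sum_congr rfl
        intro y _
        rw [Finset.mul_sum]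
    _ = ∑ x : V, (0 : ℝ) := by
        apply Finset.sum_congr rfl
        intro x _
        by_cases hx : ∃ y0, x ≠ y0
        · obtain ⟨y0, hy0⟩ := hx
          have : ∀ y, g x y * Nn x y = g x y * Nn x y0 := by
            intro y
            by_cases hxy : x = y
            · rw [← hxy, hdiag x]; ring
            · rw [hN x y y0 hxy hy0]
          rw [Finset.sum_congr rfl (fun y _ => this y), ← Finset.sum_mul, hrow x, zero_mul]
        · push Not at hx
          apply Finset.sum_eq_zero
          intro y _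
          rw [← hx y, hdiag x, zero_mul]
    _ = 0 := by simp

theorem V2_exists (n : ℕ) (h2 : 2 ≤ n) (hV : Fintype.card V = 2 * n) :
    ∃ f : PM V → ℝ, V2 f ∧ f ≠ 0 := by
  have hpos := card_PM_pos n hV
  obtain ⟨Q0⟩ : Nonempty (PM V) := Fintype.card_pos_iff.mp hpos
  have hVpos : 0 < Fintype.card V := by omega
  obtain ⟨a⟩ : Nonempty V := Fintype.card_pos_iff.mp hVpos
  obtain ⟨c, hc⟩ : ∃ y0 : V, y0 ∉ ({a, Q0.1 a} : Finset V) := by
    by_contra hcon
    push Not at hcon
    have h3 : (univ : Finset V) ⊆ {a, Q0.1 a} := fun y _ => hcon y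
    have h4 := Finset.card_le_card h3
    have h5 : ({a, Q0.1 a} : Finset V).card ≤ 2 := Finset.card_le_two
    rw [Finset.card_univ] at h4
    omega
  simp only [Finset.mem_insert, Finset.mem_singleton, not_or] at hc
  let u : V → ℝ := fun x => (if x = a then 1 else 0) - (if x = c then 1 else 0)
  let v : V → ℝ := fun x => u (Q0.1 x)
  have hu : ∑ x, u x = 0 := by
    show ∑ x, ((if x = a then (1 : ℝ) else 0) - (if x = c then 1 else 0)) = 0
    rw [Finset.sum_sub_distrib, Finset.sum_ite_eq', Finset.sum_ite_eq']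
    simp
  have hv : ∑ x, v x = 0 := by
    show ∑ x, u (Q0.1 x) = 0
    rw [Equiv.sum_comp Q0.1 u]
    exact hu
  have huv : ∀ x, u x * v x = 0 := by
    intro x
    show ((if x = a then (1 : ℝ) else 0) - (if x = c then 1 else 0)) *
      ((if Q0.1 x = a then (1 : ℝ) else 0) - (if Q0.1 x = c then 1 else 0)) = 0
    by_cases h1 : x = a
    · have e1 : ¬ (Q0.1 a = a) := Q0.2.2 a
      have e2 : ¬ (Q0.1 a = c) := fun h => hc.2 h.symm
      rw [h1, if_neg e1, if_neg e2]
      ring
    · by_cases h3 : x = c
      · have h4 : Q0.1 c ≠ a := by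
          intro h; apply hc.2; rw [← h]; exact (Q0.2.1 c).symm
        rw [h3, if_neg h4, if_neg (Q0.2.2 c)]
        ring
      · rw [if_neg h1, if_neg h3]; ring
  let g : V → V → ℝ := fun x y => u x * v y + v x * u y
  refine ⟨fun P => ∑ x, g x (P.1 x), ⟨g, ?_, ?_, ?_, fun P => rfl⟩, ?_⟩
  · intro x y
    show u x * v y + v x * u y = u y * v x + v y * u x
    ring
  · intro x
    show u x * v x + v x * u x = 0
    have := huv x
    linarith
  · intro x
    show ∑ y, (u x * v y + v x * u y) = 0
    rw [Finset.sum_add_distrib, ← Finset.mul_sum, ← Finset.mul_sum, hu, hv]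
    ring
  · intro h
    have h3 : ∑ x, g x (Q0.1 x) = 0 := congrFun h Q0
    have h4 : ∀ x, g x (Q0.1 x) = u x ^ 2 + v x ^ 2 := by
      intro x
      show u x * u (Q0.1 (Q0.1 x)) + u (Q0.1 x) * u (Q0.1 x) = u x ^ 2 + u (Q0.1 x) ^ 2
      rw [Q0.2.1 x]
      ring
    rw [Finset.sum_congr rfl (fun x _ => h4 x)] at h3
    have h5 : u a ^ 2 + v a ^ 2 = 0 := by
      have := (Finset.sum_eq_zero_iff_of_nonneg (fun x _ => by positivity)).1 h3 a
        (Finset.mem_univ a)
      exact this
    have h6 : u a = 1 := by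
      show (if a = a then (1 : ℝ) else 0) - (if a = c then 1 else 0) = 1
      rw [if_pos rfl, if_neg (fun h => hc.1 h.symm)]
      ring
    rw [h6] at h5
    have := sq_nonneg (v a)
    linarith

private theorem PM_two_eq {W : Type} [Fintype W] [DecidableEq W]
    (hW : Fintype.card W = 2) (P Q : PM W) : P = Q := by
  apply Subtype.ext
  ext x
  obtain ⟨a, b, hab, huniv⟩ : ∃ a b : W, a ≠ b ∧ (univ : Finset W) = {a, b} := by
    have : (univ : Finset W).card = 2 := by rw [Finset.card_univ]; exact hW
    exact Finset.card_eq_two.mp this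
  have hall : ∀ z : W, z = a ∨ z = b := by
    intro z
    have := Finset.mem_univ z
    rw [huniv] at this
    simpa using this
  have hP := P.2.2 x
  have hQ := Q.2.2 x
  rcases hall x with h | h <;> rcases hall (P.1 x) with h1 | h1 <;>
    rcases hall (Q.1 x) with h2 | h2
  · rw [h1, h2]
  · exact absurd (h1.trans h.symm) hP
  · exact absurd (h2.trans h.symm) hQ
  · rw [h1, h2]
  · rw [h1, h2]
  · exact absurd (h2.trans h.symm) hQ
  · exact absurd (h1.trans h.symm) hP
  · rw [h1, h2]

private theorem kern_one_two {W : Type} [Fintype W] [DecidableEq W]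
    (hW : Fintype.card W = 2) (P Q : PM W) : kern {1} P Q = 1 := by
  unfold kern
  rw [if_pos]
  have h1 := typ_sum P Q
  rw [hW] at h1
  have h2 : (typ P Q).sum = 1 := by omega
  have h3 := typ_pos P Q
  obtain ⟨a, ha⟩ : ∃ a, a ∈ typ P Q := by
    by_contra hcon
    push Not at hcon
    rw [Multiset.eq_zero_of_forall_notMem hcon] at h2
    simp at h2
  obtain ⟨s, hs⟩ := Multiset.exists_cons_of_mem ha
  have h4 : a + s.sum = 1 := by rw [← Multiset.sum_cons, ← hs]; exact h2
  have h5 : 1 ≤ a := h3 a ha
  have h6 : s.sum = 0 := by omega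
  have h7 : a = 1 := by omega
  have h8 : s = 0 := by
    apply Multiset.eq_zero_of_forall_notMem
    intro b hb
    have h9 : 1 ≤ b := h3 b (by rw [hs]; exact Multiset.mem_cons_of_mem hb)
    have h10 := Multiset.le_sum_of_mem hb
    omega
  rw [hs, h8, h7]
  rfl

theorem stepA (μ : Multiset ℕ) (c : ℝ) (hn : 1 ≤ μ.sum) (h : UB μ c) :
    UB (1 ::ₘ μ) (max (om (μ.sum + 1) (μ.count 1 + 1)) c) := by
  intro V _ _ hV f hf
  set n := μ.sum with hndef
  have hsum : (1 ::ₘ μ).sum = n + 1 := by rw [Multiset.sum_cons]; omega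
  rw [hsum] at hV
  have hadd : (1 ::ₘ μ) = {1} + μ := by rw [Multiset.singleton_add]
  have hr0 := rsum_kern_nonneg (V := V) (1 ::ₘ μ)
  have hnrm0 : ∀ f : PM V → ℝ, 0 ≤ nrm f := by
    intro f; unfold nrm; exact Finset.sum_nonneg (fun x _ => sq_nonneg _)
  have hlowf : Low (n - 1 + 1) f := by
    have : n - 1 + 1 = (n + 1) - 1 := by omega
    rw [this]
    exact (Low_top (n + 1) (by omega) hV f).2 hf
  -- the gluing identity
  have hm0 : 0 < ({1} + μ).powerset.count {1} := count_powerset_pos {1} μ
  set m : ℝ := ((({1} + μ).powerset.count {1} : ℕ) : ℝ) with hm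
  have hmpos : 0 < m := by rw [hm]; exact_mod_cast hm0
  have hglue : ∀ f : PM V → ℝ, m * quad (kern (1 ::ₘ μ)) f =
      ∑ S ∈ univ.filter (fun S : Finset V => S.card = 2),
        ∑ P1 : PM {x // x ∈ S},
          quad (kern μ) (fun P2 : PM {x // x ∉ S} => f (glue S P1 P2)) := by
    intro f
    have h1 := gluing (V := V) {1} μ (fun P Q => f P * f Q)
    have h2 : quad (kern (1 ::ₘ μ)) f =
        ∑ P : PM V, ∑ Q : PM V, kern ({1} + μ) P Q * (f P * f Q) := by
      unfold quad
      rw [hadd]
      apply Finset.sum_congr rfl; intro P _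
      apply Finset.sum_congr rfl; intro Q _
      ring
    rw [h2, hm, h1]
    have h3 : (univ.filter (fun S : Finset V => S.card = 2 * ({1} : Multiset ℕ).sum)) =
        univ.filter (fun S : Finset V => S.card = 2) := by
      rw [Multiset.sum_singleton]
    rw [h3]
    apply Finset.sum_congr rfl
    intro S hS
    have hS2 : S.card = 2 := (Finset.mem_filter.1 hS).2
    have hW : Fintype.card {x // x ∈ S} = 2 := by rw [card_in]; exact hS2
    apply Finset.sum_congr rfl
    intro P1 _
    have h4 : ∀ Q1 : PM {x // x ∈ S}, Q1 ≠ P1 → (∑ P2 : PM {x // x ∉ S}, ∑ Q2 : PM {x // x ∉ S},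
        kern {1} P1 Q1 * kern μ P2 Q2 * (f (glue S P1 P2) * f (glue S Q1 Q2))) = 0 := by
      intro Q1 hQ1
      exact absurd (PM_two_eq hW Q1 P1) hQ1
    rw [Finset.sum_eq_single P1 (fun Q1 _ hQ1 => h4 Q1 hQ1)
      (fun h5 => absurd (Finset.mem_univ P1) h5)]
    unfold quad
    apply Finset.sum_congr rfl; intro P2 _
    apply Finset.sum_congr rfl; intro Q2 _
    rw [kern_one_two hW P1 P1]
    ring
  -- constant function
  have hcardPM := card_PM_pos (V := V) (n + 1) hV
  have hrel : ∀ r : ℝ, (∀ S : Finset V, S.card = 2 →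
      rsum (kern (V := {x // x ∉ S}) μ) = r) →
      m * rsum (kern (V := V) (1 ::ₘ μ)) = ((n : ℝ) + 1) * r := by
    intro r hr
    have h1 := hglue (fun _ => 1)
    have h2 := nrm_restrict (V := V) (n + 1) hV (fun _ => 1)
    have h3 : ∀ (W : Type) [Fintype W] [DecidableEq W] (N : ℕ), Fintype.card W = 2 * N →
        ∀ ν : Multiset ℕ, quad (kern (V := W) ν) (fun _ => 1) =
          rsum (kern (V := W) ν) * nrm (fun _ : PM W => (1 : ℝ)) := by
      intro W _ _ N hN ν
      have hpos := card_PM_pos N hN
      unfold quad rsum nrm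
      have hne : (Fintype.card (PM W) : ℝ) ≠ 0 := by positivity
      simp only [mul_one, one_pow, Finset.sum_const, Finset.card_univ, nsmul_eq_mul]
      field_simp
    rw [h3 V (n + 1) hV] at h1
    have h4 : ∑ S ∈ univ.filter (fun S : Finset V => S.card = 2),
        ∑ P1 : PM {x // x ∈ S},
          quad (kern μ) (fun P2 : PM {x // x ∉ S} => (1 : ℝ)) =
        r * ∑ S ∈ univ.filter (fun S : Finset V => S.card = 2),
        ∑ P1 : PM {x // x ∈ S},
          nrm (fun P2 : PM {x // x ∉ S} => (1 : ℝ)) := by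
      rw [Finset.mul_sum]
      apply Finset.sum_congr rfl
      intro S hS
      have hS2 : S.card = 2 := (Finset.mem_filter.1 hS).2
      have hc : Fintype.card {x // x ∉ S} = 2 * n := by
        have := card_out S
        omega
      rw [Finset.mul_sum]
      apply Finset.sum_congr rfl
      intro P1 _
      rw [h3 _ n hc, hr S hS2]
    rw [h4, ← h2] at h1
    have h5 : nrm (fun _ : PM V => (1 : ℝ)) ≠ 0 := by
      unfold nrm
      simp only [one_pow, Finset.sum_const, Finset.card_univ, nsmul_eq_mul, mul_one]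
      positivity
    apply mul_right_cancel₀ h5
    rw [mul_assoc, h1]
    push_cast
    ring
  -- the lower level
  have h0 : ∀ f : PM V → ℝ, Low (n - 1) f →
      quad (kern (1 ::ₘ μ)) f ≤
        (max (om (n + 1) (μ.count 1 + 1)) c * rsum (kern (V := V) (1 ::ₘ μ))) * nrm f := by
    intro f hf
    obtain ⟨S0, hS0⟩ : ∃ S : Finset V, S.card = 2 := by
      obtain ⟨S, _, hS⟩ := Finset.exists_subset_card_eq (s := (univ : Finset V)) (n := 2)
        (by rw [Finset.card_univ]; omega)
      exact ⟨S, hS⟩
    set r := rsum (kern (V := {x // x ∉ S0}) μ) with hrdef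
    have hcS : ∀ S : Finset V, S.card = 2 → Fintype.card {x // x ∉ S} = 2 * n := by
      intro S hS2
      have := card_out S
      omega
    have hr : ∀ S : Finset V, S.card = 2 → rsum (kern (V := {x // x ∉ S}) μ) = r := by
      intro S hS
      rw [hrdef]
      apply rsum_kern_congr
      rw [hcS S hS, hcS S0 hS0]
    have h1 : m * quad (kern (1 ::ₘ μ)) f ≤ c * r * (((n : ℝ) + 1) * nrm f) := by
      rw [hglue f]
      have h2 := nrm_restrict (V := V) (n + 1) hV f
      push_cast at h2
      rw [h2, Finset.mul_sum]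
      apply Finset.sum_le_sum
      intro S hS
      have hS2 : S.card = 2 := (Finset.mem_filter.1 hS).2
      rw [Finset.mul_sum]
      apply Finset.sum_le_sum
      intro P1 _
      have h3 := Low_glue (n - 1) f hf S P1
      have h4 := (Low_top n hn (hcS S hS2) _).1 h3
      have h5 := h {x // x ∉ S} (hcS S hS2) _ h4
      rw [hr S hS2] at h5
      exact h5
    have h2 := hrel r hr
    have h3 : m * quad (kern (1 ::ₘ μ)) f ≤
        m * (c * rsum (kern (V := V) (1 ::ₘ μ)) * nrm f) := by
      calc m * quad (kern (1 ::ₘ μ)) f ≤ c * r * (((n : ℝ) + 1) * nrm f) := h1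
        _ = c * (((n : ℝ) + 1) * r) * nrm f := by ring
        _ = c * (m * rsum (kern (V := V) (1 ::ₘ μ))) * nrm f := by rw [h2]
        _ = m * (c * rsum (kern (V := V) (1 ::ₘ μ)) * nrm f) := by ring
    have h4 := le_of_mul_le_mul_left h3 hmpos
    refine h4.trans ?_
    apply mul_le_mul_of_nonneg_right _ (hnrm0 f)
    exact mul_le_mul_of_nonneg_right (le_max_right _ _) hr0
  -- the top level
  have h1 : ∀ (f : PM V → ℝ) (θ : ℝ), (∀ P, app (kern (1 ::ₘ μ)) f P = θ * f P) →
      Low (n - 1 + 1) f →
      (∃ q : Equiv.Perm V, Invol q ∧ q.support.card + 2 * (n - 1 + 1) = Fintype.card V ∧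
        D f q ≠ 0) →
      θ ≤ max (om (n + 1) (μ.count 1 + 1)) c * rsum (kern (V := V) (1 ::ₘ μ)) := by
    intro f θ hf hlow hex
    have e1 : n - 1 + 1 = (n + 1) - 1 := by omega
    rw [e1] at hlow hex
    have h2 := top_exact (1 ::ₘ μ) (n + 1) hsum (by omega) hV f θ hf hlow hex
    rw [h2, Multiset.count_cons_self]
    exact mul_le_mul_of_nonneg_right (le_max_left _ _) hr0
  exact level_upper (n + 1) hV (kern (1 ::ₘ μ)) (kern_Inv _) (kern_symm _) (n - 1) _ h0 h1
    f hlowf

end Pool.Agent.Helper23.MS
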