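import Pool.Agent.Helper23.MS.Ana
import Pool.Agent.Helper23.MS.Top

/-! # MS-25: assembly -/

open scoped BigOperators Nat
open Finset

namespace Pool.Agent.Helper23.MS

theorem UB_of_QB (ν : Multiset ℕ) (x : ℝ) (hN : 1 ≤ ν.sum) (h : QB ν (ν.sum - 1) x) :
    UB ν x := by
  intro V _ _ hV f hf
  have := h V hV f ((Low_top ν.sum hN hV f).2 hf)
  exact (le_abs_self _).trans this

theorem nrm_nonneg {X : Type} [Fintype X] (f : X → ℝ) : 0 ≤ nrm f :=
  Finset.sum_nonneg fun _ _ => sq_nonneg _

theorem UB_le (μ : Multiset ℕ) {x y : ℝ} (hxy : x ≤ y) (h : UB μ x) : UB μ y := by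
  intro V _ _ hV f hf
  refine (h V hV f hf).trans ?_
  exact mul_le_mul_of_nonneg_right
    (mul_le_mul_of_nonneg_right hxy (rsum_kern_nonneg μ)) (nrm_nonneg f)

/-- the weight as a function of the number of parts larger than one -/
noncomputable def dd (n : ℝ) : ℝ := (2 * n - 1) / (2 * n * (n - 1))

theorem dd_anti {m n : ℝ} (hm : 2 ≤ m) (h : m ≤ n) : dd n ≤ dd m := by
  unfold dd
  rw [div_le_div_iff₀ (by nlinarith) (by nlinarith)]
  nlinarith [mul_nonneg (by linarith : (0:ℝ) ≤ m - 2) (by linarith : (0:ℝ) ≤ n - m),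
    mul_nonneg (mul_nonneg (by linarith : (0:ℝ) ≤ m) (by linarith : (0:ℝ) ≤ n)) (by linarith : (0:ℝ) ≤ n - m)]

/-- `1 - om` for fixed `N` -/
theorem om_eq (N k : ℕ) (h : 2 ≤ N + k) :
    om (N + k) k = 1 - N * dd (N + k) := by
  unfold om dd
  have h1 : (2:ℝ) ≤ N + k := by exact_mod_cast h
  have h2 : ((N:ℝ) + k) ≠ 0 := by linarith
  have h3 : ((N:ℝ) + k - 1) ≠ 0 := by linarith
  push_cast
  field_simp
  ring

theorem om_mono (N k l : ℕ) (h : 2 ≤ N + k) (hkl : k ≤ l) :
    om (N + k) k ≤ om (N + l) l := by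
  rw [om_eq N k h, om_eq N l (by omega)]
  have h1 : (2:ℝ) ≤ N + k := by exact_mod_cast h
  have h2 : (k:ℝ) ≤ l := by exact_mod_cast hkl
  have := dd_anti h1 (by linarith : (N:ℝ) + k ≤ N + l)
  have := mul_le_mul_of_nonneg_left this (Nat.cast_nonneg (α := ℝ) N)
  linarith

theorem UB_rep (ν : Multiset ℕ) (h1 : ν.count 1 = 0) (X : ℝ) (hN : 2 ≤ ν.sum)
    (h : UB ν X) (k : ℕ) :
    UB (Multiset.replicate k 1 + ν) (max (om (ν.sum + k) k) X) := by
  induction k with
  | zero => simpa using UB_le ν (le_max_right _ _) h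
  | succ k ih =>
    have hs : (Multiset.replicate k 1 + ν).sum = ν.sum + k := by simp [add_comm]
    have hc : (Multiset.replicate k 1 + ν).count 1 = k := by simp [h1]
    have := stepA _ _ (by rw [hs]; omega) ih
    rw [hs, hc] at this
    have e : (1 ::ₘ (Multiset.replicate k 1 + ν)) = Multiset.replicate (k + 1) 1 + ν := by
      rw [Multiset.replicate_succ, Multiset.cons_add]
    rw [e] at this
    refine UB_le _ ?_ this
    refine max_le (le_max_left _ _) (max_le ?_ (le_max_right _ _))
    exact (om_mono ν.sum k (k + 1) (by omega) (by omega)).trans (le_max_left _ _)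

theorem UB_one (c : ℝ) : UB {1} c := by
  intro V _ _ hV f hf
  have hV' : Fintype.card V = 2 := by simpa using hV
  have hsub : ∀ P Q : PM V, P = Q := by
    intro P Q
    apply Subtype.ext
    apply Equiv.ext
    intro x
    by_contra hne
    have : ({x, P.1 x, Q.1 x} : Finset V).card = 3 := by
      rw [Finset.card_eq_three]
      exact ⟨x, P.1 x, Q.1 x, fun h => P.2.2 x h.symm, fun h => Q.2.2 x h.symm, hne, rfl⟩
    have h3 := Finset.card_le_univ ({x, P.1 x, Q.1 x} : Finset V)
    omega
  have hf0 : ∀ P, f P = 0 := by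
    intro P
    have : ∑ Q, f Q = Fintype.card (PM V) * f P := by
      rw [Finset.sum_congr rfl (fun Q _ => by rw [hsub Q P] : ∀ Q ∈ univ, f Q = f P)]
      rw [Finset.sum_const, Finset.card_univ, nsmul_eq_mul]
    rw [hf] at this
    have hc : (Fintype.card (PM V) : ℝ) ≠ 0 := by
      have : 0 < Fintype.card (PM V) := Fintype.card_pos_iff.2 ⟨P⟩
      positivity
    rcases mul_eq_zero.1 this.symm with h | h
    · exact absurd h hc
    · exact h
  simp [quad, nrm, hf0]

theorem UB_all_one (k : ℕ) (hk : 1 ≤ k) :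
    UB (Multiset.replicate k 1) (max (om k k) 0) := by
  induction k, hk using Nat.le_induction with
  | base => exact UB_one _
  | succ k hk ih =>
    have hs : (Multiset.replicate k 1).sum = k := by simp
    have hc : (Multiset.replicate k 1).count 1 = k := by simp
    have := stepA _ _ (by rw [hs]; exact hk) ih
    rw [hs, hc] at this
    rw [Multiset.replicate_succ]
    refine UB_le _ ?_ this
    refine max_le (le_max_left _ _) (max_le ?_ (le_max_right _ _))
    rcases Nat.lt_or_ge k 2 with h | h
    · have : k = 1 := by omega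
      subst this
      exact (by norm_num [om] : om 1 1 ≤ 0).trans (le_max_right _ _)
    · have := om_mono 0 k (k + 1) (by omega) (by omega)
      rw [zero_add, zero_add] at this
      exact this.trans (le_max_left _ _)

theorem om_all_one (k : ℕ) (hk : 2 ≤ k) : om k k = 1 := by
  have := om_eq 0 k (by omega)
  simpa using this

/-- the upper bound -/
theorem main_upper (μ : Multiset ℕ) (hpos : ∀ c ∈ μ, 1 ≤ c) (hn : 16 ≤ μ.sum)
    (hk : 2 ≤ μ.count 1) : UB μ (om μ.sum (μ.count 1)) := by
  set k := μ.count 1 with hkdef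
  obtain ⟨ν, hν⟩ : ∃ ν : Multiset ℕ, μ = Multiset.replicate k 1 + ν := by
    have : Multiset.replicate k 1 ≤ μ := Multiset.le_count_iff_replicate_le.1 le_rfl
    obtain ⟨ν, h⟩ := Multiset.le_iff_exists_add.1 this
    exact ⟨ν, h⟩
  have hν1 : ν.count 1 = 0 := by
    have := congrArg (Multiset.count 1) hν
    rw [Multiset.count_add, Multiset.count_replicate_self] at this
    omega
  have hν2 : ∀ c ∈ ν, 2 ≤ c := by
    intro c hc
    have h1 : 1 ≤ c := hpos c (by rw [hν]; exact Multiset.mem_add.2 (Or.inr hc))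
    rcases Nat.lt_or_ge c 2 with h | h
    · have : c = 1 := by omega
      subst this
      exact absurd hν1 (Multiset.count_ne_zero.2 hc)
    · exact h
  have hs : μ.sum = ν.sum + k := by rw [hν]; simp [add_comm]
  rcases Multiset.empty_or_exists_mem ν with h0 | ⟨c, hc⟩
  · subst h0
    have hs' : μ.sum = k := by simpa using hs
    have hμ : μ = Multiset.replicate k 1 := by simpa using hν
    have h := UB_all_one k (by omega)
    rw [om_all_one k (by omega)] at h
    rw [hs', om_all_one k (by omega), hμ]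
    simpa using h
  · have hN : 2 ≤ ν.sum := (hν2 c hc).trans (Multiset.le_sum_of_mem hc)
    have key : ∃ X : ℝ, X ≤ om (ν.sum + k) k ∧ UB ν X := by
      rcases Nat.lt_or_ge ν.sum 15 with h14 | h15
      · refine ⟨_, ?_, UB_of_QB ν _ (by omega) (table_a ν hν2 hN (by omega))⟩
        rw [om_eq _ _ (by omega)]
        have hd : dd ((ν.sum : ℝ) + k) ≤ dd 16 := by
          refine dd_anti (by norm_num) ?_
          have : (16:ℝ) ≤ ((ν.sum + k : ℕ) : ℝ) := by
            have : 16 ≤ ν.sum + k := by omega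
            exact_mod_cast this
          rw [Nat.cast_add] at this
          exact this
        have h16 : dd 16 = 31 / 480 := by norm_num [dd]
        rw [h16] at hd
        have := mul_le_mul_of_nonneg_left hd (Nat.cast_nonneg (α := ℝ) ν.sum)
        linarith
      · refine ⟨gg ν.sum, ?_, UB_of_QB ν _ (by omega) (ana ν hν2 h15)⟩
        refine le_trans (le_of_eq ?_) (om_mono ν.sum 2 k (by omega) hk)
        have h1 : ((ν.sum:ℝ)) + 1 ≠ 0 := by positivity
        have h2 : ((ν.sum:ℝ)) + 2 ≠ 0 := by positivity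
        unfold gg om
        push_cast
        have h3 : ((ν.sum:ℝ)) + 2 - 1 ≠ 0 := by
          have : ((ν.sum:ℝ)) + 2 - 1 = ν.sum + 1 := by ring
          rw [this]; exact h1
        field_simp
        ring
    obtain ⟨X, hX, hU⟩ := key
    have := UB_rep ν hν1 X hN hU k
    rw [hs, hν]
    exact UB_le _ (max_le le_rfl hX) this

end Pool.Agent.Helper23.MS
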