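import Pool.Agent.Helper23.MS.Closed

/-! # MS-12: the gluing identity -/

open scoped BigOperators Nat
open Finset

namespace Pool.Agent.Helper23.MS

variable {V : Type} [Fintype V] [DecidableEq V]

theorem count_powerset_pos (ν1 ν2 : Multiset ℕ) : 0 < (ν1 + ν2).powerset.count ν1 := by
  rw [Multiset.count_pos, Multiset.mem_powerset]
  exact Multiset.le_add_right ν1 ν2

/-- `P` and `Q` are glued from matchings with type `ν1` on `S` -/
private def RR (ν1 : Multiset ℕ) (S : Finset V) (P Q : PM V) : Prop :=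
  ∃ (P1 Q1 : PM {x // x ∈ S}) (P2 Q2 : PM {x // x ∉ S}), P = glue S P1 P2 ∧
    Q = glue S Q1 Q2 ∧ typ P1 Q1 = ν1

private theorem cl_glue (S : Finset V) (P1 : PM {x // x ∈ S}) (P2 : PM {x // x ∉ S}) :
    Cl (glue S P1 P2) S := by
  intro x hx
  have := glue_left S P1 P2 ⟨x, hx⟩
  have h2 : ((⟨x, hx⟩ : {x // x ∈ S}) : V) = x := rfl
  rw [h2] at this
  rw [this]
  exact (P1.1 ⟨x, hx⟩).2

private theorem RR_glue (ν1 : Multiset ℕ) (S : Finset V) (P1 Q1 : PM {x // x ∈ S})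
    (P2 Q2 : PM {x // x ∉ S}) :
    RR ν1 S (glue S P1 P2) (glue S Q1 Q2) ↔ typ P1 Q1 = ν1 := by
  constructor
  · rintro ⟨P1', Q1', P2', Q2', h1, h2, h3⟩
    obtain ⟨h4, -⟩ := glue_injective S _ _ _ _ h1
    obtain ⟨h5, -⟩ := glue_injective S _ _ _ _ h2
    rw [h4, h5, h3]
  · intro h
    exact ⟨P1, Q1, P2, Q2, rfl, rfl, h⟩

open Classical in
private theorem glue_step (ν1 ν2 : Multiset ℕ) (F : PM V → PM V → ℝ) (S : Finset V) :
    ∑ P1 : PM {x // x ∈ S}, ∑ Q1 : PM {x // x ∈ S},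
          ∑ P2 : PM {x // x ∉ S}, ∑ Q2 : PM {x // x ∉ S},
            kern ν1 P1 Q1 * kern ν2 P2 Q2 * F (glue S P1 P2) (glue S Q1 Q2) =
      ∑ P : PM V, ∑ Q : PM V, if RR ν1 S P Q ∧ typ P Q = ν1 + ν2 then F P Q else 0 := by
  have h1 : ∀ P : PM V, (∑ Q : PM V, if RR ν1 S P Q ∧ typ P Q = ν1 + ν2 then F P Q else 0) =
      if Cl P S then (∑ Q : PM V, if Cl Q S then
        (if RR ν1 S P Q ∧ typ P Q = ν1 + ν2 then F P Q else 0) else 0) else 0 := by
    intro P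
    by_cases hP : Cl P S
    · rw [if_pos hP]
      refine Finset.sum_congr rfl fun Q _ => ?_
      by_cases hQ : Cl Q S
      · rw [if_pos hQ]
      · rw [if_neg hQ, if_neg]
        rintro ⟨⟨P1, Q1, P2, Q2, _, h2, _⟩, _⟩
        exact hQ (h2 ▸ cl_glue S Q1 Q2)
    · rw [if_neg hP]
      refine Finset.sum_eq_zero fun Q _ => ?_
      rw [if_neg]
      rintro ⟨⟨P1, Q1, P2, Q2, h2, _, _⟩, _⟩
      exact hP (h2 ▸ cl_glue S P1 P2)
  rw [Finset.sum_congr rfl fun P _ => h1 P, sum_closed S (fun P => ∑ Q : PM V, if Cl Q S then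
        (if RR ν1 S P Q ∧ typ P Q = ν1 + ν2 then F P Q else 0) else 0)]
  refine Finset.sum_congr rfl fun P1 _ => ?_
  rw [Finset.sum_comm]
  refine Finset.sum_congr rfl fun P2 _ => ?_
  rw [sum_closed S (fun Q => if RR ν1 S (glue S P1 P2) Q ∧ typ (glue S P1 P2) Q = ν1 + ν2
    then F (glue S P1 P2) Q else 0)]
  refine Finset.sum_congr rfl fun Q1 _ => ?_
  refine Finset.sum_congr rfl fun Q2 _ => ?_
  unfold kern
  by_cases hA : typ P1 Q1 = ν1
  · by_cases hB : typ P2 Q2 = ν2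
    · rw [if_pos hA, if_pos hB, if_pos]
      · ring
      · refine ⟨(RR_glue ν1 S P1 Q1 P2 Q2).2 hA, ?_⟩
        rw [typ_glue, hA, hB]
    · have h2 : ¬ (RR ν1 S (glue S P1 P2) (glue S Q1 Q2) ∧
          typ (glue S P1 P2) (glue S Q1 Q2) = ν1 + ν2) := by
        rintro ⟨_, h⟩
        rw [typ_glue, hA] at h
        exact hB (add_left_cancel h)
      rw [if_neg hB, if_neg h2]
      ring
  · have h2 : ¬ (RR ν1 S (glue S P1 P2) (glue S Q1 Q2) ∧
        typ (glue S P1 P2) (glue S Q1 Q2) = ν1 + ν2) := by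
      rintro ⟨h, _⟩
      exact hA ((RR_glue ν1 S P1 Q1 P2 Q2).1 h)
    rw [if_neg hA, if_neg h2]
    ring

theorem gluing (ν1 ν2 : Multiset ℕ) (F : PM V → PM V → ℝ) :
    (((ν1 + ν2).powerset.count ν1 : ℕ) : ℝ) *
        ∑ P : PM V, ∑ Q : PM V, kern (ν1 + ν2) P Q * F P Q =
      ∑ S ∈ univ.filter (fun S : Finset V => S.card = 2 * ν1.sum),
        ∑ P1 : PM {x // x ∈ S}, ∑ Q1 : PM {x // x ∈ S},
          ∑ P2 : PM {x // x ∉ S}, ∑ Q2 : PM {x // x ∉ S},
            kern ν1 P1 Q1 * kern ν2 P2 Q2 * F (glue S P1 P2) (glue S Q1 Q2) := by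
  classical
  have h0 : ∀ S ∈ univ.filter (fun S : Finset V => S.card = 2 * ν1.sum), (∑ P1 : PM {x // x ∈ S},
      ∑ Q1 : PM {x // x ∈ S}, ∑ P2 : PM {x // x ∉ S}, ∑ Q2 : PM {x // x ∉ S},
      kern ν1 P1 Q1 * kern ν2 P2 Q2 * F (glue S P1 P2) (glue S Q1 Q2)) =
      ∑ P : PM V, ∑ Q : PM V, if RR ν1 S P Q ∧ typ P Q = ν1 + ν2 then F P Q else 0 :=
    fun S _ => glue_step ν1 ν2 F S
  rw [Finset.sum_congr rfl h0, Finset.mul_sum]
  conv_rhs => rw [Finset.sum_comm]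
  refine Finset.sum_congr rfl fun P _ => ?_
  rw [Finset.mul_sum]
  conv_rhs => rw [Finset.sum_comm]
  refine Finset.sum_congr rfl fun Q _ => ?_
  by_cases h : typ P Q = ν1 + ν2
  · have h1 : kern (ν1 + ν2) P Q = 1 := by
      unfold kern
      rw [if_pos h]
    have h2 : ∀ S ∈ univ.filter (fun S : Finset V => S.card = 2 * ν1.sum),
        (if RR ν1 S P Q ∧ typ P Q = ν1 + ν2 then F P Q else 0) =
        if RR ν1 S P Q then F P Q else 0 := by
      intro S _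
      simp only [h, and_true]
    rw [h1, one_mul, Finset.sum_congr rfl h2, Finset.sum_filter]
    have h3 : ∀ S : Finset V, (if S.card = 2 * ν1.sum then
        (if RR ν1 S P Q then F P Q else 0) else 0) = if RR ν1 S P Q then F P Q else 0 := by
      intro S
      by_cases hR : RR ν1 S P Q
      · rw [if_pos hR, if_pos]
        obtain ⟨P1, Q1, P2, Q2, _, _, h5⟩ := hR
        rw [← h5, typ_sum, card_in]
      · simp [hR]
    rw [Fintype.sum_congr _ _ h3, ← Finset.sum_filter, Finset.sum_const,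
      nsmul_eq_mul, ← h, ← card_typ_on P Q ν1]
    unfold RR
    congr!
  · have h1 : kern (ν1 + ν2) P Q = 0 := by
      unfold kern
      rw [if_neg h]
    rw [h1, zero_mul, mul_zero]
    symm
    refine Finset.sum_eq_zero fun S _ => ?_
    rw [if_neg]
    rintro ⟨_, h2⟩
    exact h h2

end Pool.Agent.Helper23.MS
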