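import Pool.Agent.Helper23.MS.Defs

/-! # MS-3: sums over matchings in which a set is independent -/

open scoped BigOperators Nat
open Finset

namespace Pool.Agent.Helper23.MS

set_option linter.unusedSectionVars false

variable {V : Type} [Fintype V] [DecidableEq V]

private theorem qs_left {q : Equiv.Perm V} {b y : V} (hy : q y = y) :
    (q * Equiv.swap b y) b = y := by
  rw [Equiv.Perm.mul_apply, Equiv.swap_apply_left, hy]

private theorem qs_right {q : Equiv.Perm V} {b y : V} (hb : q b = b) :
    (q * Equiv.swap b y) y = b := by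
  rw [Equiv.Perm.mul_apply, Equiv.swap_apply_right, hb]

private theorem qs_other {q : Equiv.Perm V} {b y x : V} (h1 : x ≠ b) (h2 : x ≠ y) :
    (q * Equiv.swap b y) x = q x := by
  rw [Equiv.Perm.mul_apply, Equiv.swap_apply_of_ne_of_ne h1 h2]

private theorem qs_invol {q : Equiv.Perm V} (hq : Invol q) {b y : V} (hb : q b = b)
    (hy : q y = y) : Invol (q * Equiv.swap b y) := by
  intro x
  by_cases h1 : x = b
  · subst h1
    rw [qs_left hy, qs_right hb]
  · by_cases h2 : x = y
    · subst h2
      rw [qs_right hb, qs_left hy]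
    · rw [qs_other h1 h2]
      have h3 : q x ≠ b := by
        intro h
        apply h1
        rw [← hq x, h, hb]
      have h4 : q x ≠ y := by
        intro h
        apply h2
        rw [← hq x, h, hy]
      rw [qs_other h3 h4, hq x]

private theorem qs_support {q : Equiv.Perm V} {b y : V} (hb : q b = b)
    (hy : q y = y) (hby : b ≠ y) :
    (q * Equiv.swap b y).support = insert b (insert y q.support) := by
  ext x
  rw [Equiv.Perm.mem_support, mem_insert, mem_insert, Equiv.Perm.mem_support]
  by_cases h1 : x = b
  · subst h1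
    rw [qs_left hy]
    simp [hby.symm]
  · by_cases h2 : x = y
    · subst h2
      rw [qs_right hb]
      simp [hby]
    · rw [qs_other h1 h2]
      simp [h1, h2]

private theorem qs_card {q : Equiv.Perm V} {b y : V} (hb : q b = b)
    (hy : q y = y) (hby : b ≠ y) :
    (q * Equiv.swap b y).support.card = q.support.card + 2 := by
  rw [qs_support hb hy hby, card_insert_of_notMem, card_insert_of_notMem]
  · rw [Equiv.Perm.mem_support]
    simpa using hy
  · rw [mem_insert, Equiv.Perm.mem_support]
    push Not
    exact ⟨hby, hb⟩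

private theorem qs_ext {q : Equiv.Perm V} {b y : V} (hb : q b = b)
    (hy : q y = y) (P : PM V) (hby : b ≠ y) :
    Ext (q * Equiv.swap b y) P ↔ (Ext q P ∧ P.1 b = y) := by
  constructor
  · intro h
    refine ⟨?_, ?_⟩
    · intro x hx
      have h1 : x ≠ b := by rintro rfl; exact hx hb
      have h2 : x ≠ y := by rintro rfl; exact hx hy
      have := h x (by rw [qs_other h1 h2]; exact hx)
      rwa [qs_other h1 h2] at this
    · have := h b (by rw [qs_left hy]; exact hby.symm)
      rwa [qs_left hy] at this
  · rintro ⟨h, hPb⟩ x hx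
    by_cases h1 : x = b
    · subst h1
      rw [qs_left hy]
      exact hPb
    · by_cases h2 : x = y
      · subst h2
        rw [qs_right hb, ← hPb, P.2.1]
      · rw [qs_other h1 h2] at hx ⊢
        exact h x hx

open Classical in
private theorem DI_insert (f : PM V → ℝ) (q : Equiv.Perm V) {b : V} (hb : q b = b)
    {B : Finset V} (hbB : b ∉ B) (hB : Disjoint q.support B) :
    DI f q (insert b B) = DI f q B -
      ∑ y ∈ B, DI f (q * Equiv.swap b y) (B.erase y) := by
  have hy : ∀ y ∈ B, q y = y := by
    intro y hyB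
    by_contra h
    exact Finset.disjoint_left.1 hB (Equiv.Perm.mem_support.2 h) hyB
  rw [eq_sub_iff_add_eq]
  unfold DI
  rw [sum_comm, ← sum_add_distrib]
  refine sum_congr rfl fun P _ => ?_
  have hterm : ∀ y ∈ B, (if Ext (q * Equiv.swap b y) P ∧ Ind P (B.erase y) then f P else 0) =
      if (P.1 b = y ∧ (Ext q P ∧ Ind P B)) then f P else 0 := by
    intro y hyB
    have hby : b ≠ y := fun h => hbB (h ▸ hyB)
    apply if_congr _ rfl rfl
    rw [qs_ext hb (hy y hyB) P hby]
    constructor
    · rintro ⟨⟨h1, h2⟩, h3⟩
      refine ⟨h2, h1, ?_⟩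
      intro x hx hPx
      by_cases hxy : x = y
      · subst hxy
        rw [← h2, P.2.1] at hPx
        exact hbB hPx
      · apply h3 x (mem_erase.2 ⟨hxy, hx⟩) (mem_erase.2 ⟨?_, hPx⟩)
        intro h
        apply hbB
        have : x = b := by rw [← P.2.1 x, h, ← h2, P.2.1]
        exact this ▸ hx
    · rintro ⟨h2, h1, h3⟩
      exact ⟨⟨h1, h2⟩, fun x hx hPx => h3 x (mem_of_mem_erase hx) (mem_of_mem_erase hPx)⟩
  rw [sum_congr rfl hterm]
  by_cases h0 : Ext q P ∧ Ind P B
  · rw [if_pos h0]
    by_cases hPb : P.1 b ∈ B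
    · rw [if_neg, zero_add, sum_eq_single (P.1 b)]
      · rw [if_pos ⟨rfl, h0⟩]
      · intro y _ hne
        rw [if_neg]
        rintro ⟨h, -⟩
        exact hne h.symm
      · intro h
        exact absurd hPb h
      · rintro ⟨-, h⟩
        exact h b (mem_insert_self _ _) (mem_insert_of_mem hPb)
    · rw [if_pos, sum_eq_zero, add_zero]
      · intro y hyB
        rw [if_neg]
        rintro ⟨h, -⟩
        exact hPb (h ▸ hyB)
      · refine ⟨h0.1, ?_⟩
        intro x hx hPx
        rw [mem_insert] at hx hPx
        rcases hx with rfl | hx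
        · rcases hPx with h | h
          · exact P.2.2 x h
          · exact hPb h
        · rcases hPx with h | h
          · apply hPb
            rw [← h, P.2.1]
            exact hx
          · exact h0.2 x hx h
  · rw [if_neg h0, if_neg, sum_eq_zero, add_zero]
    · intro y _
      rw [if_neg]
      rintro ⟨-, h⟩
      exact h0 h
    · rintro ⟨h1, h2⟩
      exact h0 ⟨h1, fun x hx hPx => h2 x (mem_insert_of_mem hx) (mem_insert_of_mem hPx)⟩

open Classical in
private theorem DI_empty (f : PM V → ℝ) (q : Equiv.Perm V) : DI f q ∅ = D f q := by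
  unfold DI D
  refine sum_congr rfl fun P _ => ?_
  apply if_congr _ rfl rfl
  constructor
  · exact fun h => h.1
  · exact fun h => ⟨h, fun x hx => by simp at hx⟩

private theorem step_facts {q : Equiv.Perm V} (hq : Invol q) {b : V} {B : Finset V}
    (hbB : b ∉ B) (hB : Disjoint q.support (insert b B)) {y : V} (hy : y ∈ B) :
    q b = b ∧ Invol (q * Equiv.swap b y) ∧
      (q * Equiv.swap b y).support.card = q.support.card + 2 ∧
      Disjoint (q * Equiv.swap b y).support (B.erase y) ∧ (B.erase y).card + 1 = B.card := by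
  have hfix : ∀ z ∈ insert b B, q z = z := by
    intro z hz
    by_contra h
    exact Finset.disjoint_left.1 hB (Equiv.Perm.mem_support.2 h) hz
  have hb := hfix b (mem_insert_self _ _)
  have hyy := hfix y (mem_insert_of_mem hy)
  have hby : b ≠ y := fun h => hbB (h ▸ hy)
  refine ⟨hb, qs_invol hq hb hyy, qs_card hb hyy hby, ?_, card_erase_add_one hy⟩
  rw [qs_support hb hyy hby, disjoint_insert_left, disjoint_insert_left]
  refine ⟨fun h => hbB (mem_of_mem_erase h), notMem_erase _ _, ?_⟩
  exact Disjoint.mono_right ((erase_subset _ _).trans (subset_insert _ _)) hB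

private theorem DI_zero_aux (f : PM V → ℝ) (n : ℕ)
    (hf : ∀ q : Equiv.Perm V, Invol q → q.support.card < n → D f q = 0) :
    ∀ (m : ℕ) (B : Finset V) (q : Equiv.Perm V), B.card = m → Invol q → Disjoint q.support B →
      q.support.card + B.card < n → DI f q B = 0 := by
  intro m
  induction m using Nat.strong_induction_on with
  | _ m ih =>
    intro B q hm hq hB h
    rcases B.eq_empty_or_nonempty with rfl | ⟨b, hbB⟩
    · rw [DI_empty]
      exact hf q hq (by simpa using h)
    · obtain ⟨B', hbB', rfl⟩ : ∃ B', b ∉ B' ∧ B = insert b B' :=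
        ⟨B.erase b, notMem_erase _ _, (insert_erase hbB).symm⟩
      have h0 : (insert b B').card = B'.card + 1 := card_insert_of_notMem hbB'
      have hb : q b = b := by
        by_contra h
        exact Finset.disjoint_left.1 hB (Equiv.Perm.mem_support.2 h) hbB
      have hB' : Disjoint q.support B' := Disjoint.mono_right (subset_insert _ _) hB
      rw [DI_insert f q hb hbB' hB', ih B'.card (by omega) B' q rfl hq hB' (by omega), zero_sub,
        neg_eq_zero]
      refine sum_eq_zero fun y hy => ?_
      obtain ⟨-, g1, g2, g3, g4⟩ := step_facts hq hbB' hB hy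
      exact ih (B'.erase y).card (by omega) (B'.erase y) _ rfl g1 g3 (by omega)

theorem DI_zero (f : PM V → ℝ) (n : ℕ)
    (hf : ∀ q : Equiv.Perm V, Invol q → q.support.card < n → D f q = 0)
    (B : Finset V) (q : Equiv.Perm V) (hq : Invol q) (hB : Disjoint q.support B)
    (h : q.support.card + B.card < n) : DI f q B = 0 :=
  DI_zero_aux f n hf _ B q rfl hq hB h

private theorem DI_le_aux (f : PM V → ℝ) (n : ℕ) (C : ℝ) (hC0 : 0 ≤ C)
    (hf : ∀ q : Equiv.Perm V, Invol q → q.support.card < n → D f q = 0)
    (hC : ∀ q : Equiv.Perm V, Invol q → q.support.card = n → |D f q| ≤ C) :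
    ∀ (m : ℕ) (B : Finset V) (q : Equiv.Perm V), B.card = m → Invol q → Disjoint q.support B →
      q.support.card + B.card = n → |DI f q B| ≤ (((B.card - 1)‼ : ℕ) : ℝ) * C := by
  intro m
  induction m using Nat.strong_induction_on with
  | _ m ih =>
    intro B q hm hq hB h
    rcases B.eq_empty_or_nonempty with rfl | ⟨b, hbB⟩
    · rw [DI_empty]
      have := hC q hq (by simpa using h)
      simpa using this
    · obtain ⟨B', hbB', rfl⟩ : ∃ B', b ∉ B' ∧ B = insert b B' :=
        ⟨B.erase b, notMem_erase _ _, (insert_erase hbB).symm⟩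
      have h0 : (insert b B').card = B'.card + 1 := card_insert_of_notMem hbB'
      have hb : q b = b := by
        by_contra h
        exact Finset.disjoint_left.1 hB (Equiv.Perm.mem_support.2 h) hbB
      have hB' : Disjoint q.support B' := Disjoint.mono_right (subset_insert _ _) hB
      rw [DI_insert f q hb hbB' hB', DI_zero f n hf B' q hq hB' (by omega), zero_sub, abs_neg]
      have hle : ∀ y ∈ B', |DI f (q * Equiv.swap b y) (B'.erase y)| ≤
          (((B'.card - 1 - 1)‼ : ℕ) : ℝ) * C := by
        intro y hy
        obtain ⟨-, g1, g2, g3, g4⟩ := step_facts hq hbB' hB hy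
        have := ih (B'.erase y).card (by omega) (B'.erase y) _ rfl g1 g3 (by omega)
        have e : (B'.erase y).card - 1 = B'.card - 1 - 1 := by omega
        rwa [e] at this
      refine le_trans (abs_sum_le_sum_abs _ _) (le_trans (sum_le_sum hle) ?_)
      rw [sum_const, nsmul_eq_mul, ← mul_assoc, h0, Nat.add_sub_cancel]
      apply mul_le_mul_of_nonneg_right _ hC0
      have : B'.card * (B'.card - 1 - 1)‼ ≤ (B'.card)‼ := by
        rcases Nat.eq_zero_or_pos B'.card with h1 | h1
        · rw [h1]; simp
        · rcases Nat.eq_or_lt_of_le h1 with h2 | h2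
          · rw [← h2]; simp
          · obtain ⟨k, hk⟩ : ∃ k, B'.card = k + 2 := ⟨B'.card - 2, by omega⟩
            rw [hk, Nat.doubleFactorial_add_two]
            simp
      exact_mod_cast this

theorem DI_le (f : PM V → ℝ) (n : ℕ) (C : ℝ) (hC0 : 0 ≤ C)
    (hf : ∀ q : Equiv.Perm V, Invol q → q.support.card < n → D f q = 0)
    (hC : ∀ q : Equiv.Perm V, Invol q → q.support.card = n → |D f q| ≤ C)
    (B : Finset V) (q : Equiv.Perm V) (hq : Invol q) (hB : Disjoint q.support B)
    (h : q.support.card + B.card = n) : |DI f q B| ≤ (((B.card - 1)‼ : ℕ) : ℝ) * C :=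
  DI_le_aux f n C hC0 hf hC _ B q rfl hq hB h

end Pool.Agent.Helper23.MS
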