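import Pool.Agent.Helper23.MS.Kd3A
import Pool.Agent.Helper23.MS.Wt
import Pool.Agent.Helper23.MS.WtMono

/-! # MS-16b: bounds for the weights -/

open scoped BigOperators Nat
open Finset

namespace Pool.Agent.Helper23.MS

variable {V : Type} [Fintype V] [DecidableEq V]

namespace Kd3Pf

theorem nrm0 {X : Type} [Fintype X] (f : X → ℝ) : 0 ≤ nrm f :=
  Finset.sum_nonneg (fun _ _ => sq_nonneg _)

/-- the statement of the bound -/
def St (u N : ℕ) : Prop :=
  ∀ (W : Type) [Fintype W] [DecidableEq W], Fintype.card W = 2 * N →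
    ∀ f : PM W → ℝ, Low u f → quad (kd 3) f ≤ 2 * (N.choose 3 : ℝ) * nrm f

theorem St_succ (u N : ℕ) (h3 : 3 ≤ N) (h : St u N) : St u (N + 1) := by
  intro W _ _ hW f hf
  exact kd_climb u 3 2 N h3 h hW f hf

theorem St_climb (u N0 : ℕ) (h3 : 3 ≤ N0) (h : St u N0) (N : ℕ) (hN : N0 ≤ N) : St u N := by
  induction N, hN using Nat.le_induction with
  | base => exact h
  | succ n hn ih => exact St_succ u n (h3.trans hn) ih

theorem St_one_three : St 1 3 := by
  intro W _ _ hW f hf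
  have hs : ∑ P, f P = 0 := (Low_top 3 (by norm_num) hW f).mp (Low_mono (by norm_num) f hf)
  have h1 := kd_three_six (by omega) f hs
  have h2 := Wt_two 3 hW f
  have h3 := Wt_nonneg 2 f
  have e1 : (((3 : ℕ).choose 2 : ℕ) : ℝ) = 3 := by norm_num [Nat.choose]
  have e2 : (((3 : ℕ).choose 3 : ℕ) : ℝ) = 1 := by norm_num [Nat.choose]
  rw [e1] at h2
  rw [e2]
  linarith

theorem St_base (u : ℕ) (hu : 1 ≤ u) (h : ∀ N, 2 * u ≤ N → 3 ≤ N → St u N) :
    St (u + 1) (2 * (u + 1)) := by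
  intro W _ _ hW f hf
  have h2 : ((u + 1) + (u + 1)) = 2 * (u + 1) := by ring
  refine level_upper (2 * (u + 1)) hW (kd 3) (kd_Inv 3) (kd_symm 3) u
    (2 * ((2 * (u + 1)).choose 3 : ℝ)) ?_ ?_ f hf
  · intro g hg
    exact h (2 * (u + 1)) (by omega) (by omega) W hW g hg
  · intro g θ hg hlow hex
    exact kd_three_exact (u + 1) (by omega) (by rw [h2]; exact hW) g θ hg hlow hex

theorem St_all (u : ℕ) (hu : 1 ≤ u) : ∀ N, 2 * u ≤ N → 3 ≤ N → St u N := by
  induction u, hu using Nat.le_induction with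
  | base =>
    intro N _ h3
    exact St_climb 1 3 le_rfl St_one_three N h3
  | succ u hu ih =>
    intro N hN _
    exact St_climb (u + 1) (2 * (u + 1)) (by omega) (St_base u hu ih) N hN

theorem glue_zero (u : ℕ) (f : PM V → ℝ) (hf : Low u f) (W : Finset V)
    (hW : (Wᶜ).card + 2 * u < Fintype.card V) (P2 : PM {x // x ∉ W}) :
    ∑ P1 : PM {x // x ∈ W}, f (glue W P1 P2) = 0 := by
  classical
  set q : Equiv.Perm V := Equiv.Perm.subtypeCongr (1 : Equiv.Perm {x // x ∈ W}) P2.1 with hq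
  have qin : ∀ z ∈ W, q z = z := by
    intro z hz
    rw [hq, Equiv.Perm.subtypeCongr.left_apply _ _ hz]
    rfl
  have qout : ∀ (z : V) (hz : z ∉ W), q z = P2.1 ⟨z, hz⟩ := by
    intro z hz
    rw [hq, Equiv.Perm.subtypeCongr.right_apply _ _ hz]
  have hinv : Invol q := by
    intro z
    by_cases hz : z ∈ W
    · rw [qin z hz, qin z hz]
    · rw [qout z hz, qout _ (P2.1 ⟨z, hz⟩).2]
      exact congrArg Subtype.val (P2.2.1 ⟨z, hz⟩)
  have hsupp : q.support.card ≤ (Wᶜ).card := by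
    apply Finset.card_le_card
    intro z hz
    rw [Finset.mem_compl]
    intro hzW
    exact (Equiv.Perm.mem_support.mp hz) (qin z hzW)
  have hD := hf q hinv (by omega)
  unfold D at hD
  have h := sum_closed W (fun Q => if Ext q Q then f Q else 0)
  have hl : ∀ Q : PM V, (if Cl Q W then (if Ext q Q then f Q else 0) else 0) =
      if Ext q Q then f Q else 0 := by
    intro Q
    by_cases hE : Ext q Q
    · have hC : Cl Q W := by
        intro x hx
        by_contra hcon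
        have h1 : Q.1 (Q.1 x) = q (Q.1 x) := by
          apply hE
          rw [qout _ hcon]
          exact fun h => P2.2.2 _ (Subtype.ext h)
        rw [Q.2.1, qout _ hcon] at h1
        exact (P2.1 ⟨Q.1 x, hcon⟩).2 (h1 ▸ hx)
      rw [if_pos hC]
    · rw [if_neg hE, ite_self]
  rw [Finset.sum_congr rfl (fun Q _ => hl Q), hD] at h
  have hr : ∀ (P1' : PM {x // x ∈ W}) (P2' : PM {x // x ∉ W}),
      Ext q (glue W P1' P2') ↔ P2' = P2 := by
    intro P1' P2'
    constructor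
    · intro hE
      apply Subtype.ext
      apply Equiv.ext
      intro z
      apply Subtype.ext
      rw [← glue_right W P1' P2' z, hE z, qout z z.2]
      rw [qout z z.2]
      exact fun h => P2.2.2 _ (Subtype.ext h)
    · rintro rfl z hz
      by_cases hzW : z ∈ W
      · exact absurd (qin z hzW) hz
      · rw [qout z hzW]
        exact glue_right W P1' P2' ⟨z, hzW⟩
  simp_rw [hr] at h
  rw [h]
  refine Finset.sum_congr rfl (fun P1 _ => ?_)
  rw [Finset.sum_eq_single P2]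
  · simp
  · intro Q _ hQ
    simp [hQ]
  · intro h
    exact absurd (Finset.mem_univ _) h

theorem choose_three (N : ℕ) (h : 2 ≤ N) :
    (N.choose 3 : ℝ) = N * (N - 1) * (N - 2) / 6 := by
  obtain ⟨k, rfl⟩ : ∃ k, N = k + 2 := ⟨N - 2, by omega⟩
  have h1 := Nat.add_one_mul_choose_eq (k + 1) 2
  have h2 := Nat.cast_choose_two ℝ (k + 1)
  have h3 : ((k + 1 + 1 : ℕ) : ℝ) * ((k + 1).choose 2 : ℝ) = ((k + 1 + 1).choose (2 + 1) : ℝ) *
      ((2 + 1 : ℕ) : ℝ) := by exact_mod_cast h1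
  rw [h2] at h3
  push_cast at h3 ⊢
  linarith

end Kd3Pf

open Kd3Pf

theorem kd_three_bound (u N : ℕ) (hu : 1 ≤ u) (hN : 2 * u ≤ N) (hN3 : 3 ≤ N)
    (hV : Fintype.card V = 2 * N) (f : PM V → ℝ) (hf : Low u f) :
    quad (kd 3) f ≤ 2 * (N.choose 3 : ℝ) * nrm f :=
  St_all u hu N hN hN3 V hV f hf

theorem WB_zero (a u N : ℕ) (hau : u < a) (haN : a ≤ N) : WB a u 0 N := by
  intro V _ _ hV f hf
  rw [Wt_glue, zero_mul, zero_mul]
  apply le_of_eq
  apply Finset.sum_eq_zero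
  intro S hS
  have hS' : S.card = 2 * a := (Finset.mem_filter.mp hS).2
  have hc : (Sᶜ).card + 2 * u < Fintype.card V := by
    rw [Finset.card_compl, hV, hS']
    omega
  have h1 : ∑ P2 : PM {x // x ∉ S}, (∑ P1 : PM {x // x ∈ S}, f (glue S P1 P2)) ^ 2 = 0 := by
    apply Finset.sum_eq_zero
    intro P2 _
    rw [glue_zero u f hf S hc P2]
    norm_num
  rw [h1, zero_div]

theorem WB_two (u N : ℕ) (hu : 1 ≤ u) (hN : 2 * u ≤ N) :
    WB 2 u (4 * (u - 1) / (3 * (2 * u - 1))) N := by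
  intro V _ _ hV f hf
  have h1 := Wt_two N hV f
  have h2 := kd_two_bound u N hu hN hV f hf
  have h3 := Nat.cast_choose_two ℝ N
  have hu1 : (1 : ℝ) ≤ u := by exact_mod_cast hu
  have hpos : (0 : ℝ) < 2 * u - 1 := by linarith
  rw [h3] at h1 ⊢
  have hne : (2 * (u : ℝ) - 1) ≠ 0 := hpos.ne'
  have h4 : (4 * ((u : ℝ) - 1) / (3 * (2 * u - 1))) * ((N : ℝ) * (N - 1) / 2) * nrm f =
      ((N : ℝ) * (N - 1) / 2 * nrm f + (2 * (u : ℝ) - 3) / (2 * (2 * u - 1)) *
        (N * (N - 1)) * nrm f) / 3 := by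
    obtain ⟨w, hw⟩ : ∃ w : ℝ, w = 2 * (u : ℝ) - 1 := ⟨_, rfl⟩
    have hw0 : w ≠ 0 := by rw [hw]; exact hne
    have e1 : (2 * (u : ℝ) - 3) = w - 2 := by rw [hw]; ring
    have e2 : 4 * ((u : ℝ) - 1) = 2 * w - 2 := by rw [hw]; ring
    rw [e1, e2, ← hw]
    field_simp
    ring
  rw [h4]
  linarith

theorem WB_three (u N : ℕ) (hu : 1 ≤ u) (hN : 2 * u ≤ N) (hN3 : 3 ≤ N) :
    WB 3 u (2 / 5) N := by
  intro V _ _ hV f hf
  have h1 := Wt_three N hV f
  have h2 := kd_two_bound u N hu hN hV f hf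
  have h3 := kd_three_bound u N hu hN hN3 hV f hf
  have h4 := choose_three N (by omega)
  have hu1 : (1 : ℝ) ≤ u := by exact_mod_cast hu
  have hN1 : (3 : ℝ) ≤ N := by exact_mod_cast hN3
  have hpos : (0 : ℝ) < 2 * u - 1 := by linarith
  have hn := nrm0 f
  have h5 : (2 * (u : ℝ) - 3) / (2 * (2 * u - 1)) ≤ 1 / 2 := by
    rw [div_le_div_iff₀ (by positivity) (by norm_num)]
    linarith
  have h6 : quad (kd 2) f ≤ 1 / 2 * (N * (N - 1)) * nrm f := by
    refine h2.trans ?_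
    apply mul_le_mul_of_nonneg_right _ hn
    apply mul_le_mul_of_nonneg_right h5
    nlinarith
  have h7 : ((N : ℝ) - 2) * quad (kd 2) f ≤ ((N : ℝ) - 2) * (1 / 2 * (N * (N - 1)) * nrm f) :=
    mul_le_mul_of_nonneg_left h6 (by linarith)
  have h8 : ((N : ℝ) - 2) * (1 / 2 * (N * (N - 1)) * nrm f) = 3 * (N.choose 3 : ℝ) * nrm f := by
    rw [h4]
    ring
  linarith

theorem WB_ge_three (a u N : ℕ) (ha : 3 ≤ a) (haN : a ≤ N) (hu : 1 ≤ u)
    (hN : 2 * u ≤ N) : WB a u (2 / 5) N := by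
  induction a, ha using Nat.le_induction with
  | base => exact WB_three u N hu hN haN
  | succ a ha ih =>
    intro V _ _ hV f hf
    have h1 := ih (by omega) V hV f hf
    have h2 := Wt_mono N a hV f
    have h3 := Nat.choose_succ_right_eq N a
    have h4 : (N.choose (a + 1) : ℝ) * ((a : ℝ) + 1) = (N.choose a : ℝ) * ((N - a : ℕ) : ℝ) := by
      exact_mod_cast h3
    have h5 : ((N - a : ℕ) : ℝ) * Wt a f ≤
        ((N - a : ℕ) : ℝ) * (2 / 5 * (N.choose a : ℝ) * nrm f) :=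
      mul_le_mul_of_nonneg_left h1 (Nat.cast_nonneg _)
    have h6 : ((a : ℝ) + 1) * Wt (a + 1) f ≤
        ((a : ℝ) + 1) * (2 / 5 * (N.choose (a + 1) : ℝ) * nrm f) := by
      calc ((a : ℝ) + 1) * Wt (a + 1) f ≤ ((N - a : ℕ) : ℝ) * (2 / 5 * (N.choose a : ℝ) * nrm f) :=
            h2.trans h5
        _ = 2 / 5 * ((N.choose a : ℝ) * ((N - a : ℕ) : ℝ)) * nrm f := by ring
        _ = ((a : ℝ) + 1) * (2 / 5 * (N.choose (a + 1) : ℝ) * nrm f) := by
            rw [← h4]
            ring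
    exact le_of_mul_le_mul_left h6 (by positivity)

/-- the averages over two edges for six edges and level two -/
theorem WB_two_six : WB 2 2 (1 / 3) 6 := by
  intro V _ _ hV f hf
  have h1 := Wt_two 6 hV f
  have h2 := kd_two_six (by omega) f hf
  linarith

end Pool.Agent.Helper23.MS
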