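import Pool.Agent.Helper23.MS.Defs

/-! # MS-5: the weights of the D-lemma -/

open scoped BigOperators Nat
open Finset

namespace Pool.Agent.Helper23.MS

theorem phi_cnt_eq (j : ℕ) : ∀ r, j ≤ r → cnt j r = r.descFactorial j * cnt 0 (r - j) := by
  induction j with
  | zero => intro r _; simp
  | succ k ih =>
    intro r hr
    obtain ⟨n, rfl⟩ : ∃ n, r = n + 1 := ⟨r - 1, by omega⟩
    rw [Nat.succ_descFactorial_succ, Nat.succ_sub_succ, mul_assoc, ← ih n (by omega), cnt]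

theorem phi_cnt_zero (m : ℕ) : cnt 0 (2 * m + 2) = (2 * m + 1) * cnt 0 (2 * m) := by
  rw [cnt]

theorem phi_cnt_pos (m : ℕ) : 0 < cnt 0 (2 * m) := by
  induction m with
  | zero => simp [cnt]
  | succ m ih =>
    rw [mul_add, mul_one, phi_cnt_zero]
    positivity

theorem phi_cnt_pos' (j u : ℕ) (h : 2 * j ≤ 2 * u) : 0 < cnt (2 * j) (2 * u) := by
  rw [phi_cnt_eq _ _ h, ← Nat.mul_sub]
  have h1 := phi_cnt_pos (u - j)
  have h2 : 0 < (2 * u).descFactorial (2 * j) := Nat.pos_of_ne_zero (by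
    rw [Ne, Nat.descFactorial_eq_zero_iff_lt]
    omega)
  positivity

theorem phi_cnt_rec (u m : ℕ) (h : m < u) :
    cnt (2 * (m + 1)) (2 * u) = (2 * (u - m)) * cnt (2 * m) (2 * u) := by
  rw [phi_cnt_eq (2 * (m + 1)) (2 * u) (by omega), phi_cnt_eq (2 * m) (2 * u) (by omega)]
  have h1 : 2 * (m + 1) = (2 * m + 1) + 1 := by ring
  rw [h1, Nat.descFactorial_succ, Nat.descFactorial_succ]
  obtain ⟨d, rfl⟩ : ∃ d, u = m + (d + 1) := ⟨u - m - 1, by omega⟩
  have h2 : 2 * (m + (d + 1)) - (2 * m + 1) = 2 * d + 1 := by omega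
  have h3 : 2 * (m + (d + 1)) - 2 * m = 2 * d + 2 := by omega
  have h4 : 2 * (m + (d + 1)) - (2 * m + 1 + 1) = 2 * d := by omega
  have h5 : m + (d + 1) - m = d + 1 := by omega
  rw [h2, h3, h4, h5, phi_cnt_zero]
  ring

theorem phi_fact (m : ℕ) : (2 * (m + 1) - 1)‼ = (2 * m + 1) * (2 * m - 1)‼ := by
  rcases Nat.eq_zero_or_pos m with rfl | hm
  · simp
  · have h1 : 2 * (m + 1) - 1 = (2 * m - 1) + 2 := by omega
    rw [h1, Nat.doubleFactorial_add_two]
    congr 1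
    omega

theorem phi_nonneg (u j : ℕ) : 0 ≤ phi u j := by
  unfold phi
  positivity

theorem phi_zero (u : ℕ) : phi u 0 = 1 := by
  unfold phi
  have h : (0 : ℝ) < cnt 0 (2 * u) := by exact_mod_cast phi_cnt_pos u
  simp only [Nat.zero_sub, Nat.doubleFactorial, Nat.cast_one, one_mul]
  exact div_self h.ne'

theorem phi_rec (u m : ℕ) (h : m < u) :
    phi u (2 * (m + 1)) * (2 * ((u : ℝ) - m)) = (2 * m + 1) * phi u (2 * m) := by
  unfold phi
  rw [phi_fact, phi_cnt_rec u m h]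
  have h1 : (0 : ℝ) < cnt (2 * m) (2 * u) := by exact_mod_cast phi_cnt_pos' m u (by omega)
  have h2 : ((u - m : ℕ) : ℝ) = (u : ℝ) - m := Nat.cast_sub h.le
  have h3 : (0 : ℝ) < (u : ℝ) - m := by
    rw [← h2]
    exact_mod_cast Nat.sub_pos_of_lt h
  push_cast
  rw [h2]
  field_simp

/-- closed form -/
theorem phi_closed (u m : ℕ) (h : m ≤ u) :
    phi u (2 * m) * (((2 * u)‼ : ℕ) : ℝ) =
      (((2 * m - 1)‼ : ℕ) : ℝ) * (((2 * (u - m))‼ : ℕ) : ℝ) := by
  induction m with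
  | zero =>
    rw [mul_zero, phi_zero]
    simp
  | succ m ih =>
    have ih' := ih (by omega)
    have h1 := phi_rec u m (by omega)
    have h2 : ((u - m : ℕ) : ℝ) = (u : ℝ) - m := Nat.cast_sub (by omega)
    have h3 : (0 : ℝ) < (u : ℝ) - m := by
      rw [← h2]
      exact_mod_cast Nat.sub_pos_of_lt (by omega)
    have h4 : (2 * (u - m))‼ = (2 * (u - m)) * (2 * (u - (m + 1)))‼ := by
      obtain ⟨d, rfl⟩ : ∃ d, u = m + (d + 1) := ⟨u - m - 1, by omega⟩
      have h5 : 2 * (m + (d + 1) - m) = 2 * d + 2 := by omega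
      have h6 : 2 * (m + (d + 1) - (m + 1)) = 2 * d := by omega
      rw [h5, h6, Nat.doubleFactorial_add_two]
    rw [phi_fact]
    rw [h4] at ih'
    push_cast at ih' ⊢
    rw [h2] at ih'
    have h7 : phi u (2 * (m + 1)) * (((2 * u)‼ : ℕ) : ℝ) * (2 * ((u : ℝ) - m)) =
        (2 * m + 1) * (((2 * m - 1)‼ : ℕ) : ℝ) * (((2 * (u - (m + 1)))‼ : ℕ) : ℝ) *
          (2 * ((u : ℝ) - m)) := by
      calc _ = (phi u (2 * (m + 1)) * (2 * ((u : ℝ) - m))) * (((2 * u)‼ : ℕ) : ℝ) := by ring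
        _ = (2 * m + 1) * (phi u (2 * m) * (((2 * u)‼ : ℕ) : ℝ)) := by rw [h1]; ring
        _ = _ := by rw [ih']; ring
    exact mul_right_cancel₀ (by positivity) h7

theorem phi_two (u : ℕ) (hu : 1 ≤ u) : phi u 2 = 1 / (2 * u) := by
  have h := phi_rec u 0 (by omega)
  rw [mul_zero, phi_zero] at h
  have hu0 : (0 : ℝ) < u := by exact_mod_cast hu
  rw [eq_div_iff (by positivity)]
  simpa using h

theorem phi_four (u : ℕ) (hu : 2 ≤ u) : phi u 4 = 3 / (4 * u * (u - 1)) := by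
  have h := phi_rec u 1 (by omega)
  have h2 := phi_two u (by omega)
  have hu0 : (2 : ℝ) ≤ u := by exact_mod_cast hu
  have e1 : 2 * (1 + 1) = 4 := by norm_num
  rw [e1, mul_one, h2] at h
  have h3 : (0 : ℝ) < (u : ℝ) - 1 := by linarith
  have h4 : (0 : ℝ) < u := by linarith
  rw [eq_div_iff (by positivity)]
  push_cast at h
  have h5 : phi u 4 * (4 * u * (u - 1)) = (phi u 4 * (2 * ((u : ℝ) - 1))) * (2 * u) := by ring
  rw [h5, h]
  field_simp
  ring

theorem phi_df_le (v : ℕ) (hv : 1 ≤ v) (m : ℕ) :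
    (2 * (m + 1) - 1)‼ * (2 * v)‼ ≤ (2 * (m + v))‼ := by
  induction m with
  | zero => simp
  | succ m ih =>
    rw [phi_fact]
    have h1 : 2 * (m + 1 + v) = 2 * (m + v) + 2 := by ring
    rw [h1, Nat.doubleFactorial_add_two, mul_assoc]
    exact Nat.mul_le_mul (by omega) ih

theorem phi_le (u m : ℕ) (hm : 1 ≤ m) (hu : m < u) : phi u (2 * m) ≤ 1 / (2 * u) := by
  have h := phi_closed u m hu.le
  have hu0 : (0 : ℝ) < u := by exact_mod_cast (by omega : 0 < u)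
  have h1 : (2 * u)‼ = (2 * u) * (2 * (u - 1))‼ := by
    obtain ⟨d, rfl⟩ : ∃ d, u = d + 1 := ⟨u - 1, by omega⟩
    have h5 : 2 * (d + 1) = 2 * d + 2 := by omega
    rw [h5, Nat.doubleFactorial_add_two]
    rfl
  have h2 : (2 * m - 1)‼ * (2 * (u - m))‼ ≤ (2 * (u - 1))‼ := by
    have := phi_df_le (u - m) (by omega) (m - 1)
    have e1 : m - 1 + 1 = m := by omega
    have e2 : m - 1 + (u - m) = u - 1 := by omega
    rwa [e1, e2] at this
  have h3 : (((2 * m - 1)‼ : ℕ) : ℝ) * (((2 * (u - m))‼ : ℕ) : ℝ) ≤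
      (((2 * (u - 1))‼ : ℕ) : ℝ) := by exact_mod_cast h2
  have h4 : (0 : ℝ) < (((2 * (u - 1))‼ : ℕ) : ℝ) := by
    exact_mod_cast Nat.doubleFactorial_pos _
  rw [h1] at h
  push_cast at h
  rw [le_div_iff₀ (by positivity)]
  have h5 : phi u (2 * m) * (2 * u) * (((2 * (u - 1))‼ : ℕ) : ℝ) ≤
      1 * (((2 * (u - 1))‼ : ℕ) : ℝ) := by
    calc _ = phi u (2 * m) * (2 * (u : ℝ) * (((2 * (u - 1))‼ : ℕ) : ℝ)) := by ring
      _ = (((2 * m - 1)‼ : ℕ) : ℝ) * (((2 * (u - m))‼ : ℕ) : ℝ) := h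
      _ ≤ _ := by rw [one_mul]; exact h3
  exact le_of_mul_le_mul_right h5 h4

theorem phi_top (u : ℕ) : phi u (2 * u) = ((2 * u).choose u : ℝ) / 4 ^ u := by
  have h := phi_closed u u le_rfl
  have h1 : (2 * u)! = (2 * u)‼ * (2 * u - 1)‼ := by
    rcases Nat.eq_zero_or_pos u with rfl | hu
    · simp
    · have := Nat.factorial_eq_mul_doubleFactorial (2 * u - 1)
      have e : 2 * u - 1 + 1 = 2 * u := by omega
      rwa [e] at this
  have h2 : (2 * u).choose u * (u ! * u !) = (2 * u)! := by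
    have := Nat.choose_mul_factorial_mul_factorial (show u ≤ 2 * u by omega)
    have e : 2 * u - u = u := by omega
    rw [e] at this
    rw [← this]
    ring
  have h3 : (2 * u)‼ = 2 ^ u * u ! := Nat.doubleFactorial_two_mul u
  rw [Nat.sub_self, mul_zero, Nat.doubleFactorial, Nat.cast_one, mul_one, h3] at h
  rw [h1, h3] at h2
  have h4 : ((2 * u).choose u : ℝ) * ((u ! : ℕ) * (u ! : ℕ)) =
      2 ^ u * (u ! : ℕ) * (((2 * u - 1)‼ : ℕ) : ℝ) := by exact_mod_cast h2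
  have h5 : (0 : ℝ) < ((u ! : ℕ) : ℝ) := by exact_mod_cast Nat.factorial_pos u
  push_cast at h
  rw [eq_div_iff (by positivity)]
  have h6 : (4 : ℝ) ^ u = 2 ^ u * 2 ^ u := by
    rw [← mul_pow]
    norm_num
  rw [h6]
  have h7 : phi u (2 * u) * (2 ^ u * 2 ^ u) * ((u ! : ℕ) * (u ! : ℕ) : ℝ) =
      ((2 * u).choose u : ℝ) * ((u ! : ℕ) * (u ! : ℕ)) := by
    rw [h4, ← h]
    ring
  exact mul_right_cancel₀ (by positivity) h7

end Pool.Agent.Helper23.MS
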