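import Pool.Agent.Helper23.MS.AvB
import Pool.Agent.Helper23.MS.DLemma
import Pool.Agent.Helper23.MS.Closed
import Pool.Agent.Helper23.MS.Out
import Pool.Agent.Helper23.MS.Phi
import Pool.Agent.Helper23.MS.Count

/-! # MS-16a: the class of a hexagon -/

open scoped BigOperators Nat
open Finset

namespace Pool.Agent.Helper23.MS

set_option linter.unusedSectionVars false

variable {V : Type} [Fintype V] [DecidableEq V]

namespace Kd3Pf

open AvPf AvBPf

theorem closed_even (P : PM V) (S : Finset V) (h : Cl P S) : Even S.card := by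
  have h2 : ∑ x ∈ S, (1 : ZMod 2) = 0 := by
    apply Finset.sum_involution (fun x _ => P.1 x)
    · intro x _
      decide
    · intro x _ _
      exact P.2.2 x
    · intro x hx
      exact h x hx
    · intro x _
      exact P.2.1 x
  rw [Finset.sum_const, nsmul_eq_mul, mul_one] at h2
  exact (ZMod.natCast_eq_zero_iff_even).1 h2

theorem dif_Cl_left (P Q : PM V) : Cl P (dif P Q) := by
  intro z hz
  rw [mem_dif] at hz ⊢
  rw [P.2.1]
  intro h
  apply hz
  have := congrArg Q.1 h
  rw [Q.2.1] at this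
  exact this.symm

theorem dif_Cl_right (P Q : PM V) : Cl Q (dif P Q) := by
  intro z hz
  rw [mem_dif] at hz ⊢
  rw [Q.2.1]
  intro h
  apply hz
  have := congrArg P.1 h
  rw [P.2.1] at this
  exact this.symm

theorem four_le (P Q : PM V) (S : Finset V) (hP : Cl P S) (hQ : Cl Q S) {x : V} (hx : x ∈ S)
    (hne : P.1 x ≠ Q.1 x) : 4 ≤ S.card := by
  have d1 : x ≠ P.1 x := fun e => P.2.2 x e.symm
  have d2 : x ≠ Q.1 x := fun e => Q.2.2 x e.symm
  have d4 : x ≠ P.1 (Q.1 x) := fun e => by
    apply hne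
    have := congrArg P.1 e
    rwa [P.2.1] at this
  have d5 : P.1 x ≠ P.1 (Q.1 x) := fun e => d2 (P.1.injective e)
  have d6 : Q.1 x ≠ P.1 (Q.1 x) := fun e => P.2.2 _ e.symm
  have hc : ({x, P.1 x, Q.1 x, P.1 (Q.1 x)} : Finset V).card = 4 := by
    rw [Finset.card_insert_of_notMem, Finset.card_insert_of_notMem,
      Finset.card_insert_of_notMem, Finset.card_singleton]
    · simpa using d6
    · simp [hne, d5]
    · simp [d1, d2, d4]
  rw [← hc]
  apply Finset.card_le_card
  intro y hy
  simp only [Finset.mem_insert, Finset.mem_singleton] at hy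
  rcases hy with rfl | rfl | rfl | rfl
  · exact hx
  · exact hP _ hx
  · exact hQ _ hx
  · exact hP _ (hQ _ hx)

open Classical in
theorem three_classes (hV : Fintype.card V = 6) (P Q : PM V) :
    kd 3 P Q + kd 2 P Q + (if P = Q then (1 : ℝ) else 0) = 1 := by
  have k3 : kd 3 P Q = if (dif P Q).card = 6 then 1 else 0 := rfl
  have k2 : kd 2 P Q = if (dif P Q).card = 4 then 1 else 0 := rfl
  rw [k3, k2]
  have hle : (dif P Q).card ≤ 6 := by
    rw [← hV]; exact Finset.card_le_univ _
  obtain ⟨m, hm⟩ := closed_even P _ (dif_Cl_left P Q)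
  by_cases h : P = Q
  · subst h
    have : (dif P P).card = 0 := by
      rw [Finset.card_eq_zero]
      ext z
      simp [mem_dif]
    rw [this]
    simp
  · have hne : ∃ x, P.1 x ≠ Q.1 x := by
      by_contra hcon
      push Not at hcon
      exact h (PM_ext hcon)
    obtain ⟨x, hx⟩ := hne
    have h4 := four_le P Q _ (dif_Cl_left P Q) (dif_Cl_right P Q) (mem_dif.mpr hx) hx
    rw [if_neg h]
    have : (dif P Q).card = 4 ∨ (dif P Q).card = 6 := by omega
    rcases this with h' | h' <;> rw [h'] <;> norm_num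

theorem card_PM_six (hV : Fintype.card V = 6) : Fintype.card (PM V) = 15 := by
  classical
  have h := card_ext (V := V) 1 (fun x => rfl) ∅ (by simp)
  have e : (univ.filter (fun P : PM V => Ext 1 P ∧ Ind P ∅)) = univ := by
    rw [Finset.filter_true_of_mem]
    intro P _
    exact ⟨fun x hx => absurd rfl hx, fun x hx => absurd hx (Finset.notMem_empty x)⟩
  rw [e, Finset.card_univ, hV] at h
  rw [h]
  simp
  decide

theorem row_three_six (hV : Fintype.card V = 6) (P : PM V) : ∑ Q, kd 3 P Q = 8 := by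
  classical
  have h1 : ∑ Q : PM V, (kd 3 P Q + kd 2 P Q + (if P = Q then (1 : ℝ) else 0)) = 15 := by
    rw [Finset.sum_congr rfl (fun Q _ => three_classes hV P Q)]
    rw [Finset.sum_const, Finset.card_univ, card_PM_six hV]
    norm_num
  rw [Finset.sum_add_distrib, Finset.sum_add_distrib] at h1
  have h2 := app_kd_two_one 3 (by omega) P
  have h3 : app (kd 2) (fun _ => (1 : ℝ)) P = ∑ Q : PM V, kd 2 P Q := by simp [app]
  rw [h3] at h2
  have h4 : ∑ Q : PM V, (if P = Q then (1 : ℝ) else 0) = 1 := by simp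
  rw [h2, h4] at h1
  norm_num at h1 ⊢
  linarith

theorem dif_glue (S : Finset V) (hS : S.card = 6) (P1 Q1 : PM {x // x ∈ S})
    (P2 Q2 : PM {x // x ∉ S}) : dif (glue S P1 P2) (glue S Q1 Q2) = S ↔
      (Q2 = P2 ∧ (dif P1 Q1).card = 2 * 3) := by
  constructor
  · intro h
    constructor
    · apply PM_ext
      intro z
      have hz : (z : V) ∉ dif (glue S P1 P2) (glue S Q1 Q2) := by rw [h]; exact z.2
      rw [mem_dif, not_not, glue_right, glue_right] at hz
      exact (Subtype.ext hz).symm
    · have : dif P1 Q1 = univ := by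
        ext z
        simp only [Finset.mem_univ, iff_true]
        have hz : (z : V) ∈ dif (glue S P1 P2) (glue S Q1 Q2) := by rw [h]; exact z.2
        rw [mem_dif, glue_left, glue_left] at hz
        rw [mem_dif]
        exact fun h => hz (congrArg Subtype.val h)
      rw [this, Finset.card_univ, card_in, hS]
  · rintro ⟨rfl, h⟩
    have hu : dif P1 Q1 = univ := by
      apply Finset.eq_univ_of_card
      rw [h, card_in, hS]
    ext z
    by_cases hz : z ∈ S
    · simp only [hz, iff_true]
      rw [mem_dif]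
      have h1 := glue_left S P1 Q2 ⟨z, hz⟩
      have h2 := glue_left S Q1 Q2 ⟨z, hz⟩
      simp only at h1 h2
      rw [h1, h2]
      have h3 : (⟨z, hz⟩ : {x // x ∈ S}) ∈ dif P1 Q1 := by rw [hu]; exact Finset.mem_univ _
      rw [mem_dif] at h3
      exact fun h => h3 (Subtype.ext h)
    · simp only [hz, iff_false]
      rw [mem_dif, not_not]
      have h1 := glue_right S P1 Q2 ⟨z, hz⟩
      have h2 := glue_right S Q1 Q2 ⟨z, hz⟩
      simp only at h1 h2
      rw [h1, h2]

open Classical in
theorem row_three (N : ℕ) (hV : Fintype.card V = 2 * N) (P : PM V) :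
    ∑ Q, kd 3 P Q = 8 * (N.choose 3 : ℝ) := by
  set F := univ.filter (fun S : Finset V => S.card = 2 * 3 ∧ Cl P S) with hF
  have h1 : ∀ Q : PM V, kd 3 P Q = ∑ S ∈ F, if dif P Q = S then (1 : ℝ) else 0 := by
    intro Q
    rw [Finset.sum_ite_eq]
    have k3 : kd 3 P Q = if (dif P Q).card = 2 * 3 then 1 else 0 := rfl
    rw [k3]
    by_cases h : (dif P Q).card = 2 * 3
    · rw [if_pos h, if_pos]
      rw [hF, Finset.mem_filter]
      exact ⟨Finset.mem_univ _, h, dif_Cl_left P Q⟩
    · rw [if_neg h, if_neg]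
      rw [hF, Finset.mem_filter]
      exact fun h' => h h'.2.1
  rw [Finset.sum_congr rfl (fun Q _ => h1 Q), Finset.sum_comm]
  have h2 : ∀ S ∈ F, ∑ Q : PM V, (if dif P Q = S then (1 : ℝ) else 0) = 8 := by
    intro S hS
    rw [hF, Finset.mem_filter] at hS
    obtain ⟨-, hc, hcl⟩ := hS
    have h3 := sum_closed S (fun Q => if dif P Q = S then (1 : ℝ) else 0)
    have h4 : ∀ Q : PM V, (if Cl Q S then (if dif P Q = S then (1 : ℝ) else 0) else 0) =
        if dif P Q = S then (1 : ℝ) else 0 := by
      intro Q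
      by_cases h : dif P Q = S
      · rw [if_pos (by rw [← h]; exact dif_Cl_right P Q)]
      · rw [if_neg h, ite_self]
    rw [Finset.sum_congr rfl (fun Q _ => h4 Q)] at h3
    rw [h3]
    have h5 : ∀ (Q1 : PM {x // x ∈ S}) (Q2 : PM {x // x ∉ S}),
        (dif P (glue S Q1 Q2) = S) ↔ (Q2 = gbRestrOut P S hcl ∧
          (dif (gbRestrIn P S hcl) Q1).card = 2 * 3) := by
      intro Q1 Q2
      conv_lhs => rw [← gb_glue_restr P S hcl]
      exact dif_glue S hc _ _ _ _
    simp_rw [h5]
    have h6 : ∀ Q1 : PM {x // x ∈ S},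
        ∑ Q2 : PM {x // x ∉ S}, (if Q2 = gbRestrOut P S hcl ∧
          (dif (gbRestrIn P S hcl) Q1).card = 2 * 3 then (1 : ℝ) else 0) =
          kd 3 (gbRestrIn P S hcl) Q1 := by
      intro Q1
      have k3 : kd 3 (gbRestrIn P S hcl) Q1 =
        if (dif (gbRestrIn P S hcl) Q1).card = 2 * 3 then 1 else 0 := rfl
      rw [k3, Finset.sum_eq_single (gbRestrOut P S hcl)]
      · simp
      · intro Q2 _ hQ2
        rw [if_neg (fun h => hQ2 h.1)]
      · intro h
        exact absurd (Finset.mem_univ _) h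
    rw [Finset.sum_congr rfl (fun Q1 _ => h6 Q1)]
    exact row_three_six (by rw [card_in, hc]) _
  rw [Finset.sum_congr rfl h2, Finset.sum_const, hF, card_closed N hV P 3, nsmul_eq_mul]
  ring

end Kd3Pf

open Kd3Pf AvPf AvBPf

theorem rsum_kd_three (N : ℕ) (hV : Fintype.card V = 2 * N) :
    rsum (kd (V := V) 3) = 8 * (N.choose 3 : ℝ) := by
  unfold rsum
  have hc : (Fintype.card (PM V) : ℝ) ≠ 0 := by
    exact_mod_cast (card_PM_pos N hV).ne'
  rw [Finset.sum_congr rfl (fun P _ => row_three N hV P), Finset.sum_const, nsmul_eq_mul,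
    Finset.card_univ]
  field_simp

/-- for three edges the three classes add up to all pairs -/
theorem kd_three_six (hV : Fintype.card V = 6) (f : PM V → ℝ) (hf : ∑ P, f P = 0) :
    quad (kd 3) f = - nrm f - quad (kd 2) f := by
  classical
  have h1 : ∑ P : PM V, ∑ Q : PM V,
      (kd 3 P Q + kd 2 P Q + (if P = Q then (1 : ℝ) else 0)) * f P * f Q = 0 := by
    have : ∑ P : PM V, ∑ Q : PM V,
        (kd 3 P Q + kd 2 P Q + (if P = Q then (1 : ℝ) else 0)) * f P * f Q =
        (∑ P, f P) * ∑ Q, f Q := by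
      rw [Finset.sum_mul_sum]
      refine Finset.sum_congr rfl (fun P _ => Finset.sum_congr rfl (fun Q _ => ?_))
      rw [three_classes hV P Q, one_mul]
    rw [this, hf, zero_mul]
  have h2 : ∑ P : PM V, ∑ Q : PM V,
      (kd 3 P Q + kd 2 P Q + (if P = Q then (1 : ℝ) else 0)) * f P * f Q =
      quad (kd 3) f + quad (kd 2) f + nrm f := by
    unfold quad nrm
    rw [← Finset.sum_add_distrib, ← Finset.sum_add_distrib]
    refine Finset.sum_congr rfl (fun P _ => ?_)
    have e : f P ^ 2 = ∑ Q : PM V, (if P = Q then (1 : ℝ) else 0) * f P * f Q := by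
      rw [Finset.sum_eq_single P]
      · simp [sq]
      · intro Q _ hQ
        rw [if_neg (Ne.symm hQ)]
        ring
      · intro h
        exact absurd (Finset.mem_univ _) h
    rw [e, ← Finset.sum_add_distrib, ← Finset.sum_add_distrib]
    refine Finset.sum_congr rfl (fun Q _ => ?_)
    ring
  rw [h2] at h1
  linarith

namespace Kd3Pf

theorem choose_id (u : ℕ) (hu : 2 ≤ u) :
    (u + u - 3).choose u * (4 * (2 * u - 1)) = (u - 2) * (u + u).choose u := by
  obtain ⟨v, rfl⟩ := Nat.exists_eq_add_of_le hu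
  rcases Nat.eq_zero_or_pos v with rfl | hv
  · decide
  · obtain ⟨w, rfl⟩ := Nat.exists_eq_add_of_le hv
    have e1 : 2 + (1 + w) + (2 + (1 + w)) - 3 = 2 * w + 3 := by omega
    have e2 : 2 + (1 + w) = w + 3 := by omega
    have e3 : 2 + (1 + w) + (2 + (1 + w)) = 2 * w + 6 := by omega
    rw [e1, e3, e2]
    have e4 : w + 3 - 2 = w + 1 := by omega
    have e5 : 2 * (w + 3) - 1 = 2 * w + 5 := by omega
    rw [e4, e5]
    have h1 := Nat.choose_mul_factorial_mul_factorial (n := 2 * w + 3) (k := w + 3) (by omega)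
    have h2 := Nat.choose_mul_factorial_mul_factorial (n := 2 * w + 6) (k := w + 3) (by omega)
    rw [show 2 * w + 3 - (w + 3) = w by omega] at h1
    rw [show 2 * w + 6 - (w + 3) = w + 3 by omega] at h2
    have h3 : (2 * w + 6)! = (2 * w + 6) * ((2 * w + 5) * ((2 * w + 4) * (2 * w + 3)!)) := by
      rw [Nat.factorial_succ (2 * w + 5), Nat.factorial_succ (2 * w + 4),
        Nat.factorial_succ (2 * w + 3)]
    have h4 : (w + 3)! = (w + 3) * ((w + 2) * ((w + 1) * w !)) := by
      rw [Nat.factorial_succ (w + 2), Nat.factorial_succ (w + 1), Nat.factorial_succ w]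
    have hpos : 0 < (w + 3)! * w ! * ((w + 3) * (w + 2)) := by positivity
    apply Nat.eq_of_mul_eq_mul_right hpos
    have h5 : (2 * w + 6).choose (w + 3) * (w + 3)! * ((w + 3) * ((w + 2) * ((w + 1) * w !))) =
        (2 * w + 6) * ((2 * w + 5) * ((2 * w + 4) * ((2 * w + 3).choose (w + 3) *
          (w + 3)! * w !))) := by
      rw [h1, ← h3, ← h4]; exact h2
    calc (2 * w + 3).choose (w + 3) * (4 * (2 * w + 5)) * ((w + 3)! * w ! * ((w + 3) * (w + 2)))
        = (2 * w + 6) * ((2 * w + 5) * ((2 * w + 4) * ((2 * w + 3).choose (w + 3) *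
          (w + 3)! * w !))) := by ring
      _ = (2 * w + 6).choose (w + 3) * (w + 3)! * ((w + 3) * ((w + 2) * ((w + 1) * w !))) :=
          h5.symm
      _ = _ := by ring

open Classical in
/-- closed sets which avoid a closed set -/
theorem card_avoid (N : ℕ) (hV : Fintype.card V = 2 * N) (P : PM V) (D : Finset V)
    (hD : D.card = 6) (hcl : Cl P D) (a : ℕ) :
    (univ.filter (fun W : Finset V => (W.card = 2 * a ∧ Cl P W) ∧ Disjoint W D)).card ≤
      (N - 3).choose a := by
  have hout : Fintype.card {x // x ∉ D} = 2 * (N - 3) := by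
    have := card_out D
    omega
  rw [← card_closed (N - 3) hout (gbRestrOut P D hcl) a]
  apply Finset.card_le_card_of_injOn (fun W : Finset V => W.subtype (fun x => x ∉ D))
  · intro W hW
    rw [Finset.mem_coe, Finset.mem_filter] at hW ⊢
    obtain ⟨-, ⟨h1, h2⟩, h3⟩ := hW
    refine ⟨Finset.mem_univ _, ?_, ?_⟩
    · rw [Finset.card_subtype, Finset.filter_true_of_mem, h1]
      intro x hx hxD
      exact (Finset.disjoint_left.mp h3) hx hxD
    · intro x hx
      rw [Finset.mem_subtype] at hx ⊢
      exact h2 _ hx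
  · intro W hW W' hW' h
    rw [Finset.mem_coe, Finset.mem_filter] at hW hW'
    obtain ⟨-, -, h3⟩ := hW
    obtain ⟨-, -, h3'⟩ := hW'
    simp only at h
    ext x
    constructor
    · intro hx
      have hxD : x ∉ D := fun hxD => (Finset.disjoint_left.mp h3) hx hxD
      have : (⟨x, hxD⟩ : {x // x ∉ D}) ∈ W.subtype (fun x => x ∉ D) := by
        rw [Finset.mem_subtype]; exact hx
      rw [h, Finset.mem_subtype] at this
      exact this
    · intro hx
      have hxD : x ∉ D := fun hxD => (Finset.disjoint_left.mp h3') hx hxD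
      have : (⟨x, hxD⟩ : {x // x ∉ D}) ∈ W'.subtype (fun x => x ∉ D) := by
        rw [Finset.mem_subtype]; exact hx
      rw [← h, Finset.mem_subtype] at this
      exact this

theorem Cl_compl (P : PM V) (W : Finset V) (h : Cl P W) : Cl P Wᶜ := by
  intro x hx
  rw [Finset.mem_compl] at hx ⊢
  intro h'
  have := h _ h'
  rw [P.2.1] at this
  exact hx this

open Classical in
theorem card_both (u : ℕ) (hV : Fintype.card V = 2 * (u + u)) (P Q : PM V)
    (hD : (dif P Q).card = 6) :
    (univ.filter (fun W : Finset V => (W.card = 2 * u ∧ Cl P W) ∧ Cl Q W)).card ≤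
      2 * (u + u - 3).choose u := by
  set D := dif P Q with hDdef
  have h1 := card_avoid (u + u) hV P D hD (dif_Cl_left P Q) u
  set F1 := univ.filter (fun W : Finset V => (W.card = 2 * u ∧ Cl P W) ∧ Disjoint W D) with hF1
  have hsub : (univ.filter (fun W : Finset V => (W.card = 2 * u ∧ Cl P W) ∧ Cl Q W)) ⊆
      F1 ∪ F1.image (fun W => Wᶜ) := by
    intro W hW
    rw [Finset.mem_filter] at hW
    obtain ⟨-, ⟨hc, hP⟩, hQ⟩ := hW
    rw [Finset.mem_union]
    by_cases hdis : Disjoint W D
    · left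
      rw [hF1, Finset.mem_filter]
      exact ⟨Finset.mem_univ _, ⟨hc, hP⟩, hdis⟩
    · right
      rw [Finset.mem_image]
      refine ⟨Wᶜ, ?_, compl_compl W⟩
      rw [hF1, Finset.mem_filter]
      refine ⟨Finset.mem_univ _, ⟨?_, Cl_compl P W hP⟩, ?_⟩
      · rw [Finset.card_compl, hc, hV]; omega
      · rw [Finset.disjoint_left]
        intro x hx hxD
        rw [Finset.not_disjoint_iff] at hdis
        obtain ⟨y, hyW, hyD⟩ := hdis
        have g1 : 4 ≤ (W ∩ D).card := by
          refine four_le P Q _ ?_ ?_ (Finset.mem_inter.mpr ⟨hyW, hyD⟩) (mem_dif.mp hyD)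
          · intro z hz
            rw [Finset.mem_inter] at hz ⊢
            exact ⟨hP _ hz.1, dif_Cl_left P Q _ hz.2⟩
          · intro z hz
            rw [Finset.mem_inter] at hz ⊢
            exact ⟨hQ _ hz.1, dif_Cl_right P Q _ hz.2⟩
        have g2 : 4 ≤ (Wᶜ ∩ D).card := by
          refine four_le P Q _ ?_ ?_ (Finset.mem_inter.mpr ⟨hx, hxD⟩) (mem_dif.mp hxD)
          · intro z hz
            rw [Finset.mem_inter] at hz ⊢
            exact ⟨Cl_compl P W hP _ hz.1, dif_Cl_left P Q _ hz.2⟩
          · intro z hz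
            rw [Finset.mem_inter] at hz ⊢
            exact ⟨Cl_compl Q W hQ _ hz.1, dif_Cl_right P Q _ hz.2⟩
        have g3 : (W ∩ D).card + (Wᶜ ∩ D).card ≤ D.card := by
          rw [← Finset.card_union_of_disjoint]
          · apply Finset.card_le_card
            intro z hz
            rw [Finset.mem_union, Finset.mem_inter, Finset.mem_inter] at hz
            rcases hz with hz | hz <;> exact hz.2
          · rw [Finset.disjoint_left]
            intro z hz hz'
            rw [Finset.mem_inter] at hz hz'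
            exact (Finset.mem_compl.mp hz'.1) hz.1
        omega
  calc _ ≤ (F1 ∪ F1.image (fun W => Wᶜ)).card := Finset.card_le_card hsub
    _ ≤ F1.card + (F1.image (fun W => Wᶜ)).card := Finset.card_union_le _ _
    _ ≤ F1.card + F1.card := Nat.add_le_add_left Finset.card_image_le _
    _ ≤ 2 * (u + u - 3).choose u := by omega

/-- at most two vertices are matched outside -/
theorem out_le_two (P Q : PM V) (hD : (dif P Q).card = 6) (W : Finset V) (hP : Cl P W) :
    out Q W ≤ 2 := by
  set D := dif P Q with hDdef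
  have a1 : out Q W ≤ (W ∩ D).card := by
    unfold out
    apply Finset.card_le_card
    intro x hx
    rw [Finset.mem_filter] at hx
    rw [Finset.mem_inter]
    refine ⟨hx.1, mem_dif.mpr ?_⟩
    intro h
    exact hx.2 (h ▸ hP _ hx.1)
  have a2 : out Q W ≤ (Wᶜ ∩ D).card := by
    unfold out
    apply Finset.card_le_card_of_injOn (fun x => Q.1 x)
    · intro x hx
      rw [Finset.mem_coe, Finset.mem_filter] at hx
      rw [Finset.mem_coe, Finset.mem_inter]
      refine ⟨Finset.mem_compl.mpr hx.2, dif_Cl_right P Q _ (mem_dif.mpr ?_)⟩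
      intro h
      exact hx.2 (h ▸ hP _ hx.1)
    · intro x _ y _ h
      exact Q.1.injective h
  have a3 : (W ∩ D).card + (Wᶜ ∩ D).card ≤ D.card := by
    rw [← Finset.card_union_of_disjoint]
    · apply Finset.card_le_card
      intro z hz
      rw [Finset.mem_union, Finset.mem_inter, Finset.mem_inter] at hz
      rcases hz with hz | hz <;> exact hz.2
    · rw [Finset.disjoint_left]
      intro z hz hz'
      rw [Finset.mem_inter] at hz hz'
      exact (Finset.mem_compl.mp hz'.1) hz.1
  obtain ⟨m, hm⟩ := even_out Q W (closed_even P W hP)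
  obtain ⟨k, hk⟩ := closed_even P (W ∩ D) (by
    intro z hz
    rw [Finset.mem_inter] at hz ⊢
    exact ⟨hP _ hz.1, dif_Cl_left P Q _ hz.2⟩)
  omega

end Kd3Pf

open Kd3Pf

theorem kd_three_exact (u : ℕ) (hu : 2 ≤ u) (hV : Fintype.card V = 2 * (u + u))
    (f : PM V → ℝ) (θ : ℝ) (hf : ∀ P, app (kd 3) f P = θ * f P) (hlow : Low u f)
    (hex : ∃ q : Equiv.Perm V, Invol q ∧ q.support.card + 2 * u = Fintype.card V ∧
      D f q ≠ 0) : θ ≤ 2 * ((2 * u).choose 3 : ℝ) := by
  classical
  have hnn : ∀ P Q : PM V, 0 ≤ kd 3 P Q := by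
    intro P Q
    unfold kd
    split_ifs <;> norm_num
  have hβ : ∀ P Q : PM V, kd 3 P Q ≠ 0 →
      ∑ W ∈ univ.filter (fun W : Finset V => W.card = 2 * u ∧ Cl P W), phi u (out Q W) ≤
        (1 / 4) * ((u + u).choose u : ℝ) := by
    intro P Q hk
    have hD : (dif P Q).card = 6 := by
      by_contra hcon
      apply hk
      have k3 : kd 3 P Q = if (dif P Q).card = 2 * 3 then 1 else 0 := rfl
      rw [k3, if_neg hcon]
    set F := univ.filter (fun W : Finset V => W.card = 2 * u ∧ Cl P W) with hF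
    have hcardF : F.card = (u + u).choose u := card_closed (u + u) hV P u
    have hu0 : (2 : ℝ) ≤ u := by exact_mod_cast hu
    have hval : ∀ W ∈ F, phi u (out Q W) = (if Cl Q W then (1 - 1 / (2 * (u : ℝ))) else 0) +
        1 / (2 * (u : ℝ)) := by
      intro W hW
      rw [hF, Finset.mem_filter] at hW
      by_cases hQ : Cl Q W
      · rw [(out_eq_zero Q W).mpr hQ, phi_zero, if_pos hQ]
        ring
      · have h1 := out_le_two P Q hD W hW.2.2
        obtain ⟨m, hm⟩ := even_out Q W (closed_even P W hW.2.2)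
        have h0 : out Q W ≠ 0 := fun h => hQ ((out_eq_zero Q W).mp h)
        have h2 : out Q W = 2 := by omega
        rw [h2, phi_two u (by omega), if_neg hQ, zero_add]
    rw [Finset.sum_congr rfl hval, Finset.sum_add_distrib, ← Finset.sum_filter,
      Finset.sum_const, Finset.sum_const, hcardF, hF, Finset.filter_filter, nsmul_eq_mul,
      nsmul_eq_mul]
    have hA := card_both u hV P Q hD
    set A := (univ.filter (fun W : Finset V => (W.card = 2 * u ∧ Cl P W) ∧ Cl Q W)).card with hAdef
    have hid := choose_id u hu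
    have hid' : ((u + u - 3).choose u : ℝ) * (4 * (2 * u - 1)) = (u - 2) * ((u + u).choose u : ℝ) := by
      have h1 : ((2 * u - 1 : ℕ) : ℝ) = 2 * u - 1 := by
        rw [Nat.cast_sub (by omega)]; push_cast; ring
      have h2 : ((u - 2 : ℕ) : ℝ) = u - 2 := by
        rw [Nat.cast_sub hu]; push_cast; ring
      rw [← h1, ← h2]
      exact_mod_cast hid
    have hA' : (A : ℝ) ≤ 2 * ((u + u - 3).choose u : ℝ) := by exact_mod_cast hA
    have hkey : 2 * (A : ℝ) * (2 * u - 1) ≤ (u - 2) * ((u + u).choose u : ℝ) := by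
      rw [← hid']
      nlinarith
    have hupos : (0 : ℝ) < u := by linarith
    have e : (A : ℝ) * (1 - 1 / (2 * (u : ℝ))) + ((u + u).choose u : ℝ) * (1 / (2 * (u : ℝ))) =
        (2 * (A : ℝ) * (2 * u - 1) + 2 * ((u + u).choose u : ℝ)) / (4 * u) := by
      field_simp
      ring
    rw [e, div_le_iff₀ (by positivity)]
    nlinarith
  have h := dlemma u u hV (kd 3) (kd_Inv 3) hnn (1 / 4) hβ f θ hf hlow hex
  rw [rsum_kd_three (u + u) hV] at h
  have h2 := (le_abs_self θ).trans h
  rw [two_mul u]
  linarith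

end Pool.Agent.Helper23.MS
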