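import Pool.Agent.Helper23.MS.Defs

/-! # MS-21: number of sub-multisets with a given sum -/

open scoped BigOperators Nat
open Finset

namespace Pool.Agent.Helper23.MS

theorem cc_nil (t : ℕ) : cc 0 t = if t = 0 then 1 else 0 := by
  unfold cc
  rw [Multiset.powerset_zero]
  by_cases h : t = 0
  · subst h
    rw [Multiset.filter_singleton]
    simp
  · rw [if_neg h, Multiset.card_eq_zero, Multiset.filter_eq_nil]
    intro a ha
    rw [Multiset.mem_singleton] at ha
    subst ha
    simpa using Ne.symm h

theorem cc_cons (c : ℕ) (ν : Multiset ℕ) (t : ℕ) :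
    cc (c ::ₘ ν) t = cc ν t + if c ≤ t then cc ν (t - c) else 0 := by
  unfold cc
  rw [Multiset.powerset_cons, Multiset.filter_add, Multiset.card_add, Multiset.filter_map,
    Multiset.card_map]
  congr 1
  by_cases h : c ≤ t
  · rw [if_pos h]
    congr 1
    refine Multiset.filter_congr fun s _ => ?_
    simp only [Function.comp_apply, Multiset.sum_cons]
    omega
  · rw [if_neg h, Multiset.card_eq_zero, Multiset.filter_eq_nil]
    intro s _
    simp only [Function.comp_apply, Multiset.sum_cons]
    omega

theorem card_le (ν : Multiset ℕ) (h2 : ∀ c ∈ ν, 2 ≤ c) : 2 * Multiset.card ν ≤ ν.sum := by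
  have := Multiset.card_nsmul_le_sum h2
  rw [smul_eq_mul, mul_comm] at this
  exact this

/-- the number of subsets of the index set -/
theorem cc_eq {α : Type} [DecidableEq α] (c : α → ℕ) (s : Finset α) : ∀ t : ℕ,
    cc (s.val.map c) t = (s.powerset.filter (fun A => ∑ i ∈ A, c i = t)).card := by
  induction s using Finset.induction_on with
  | empty =>
    intro t
    rw [Finset.empty_val, Multiset.map_zero, cc_nil, Finset.powerset_empty]
    by_cases h : t = 0
    · subst h
      rw [Finset.filter_singleton]
      simp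
    · rw [if_neg h, eq_comm, Finset.card_eq_zero, Finset.filter_eq_empty_iff]
      intro A hA
      rw [Finset.mem_singleton] at hA
      subst hA
      simpa using Ne.symm h
  | insert a s ha ih =>
    intro t
    rw [Finset.insert_val_of_notMem ha, Multiset.map_cons, cc_cons, ih, Finset.card_filter,
      Finset.card_filter, Finset.sum_powerset_insert ha]
    congr 1
    by_cases h : c a ≤ t
    · rw [if_pos h, ih, Finset.card_filter]
      refine Finset.sum_congr rfl fun A hA => ?_
      have ha' : a ∉ A := fun h' => ha (Finset.mem_powerset.1 hA h')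
      rw [Finset.sum_insert ha']
      refine if_congr ?_ rfl rfl
      omega
    · rw [if_neg h, eq_comm]
      refine Finset.sum_eq_zero fun A hA => ?_
      have ha' : a ∉ A := fun h' => ha (Finset.mem_powerset.1 hA h')
      rw [Finset.sum_insert ha', if_neg]
      omega

/-- binomial coefficients increase up to the middle -/
theorem choose_mono_half {M : ℕ} {a b : ℕ} (hab : a ≤ b) (hb : 2 * b ≤ M) :
    M.choose a ≤ M.choose b := by
  induction b with
  | zero =>
    have : a = 0 := by omega
    rw [this]
  | succ b ih =>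
    rcases Nat.lt_or_ge b a with h | h
    · have : a = b + 1 := by omega
      rw [this]
    · exact (ih h (by omega)).trans (Nat.choose_le_succ_of_lt_half_left (by omega))

theorem cc_le (ν : Multiset ℕ) (h2 : ∀ c ∈ ν, 2 ≤ c) (t : ℕ) (ht : 2 * t ≤ ν.sum) :
    cc ν t ≤ (ν.sum / 2).choose (t / 2) := by
  classical
  -- indexing
  obtain ⟨l, rfl⟩ : ∃ l : List ℕ, ν = (l : Multiset ℕ) := ⟨ν.toList, by simp⟩
  set m := l.length with hm
  let c : Fin m → ℕ := fun i => l.get i
  have hν : (l : Multiset ℕ) = (Finset.univ : Finset (Fin m)).val.map c := by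
    have h1 : (Finset.univ : Finset (Fin m)).val = (List.finRange m : Multiset (Fin m)) := rfl
    rw [h1, Multiset.map_coe]
    congr 1
    exact (List.map_get_finRange l).symm
  have hc2 : ∀ i, 2 ≤ c i := fun i => h2 _ (by
    rw [hν]
    exact Multiset.mem_map_of_mem c (Finset.mem_univ_val i))
  set S := (l : Multiset ℕ).sum with hS
  have hmS : 2 * m ≤ S := by
    have := card_le (l : Multiset ℕ) h2
    rwa [Multiset.coe_card] at this
  rw [hν, cc_eq]
  set F := (Finset.univ : Finset (Fin m)).powerset.filter (fun A => ∑ i ∈ A, c i = t) with hF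
  have hFm : ∀ A ∈ F, ∑ i ∈ A, c i = t := fun A hA => (Finset.mem_filter.1 hA).2
  have hanti : IsAntichain (· ⊆ ·) (F : Set (Finset (Fin m))) := by
    intro A hA B hB hne hsub
    have h1 := hFm A hA
    have h2' := hFm B hB
    have h3 := Finset.sum_sdiff (f := c) hsub
    have h4 : ∑ i ∈ B \ A, c i = 0 := by omega
    have h5 : B \ A = ∅ := by
      by_contra h
      obtain ⟨i, hi⟩ := Finset.nonempty_iff_ne_empty.2 h
      have h6 := Finset.single_le_sum (f := c) (fun _ _ => Nat.zero_le _) hi
      have h7 := hc2 i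
      omega
    exact hne (Finset.Subset.antisymm hsub (Finset.sdiff_eq_empty_iff_subset.1 h5))
  have hcard : ∀ A ∈ F, A.card ≤ t / 2 := by
    intro A hA
    have h1 := hFm A hA
    have h3 : A.card * 2 ≤ ∑ i ∈ A, c i := by
      rw [← smul_eq_mul]
      exact Finset.card_nsmul_le_sum A c 2 fun i _ => hc2 i
    omega
  have hlym := Finset.lubell_yamamoto_meshalkin_inequality_sum_inv_choose (𝕜 := ℚ) hanti
  have hpos : ∀ A ∈ F, (0 : ℚ) < ((m.choose A.card : ℕ) : ℚ) := by
    intro A hA
    have : A.card ≤ m := by
      have := Finset.card_le_univ A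
      rwa [Fintype.card_fin] at this
    exact_mod_cast Nat.choose_pos this
  have hle : ∀ A ∈ F, m.choose A.card ≤ (S / 2).choose (t / 2) := by
    intro A hA
    calc m.choose A.card ≤ (S / 2).choose A.card := Nat.choose_le_choose _ (by omega)
      _ ≤ (S / 2).choose (t / 2) := choose_mono_half (hcard A hA) (by omega)
  by_cases hF0 : F = ∅
  · rw [hF0]
    simp
  · obtain ⟨A0, hA0⟩ := Finset.nonempty_iff_ne_empty.2 hF0
    have hC : (0 : ℚ) < (((S / 2).choose (t / 2) : ℕ) : ℚ) :=
      lt_of_lt_of_le (hpos A0 hA0) (by exact_mod_cast hle A0 hA0)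
    have h1 : (F.card : ℚ) * ((((S / 2).choose (t / 2) : ℕ) : ℚ))⁻¹ ≤ 1 := by
      refine le_trans ?_ hlym
      rw [← nsmul_eq_mul, ← Finset.sum_const]
      refine Finset.sum_le_sum fun A hA => ?_
      rw [Fintype.card_fin]
      exact inv_anti₀ (hpos A hA) (by exact_mod_cast hle A hA)
    rw [← div_eq_mul_inv, div_le_one hC] at h1
    exact_mod_cast h1

end Pool.Agent.Helper23.MS
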