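import Pool.Agent.Helper23.MS.Trans

/-! # MS-4b: trace classes -/

open scoped BigOperators Nat
open Finset

namespace Pool.Agent.Helper23.MS

variable {V : Type} [Fintype V] [DecidableEq V]

open Classical in
/-- a trace class is the set of extensions of a partial matching in which a set is
independent -/
theorem sameTr_eq (W : Finset V) (Q : PM V) :
    ∃ q : Equiv.Perm V, ∃ B : Finset V, Invol q ∧ q.support ⊆ W ∧ B ⊆ W ∧
      Disjoint q.support B ∧ q.support.card + B.card = W.card ∧ B.card = out Q W ∧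
      ∀ Q' : PM V, SameTr W Q Q' ↔ (Ext q Q' ∧ Ind Q' B) := by
  have hS : ∀ x, (x ∈ W ∧ Q.1 x ∈ W) → (Q.1 x ∈ W ∧ Q.1 (Q.1 x) ∈ W) := by
    rintro x ⟨h1, h2⟩
    exact ⟨h2, by rw [Q.2.1]; exact h1⟩
  have hinv : Function.Involutive (fun x : V => if x ∈ W ∧ Q.1 x ∈ W then Q.1 x else x) := by
    intro x
    by_cases h : x ∈ W ∧ Q.1 x ∈ W
    · simp only [if_pos h, Q.2.1]
      rw [if_pos ⟨h.2, h.1⟩]
    · simp only [if_neg h]
  obtain ⟨q, hqd⟩ : ∃ q : Equiv.Perm V, ∀ x, q x = if x ∈ W ∧ Q.1 x ∈ W then Q.1 x else x :=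
    ⟨hinv.toPerm _, fun x => rfl⟩
  have hpos : ∀ x, x ∈ W → Q.1 x ∈ W → q x = Q.1 x := fun x h1 h2 => by
    rw [hqd, if_pos ⟨h1, h2⟩]
  have hne : ∀ x, q x ≠ x ↔ (x ∈ W ∧ Q.1 x ∈ W) := by
    intro x
    rw [hqd]
    split_ifs with h
    · exact ⟨fun _ => h, fun _ => Q.2.2 x⟩
    · exact ⟨fun h1 => absurd rfl h1, fun h1 => absurd h1 h⟩
  have hsupp : q.support = W.filter (fun x => Q.1 x ∈ W) := by
    ext x
    rw [Equiv.Perm.mem_support, hne, mem_filter]
  refine ⟨q, W.filter (fun x => Q.1 x ∉ W), ?_, ?_, filter_subset _ _, ?_, ?_, ?_, ?_⟩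
  · intro x
    rw [hqd x, hqd]
    exact hinv x
  · rw [hsupp]; exact filter_subset _ _
  · rw [hsupp]; exact disjoint_filter_filter_not _ _ _
  · rw [hsupp]; exact card_filter_add_card_filter_not _
  · unfold out
    congr
  · intro Q'
    constructor
    · intro h
      refine ⟨?_, ?_⟩
      · intro x hx
        obtain ⟨h1, h2⟩ := (hne x).1 hx
        rw [hpos x h1 h2]
        exact (h x h1 _ h2).1 rfl
      · intro x hx hQx
        rw [mem_filter] at hx hQx
        apply hx.2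
        rw [(h x hx.1 _ hQx.1).2 rfl]
        exact hQx.1
    · rintro ⟨hE, hI⟩ x hx y hy
      constructor
      · rintro rfl
        have h1 := hE x ((hne x).2 ⟨hx, hy⟩)
        rw [h1, hpos x hx hy]
      · rintro rfl
        by_cases h1 : Q.1 x ∈ W
        · have h2 := hE x ((hne x).2 ⟨hx, h1⟩)
          rw [h2, hpos x hx h1]
        · exfalso
          by_cases h3 : Q.1 (Q'.1 x) ∈ W
          · have h4 := hE (Q'.1 x) ((hne _).2 ⟨hy, h3⟩)
            rw [Q'.2.1, hpos _ hy h3] at h4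
            apply h1
            rw [h4, Q.2.1]
            exact hy
          · exact hI x (mem_filter.2 ⟨hx, h1⟩) (mem_filter.2 ⟨hy, h3⟩)

end Pool.Agent.Helper23.MS
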