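import Pool.Agent.Helper23.MS.Defs

/-! # MS-4a: traces on a set, transitivity, averaging over a trace class -/

open scoped BigOperators Nat
open Finset

namespace Pool.Agent.Helper23.MS

variable {V : Type} [Fintype V] [DecidableEq V]

/-- `Q` and `Q'` have the same trace on `W`. -/
def SameTr (W : Finset V) (Q Q' : PM V) : Prop :=
  ∀ x ∈ W, ∀ y ∈ W, (Q.1 x = y ↔ Q'.1 x = y)

namespace TransAux

omit [Fintype V] in
theorem exists_pt (W : Finset V) (Q Q' : PM V) (h : SameTr W Q Q') {x : V}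
    (hx : Q.1 x ≠ Q'.1 x) : ∃ x, Q.1 x ≠ Q'.1 x ∧ Q.1 x ∉ W ∧ Q'.1 x ∉ W := by
  have key : ∀ x ∈ W, Q.1 x ≠ Q'.1 x → Q.1 x ≠ Q'.1 x ∧ Q.1 x ∉ W ∧ Q'.1 x ∉ W := by
    intro x hxW hne
    refine ⟨hne, fun h1 => ?_, fun h1 => ?_⟩
    · exact hne ((h x hxW _ h1).1 rfl).symm
    · exact hne ((h x hxW _ h1).2 rfl)
  by_cases hxW : x ∈ W
  · exact ⟨x, key x hxW hx⟩
  by_cases h1 : Q.1 x ∈ W
  · refine ⟨Q.1 x, key _ h1 ?_⟩
    rw [Q.2.1]
    intro h2
    apply hx
    have := congrArg Q'.1 h2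
    rw [Q'.2.1] at this
    exact this.symm
  by_cases h2 : Q'.1 x ∈ W
  · refine ⟨Q'.1 x, key _ h2 ?_⟩
    rw [Q'.2.1]
    intro h3
    apply hx
    have := congrArg Q.1 h3
    rw [Q.2.1] at this
    exact this.symm
  exact ⟨x, hx, h1, h2⟩

omit [Fintype V] [DecidableEq V] in
theorem sameTr_tr (W : Finset V) {Q Q' : PM V} (h : SameTr W Q Q') {g : Equiv.Perm V}
    (hg : ∀ x ∈ W, g x = x) : SameTr W (tr g Q) Q' := by
  intro x hx y hy
  rw [← h x hx y hy]
  have hx' : g.symm x = x := by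
    rw [Equiv.symm_apply_eq]; exact (hg x hx).symm
  have : (tr g Q).1 x = g (Q.1 (g.symm x)) := rfl
  rw [this, hx']
  constructor
  · intro h1
    apply g.injective
    rw [h1, hg y hy]
  · intro h1
    rw [h1, hg y hy]

omit [Fintype V] [DecidableEq V] in
theorem tr_tr (g g' : Equiv.Perm V) (Q : PM V) : tr (g.trans g') Q = tr g' (tr g Q) := by
  apply Subtype.ext
  ext x
  rfl

omit [Fintype V] [DecidableEq V] in
theorem tr_refl (Q : PM V) : tr (Equiv.refl V) Q = Q := by
  apply Subtype.ext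
  ext x
  rfl

theorem aux (W : Finset V) (Q' : PM V) : ∀ (n : ℕ) (Q : PM V),
    (univ.filter (fun x => Q.1 x ≠ Q'.1 x)).card = n → SameTr W Q Q' →
    ∃ g : Equiv.Perm V, (∀ x ∈ W, g x = x) ∧ tr g Q = Q' := by
  intro n
  induction n using Nat.strong_induction_on with
  | _ n ih =>
    intro Q hn h
    by_cases hex : ∃ x, Q.1 x ≠ Q'.1 x
    · obtain ⟨x0, hx0⟩ := hex
      obtain ⟨x, hx, ha, hb⟩ := exists_pt W Q Q' h hx0
      set g : Equiv.Perm V := Equiv.swap (Q.1 x) (Q'.1 x) with hg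
      have hgW : ∀ y ∈ W, g y = y := by
        intro y hy
        apply Equiv.swap_apply_of_ne_of_ne
        · rintro rfl; exact ha hy
        · rintro rfl; exact hb hy
      have hap : ∀ y, (tr g Q).1 y = g (Q.1 (g y)) := by
        intro y
        have : (tr g Q).1 y = g (Q.1 (g.symm y)) := rfl
        rw [this, hg, Equiv.symm_swap]
      have hx1 : (tr g Q).1 x = Q'.1 x := by
        rw [hap]
        have : g x = x := Equiv.swap_apply_of_ne_of_ne (Q.2.2 x).symm (Q'.2.2 x).symm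
        rw [this, hg, Equiv.swap_apply_left]
      have hagree : ∀ y, Q.1 y = Q'.1 y → y ≠ Q.1 x ∧ y ≠ Q'.1 x := by
        intro y hy
        constructor
        · rintro rfl
          apply hx
          rw [Q.2.1] at hy
          have := congrArg Q'.1 hy
          rw [Q'.2.1] at this
          exact this.symm
        · rintro rfl
          apply hx
          rw [Q'.2.1] at hy
          have := congrArg Q.1 hy
          rw [Q.2.1] at this
          exact this.symm
      have hkeep : ∀ y, Q.1 y = Q'.1 y → (tr g Q).1 y = Q'.1 y := by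
        intro y hy
        have h1 := hagree y hy
        have h2 := hagree (Q.1 y) (by rw [Q.2.1]; rw [hy, Q'.2.1])
        rw [hap, Equiv.swap_apply_of_ne_of_ne h1.1 h1.2,
          Equiv.swap_apply_of_ne_of_ne h2.1 h2.2, hy]
      have hlt : (univ.filter (fun y => (tr g Q).1 y ≠ Q'.1 y)).card < n := by
        rw [← hn]
        apply Finset.card_lt_card
        rw [Finset.ssubset_iff_of_subset]
        · refine ⟨x, ?_, ?_⟩
          · rw [Finset.mem_filter]
            exact ⟨Finset.mem_univ _, hx⟩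
          · rw [Finset.mem_filter]
            exact fun h1 => h1.2 hx1
        · intro y hy
          rw [Finset.mem_filter] at hy ⊢
          exact ⟨hy.1, fun h1 => hy.2 (hkeep y h1)⟩
      obtain ⟨g', hg'W, hg'⟩ := ih _ hlt (tr g Q) rfl (sameTr_tr W h hgW)
      refine ⟨g.trans g', fun y hy => ?_, ?_⟩
      · rw [Equiv.trans_apply, hgW y hy, hg'W y hy]
      · rw [tr_tr, hg']
    · push Not at hex
      refine ⟨Equiv.refl V, fun _ _ => rfl, ?_⟩
      rw [tr_refl]
      apply Subtype.ext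
      ext x
      exact hex x

end TransAux

theorem exists_cj (W : Finset V) (Q Q' : PM V) (h : SameTr W Q Q') :
    ∃ g : Equiv.Perm V, (∀ x ∈ W, g x = x) ∧ tr g Q = Q' :=
  TransAux.aux W Q' _ Q rfl h

open Classical in
theorem trace_sum (W : Finset V) (M f : PM V → ℝ)
    (hM : ∀ g : Equiv.Perm V, (∀ x ∈ W, g x = x) → ∀ Q, M (tr g Q) = M Q) :
    ∑ Q, M Q * f Q = ∑ Q, M Q * ((∑ Q' : PM V, if SameTr W Q Q' then f Q' else 0) /
      (∑ Q' : PM V, if SameTr W Q Q' then (1 : ℝ) else 0)) := by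
  set c : PM V → ℝ := fun Q => ∑ Q' : PM V, if SameTr W Q Q' then (1 : ℝ) else 0 with hc
  have hsymm : ∀ Q Q' : PM V, SameTr W Q Q' ↔ SameTr W Q' Q := fun Q Q' =>
    ⟨fun h x hx y hy => (h x hx y hy).symm, fun h x hx y hy => (h x hx y hy).symm⟩
  have htrans : ∀ Q Q' Q'' : PM V, SameTr W Q Q' → (SameTr W Q Q'' ↔ SameTr W Q' Q'') :=
    fun Q Q' Q'' h => ⟨fun h1 x hx y hy => (h x hx y hy).symm.trans (h1 x hx y hy),
      fun h1 x hx y hy => (h x hx y hy).trans (h1 x hx y hy)⟩
  have hMc : ∀ Q Q' : PM V, SameTr W Q Q' → M Q = M Q' := by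
    intro Q Q' h
    obtain ⟨g, hg, rfl⟩ := exists_cj W Q Q' h
    exact (hM g hg Q).symm
  have hcc : ∀ Q Q' : PM V, SameTr W Q Q' → c Q = c Q' := by
    intro Q Q' h
    simp only [hc]
    refine Finset.sum_congr rfl (fun Q'' _ => ?_)
    rw [if_congr (htrans Q Q' Q'' h) rfl rfl]
  have hcpos : ∀ Q, 0 < c Q := by
    intro Q
    simp only [hc]
    apply Finset.sum_pos'
    · intro Q' _
      split_ifs <;> norm_num
    · refine ⟨Q, Finset.mem_univ _, ?_⟩
      have hrefl : SameTr W Q Q := fun x _ y _ => Iff.rfl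
      rw [if_pos hrefl]
      norm_num
  have h1 : ∀ Q, M Q * ((∑ Q' : PM V, if SameTr W Q Q' then f Q' else 0) / c Q) =
      ∑ Q' : PM V, if SameTr W Q Q' then M Q' * f Q' / c Q' else 0 := by
    intro Q
    rw [Finset.sum_div, Finset.mul_sum]
    refine Finset.sum_congr rfl (fun Q' _ => ?_)
    split_ifs with h
    · rw [hMc Q Q' h, hcc Q Q' h]
      ring
    · ring
  rw [Finset.sum_congr rfl (fun Q _ => h1 Q), Finset.sum_comm]
  refine Finset.sum_congr rfl (fun Q _ => ?_)
  have h2 : ∑ Q' : PM V, (if SameTr W Q' Q then M Q * f Q / c Q else 0) =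
      (M Q * f Q / c Q) * c Q := by
    simp only [hc]
    rw [Finset.mul_sum]
    refine Finset.sum_congr rfl (fun Q' _ => ?_)
    rw [if_congr (hsymm Q' Q) rfl rfl]
    split_ifs <;> simp
  rw [h2, div_mul_cancel₀ _ (hcpos Q).ne']

end Pool.Agent.Helper23.MS
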