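import Pool.Agent.Helper23.MS.Basic
import Pool.Agent.Helper23.MS.Count
import Pool.Agent.Helper23.MS.Indep
import Pool.Agent.Helper23.MS.Trans
import Pool.Agent.Helper23.MS.TraceEq

/-! # MS-6a: functions of low level form an invariant submodule -/

open scoped BigOperators Nat
open Finset

namespace Pool.Agent.Helper23.MS

variable {V : Type} [Fintype V] [DecidableEq V]

/-- The submodule of the functions of level at most `u`. -/
def lowSub (V : Type) [Fintype V] [DecidableEq V] (u : ℕ) : Submodule ℝ (PM V → ℝ) where
  carrier := {f | Low u f}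
  add_mem' := by
    intro f g hf hg q hq h
    have h1 := hf q hq h
    have h2 := hg q hq h
    have : D (f + g) q = D f q + D g q := by
      unfold D
      rw [← Finset.sum_add_distrib]
      refine Finset.sum_congr rfl fun P _ => ?_
      split_ifs <;> simp
    rw [this, h1, h2, add_zero]
  zero_mem' := by
    intro q _ _
    simp [D]
  smul_mem' := by
    intro c f hf q hq h
    have h1 := hf q hq h
    have : D (c • f) q = c * D f q := by
      unfold D
      rw [Finset.mul_sum]
      refine Finset.sum_congr rfl fun P _ => ?_
      split_ifs <;> simp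
    rw [this, h1, mul_zero]

theorem mem_lowSub (u : ℕ) (f : PM V → ℝ) : f ∈ lowSub V u ↔ Low u f := Iff.rfl

/-- invariant kernels preserve the level -/
theorem Low_app (k : PM V → PM V → ℝ) (hk : Inv k) (u : ℕ) (f : PM V → ℝ)
    (hf : Low u f) : Low u (app k f) := by
  classical
  intro q hq hqu
  have e1 : D (app k f) q = ∑ Q, (∑ P, if Ext q P then k P Q else 0) * f Q := by
    unfold D app
    have : ∀ P : PM V, (if Ext q P then ∑ Q, k P Q * f Q else 0) =
        ∑ Q, (if Ext q P then k P Q else 0) * f Q := by
      intro P
      split_ifs <;> simp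
    rw [Finset.sum_congr rfl (fun P _ => this P), Finset.sum_comm]
    refine Finset.sum_congr rfl fun Q _ => ?_
    rw [Finset.sum_mul]
  rw [e1, trace_sum q.support (fun Q => ∑ P, if Ext q P then k P Q else 0) f]
  · refine Finset.sum_eq_zero fun Q _ => ?_
    obtain ⟨q', B, hq', -, -, hdis, hcard, -, hiff⟩ := sameTr_eq q.support Q
    have e2 : (∑ Q' : PM V, if SameTr q.support Q Q' then f Q' else 0) = DI f q' B := by
      unfold DI
      refine Finset.sum_congr rfl fun Q' _ => ?_
      by_cases h : SameTr q.support Q Q'
      · rw [if_pos h, if_pos ((hiff Q').1 h)]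
      · rw [if_neg h, if_neg (fun h' => h ((hiff Q').2 h'))]
    have e3 : DI f q' B = 0 := by
      refine DI_zero f (Fintype.card V - 2 * u) ?_ B q' hq' hdis (by omega)
      intro p hp hpn
      exact hf p hp (by omega)
    rw [e2, e3]
    simp
  · intro g hg Q
    have : ∀ P : PM V, Ext q (tr g P) ↔ Ext q P := by
      intro P
      have hfix : ∀ x, q x ≠ x → g x = x := fun x hx =>
        hg x (Equiv.Perm.mem_support.2 hx)
      have hfix' : ∀ x, q x ≠ x → g.symm x = x := fun x hx => by
        rw [Equiv.symm_apply_eq]; exact (hfix x hx).symm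
      constructor
      · intro h x hx
        have h1 := h x hx
        rw [tr_apply, hfix' x hx] at h1
        have hqx : q (q x) ≠ q x := by
          rw [hq x]; exact fun h => hx h.symm
        have h2 : P.1 x = g.symm (q x) := by
          rw [← h1]; simp
        rw [h2, hfix' _ hqx]
      · intro h x hx
        have hqx : q (q x) ≠ q x := by
          rw [hq x]; exact fun h => hx h.symm
        rw [tr_apply, hfix' x hx, h x hx, hfix _ hqx]
    have h2 := sum_tr g (fun P : PM V => if Ext q P then k P (tr g Q) else 0)
    show (∑ P, if Ext q P then k P (tr g Q) else 0) = ∑ P, if Ext q P then k P Q else 0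
    rw [← h2]
    refine Finset.sum_congr rfl fun P _ => ?_
    by_cases h : Ext q P
    · rw [if_pos h, if_pos ((this P).2 h), hk]
    · rw [if_neg h, if_neg (fun h' => h ((this P).1 h'))]

end Pool.Agent.Helper23.MS
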