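import Pool.Agent.Helper23.MS.Glue
import Pool.Agent.Helper23.MS.Wt
import Pool.Agent.Helper23.MS.Level

/-! # MS-17: the peeling lemma -/

open scoped BigOperators Nat
open Finset

namespace Pool.Agent.Helper23.MS

private theorem peel_inner {X : Type} [Fintype X] (k : X → X → ℝ) (r : ℝ)
    (hrow : ∀ P, ∑ Q, k P Q = r) (hsym : ∀ P Q, k P Q = k Q P) (g h : X → ℝ) (c d : ℝ)
    (hg : ∑ P, g P = 0) (hh : ∑ P, h P = 0) :
    ∑ P, ∑ Q, k P Q * ((c + g P) * (d + h Q)) =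
      (Fintype.card X : ℝ) * r * (c * d) + ∑ P, ∑ Q, k P Q * (g P * h Q) := by
  have e1 : ∀ P Q, k P Q * ((c + g P) * (d + h Q)) =
      c * d * k P Q + c * (k P Q * h Q) + d * (g P * k P Q) + k P Q * (g P * h Q) := by
    intro P Q; ring
  simp only [e1, Finset.sum_add_distrib]
  have h1 : ∑ P, ∑ Q, c * d * k P Q = (Fintype.card X : ℝ) * r * (c * d) := by
    simp only [← Finset.mul_sum, hrow, Finset.sum_const, Finset.card_univ, nsmul_eq_mul]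
    ring
  have h2 : ∑ P, ∑ Q, c * (k P Q * h Q) = 0 := by
    rw [Finset.sum_comm]
    have : ∀ Q, ∑ P, c * (k P Q * h Q) = c * r * h Q := by
      intro Q
      rw [← Finset.mul_sum, ← Finset.sum_mul]
      have : ∑ P, k P Q = r := by
        rw [← hrow Q]; exact Finset.sum_congr rfl fun P _ => hsym P Q
      rw [this]; ring
    simp only [this, ← Finset.mul_sum, hh, mul_zero]
  have h3 : ∑ P, ∑ Q, d * (g P * k P Q) = 0 := by
    have : ∀ P, ∑ Q, d * (g P * k P Q) = d * r * g P := by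
      intro P
      rw [← Finset.mul_sum, ← Finset.mul_sum, hrow]; ring
    simp only [this, ← Finset.mul_sum, hg, mul_zero]
  rw [h1, h2, h3]; ring

private theorem peel_cs {X Y : Type} [Fintype X] [Fintype Y] (u v : X → Y → ℝ) :
    (∑ x, ∑ y, u x y * v x y) ^ 2 ≤ (∑ x, ∑ y, u x y ^ 2) * ∑ x, ∑ y, v x y ^ 2 := by
  have h := Finset.sum_mul_sq_le_sq_mul_sq (Finset.univ : Finset (X × Y))
    (fun p => u p.1 p.2) (fun p => v p.1 p.2)
  simpa only [Fintype.sum_prod_type] using h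

private theorem peel_swap {X Y : Type} [Fintype X] [Fintype Y] (G : X → X → Y → Y → ℝ) :
    ∑ P1, ∑ Q1, ∑ P2, ∑ Q2, G P1 Q1 P2 Q2 = ∑ P2, ∑ Q2, ∑ P1, ∑ Q1, G P1 Q1 P2 Q2 := by
  have h1 : ∀ P1, ∑ Q1, ∑ P2, ∑ Q2, G P1 Q1 P2 Q2 = ∑ P2, ∑ Q2, ∑ Q1, G P1 Q1 P2 Q2 := by
    intro P1
    rw [Finset.sum_comm]
    refine Finset.sum_congr rfl fun P2 _ => ?_
    rw [Finset.sum_comm]
  simp only [h1]
  rw [Finset.sum_comm]
  refine Finset.sum_congr rfl fun P2 _ => ?_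
  rw [Finset.sum_comm]

private theorem tensor_bound {X Y : Type} [Fintype X] [Fintype Y] (k1 : X → X → ℝ)
    (k2 : Y → Y → ℝ) (r1 r2 x1 x2 : ℝ) (F : X → Y → ℝ) (hX : 0 < Fintype.card X)
    (hrow : ∀ P, ∑ Q, k1 P Q = r1) (hsym : ∀ P Q, k1 P Q = k1 Q P)
    (hr1 : 0 ≤ r1) (hr2 : 0 ≤ r2) (hx1 : 0 ≤ x1) (hx2 : 0 ≤ x2)
    (h1 : ∀ g : X → ℝ, ∑ P, g P = 0 → nrm (app k1 g) ≤ (x1 * r1) ^ 2 * nrm g)
    (U : Submodule ℝ (Y → ℝ)) (hF : ∀ P, F P ∈ U)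
    (h2 : ∀ g ∈ U, nrm (app k2 g) ≤ (x2 * r2) ^ 2 * nrm g)
    (h3 : ∀ g ∈ U, |quad k2 g| ≤ x2 * r2 * nrm g) :
    |∑ P1, ∑ Q1, ∑ P2, ∑ Q2, k1 P1 Q1 * k2 P2 Q2 * (F P1 P2 * F Q1 Q2)| ≤
      r1 * r2 * x2 * (x1 * (∑ P1, ∑ P2, F P1 P2 ^ 2) +
        (1 - x1) * ((∑ P2, (∑ P1, F P1 P2) ^ 2) / (Fintype.card X : ℝ))) := by
  obtain ⟨n, hn⟩ : ∃ n : ℝ, n = (Fintype.card X : ℝ) := ⟨_, rfl⟩
  have hn0 : 0 < n := by rw [hn]; exact_mod_cast hX
  obtain ⟨F0, hF0d⟩ : ∃ F0 : Y → ℝ, ∀ P2, F0 P2 = (∑ P1, F P1 P2) / n := ⟨_, fun _ => rfl⟩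
  obtain ⟨F1, hF1d⟩ : ∃ F1 : X → Y → ℝ, ∀ P1, F1 P1 = F P1 - F0 := ⟨_, fun _ => rfl⟩
  have hF1e : ∀ P1 P2, F P1 P2 = F0 P2 + F1 P1 P2 := by
    intro P1 P2; rw [hF1d]; simp
  have hF0 : F0 ∈ U := by
    have : F0 = (1 / n) • ∑ P1, F P1 := by
      funext P2
      rw [hF0d, Pi.smul_apply, Finset.sum_apply, smul_eq_mul]; ring
    rw [this]
    exact U.smul_mem _ (U.sum_mem fun P _ => hF P)
  have hF1 : ∀ P, F1 P ∈ U := fun P => by rw [hF1d]; exact U.sub_mem (hF P) hF0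
  have hsum : ∀ P2, ∑ P1, F P1 P2 = n * F0 P2 := by
    intro P2; rw [hF0d]; field_simp
  have hz : ∀ P2, ∑ P1, F1 P1 P2 = 0 := by
    intro P2
    have h := hsum P2
    simp only [hF1e, Finset.sum_add_distrib, Finset.sum_const, Finset.card_univ,
      nsmul_eq_mul] at h
    rw [← hn] at h
    linarith
  -- decomposition of the form
  have hdec : ∑ P1, ∑ Q1, ∑ P2, ∑ Q2, k1 P1 Q1 * k2 P2 Q2 * (F P1 P2 * F Q1 Q2) =
      n * r1 * quad k2 F0 +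
        ∑ P1, ∑ Q1, ∑ P2, ∑ Q2, k1 P1 Q1 * k2 P2 Q2 * (F1 P1 P2 * F1 Q1 Q2) := by
    rw [peel_swap (fun P1 Q1 P2 Q2 => k1 P1 Q1 * k2 P2 Q2 * (F P1 P2 * F Q1 Q2)),
      peel_swap (fun P1 Q1 P2 Q2 => k1 P1 Q1 * k2 P2 Q2 * (F1 P1 P2 * F1 Q1 Q2))]
    have h4 : ∀ P2 Q2, ∑ P1, ∑ Q1, k1 P1 Q1 * k2 P2 Q2 * (F P1 P2 * F Q1 Q2) =
        n * r1 * (k2 P2 Q2 * F0 P2 * F0 Q2) +
          ∑ P1, ∑ Q1, k1 P1 Q1 * k2 P2 Q2 * (F1 P1 P2 * F1 Q1 Q2) := by
      intro P2 Q2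
      have h5 := peel_inner k1 r1 hrow hsym (fun P => F1 P P2) (fun P => F1 P Q2) (F0 P2) (F0 Q2)
        (hz P2) (hz Q2)
      have h6 : ∀ G : X → X → ℝ, ∑ P1, ∑ Q1, k1 P1 Q1 * k2 P2 Q2 * G P1 Q1 =
          k2 P2 Q2 * ∑ P1, ∑ Q1, k1 P1 Q1 * G P1 Q1 := by
        intro G
        rw [Finset.mul_sum]
        refine Finset.sum_congr rfl fun P _ => ?_
        rw [Finset.mul_sum]
        refine Finset.sum_congr rfl fun Q _ => ?_
        ring
      rw [h6, h6]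
      simp only [hF1e]
      rw [h5, ← hn]
      ring
    simp only [h4, Finset.sum_add_distrib]
    congr 1
    unfold quad
    rw [Finset.mul_sum]
    refine Finset.sum_congr rfl fun P _ => ?_
    rw [Finset.mul_sum]
  -- the second part
  have hT : (∑ P1, ∑ Q1, ∑ P2, ∑ Q2, k1 P1 Q1 * k2 P2 Q2 * (F1 P1 P2 * F1 Q1 Q2)) =
      ∑ Q1, ∑ P2, app k1 (fun P1 => F1 P1 P2) Q1 * app k2 (F1 Q1) P2 := by
    rw [Finset.sum_comm]
    refine Finset.sum_congr rfl fun Q1 _ => ?_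
    rw [Finset.sum_comm]
    refine Finset.sum_congr rfl fun P2 _ => ?_
    unfold app
    rw [Finset.sum_mul_sum]
    refine Finset.sum_congr rfl fun P1 _ => ?_
    refine Finset.sum_congr rfl fun Q2 _ => ?_
    rw [hsym P1 Q1]; ring
  obtain ⟨M, hM⟩ : ∃ M : ℝ, M = ∑ P1, ∑ P2, F1 P1 P2 ^ 2 := ⟨_, rfl⟩
  have hM0 : 0 ≤ M := by
    rw [hM]
    exact Finset.sum_nonneg fun _ _ => Finset.sum_nonneg fun _ _ => sq_nonneg _
  have hA : ∑ Q1, ∑ P2, app k1 (fun P1 => F1 P1 P2) Q1 ^ 2 ≤ (x1 * r1) ^ 2 * M := by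
    rw [Finset.sum_comm, hM, Finset.sum_comm (f := fun P1 P2 => F1 P1 P2 ^ 2), Finset.mul_sum]
    exact Finset.sum_le_sum fun P2 _ => h1 (fun P1 => F1 P1 P2) (hz P2)
  have hB : ∑ Q1, ∑ P2, app k2 (F1 Q1) P2 ^ 2 ≤ (x2 * r2) ^ 2 * M := by
    rw [hM, Finset.mul_sum]
    exact Finset.sum_le_sum fun Q1 _ => h2 (F1 Q1) (hF1 Q1)
  have hT2 : |∑ P1, ∑ Q1, ∑ P2, ∑ Q2, k1 P1 Q1 * k2 P2 Q2 * (F1 P1 P2 * F1 Q1 Q2)| ≤
      x1 * r1 * (x2 * r2) * M := by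
    rw [hT]
    refine abs_le_of_sq_le_sq ?_ (by positivity)
    refine (peel_cs (fun Q1 P2 => app k1 (fun P1 => F1 P1 P2) Q1)
      (fun Q1 P2 => app k2 (F1 Q1) P2)).trans ?_
    calc _ ≤ ((x1 * r1) ^ 2 * M) * ((x2 * r2) ^ 2 * M) :=
          mul_le_mul hA hB (Finset.sum_nonneg fun _ _ => Finset.sum_nonneg fun _ _ => sq_nonneg _)
            (by positivity)
      _ = (x1 * r1 * (x2 * r2) * M) ^ 2 := by ring
  -- the first part
  have hS : |n * r1 * quad k2 F0| ≤ n * r1 * (x2 * r2 * nrm F0) := by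
    rw [abs_mul, abs_of_nonneg (by positivity : 0 ≤ n * r1)]
    exact mul_le_mul_of_nonneg_left (h3 F0 hF0) (by positivity)
  -- Pythagoras
  have hpy : ∑ P1, ∑ P2, F P1 P2 ^ 2 = n * nrm F0 + M := by
    rw [hM, Finset.sum_comm, Finset.sum_comm (f := fun P1 P2 => F1 P1 P2 ^ 2)]
    unfold nrm
    rw [Finset.mul_sum, ← Finset.sum_add_distrib]
    refine Finset.sum_congr rfl fun P2 _ => ?_
    have e1 : ∀ P1, F P1 P2 ^ 2 = F0 P2 ^ 2 + 2 * F0 P2 * F1 P1 P2 + F1 P1 P2 ^ 2 := by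
      intro P1; rw [hF1e]; ring
    simp only [e1, Finset.sum_add_distrib, ← Finset.mul_sum, hz, Finset.sum_const,
      Finset.card_univ, nsmul_eq_mul]
    rw [← hn]; ring
  have hw : (∑ P2, (∑ P1, F P1 P2) ^ 2) / (Fintype.card X : ℝ) = n * nrm F0 := by
    rw [← hn]
    simp only [hsum]
    unfold nrm
    rw [Finset.mul_sum, Finset.sum_div]
    refine Finset.sum_congr rfl fun P2 _ => ?_
    field_simp
  rw [hw, hpy, hdec]
  refine (abs_add_le _ _).trans ?_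
  refine (add_le_add hS hT2).trans (le_of_eq ?_)
  ring

private noncomputable def rr (V : Type) [Fintype V] [DecidableEq V] (ν : Multiset ℕ) : ℝ :=
  rsum (kern (V := V) ν)

private theorem rr_eq (V W : Type) [Fintype V] [DecidableEq V] [Fintype W] [DecidableEq W]
    (ν : Multiset ℕ) (h : Fintype.card V = Fintype.card W) : rsum (kern (V := V) ν) = rr W ν :=
  rsum_kern_congr ν h

private theorem rr_nonneg (V : Type) [Fintype V] [DecidableEq V] (ν : Multiset ℕ) : 0 ≤ rr V ν :=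
  rsum_kern_nonneg ν

theorem peel (ν1 ν2 : Multiset ℕ) (u : ℕ) (x1 x2 q : ℝ) (ha : 1 ≤ ν1.sum)
    (hu : u < ν2.sum) (hx1 : 0 ≤ x1) (hx1' : x1 ≤ 1) (hx2 : 0 ≤ x2)
    (h1 : QB ν1 (ν1.sum - 1) x1) (h2 : QB ν2 u x2)
    (hq : WB ν1.sum u q (ν1.sum + ν2.sum)) :
    QB (ν1 + ν2) u (x2 * (q + (1 - q) * x1)) := by
  classical
  intro V _ _ hV f hf
  rw [Multiset.sum_add] at hV
  obtain ⟨a, ha'⟩ : ∃ a, a = ν1.sum := ⟨_, rfl⟩
  obtain ⟨b, hb'⟩ : ∃ b, b = ν2.sum := ⟨_, rfl⟩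
  rw [← ha', ← hb'] at hV hq
  rw [← ha'] at ha h1
  obtain ⟨r1, hr1⟩ : ∃ r, r = rr (Fin (2 * a)) ν1 := ⟨_, rfl⟩
  obtain ⟨r2, hr2⟩ : ∃ r, r = rr (Fin (2 * b)) ν2 := ⟨_, rfl⟩
  have hr10 : 0 ≤ r1 := by rw [hr1]; exact rr_nonneg _ ν1
  have hr20 : 0 ≤ r2 := by rw [hr2]; exact rr_nonneg _ ν2
  obtain ⟨m, hm⟩ : ∃ m : ℝ, m = (((ν1 + ν2).powerset.count ν1 : ℕ) : ℝ) := ⟨_, rfl⟩
  have hm0 : 0 < m := by rw [hm]; exact_mod_cast count_powerset_pos ν1 ν2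
  obtain ⟨T, hTd⟩ : ∃ T, T = univ.filter (fun S : Finset V => S.card = 2 * a) := ⟨_, rfl⟩
  have hSin : ∀ S ∈ T, Fintype.card {x // x ∈ S} = 2 * a := by
    intro S hS
    rw [hTd, Finset.mem_filter] at hS
    rw [card_in]; exact hS.2
  have hSout : ∀ S ∈ T, Fintype.card {x // x ∉ S} = 2 * b := by
    intro S hS
    rw [hTd, Finset.mem_filter] at hS
    have := card_out S
    omega
  have hR1 : ∀ S ∈ T, rsum (kern (V := {x // x ∈ S}) ν1) = r1 := by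
    intro S hS
    rw [hr1]
    refine rr_eq _ _ ν1 ?_
    rw [hSin S hS, Fintype.card_fin]
  have hR2 : ∀ S ∈ T, rsum (kern (V := {x // x ∉ S}) ν2) = r2 := by
    intro S hS
    rw [hr2]
    refine rr_eq _ _ ν2 ?_
    rw [hSout S hS, Fintype.card_fin]
  -- sums over closed pairs
  have hcl : ∀ G : PM V → ℝ, ∑ S ∈ T, ∑ P1 : PM {x // x ∈ S}, ∑ P2 : PM {x // x ∉ S},
      G (glue S P1 P2) = ((a + b).choose a : ℝ) * ∑ P, G P := by
    intro G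
    have e1 : ∀ S ∈ T, ∑ P1 : PM {x // x ∈ S}, ∑ P2 : PM {x // x ∉ S}, G (glue S P1 P2) =
        ∑ P : PM V, if Cl P S then G P else 0 := fun S _ => (sum_closed S G).symm
    rw [Finset.sum_congr rfl e1, Finset.sum_comm, Finset.mul_sum]
    refine Finset.sum_congr rfl fun P _ => ?_
    rw [← Finset.sum_filter, Finset.sum_const, nsmul_eq_mul]
    congr 2
    rw [hTd, Finset.filter_filter]
    exact card_closed (a + b) hV P a
  -- the constant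
  have hPM : (0 : ℝ) < (Fintype.card (PM V) : ℝ) := by
    exact_mod_cast card_PM_pos (a + b) hV
  have hconst : m * rsum (kern (V := V) (ν1 + ν2)) = ((a + b).choose a : ℝ) * (r1 * r2) := by
    have e1 := gluing (V := V) ν1 ν2 (fun _ _ => 1)
    simp only [mul_one] at e1
    rw [← hm, ← ha', ← hTd] at e1
    have e2 : ∀ S ∈ T, (∑ P1 : PM {x // x ∈ S}, ∑ Q1 : PM {x // x ∈ S},
          ∑ P2 : PM {x // x ∉ S}, ∑ Q2 : PM {x // x ∉ S}, kern ν1 P1 Q1 * kern ν2 P2 Q2) =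
        ∑ P1 : PM {x // x ∈ S}, ∑ P2 : PM {x // x ∉ S}, r1 * r2 := by
      intro S hS
      refine Finset.sum_congr rfl fun P1 _ => ?_
      rw [Finset.sum_comm]
      refine Finset.sum_congr rfl fun P2 _ => ?_
      rw [← Finset.sum_mul_sum, row_const _ (kern_Inv ν1), row_const _ (kern_Inv ν2),
        hR1 S hS, hR2 S hS]
    rw [Finset.sum_congr rfl e2, hcl (fun _ => r1 * r2)] at e1
    simp only [Finset.sum_const, Finset.card_univ, nsmul_eq_mul] at e1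
    have e3 : rsum (kern (V := V) (ν1 + ν2)) * (Fintype.card (PM V) : ℝ) =
        ∑ P : PM V, ∑ Q : PM V, kern (ν1 + ν2) P Q := by
      unfold rsum
      field_simp
    rw [← e3] at e1
    have e4 : (Fintype.card (PM V) : ℝ) * (m * rsum (kern (V := V) (ν1 + ν2))) =
        (Fintype.card (PM V) : ℝ) * (((a + b).choose a : ℝ) * (r1 * r2)) := by linarith
    exact mul_left_cancel₀ hPM.ne' e4
  -- the form
  have hform : m * quad (kern (ν1 + ν2)) f = ∑ S ∈ T,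
      ∑ P1 : PM {x // x ∈ S}, ∑ Q1 : PM {x // x ∈ S},
        ∑ P2 : PM {x // x ∉ S}, ∑ Q2 : PM {x // x ∉ S},
          kern ν1 P1 Q1 * kern ν2 P2 Q2 * (f (glue S P1 P2) * f (glue S Q1 Q2)) := by
    have e1 := gluing (V := V) ν1 ν2 (fun P Q => f P * f Q)
    rw [← hm, ← ha', ← hTd] at e1
    rw [← e1]
    unfold quad
    congr 1
    refine Finset.sum_congr rfl fun P _ => ?_
    refine Finset.sum_congr rfl fun Q _ => ?_
    ring
  have hNB1 := QB_to_NB ν1 (a - 1) x1 h1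
  have hNB2 := QB_to_NB ν2 u x2 h2
  have hbound : ∀ S ∈ T, |∑ P1 : PM {x // x ∈ S}, ∑ Q1 : PM {x // x ∈ S},
        ∑ P2 : PM {x // x ∉ S}, ∑ Q2 : PM {x // x ∉ S},
          kern ν1 P1 Q1 * kern ν2 P2 Q2 * (f (glue S P1 P2) * f (glue S Q1 Q2))| ≤
      r1 * r2 * x2 * (x1 * (∑ P1 : PM {x // x ∈ S}, ∑ P2 : PM {x // x ∉ S},
          f (glue S P1 P2) ^ 2) +
        (1 - x1) * ((∑ P2 : PM {x // x ∉ S}, (∑ P1 : PM {x // x ∈ S}, f (glue S P1 P2)) ^ 2) /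
          (Fintype.card (PM {x // x ∈ S}) : ℝ))) := by
    intro S hS
    refine tensor_bound (kern ν1) (kern ν2) r1 r2 x1 x2
      (fun (P1 : PM {x // x ∈ S}) (P2 : PM {x // x ∉ S}) => f (glue S P1 P2))
      (card_PM_pos a (hSin S hS)) ?_ (kern_symm ν1) hr10 hr20 hx1 hx2 ?_
      (lowSub {x // x ∉ S} u) ?_ ?_ ?_
    · intro P
      rw [row_const _ (kern_Inv ν1), hR1 S hS]
    · intro g hg
      have := hNB1 {x // x ∈ S} (by rw [hSin S hS, ha']) g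
        ((Low_top a ha (hSin S hS) g).2 hg)
      rw [hR1 S hS] at this
      exact this
    · intro P
      exact Low_glue u f hf S P
    · intro g hg
      have := hNB2 {x // x ∉ S} (by rw [hSout S hS, hb']) g hg
      rw [hR2 S hS] at this
      exact this
    · intro g hg
      have := h2 {x // x ∉ S} (by rw [hSout S hS, hb']) g hg
      rw [hR2 S hS] at this
      exact this
  have hsumb : m * |quad (kern (ν1 + ν2)) f| ≤
      r1 * r2 * x2 * (x1 * (((a + b).choose a : ℝ) * nrm f) + (1 - x1) * Wt a f) := by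
    have e1 : m * |quad (kern (ν1 + ν2)) f| = |m * quad (kern (ν1 + ν2)) f| := by
      rw [abs_mul, abs_of_pos hm0]
    rw [e1, hform]
    refine (Finset.abs_sum_le_sum_abs _ _).trans ?_
    refine (Finset.sum_le_sum hbound).trans (le_of_eq ?_)
    rw [← Finset.mul_sum, Finset.sum_add_distrib, ← Finset.mul_sum, ← Finset.mul_sum,
      hcl (fun P => f P ^ 2), Wt_glue a f, ← hTd]
    rfl
  have hWt := hq V hV f hf
  have hn0 : 0 ≤ nrm f := Finset.sum_nonneg fun _ _ => sq_nonneg _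
  have hx10 : 0 ≤ 1 - x1 := by linarith
  have hfin : m * |quad (kern (ν1 + ν2)) f| ≤
      m * (x2 * (q + (1 - q) * x1) * rsum (kern (V := V) (ν1 + ν2)) * nrm f) := by
    refine hsumb.trans ?_
    have e2 : r1 * r2 * x2 * (x1 * (((a + b).choose a : ℝ) * nrm f) + (1 - x1) * Wt a f) ≤
        r1 * r2 * x2 * (x1 * (((a + b).choose a : ℝ) * nrm f) +
          (1 - x1) * (q * ((a + b).choose a : ℝ) * nrm f)) := by
      refine mul_le_mul_of_nonneg_left ?_ (by positivity)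
      have := mul_le_mul_of_nonneg_left hWt hx10
      linarith
    refine e2.trans (le_of_eq ?_)
    calc _ = x2 * (q + (1 - q) * x1) * (((a + b).choose a : ℝ) * (r1 * r2)) * nrm f := by ring
      _ = _ := by rw [← hconst]; ring
  exact le_of_mul_le_mul_left hfin hm0

end Pool.Agent.Helper23.MS
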