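import Pool.Agent.Helper23.MS.DLemma
import Pool.Agent.Helper23.MS.Closed
import Pool.Agent.Helper23.MS.Out
import Pool.Agent.Helper23.MS.Phi

/-! # MS-19: the bounds of the D-lemma for the classes without parts one -/

open scoped BigOperators Nat
open Finset

namespace Pool.Agent.Helper23.MS

variable {V : Type} [Fintype V] [DecidableEq V]

namespace Rl

open Classical in
/-- the `P`-closed sets with `2 t` vertices -/
noncomputable def Om (P : PM V) (t : ℕ) : Finset (Finset V) :=
  univ.filter (fun W : Finset V => W.card = 2 * t ∧ Cl P W)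

open Classical in
theorem mem_Om (P : PM V) (t : ℕ) (W : Finset V) : W ∈ Om P t ↔ W.card = 2 * t ∧ Cl P W := by
  simp [Om]

open Classical in
theorem card_Om (N : ℕ) (hV : Fintype.card V = 2 * N) (P : PM V) (t : ℕ) :
    (Om P t).card = N.choose t := card_closed N hV P t

open Classical in
theorem card_zero (P Q : PM V) (t : ℕ) :
    ((Om P t).filter (fun W => out Q W = 0)).card = cc (typ P Q) t := by
  rw [← card_both_closed P Q t, Om, Finset.filter_filter]
  congr 1
  refine Finset.filter_congr fun W _ => ?_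
  rw [out_eq_zero, and_assoc]

open Classical in
theorem card_top (u : ℕ) (hV : Fintype.card V = 2 * (u + u)) (P Q : PM V) :
    ((Om P u).filter (fun W => out Q W = 2 * u)).card ≤ 2 ^ (Multiset.card (typ P Q)) := by
  refine le_trans (le_of_eq ?_) (card_alternating (u + u) hV u (by ring) P Q)
  rw [Om, Finset.filter_filter]
  congr 1
  refine Finset.filter_congr fun W _ => ?_
  rw [and_assoc]

theorem typ_of_kern (ν : Multiset ℕ) (P Q : PM V) (h : kern ν P Q ≠ 0) : typ P Q = ν := by
  by_contra hne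
  exact h (by simp [kern, hne])

theorem out_even (P Q : PM V) (t : ℕ) (W : Finset V) (hW : W ∈ Om P t) :
    ∃ m, out Q W = 2 * m ∧ m ≤ t := by
  have hW' := (mem_Om P t W).1 hW
  obtain ⟨m, hm⟩ := even_out Q W (by rw [hW'.1]; exact even_two_mul t)
  refine ⟨m, by omega, ?_⟩
  have h1 : out Q W ≤ W.card := Finset.card_filter_le _ _
  rw [hW'.1] at h1
  omega

open Classical in
theorem sum_phi_le (P Q : PM V) (t u : ℕ) (hu : 1 ≤ u) (hV : Fintype.card V = 2 * (t + u))
    (b : Finset V → ℝ)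
    (hb : ∀ W ∈ Om P t, out Q W ≠ 0 → phi u (out Q W) ≤ 1 / (2 * u) + b W) :
    ∑ W ∈ Om P t, phi u (out Q W) ≤
      (cc (typ P Q) t : ℝ) + (((t + u).choose t : ℝ) - cc (typ P Q) t) / (2 * u) +
        ∑ W ∈ (Om P t).filter (fun W => ¬ out Q W = 0), b W := by
  rw [← Finset.sum_filter_add_sum_filter_not (Om P t) (fun W => out Q W = 0)]
  have h1 : ∑ W ∈ (Om P t).filter (fun W => out Q W = 0), phi u (out Q W) =
      (cc (typ P Q) t : ℝ) := by
    rw [← card_zero, Finset.sum_congr rfl (fun W hW => by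
      rw [(Finset.mem_filter.1 hW).2, phi_zero] : ∀ W ∈ (Om P t).filter
        (fun W => out Q W = 0), phi u (out Q W) = 1)]
    simp
  have hc : (((Om P t).filter (fun W => ¬ out Q W = 0)).card : ℝ) =
      ((t + u).choose t : ℝ) - cc (typ P Q) t := by
    have := Finset.card_filter_add_card_filter_not (s := Om P t) (fun W => out Q W = 0)
    rw [card_zero, card_Om (t + u) hV] at this
    have h3 : ((cc (typ P Q) t : ℕ) : ℝ) +
      (((Om P t).filter (fun W => ¬ out Q W = 0)).card : ℝ) = ((t + u).choose t : ℝ) := by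
      exact_mod_cast this
    linarith
  have h2 : ∑ W ∈ (Om P t).filter (fun W => ¬ out Q W = 0), phi u (out Q W) ≤
      (((t + u).choose t : ℝ) - cc (typ P Q) t) / (2 * u) +
        ∑ W ∈ (Om P t).filter (fun W => ¬ out Q W = 0), b W := by
    refine (Finset.sum_le_sum (fun W hW => hb W (Finset.mem_filter.1 hW).1
      (Finset.mem_filter.1 hW).2)).trans ?_
    rw [Finset.sum_add_distrib, Finset.sum_const, nsmul_eq_mul, hc]
    apply le_of_eq
    ring
  rw [h1]
  linarith

theorem no_common (ν : Multiset ℕ) (h2 : ∀ c ∈ ν, 2 ≤ c) (P Q : PM V) (h : typ P Q = ν) :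
    ∀ x, P.1 x ≠ Q.1 x := by
  intro x hx
  have h1 := typ_count_one P Q
  rw [h, Multiset.count_eq_zero_of_notMem (fun h => by have := h2 1 h; omega)] at h1
  have h3 : (univ.filter (fun x => P.1 x = Q.1 x)).card = 0 := by omega
  rw [Finset.card_eq_zero, Finset.filter_eq_empty_iff] at h3
  exact h3 (Finset.mem_univ x) hx

theorem cc_one (ν : Multiset ℕ) (h2 : ∀ c ∈ ν, 2 ≤ c) : cc ν 1 = 0 := by
  unfold cc
  rw [Multiset.card_eq_zero, Multiset.filter_eq_nil]
  intro s hs h
  rw [Multiset.mem_powerset] at hs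
  rcases Multiset.empty_or_exists_mem s with h0 | ⟨c, hc⟩
  · subst h0; simp at h
  · have h3 := h2 c (Multiset.mem_of_le hs hc)
    have := Multiset.le_sum_of_mem hc
    omega

end Rl

open Rl

theorem EB_mid (ν : Multiset ℕ) (t u : ℕ) (htu : t < u) (hN : ν.sum = t + u) :
    EB ν u ((cc ν t : ℝ) / ((t + u).choose t : ℝ) +
      (1 - (cc ν t : ℝ) / ((t + u).choose t : ℝ)) / (2 * u)) := by
  classical
  intro V _ _ hV f θ hf hlow hex
  rw [hN] at hV
  refine dlemma t u hV (kern ν) (kern_Inv ν) (kern_nonneg ν) _ ?_ f θ hf hlow hex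
  intro P Q hPQ
  have htyp := typ_of_kern ν P Q hPQ
  have h1 := sum_phi_le P Q t u (by omega) hV (fun _ => 0) (by
    intro W hW h0
    obtain ⟨m, hm, hmt⟩ := out_even P Q t W hW
    rw [hm, add_zero]
    exact phi_le u m (by omega) (by omega))
  rw [Finset.sum_const_zero, add_zero, htyp] at h1
  refine h1.trans (le_of_eq ?_)
  have hC : ((t + u).choose t : ℝ) ≠ 0 := by
    have : 0 < (t + u).choose t := Nat.choose_pos (by omega)
    positivity
  have hu : (u : ℝ) ≠ 0 := by
    have : 0 < u := by omega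
    positivity
  field_simp

theorem EB_half (ν : Multiset ℕ) (u : ℕ) (hu : 1 ≤ u) (hN : ν.sum = u + u) :
    EB ν u ((cc ν u : ℝ) / ((u + u).choose u : ℝ) +
      (1 - (cc ν u : ℝ) / ((u + u).choose u : ℝ)) / (2 * u) +
      2 ^ (Multiset.card ν) / 4 ^ u) := by
  classical
  intro V _ _ hV f θ hf hlow hex
  rw [hN] at hV
  refine dlemma u u hV (kern ν) (kern_Inv ν) (kern_nonneg ν) _ ?_ f θ hf hlow hex
  intro P Q hPQ
  have htyp := typ_of_kern ν P Q hPQ
  have hCC : ((2 * u).choose u : ℝ) = ((u + u).choose u : ℝ) := by rw [two_mul]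
  have h1 := sum_phi_le P Q u u hu hV
    (fun W => if out Q W = 2 * u then ((u + u).choose u : ℝ) / 4 ^ u else 0) (by
    intro W hW h0
    obtain ⟨m, hm, hmt⟩ := out_even P Q u W hW
    have hpos : (0:ℝ) ≤ 1 / (2 * u) := by positivity
    by_cases hmu : m = u
    · subst hmu
      rw [if_pos hm, hm, phi_top, hCC]
      linarith
    · rw [if_neg (by omega), add_zero, hm]
      exact phi_le u m (by omega) (by omega))
  rw [htyp] at h1
  have hC : (0:ℝ) < ((u + u).choose u : ℝ) := by
    have : 0 < (u + u).choose u := Nat.choose_pos (by omega)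
    positivity
  have h2 : ∑ W ∈ (Om P u).filter (fun W => ¬ out Q W = 0),
      (if out Q W = 2 * u then ((u + u).choose u : ℝ) / 4 ^ u else 0) ≤
      2 ^ (Multiset.card ν) * (((u + u).choose u : ℝ) / 4 ^ u) := by
    have h3 : ∑ W ∈ (Om P u).filter (fun W => ¬ out Q W = 0),
        (if out Q W = 2 * u then ((u + u).choose u : ℝ) / 4 ^ u else 0) ≤
        ∑ W ∈ Om P u, (if out Q W = 2 * u then ((u + u).choose u : ℝ) / 4 ^ u else 0) := by
      refine Finset.sum_le_sum_of_subset_of_nonneg (Finset.filter_subset _ _) ?_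
      intro W _ _
      split_ifs
      · positivity
      · exact le_rfl
    refine h3.trans ?_
    rw [← Finset.sum_filter, Finset.sum_const, nsmul_eq_mul]
    refine mul_le_mul_of_nonneg_right ?_ (by positivity)
    have := card_top u hV P Q
    rw [htyp] at this
    exact_mod_cast this
  refine (h1.trans (add_le_add le_rfl h2)).trans (le_of_eq ?_)
  have hu : (u : ℝ) ≠ 0 := by
    have : 0 < u := by omega
    positivity
  field_simp

theorem EB_one (ν : Multiset ℕ) (h2 : ∀ c ∈ ν, 2 ≤ c) (u : ℕ) (hu : 1 ≤ u)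
    (hN : ν.sum = u + 1) : EB ν u (1 / (2 * u)) := by
  classical
  intro V _ _ hV f θ hf hlow hex
  rw [hN, add_comm] at hV
  refine dlemma 1 u hV (kern ν) (kern_Inv ν) (kern_nonneg ν) _ ?_ f θ hf hlow hex
  intro P Q hPQ
  have htyp := typ_of_kern ν P Q hPQ
  have h1 := sum_phi_le P Q 1 u hu hV (fun _ => 0) (by
    intro W hW h0
    obtain ⟨m, hm, hmt⟩ := out_even P Q 1 W hW
    have : m = 1 := by omega
    subst this
    rw [hm, add_zero, mul_one, phi_two u hu])
  rw [Finset.sum_const_zero, add_zero, htyp, cc_one ν h2] at h1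
  refine h1.trans (le_of_eq ?_)
  push_cast
  ring

theorem EB_two (ν : Multiset ℕ) (h2 : ∀ c ∈ ν, 2 ≤ c) (u : ℕ) (hu : 2 ≤ u)
    (hN : ν.sum = u + 2) :
    EB ν u (((cc ν 2 : ℝ) + (u + 2 - 2 * cc ν 2) / (2 * u) +
      (((u + 2).choose 2 : ℝ) - cc ν 2 - (u + 2 - 2 * cc ν 2)) * (3 / (4 * u * (u - 1)))) /
        ((u + 2).choose 2 : ℝ)) := by
  classical
  intro V _ _ hV f θ hf hlow hex
  rw [hN, add_comm] at hV
  refine dlemma 2 u hV (kern ν) (kern_Inv ν) (kern_nonneg ν) _ ?_ f θ hf hlow hex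
  intro P Q hPQ
  have htyp := typ_of_kern ν P Q hPQ
  have hno := no_common ν h2 P Q htyp
  have hso := sum_out_two (2 + u) hV P Q hno
  have e0 : (univ.filter (fun W : Finset V => W.card = 4 ∧ Cl P W)) = Om P 2 := by
    ext W; simp [mem_Om]
  rw [e0] at hso
  have hval : ∀ W ∈ Om P 2, out Q W = 0 ∨ out Q W = 2 ∨ out Q W = 4 := by
    intro W hW
    obtain ⟨m, hm, hmt⟩ := out_even P Q 2 W hW
    interval_cases m <;> omega
  have hzero := card_zero P Q 2
  rw [htyp] at hzero
  have hC := card_Om (2 + u) hV P 2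
  -- the sum
  have hphi : ∀ W ∈ Om P 2, phi u (out Q W) =
      (if out Q W = 0 then 1 else 0) * (1 - 3 / (4 * u * (u - 1)) -
        4 * ((1 / (2 * u) - 3 / (4 * u * (u - 1))) / 2)) +
      (3 / (4 * u * (u - 1)) + ((4 - out Q W : ℕ) : ℝ) *
        ((1 / (2 * u) - 3 / (4 * u * (u - 1))) / 2)) := by
    intro W hW
    rcases hval W hW with h | h | h
    · rw [h, phi_zero]; norm_num
    · rw [h, phi_two u (by omega)]; norm_num; ring
    · rw [h, phi_four u hu]; norm_num
  have hsum : ∑ W ∈ Om P 2, phi u (out Q W) =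
      (cc ν 2 : ℝ) * (1 - 3 / (4 * u * (u - 1)) -
        4 * ((1 / (2 * u) - 3 / (4 * u * (u - 1))) / 2)) +
      (((2 + u).choose 2 : ℝ) * (3 / (4 * u * (u - 1))) +
        (2 * (2 + u : ℝ)) * ((1 / (2 * u) - 3 / (4 * u * (u - 1))) / 2)) := by
    rw [Finset.sum_congr rfl hphi, Finset.sum_add_distrib, ← Finset.sum_mul,
      Finset.sum_add_distrib, ← Finset.sum_mul, Finset.sum_const, nsmul_eq_mul, hC]
    congr 1
    · congr 1
      rw [← hzero, Finset.sum_boole]
    · congr 2
      have : ((∑ W ∈ Om P 2, (4 - out Q W) : ℕ) : ℝ) = ((2 * (2 + u) : ℕ) : ℝ) := by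
        rw [hso]
      push_cast at this
      exact this
  have hC0 : ((2 + u).choose 2 : ℝ) ≠ 0 := by
    have : 0 < (2 + u).choose 2 := Nat.choose_pos (by omega)
    positivity
  have hu0 : (u : ℝ) ≠ 0 := by
    have : 0 < u := by omega
    positivity
  have hu1 : (u : ℝ) - 1 ≠ 0 := by
    have : (2:ℝ) ≤ u := by exact_mod_cast hu
    intro h; linarith
  rw [add_comm u 2]
  refine le_trans (le_of_eq ?_) (le_of_eq (div_mul_cancel₀ _ hC0).symm)
  refine hsum.trans ?_
  field_simp
  ring

end Pool.Agent.Helper23.MS
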