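import Pool.Agent.Helper23.MS.Rules
import Pool.Agent.Helper23.MS.Kd3
import Pool.Agent.Helper23.MS.Glue
import Pool.Agent.Helper23.MS.Peel

/-! # MS-20: the special types `{2}`, `{3}`, `{2,2,2}` -/

open scoped BigOperators Nat
open Finset

namespace Pool.Agent.Helper23.MS

variable {V : Type} [Fintype V] [DecidableEq V]

namespace Special

theorem card_PM_eq (V : Type) [Fintype V] [DecidableEq V] :
    Fintype.card (PM V) = cnt 0 (Fintype.card V) := by
  have h := card_ext (V := V) (1 : Equiv.Perm V) (fun x => rfl) ∅ (by simp)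
  have e : ∀ P : PM V, (Ext (1 : Equiv.Perm V) P ∧ Ind P ∅) ↔ True := fun P =>
    ⟨fun _ => trivial, fun _ => ⟨fun x hx => absurd rfl hx, fun x hx =>
      absurd hx (Finset.notMem_empty x)⟩⟩
  simpa [e] using h

theorem card_PM_four (h : Fintype.card V = 4) : Fintype.card (PM V) = 3 := by
  rw [card_PM_eq, h]; rfl

theorem card_PM_eight (h : Fintype.card V = 8) : Fintype.card (PM V) = 105 := by
  rw [card_PM_eq, h]; rfl

theorem card_PM_twelve (h : Fintype.card V = 12) : Fintype.card (PM V) = 10395 := by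
  rw [card_PM_eq, h]; rfl

theorem ms_zero (s : Multiset ℕ) (h : ∀ c ∈ s, 1 ≤ c) (hs : s.sum = 0) : s = 0 := by
  induction s using Multiset.induction_on with
  | empty => rfl
  | cons a s _ =>
    have := h a (Multiset.mem_cons_self a s)
    rw [Multiset.sum_cons] at hs
    omega

theorem ms_single (s : Multiset ℕ) (h : ∀ c ∈ s, 2 ≤ c) (N : ℕ) (hN : N ≤ 3) (hN1 : 1 ≤ N)
    (hs : s.sum = N) : s = {N} := by
  induction s using Multiset.induction_on with
  | empty => rw [Multiset.sum_zero] at hs; omega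
  | cons a s _ =>
    have ha := h a (Multiset.mem_cons_self a s)
    rw [Multiset.sum_cons] at hs
    have hs0 : s = 0 := by
      refine ms_zero s (fun c hc => (h c (Multiset.mem_cons_of_mem hc)).trans' (by norm_num)) ?_
      by_contra hne
      obtain ⟨b, hb⟩ : ∃ b, b ∈ s := by
        by_contra hcon
        push Not at hcon
        rw [Multiset.eq_zero_of_forall_notMem hcon] at hne
        exact hne rfl
      have hb2 := h b (Multiset.mem_cons_of_mem hb)
      have hb3 := Multiset.single_le_sum (fun x _ => Nat.zero_le x) b hb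
      omega
    subst hs0
    rw [Multiset.sum_zero, add_zero] at hs
    subst hs
    rfl

theorem ms_one_mem (s : Multiset ℕ) (h : ∀ c ∈ s, 1 ≤ c) (hs : s.sum = 2) (h1 : 1 ∈ s) :
    s.count 1 = 2 := by
  obtain ⟨t, rfl⟩ := Multiset.exists_cons_of_mem h1
  rw [Multiset.sum_cons] at hs
  have ht : t.sum = 1 := by omega
  have h1t : 1 ∈ t := by
    induction t using Multiset.induction_on with
    | empty => rw [Multiset.sum_zero] at ht; omega
    | cons b r _ =>
      have hb := h b (Multiset.mem_cons_of_mem (Multiset.mem_cons_self b r))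
      rw [Multiset.sum_cons] at ht
      have : b = 1 := by omega
      subst this
      exact Multiset.mem_cons_self 1 r
  obtain ⟨r, rfl⟩ := Multiset.exists_cons_of_mem h1t
  rw [Multiset.sum_cons] at ht
  have hr : r = 0 := ms_zero r (fun c hc => h c (Multiset.mem_cons_of_mem
    (Multiset.mem_cons_of_mem hc))) (by omega)
  subst hr
  decide

end Special

open Special

theorem kern_two (hV : Fintype.card V = 4) (P Q : PM V) :
    kern {2} P Q = if P = Q then 0 else 1 := by
  have hsum := typ_sum P Q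
  have hpos := typ_pos P Q
  have hcnt := typ_count_one P Q
  have hs : (typ P Q).sum = 2 := by omega
  unfold kern
  by_cases hPQ : P = Q
  · rw [if_pos hPQ, if_neg]
    intro ht
    rw [ht] at hcnt
    subst hPQ
    rw [Finset.filter_true_of_mem (fun x _ => rfl), Finset.card_univ, hV] at hcnt
    simp at hcnt
  · rw [if_neg hPQ, if_pos]
    refine ms_single _ ?_ 2 (by norm_num) (by norm_num) hs
    intro c hc
    have h1 := hpos c hc
    by_contra hlt
    have hc1 : c = 1 := by omega
    subst hc1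
    have h2 := ms_one_mem _ hpos hs hc
    rw [h2] at hcnt
    apply hPQ
    have h3 : (univ.filter (fun x => P.1 x = Q.1 x)) = univ := by
      apply Finset.eq_univ_of_card
      rw [hV]; omega
    apply Subtype.ext
    ext x
    have : x ∈ (univ.filter (fun x => P.1 x = Q.1 x)) := by rw [h3]; exact Finset.mem_univ x
    exact (Finset.mem_filter.mp this).2

theorem kern_three (hV : Fintype.card V = 6) (P Q : PM V) : kern {3} P Q = kd 3 P Q := by
  have hsum := typ_sum P Q
  have hpos := typ_pos P Q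
  have hcnt := typ_count_one P Q
  have hs : (typ P Q).sum = 3 := by omega
  have hsplit := Finset.card_filter_add_card_filter_not (s := (univ : Finset V))
    (fun x => P.1 x = Q.1 x)
  rw [Finset.card_univ, hV, ← hcnt] at hsplit
  unfold kern kd
  by_cases h0 : (typ P Q).count 1 = 0
  · rw [if_pos, if_pos]
    · rw [h0] at hsplit
      simp only [ne_eq]
      omega
    · refine ms_single _ ?_ 3 (by norm_num) (by norm_num) hs
      intro c hc
      have h1 := hpos c hc
      by_contra hlt
      have hc1 : c = 1 := by omega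
      subst hc1
      exact Multiset.count_ne_zero.mpr hc h0
  · rw [if_neg, if_neg]
    · simp only [ne_eq]
      omega
    · intro ht
      rw [ht] at h0
      exact h0 (by decide)

namespace Special

theorem quad_off {X : Type} [Fintype X] [DecidableEq X] (f : X → ℝ) :
    quad (fun x y => if x = y then 0 else 1) f = (∑ x, f x) ^ 2 - nrm f := by
  unfold quad nrm
  have h1 : ∀ x y : X, (if x = y then (0 : ℝ) else 1) * f x * f y =
      f x * f y - (if x = y then f x * f y else 0) := by
    intro x y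
    by_cases h : x = y <;> simp [h]
  simp only [h1, Finset.sum_sub_distrib]
  rw [pow_two, Finset.sum_mul_sum]
  congr 1
  refine Finset.sum_congr rfl fun x _ => ?_
  rw [Finset.sum_ite_eq Finset.univ x, if_pos (Finset.mem_univ x), pow_two]

theorem kern_two_fun (hV : Fintype.card V = 4) :
    kern (V := V) {2} = fun P Q => if P = Q then 0 else 1 := by
  funext P Q
  exact kern_two hV P Q

theorem rsum_two (hV : Fintype.card V = 4) : rsum (kern (V := V) {2}) = 2 := by
  unfold rsum
  have h1 : ∑ P : PM V, ∑ Q : PM V, kern {2} P Q = 6 := by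
    rw [kern_two_fun hV]
    have : ∀ P : PM V, ∑ Q : PM V, (if P = Q then (0 : ℝ) else 1) = 2 := by
      intro P
      have h2 : ∀ Q : PM V, (if P = Q then (0 : ℝ) else 1) = 1 - if P = Q then 1 else 0 := by
        intro Q
        by_cases h : P = Q <;> simp [h]
      simp only [h2, Finset.sum_sub_distrib, Finset.sum_const, Finset.card_univ,
        card_PM_four hV, Finset.sum_ite_eq, Finset.mem_univ, if_true]
      norm_num
    simp only [this, Finset.sum_const, Finset.card_univ, card_PM_four hV]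
    norm_num
  rw [h1, card_PM_four hV]
  norm_num

theorem nrm_nonneg {X : Type} [Fintype X] (f : X → ℝ) : 0 ≤ nrm f :=
  Finset.sum_nonneg fun _ _ => sq_nonneg _

end Special

theorem QB_one_two : QB {2} 1 (1 / 2) := by
  intro V _ _ hV f hf
  have hV4 : Fintype.card V = 4 := by simpa using hV
  have h0 : ∑ P, f P = 0 := (Low_top 2 (by norm_num) (by omega) f).mp hf
  rw [rsum_two hV4, kern_two_fun hV4, quad_off, h0]
  have := nrm_nonneg f
  rw [abs_le]
  constructor <;> nlinarith

theorem QB_one_three : QB {3} 2 (1 / 4) := by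
  intro V _ _ hV f hf
  have hV6 : Fintype.card V = 6 := by simpa using hV
  have h0 : ∑ P, f P = 0 := (Low_top 3 (by norm_num) (by omega) f).mp hf
  have hk : kern (V := V) {3} = kd 3 := by
    funext P Q
    exact kern_three hV6 P Q
  have h1 := kd_three_six hV6 f h0
  have h2 := kd_two_three hV6 f hf
  have h3 := Wt_two 3 hV6 f
  have h4 := Wt_nonneg 2 f
  have h5 := rsum_kd_three (V := V) 3 hV6
  have h6 := nrm_nonneg f
  rw [hk, h5, h1]
  norm_num [Nat.choose] at h3 ⊢
  rw [abs_le]
  constructor <;> nlinarith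

namespace Special

/-- sum over all glued matchings -/
theorem sum_glue_all (N a : ℕ) (hV : Fintype.card V = 2 * N) (G : PM V → ℝ) :
    ∑ S ∈ univ.filter (fun S : Finset V => S.card = 2 * a),
      ∑ P1 : PM {x // x ∈ S}, ∑ P2 : PM {x // x ∉ S}, G (glue S P1 P2) =
      (N.choose a : ℝ) * ∑ P, G P := by
  classical
  have h1 : ∀ S ∈ univ.filter (fun S : Finset V => S.card = 2 * a),
      ∑ P1 : PM {x // x ∈ S}, ∑ P2 : PM {x // x ∉ S}, G (glue S P1 P2) =
      ∑ P : PM V, if Cl P S then G P else 0 := fun S _ => (sum_closed S G).symm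
  rw [Finset.sum_congr rfl h1, Finset.sum_comm, Finset.mul_sum]
  refine Finset.sum_congr rfl fun P _ => ?_
  rw [← Finset.sum_filter, Finset.filter_filter, Finset.sum_const, nsmul_eq_mul]
  congr 2
  exact card_closed N hV P a

theorem sum_swap4 {X Y : Type} [Fintype X] [Fintype Y] (T : X → X → Y → Y → ℝ) :
    ∑ x, ∑ x', ∑ y, ∑ y', T x x' y y' = ∑ y, ∑ y', ∑ x, ∑ x', T x x' y y' := by
  calc ∑ x, ∑ x', ∑ y, ∑ y', T x x' y y' = ∑ x, ∑ y, ∑ x', ∑ y', T x x' y y' :=
        Finset.sum_congr rfl fun x _ => Finset.sum_comm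
    _ = ∑ y, ∑ x, ∑ x', ∑ y', T x x' y y' := Finset.sum_comm
    _ = ∑ y, ∑ x, ∑ y', ∑ x', T x x' y y' :=
        Finset.sum_congr rfl fun y _ => Finset.sum_congr rfl fun x _ => Finset.sum_comm
    _ = ∑ y, ∑ y', ∑ x, ∑ x', T x x' y y' := Finset.sum_congr rfl fun y _ => Finset.sum_comm

/-- the form of a product with the kernel `1 - identity` -/
theorem sum_off {X Y : Type} [Fintype X] [DecidableEq X] [Fintype Y] (B : Y → Y → ℝ)
    (F : X → Y → ℝ) :
    ∑ x, ∑ x', ∑ y, ∑ y', (if x = x' then (0 : ℝ) else 1) * B y y' * (F x y * F x' y') =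
      quad B (fun y => ∑ x, F x y) - ∑ x, quad B (F x) := by
  have h1 : ∀ x x' : X, ∀ y y' : Y, (if x = x' then (0 : ℝ) else 1) * B y y' *
      (F x y * F x' y') = B y y' * F x y * F x' y' -
        (if x = x' then B y y' * F x y * F x' y' else 0) := by
    intro x x' y y'
    by_cases h : x = x'
    · simp [h]
    · simp [h]; ring
  simp only [h1, Finset.sum_sub_distrib]
  congr 1
  · rw [sum_swap4]
    unfold quad
    refine Finset.sum_congr rfl fun y _ => Finset.sum_congr rfl fun y' _ => ?_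
    rw [mul_assoc, Finset.sum_mul_sum, Finset.mul_sum]
    refine Finset.sum_congr rfl fun x _ => ?_
    rw [Finset.mul_sum]
    refine Finset.sum_congr rfl fun x' _ => ?_
    ring
  · refine Finset.sum_congr rfl fun x _ => ?_
    rw [Finset.sum_eq_single x]
    · simp only [if_true]
      rfl
    · intro x' _ hx
      simp [Ne.symm hx]
    · intro h
      exact absurd (Finset.mem_univ x) h

theorem card_off {S : Finset V} {m n : ℕ} (hS : S.card = m) (hV : Fintype.card V = m + n) :
    Fintype.card {x // x ∉ S} = n := by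
  have := card_out S
  omega

/-- the quadratic form, by gluing with the type `{2}` -/
theorem glue_two (ν : Multiset ℕ) (f : PM V → ℝ) :
    (((({2} : Multiset ℕ) + ν).powerset.count {2} : ℕ) : ℝ) * quad (kern ({2} + ν)) f =
      ∑ S ∈ univ.filter (fun S : Finset V => S.card = 2 * 2),
        (quad (kern ν) (fun P2 : PM {x // x ∉ S} => ∑ P1 : PM {x // x ∈ S}, f (glue S P1 P2)) -
          ∑ P1 : PM {x // x ∈ S}, quad (kern ν)
            (fun P2 : PM {x // x ∉ S} => f (glue S P1 P2))) := by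
  have h := gluing (V := V) {2} ν (fun P Q => f P * f Q)
  have hq : quad (kern ({2} + ν)) f = ∑ P : PM V, ∑ Q : PM V, kern ({2} + ν) P Q *
      (f P * f Q) := by
    unfold quad
    simp only [mul_assoc]
  rw [hq, h, Multiset.sum_singleton]
  refine Finset.sum_congr rfl fun S hS => ?_
  rw [Finset.mem_filter] at hS
  have hS4 : Fintype.card {x // x ∈ S} = 4 := by rw [card_in, hS.2]
  rw [← sum_off (kern ν) (fun (P1 : PM {x // x ∈ S}) (P2 : PM {x // x ∉ S}) =>
    f (glue S P1 P2))]
  simp only [kern_two hS4]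

theorem quad_const {X : Type} [Fintype X] (B : X → X → ℝ) (c : ℝ) :
    quad B (fun _ => c) = c ^ 2 * quad B (fun _ => 1) := by
  unfold quad
  rw [Finset.mul_sum]
  refine Finset.sum_congr rfl fun x _ => ?_
  rw [Finset.mul_sum]
  refine Finset.sum_congr rfl fun y _ => ?_
  ring

theorem quad_one {X : Type} [Fintype X] (B : X → X → ℝ) :
    quad B (fun _ => 1) = ∑ x, ∑ y, B x y := by
  unfold quad
  simp

/-- the total number of pairs -/
theorem total_two (M n : ℕ) (hV : Fintype.card V = 4 + M) (hn : (4 + M).choose 4 = n)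
    (ν : Multiset ℕ) (T : ℝ)
    (hT : ∀ (W : Type) [Fintype W] [DecidableEq W], Fintype.card W = M →
      quad (kern (V := W) ν) (fun _ => 1) = T) :
    (((({2} : Multiset ℕ) + ν).powerset.count {2} : ℕ) : ℝ) *
      quad (kern (V := V) ({2} + ν)) (fun _ => 1) = 6 * n * T := by
  rw [glue_two]
  have h1 : ∀ S ∈ univ.filter (fun S : Finset V => S.card = 2 * 2),
      (quad (kern ν) (fun _ : PM {x // x ∉ S} => ∑ _P1 : PM {x // x ∈ S}, (1 : ℝ)) -
          ∑ _P1 : PM {x // x ∈ S}, quad (kern ν)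
            (fun _ : PM {x // x ∉ S} => (1 : ℝ))) = 6 * T := by
    intro S hS
    rw [Finset.mem_filter] at hS
    have hS4 : Fintype.card {x // x ∈ S} = 4 := by rw [card_in, hS.2]
    have hW : Fintype.card {x // x ∉ S} = M := card_off hS.2 hV
    rw [quad_const, hT _ hW]
    simp only [Finset.sum_const, Finset.card_univ, card_PM_four hS4]
    simp only [nsmul_eq_mul]
    norm_num
    ring
  rw [Finset.sum_congr rfl h1, Finset.sum_const, Finset.univ_filter_card_eq,
    Finset.card_powersetCard, Finset.card_univ, hV, nsmul_eq_mul, hn]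
  ring

theorem total_one (hV : Fintype.card V = 4) : quad (kern (V := V) {2}) (fun _ => 1) = 6 := by
  rw [kern_two_fun hV, quad_off]
  unfold nrm
  simp only [Finset.sum_const, Finset.card_univ, card_PM_four hV]
  norm_num

theorem total_two_two (hV : Fintype.card V = 8) :
    quad (kern (V := V) {2, 2}) (fun _ => 1) = 1260 := by
  have h := total_two (V := V) 4 70 hV (by decide) {2} 6 (fun W _ _ hW => total_one hW)
  have e : ((({2} : Multiset ℕ) + {2}).powerset.count {2}) = 2 := by decide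
  have e2 : ({2} : Multiset ℕ) + {2} = {2, 2} := rfl
  rw [e, e2] at h
  push_cast at h
  linarith

theorem total_two_two_two (hV : Fintype.card V = 12) :
    quad (kern (V := V) {2, 2, 2}) (fun _ => 1) = 1247400 := by
  have h := total_two (V := V) 8 495 hV (by decide) {2, 2} 1260 (fun W _ _ hW => total_two_two hW)
  have e : ((({2} : Multiset ℕ) + {2, 2}).powerset.count {2}) = 3 := by decide
  have e2 : ({2} : Multiset ℕ) + {2, 2} = {2, 2, 2} := rfl
  rw [e, e2] at h
  push_cast at h
  linarith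

end Special

theorem rsum_two_two (hV : Fintype.card V = 8) :
    rsum (kern (V := V) {2, 2}) = 12 := by
  unfold rsum
  rw [← quad_one, total_two_two hV, card_PM_eight hV]
  norm_num

theorem rsum_two_two_two (hV : Fintype.card V = 12) :
    rsum (kern (V := V) {2, 2, 2}) = 120 := by
  unfold rsum
  rw [← quad_one, total_two_two_two hV, card_PM_twelve hV]
  norm_num

namespace Special

/-- sum over the glued pairs -/
theorem sum_closed_two (S : Finset V) (G : PM V → PM V → ℝ) :
    (∑ P1 : PM {x // x ∈ S}, ∑ P2 : PM {x // x ∉ S}, ∑ Q1 : PM {x // x ∈ S},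
      ∑ Q2 : PM {x // x ∉ S}, G (glue S P1 P2) (glue S Q1 Q2)) =
      ∑ P : PM V, ∑ Q : PM V, (open Classical in if Cl P S ∧ Cl Q S then G P Q else 0) := by
  classical
  rw [← sum_closed S (fun P => ∑ Q1 : PM {x // x ∈ S}, ∑ Q2 : PM {x // x ∉ S},
    G P (glue S Q1 Q2))]
  refine Finset.sum_congr rfl fun P _ => ?_
  by_cases hP : Cl P S
  · rw [if_pos hP, ← sum_closed S (fun Q => G P Q)]
    refine Finset.sum_congr rfl fun Q _ => ?_
    by_cases hQ : Cl Q S
    · rw [if_pos hQ, if_pos ⟨hP, hQ⟩]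
    · rw [if_neg hQ, if_neg (fun h => hQ h.2)]
  · rw [if_neg hP]
    symm
    refine Finset.sum_eq_zero fun Q _ => ?_
    rw [if_neg (fun h => hP h.1)]

open Classical in
/-- equal outside of `S` -/
def offK (S : Finset V) (P Q : PM V) : ℝ := if ∀ x, x ∉ S → P.1 x = Q.1 x then 1 else 0

open Classical in
/-- equal on `S` -/
def onK (S : Finset V) (P Q : PM V) : ℝ := if ∀ x, x ∈ S → P.1 x = Q.1 x then 1 else 0

theorem offK_glue (S : Finset V) (P1 Q1 : PM {x // x ∈ S}) (P2 Q2 : PM {x // x ∉ S}) :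
    offK S (glue S P1 P2) (glue S Q1 Q2) = if P2 = Q2 then 1 else 0 := by
  unfold offK
  have h : (∀ x, x ∉ S → (glue S P1 P2).1 x = (glue S Q1 Q2).1 x) ↔ P2 = Q2 := by
    constructor
    · intro h
      apply Subtype.ext
      ext x
      have := h x.1 x.2
      rw [glue_right S P1 P2 x, glue_right S Q1 Q2 x] at this
      exact this
    · rintro rfl x hx
      exact (glue_right S P1 P2 ⟨x, hx⟩).trans (glue_right S Q1 P2 ⟨x, hx⟩).symm
  by_cases hc : P2 = Q2
  · rw [if_pos hc, if_pos (h.mpr hc)]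
  · rw [if_neg hc, if_neg (fun h' => hc (h.mp h'))]

theorem onK_glue (S : Finset V) (P1 Q1 : PM {x // x ∈ S}) (P2 Q2 : PM {x // x ∉ S}) :
    onK S (glue S P1 P2) (glue S Q1 Q2) = if P1 = Q1 then 1 else 0 := by
  unfold onK
  have h : (∀ x, x ∈ S → (glue S P1 P2).1 x = (glue S Q1 Q2).1 x) ↔ P1 = Q1 := by
    constructor
    · intro h
      apply Subtype.ext
      ext x
      have := h x.1 x.2
      rw [glue_left S P1 P2 x, glue_left S Q1 Q2 x] at this
      exact this
    · rintro rfl x hx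
      exact (glue_left S P1 P2 ⟨x, hx⟩).trans (glue_left S P1 Q2 ⟨x, hx⟩).symm
  by_cases hc : P1 = Q1
  · rw [if_pos hc, if_pos (h.mpr hc)]
  · rw [if_neg hc, if_neg (fun h' => hc (h.mp h'))]

theorem sq_off (S : Finset V) (f : PM V → ℝ) :
    (∑ P2 : PM {x // x ∉ S}, (∑ P1 : PM {x // x ∈ S}, f (glue S P1 P2)) ^ 2) =
      ∑ P : PM V, ∑ Q : PM V,
        (open Classical in if Cl P S ∧ Cl Q S then offK S P Q * (f P * f Q) else 0) := by
  rw [← sum_closed_two S (fun P Q => offK S P Q * (f P * f Q)), Finset.sum_comm]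
  refine Finset.sum_congr rfl fun P2 _ => ?_
  rw [pow_two, Finset.sum_mul_sum]
  refine Finset.sum_congr rfl fun P1 _ => Finset.sum_congr rfl fun Q1 _ => ?_
  rw [Finset.sum_eq_single P2]
  · rw [offK_glue, if_pos rfl, one_mul]
  · intro Q2 _ h
    rw [offK_glue, if_neg (Ne.symm h), zero_mul]
  · intro h
    exact absurd (Finset.mem_univ _) h

theorem sq_on (S : Finset V) (f : PM V → ℝ) :
    (∑ P1 : PM {x // x ∈ S}, (∑ P2 : PM {x // x ∉ S}, f (glue S P1 P2)) ^ 2) =
      ∑ P : PM V, ∑ Q : PM V,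
        (open Classical in if Cl P S ∧ Cl Q S then onK S P Q * (f P * f Q) else 0) := by
  rw [← sum_closed_two S (fun P Q => onK S P Q * (f P * f Q))]
  refine Finset.sum_congr rfl fun P1 _ => ?_
  rw [pow_two, Finset.sum_mul_sum]
  refine Finset.sum_congr rfl fun P2 _ => ?_
  rw [Finset.sum_eq_single P1]
  · refine Finset.sum_congr rfl fun Q2 _ => ?_
    rw [onK_glue, if_pos rfl, one_mul]
  · intro Q1 _ h
    refine Finset.sum_eq_zero fun Q2 _ => ?_
    rw [onK_glue, if_neg (Ne.symm h), zero_mul]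
  · intro h
    exact absurd (Finset.mem_univ _) h

theorem cl_compl (P : PM V) (S : Finset V) : Cl P Sᶜ ↔ Cl P S := by
  have key : ∀ S : Finset V, Cl P S → Cl P Sᶜ := by
    intro S h x hx
    rw [Finset.mem_compl] at hx ⊢
    intro hPx
    have := h _ hPx
    rw [P.2.1] at this
    exact hx this
  exact ⟨fun h => by have := key _ h; rwa [compl_compl] at this, key S⟩

theorem onK_compl (S : Finset V) (P Q : PM V) : onK Sᶜ P Q = offK S P Q := by
  unfold onK offK
  simp only [Finset.mem_compl]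

/-- the two sums of squares agree -/
theorem sum_sq_symm (hV : Fintype.card V = 8) (f : PM V → ℝ) :
    ∑ S ∈ univ.filter (fun S : Finset V => S.card = 2 * 2),
      (∑ P1 : PM {x // x ∈ S}, (∑ P2 : PM {x // x ∉ S}, f (glue S P1 P2)) ^ 2) =
    ∑ S ∈ univ.filter (fun S : Finset V => S.card = 2 * 2),
      (∑ P2 : PM {x // x ∉ S}, (∑ P1 : PM {x // x ∈ S}, f (glue S P1 P2)) ^ 2) := by
  simp only [sq_off, sq_on]
  refine Finset.sum_nbij' (fun S => Sᶜ) (fun S => Sᶜ) ?_ ?_ ?_ ?_ ?_
  · intro S hS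
    rw [Finset.mem_filter] at hS ⊢
    refine ⟨Finset.mem_univ _, ?_⟩
    rw [Finset.card_compl, hV, hS.2]
  · intro S hS
    rw [Finset.mem_filter] at hS ⊢
    refine ⟨Finset.mem_univ _, ?_⟩
    rw [Finset.card_compl, hV, hS.2]
  · intro S _; exact compl_compl S
  · intro S _; exact compl_compl S
  · intro S _
    refine Finset.sum_congr rfl fun P _ => Finset.sum_congr rfl fun Q _ => ?_
    have e : offK Sᶜ P Q = onK S P Q := by rw [← onK_compl, compl_compl]
    have hiff : (Cl P Sᶜ ∧ Cl Q Sᶜ) ↔ (Cl P S ∧ Cl Q S) :=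
      and_congr (cl_compl P S) (cl_compl Q S)
    rw [e]
    by_cases hc : Cl P S ∧ Cl Q S
    · rw [if_pos hc, if_pos (hiff.mpr hc)]
    · rw [if_neg hc, if_neg (fun h => hc (hiff.mp h))]

/-- the sum of squares of the partial sums is the weight -/
theorem sum_sq_Wt (f : PM V → ℝ) :
    ∑ S ∈ univ.filter (fun S : Finset V => S.card = 2 * 2),
      (∑ P2 : PM {x // x ∉ S}, (∑ P1 : PM {x // x ∈ S}, f (glue S P1 P2)) ^ 2) =
      3 * Wt 2 f := by
  rw [Wt_glue, Finset.mul_sum]
  refine Finset.sum_congr rfl fun S hS => ?_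
  rw [Finset.mem_filter] at hS
  have hS4 : Fintype.card {x // x ∈ S} = 4 := by rw [card_in, hS.2]
  rw [card_PM_four hS4]
  push_cast
  ring

end Special

theorem quad_two_two_lower (hV : Fintype.card V = 8) (f : PM V → ℝ) (hf : Low 2 f) :
    -5 * nrm f ≤ quad (kern {2, 2}) f := by
  have h := glue_two (V := V) {2} f
  have e : ((({2} : Multiset ℕ) + {2}).powerset.count {2}) = 2 := by decide
  have e2 : ({2} : Multiset ℕ) + {2} = {2, 2} := rfl
  rw [e, e2] at h
  have hall := sum_glue_all (V := V) 4 2 hV (fun P => f P ^ 2)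
  have hs1 := sum_sq_Wt f
  have hs2 := sum_sq_symm hV f
  rw [hs1] at hs2
  have hterm : ∀ S ∈ univ.filter (fun S : Finset V => S.card = 2 * 2),
      (∑ P1 : PM {x // x ∈ S}, ∑ P2 : PM {x // x ∉ S}, f (glue S P1 P2) ^ 2) -
      (∑ P2 : PM {x // x ∉ S}, (∑ P1 : PM {x // x ∈ S}, f (glue S P1 P2)) ^ 2) -
      (∑ P1 : PM {x // x ∈ S}, (∑ P2 : PM {x // x ∉ S}, f (glue S P1 P2)) ^ 2) ≤
      (quad (kern {2}) (fun P2 : PM {x // x ∉ S} => ∑ P1 : PM {x // x ∈ S}, f (glue S P1 P2)) -
          ∑ P1 : PM {x // x ∈ S}, quad (kern {2})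
            (fun P2 : PM {x // x ∉ S} => f (glue S P1 P2))) := by
    intro S hS
    rw [Finset.mem_filter] at hS
    have hW : Fintype.card {x // x ∉ S} = 4 := card_off hS.2 (by rw [hV])
    rw [kern_two_fun hW, quad_off]
    simp only [quad_off, Finset.sum_sub_distrib]
    unfold nrm
    have := sq_nonneg (∑ P2 : PM {x // x ∉ S}, ∑ P1 : PM {x // x ∈ S}, f (glue S P1 P2))
    linarith
  have hsum := Finset.sum_le_sum hterm
  rw [← h, Finset.sum_sub_distrib, Finset.sum_sub_distrib, hs1, hs2, hall] at hsum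
  have hW2 := Wt_two 4 hV f
  have hk := kd_two_bound 2 4 (by norm_num) (by norm_num) hV f hf
  have hn : ∑ P, f P ^ 2 = nrm f := rfl
  have hc : ((Nat.choose 4 2 : ℕ) : ℝ) = 6 := by norm_num [Nat.choose]
  rw [hn, hc] at hsum
  rw [hc] at hW2
  push_cast at hsum
  norm_num at hk
  linarith

theorem quad_two_two_upper (hV : Fintype.card V = 8) (f : PM V → ℝ) (hf : Low 2 f) :
    |quad (kern {2, 2}) f| ≤ 7 * nrm f := by
  have h1 : QB ({2} + {2}) 1 (1 / 2 * (0 + (1 - 0) * (1 / 2))) :=
    peel {2} {2} 1 (1 / 2) (1 / 2) 0 (by simp) (by simp) (by norm_num) (by norm_num)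
      (by norm_num) (by simpa using QB_one_two) QB_one_two
      (by simpa using WB_zero 2 1 4 (by norm_num) (by norm_num))
  have e2 : ({2} : Multiset ℕ) + {2} = {2, 2} := rfl
  rw [e2] at h1
  have h2 := EB_two {2, 2} (by decide) 2 le_rfl (by decide)
  have ecc : cc {2, 2} 2 = 2 := by decide
  rw [ecc] at h2
  norm_num [Nat.choose] at h1 h2
  have h3 : QB {2, 2} 2 (7 / 12) := level_abs _ 1 _ (QB_le _ _ (by norm_num) h1) h2
  have h4 := h3 V (by simpa using hV) f hf
  rw [rsum_two_two hV] at h4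
  refine h4.trans (le_of_eq ?_)
  ring

namespace Special

theorem split_point {X : Type} [Fintype X] (hX : Fintype.card X = 3) (a b : X → ℝ) :
    ∑ x, a x * b x = 3 * ((∑ x, a x) / 3 * ((∑ x, b x) / 3)) +
      ∑ x, (a x - (∑ x, a x) / 3) * (b x - (∑ x, b x) / 3) := by
  have h : ∀ x, (a x - (∑ x, a x) / 3) * (b x - (∑ x, b x) / 3) =
      a x * b x - (∑ x, a x) / 3 * b x - (∑ x, b x) / 3 * a x +
        (∑ x, a x) / 3 * ((∑ x, b x) / 3) := fun x => by ring
  simp only [h, Finset.sum_add_distrib, Finset.sum_sub_distrib, ← Finset.mul_sum,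
    Finset.sum_const, Finset.card_univ, hX, nsmul_eq_mul]
  push_cast
  ring

theorem quad_split {X Y : Type} [Fintype X] [Fintype Y] (hX : Fintype.card X = 3)
    (B : Y → Y → ℝ) (F : X → Y → ℝ) :
    ∑ x, quad B (F x) = 3 * quad B (fun y => (∑ x, F x y) / 3) +
      ∑ x, quad B (fun y => F x y - (∑ x, F x y) / 3) := by
  have h1 : ∀ G : X → Y → ℝ, ∑ x, quad B (G x) = ∑ y, ∑ y', B y y' * ∑ x, G x y * G x y' := by
    intro G
    unfold quad
    rw [Finset.sum_comm]
    refine Finset.sum_congr rfl fun y _ => ?_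
    rw [Finset.sum_comm]
    refine Finset.sum_congr rfl fun y' _ => ?_
    rw [Finset.mul_sum]
    refine Finset.sum_congr rfl fun x _ => ?_
    ring
  rw [h1, h1]
  unfold quad
  rw [Finset.mul_sum, ← Finset.sum_add_distrib]
  refine Finset.sum_congr rfl fun y _ => ?_
  rw [Finset.mul_sum, ← Finset.sum_add_distrib]
  refine Finset.sum_congr rfl fun y' _ => ?_
  rw [split_point hX (fun x => F x y) (fun x => F x y')]
  ring

theorem nrm_split {X Y : Type} [Fintype X] [Fintype Y] (hX : Fintype.card X = 3)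
    (F : X → Y → ℝ) :
    ∑ x, nrm (F x) = 3 * nrm (fun y => (∑ x, F x y) / 3) +
      ∑ x, nrm (fun y => F x y - (∑ x, F x y) / 3) := by
  unfold nrm
  rw [Finset.sum_comm, Finset.sum_comm (f := fun x y => (F x y - (∑ x, F x y) / 3) ^ 2),
    Finset.mul_sum, ← Finset.sum_add_distrib]
  refine Finset.sum_congr rfl fun y _ => ?_
  have := split_point hX (fun x => F x y) (fun x => F x y)
  simp only [← pow_two] at this
  exact this

theorem quad_smul {Y : Type} [Fintype Y] (B : Y → Y → ℝ) (c : ℝ) (g : Y → ℝ) :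
    quad B (fun y => c * g y) = c ^ 2 * quad B g := by
  unfold quad
  rw [Finset.mul_sum]
  refine Finset.sum_congr rfl fun x _ => ?_
  rw [Finset.mul_sum]
  refine Finset.sum_congr rfl fun y _ => ?_
  ring

/-- bounds for the form of a product, from bounds for the second factor -/
theorem form_bounds {X Y : Type} [Fintype X] [Fintype Y] (hX : Fintype.card X = 3)
    (B : Y → Y → ℝ) (U : Submodule ℝ (Y → ℝ)) (hlow : ∀ g ∈ U, -5 * nrm g ≤ quad B g)
    (hup : ∀ g ∈ U, quad B g ≤ 7 * nrm g) (F : X → Y → ℝ) (hF : ∀ x, F x ∈ U) :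
    quad B (fun y => ∑ x, F x y) - ∑ x, quad B (F x) ≤
      3 * ∑ y, (∑ x, F x y) ^ 2 + 5 * ∑ x, nrm (F x) ∧
    - (∑ y, (∑ x, F x y) ^ 2) - 7 * ∑ x, nrm (F x) ≤
      quad B (fun y => ∑ x, F x y) - ∑ x, quad B (F x) := by
  set F0 : Y → ℝ := fun y => (∑ x, F x y) / 3 with hF0
  have hU0 : F0 ∈ U := by
    have e : F0 = (1 / 3 : ℝ) • ∑ x, F x := by
      funext y
      simp [hF0, Finset.sum_apply]
      ring
    rw [e]
    exact U.smul_mem _ (U.sum_mem fun x _ => hF x)
  have hU1 : ∀ x, (fun y => F x y - F0 y) ∈ U := fun x => U.sub_mem (hF x) hU0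
  have hq := quad_split hX B F
  have hn := nrm_split hX F
  have e0 : quad B (fun y => ∑ x, F x y) = 9 * quad B F0 := by
    have e : (fun y => ∑ x, F x y) = fun y => 3 * F0 y := by
      funext y
      simp only [hF0]
      ring
    rw [e, quad_smul]
    norm_num
  have e1 : ∑ y, (∑ x, F x y) ^ 2 = 9 * nrm F0 := by
    unfold nrm
    rw [Finset.mul_sum]
    refine Finset.sum_congr rfl fun y _ => ?_
    simp only [hF0]
    ring
  have b1 : ∑ x, -5 * nrm (fun y => F x y - F0 y) ≤ ∑ x, quad B (fun y => F x y - F0 y) :=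
    Finset.sum_le_sum fun x _ => hlow _ (hU1 x)
  have b2 : ∑ x, quad B (fun y => F x y - F0 y) ≤ ∑ x, 7 * nrm (fun y => F x y - F0 y) :=
    Finset.sum_le_sum fun x _ => hup _ (hU1 x)
  rw [← Finset.mul_sum] at b1 b2
  have c1 := hlow _ hU0
  have c2 := hup _ hU0
  rw [e0, e1]
  change ∑ x, quad B (F x) = 3 * quad B F0 + ∑ x, quad B (fun y => F x y - F0 y) at hq
  change ∑ x, nrm (F x) = 3 * nrm F0 + ∑ x, nrm (fun y => F x y - F0 y) at hn
  constructor <;> linarith

theorem QB_level_two : QB {2, 2, 2} 2 (1 / 3) := by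
  intro V _ _ hV f hf
  have hV12 : Fintype.card V = 12 := by simpa using hV
  have h := glue_two (V := V) {2, 2} f
  have e : ((({2} : Multiset ℕ) + {2, 2}).powerset.count {2}) = 3 := by decide
  have e2 : ({2} : Multiset ℕ) + {2, 2} = {2, 2, 2} := rfl
  rw [e, e2] at h
  have hb : ∀ S ∈ univ.filter (fun S : Finset V => S.card = 2 * 2),
      (quad (kern {2, 2}) (fun P2 : PM {x // x ∉ S} => ∑ P1 : PM {x // x ∈ S},
        f (glue S P1 P2)) - ∑ P1 : PM {x // x ∈ S}, quad (kern {2, 2})
            (fun P2 : PM {x // x ∉ S} => f (glue S P1 P2)) ≤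
      3 * ∑ P2 : PM {x // x ∉ S}, (∑ P1 : PM {x // x ∈ S}, f (glue S P1 P2)) ^ 2 +
        5 * ∑ P1 : PM {x // x ∈ S}, ∑ P2 : PM {x // x ∉ S}, f (glue S P1 P2) ^ 2) ∧
      (- (∑ P2 : PM {x // x ∉ S}, (∑ P1 : PM {x // x ∈ S}, f (glue S P1 P2)) ^ 2) -
        7 * ∑ P1 : PM {x // x ∈ S}, ∑ P2 : PM {x // x ∉ S}, f (glue S P1 P2) ^ 2 ≤
      quad (kern {2, 2}) (fun P2 : PM {x // x ∉ S} => ∑ P1 : PM {x // x ∈ S},
        f (glue S P1 P2)) - ∑ P1 : PM {x // x ∈ S}, quad (kern {2, 2})
            (fun P2 : PM {x // x ∉ S} => f (glue S P1 P2))) := by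
    intro S hS
    rw [Finset.mem_filter] at hS
    have hS4 : Fintype.card {x // x ∈ S} = 4 := by rw [card_in, hS.2]
    have hW : Fintype.card {x // x ∉ S} = 8 := card_off hS.2 (by rw [hV12])
    exact form_bounds (card_PM_four hS4) (kern {2, 2}) (lowSub {x // x ∉ S} 2)
      (fun g hg => quad_two_two_lower hW g hg)
      (fun g hg => (le_abs_self _).trans (quad_two_two_upper hW g hg))
      (fun P1 P2 => f (glue S P1 P2)) (fun P1 => Low_glue 2 f hf S P1)
  have h1 := Finset.sum_le_sum fun S hS => (hb S hS).1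
  have h2 := Finset.sum_le_sum fun S hS => (hb S hS).2
  rw [← h] at h1 h2
  have hall := sum_glue_all (V := V) 6 2 hV12 (fun P => f P ^ 2)
  have hs1 := sum_sq_Wt f
  have hn : ∑ P, f P ^ 2 = nrm f := rfl
  have hc : ((Nat.choose 6 2 : ℕ) : ℝ) = 15 := by norm_num [Nat.choose]
  rw [Finset.sum_add_distrib, ← Finset.mul_sum, ← Finset.mul_sum, hs1, hall, hn, hc] at h1
  rw [Finset.sum_sub_distrib, Finset.sum_neg_distrib, ← Finset.mul_sum, hs1, hall, hn, hc] at h2
  have hw := WB_two_six V hV12 f hf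
  rw [hc] at hw
  have hw0 := Wt_nonneg 2 f
  rw [rsum_two_two_two hV12, abs_le]
  push_cast at h1 h2
  have := nrm_nonneg f
  constructor <;> linarith

end Special

theorem QB_two_two_two : QB {2, 2, 2} 5 (1 / 3) := by
  have h3 := EB_half {2, 2, 2} 3 (by norm_num) (by decide)
  have h4 := EB_two {2, 2, 2} (by decide) 4 (by norm_num) (by decide)
  have h5 := EB_one {2, 2, 2} (by decide) 5 (by norm_num) (by decide)
  have c3 : cc {2, 2, 2} 3 = 0 := by decide
  have c2 : cc {2, 2, 2} 2 = 3 := by decide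
  have cd : Multiset.card ({2, 2, 2} : Multiset ℕ) = 3 := by decide
  rw [c3, cd] at h3
  rw [c2] at h4
  refine level_abs _ 4 _ (level_abs _ 3 _ (level_abs _ 2 _ Special.QB_level_two ?_) ?_) ?_
  · exact EB_le _ _ (by norm_num [Nat.choose]) h3
  · exact EB_le _ _ (by norm_num [Nat.choose]) h4
  · exact EB_le _ _ (by norm_num [Nat.choose]) h5

end Pool.Agent.Helper23.MS
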