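import Pool.Agent.Helper23.MS.Rules
import Pool.Agent.Helper23.MS.Special
import Pool.Agent.Helper23.MS.Peel
import Pool.Agent.Helper23.MS.Cut
import Pool.Agent.Helper23.MS.LYM

/-! # MS-22: the table for at most 14 edges -/

open scoped BigOperators Nat
open Finset

namespace Pool.Agent.Helper23.MS

namespace Tab

/-- A certificate: special, peel or cut. -/
inductive Ct
  | sp
  | pl (u : ℕ) (s r : List ℕ)
  | ct (u a b : ℕ)

/-- The scale. -/
def SC : ℕ := 1000000

/-- The number of sublists with sum `t`. -/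
def ccl : List ℕ → ℕ → ℕ
  | [], t => if t = 0 then 1 else 0
  | c :: l, t => ccl l t + if c ≤ t then ccl l (t - c) else 0

/-- Binomial coefficients. -/
def fch (n k : ℕ) : ℕ := Nat.descFactorial n k / Nat.factorial k

/-- The check for one level. -/
def lev (l : List ℕ) (x u : ℕ) : Bool :=
  let N := l.sum
  let t := N - u
  let C := fch N t
  let c := ccl l t
  if t = 1 then decide (SC ≤ x * (2 * u))
  else if t = 2 ∧ 2 ≤ u then
    decide (2 * c ≤ N) && decide (c + (N - 2 * c) ≤ C) &&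
    decide (SC * (c * (4 * u * (u - 1)) + (N - 2 * c) * (2 * (u - 1)) +
      (C - (c + (N - 2 * c))) * 3) ≤ x * (4 * u * (u - 1) * C))
  else if t < u then
    decide (c ≤ C) && decide (SC * (2 * u * c + (C - c)) ≤ x * (2 * u * C))
  else if t = u then
    decide (c ≤ C) && decide (SC * ((2 * u * c + (C - c)) * 4 ^ u + 2 ^ l.length * (2 * u * C))
      ≤ x * (2 * u * C * 4 ^ u))
  else false

/-- The check for the levels `u + 1, ..., u + k`. -/
def levs (l : List ℕ) (x : ℕ) (u : ℕ) : ℕ → Bool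
  | 0 => true
  | k + 1 => levs l x u k && lev l x (u + k + 1)

/-- The weight `q = qn / qd` for `a` edges at level `u`. -/
def qq (a u : ℕ) : ℕ × ℕ :=
  if u < a then (0, 1) else if a = 2 then (4 * (u - 1), 3 * (2 * u - 1)) else (2, 5)

/-- Lookup in the table. -/
def look (T : List (List ℕ × ℕ × Ct)) (l : List ℕ) : Option ℕ :=
  match T with
  | [] => none
  | (l', x, _) :: T' => if l' = l then some x else look T' l

/-- The check for one entry, given the entries before. -/
def chk (T : List (List ℕ × ℕ × Ct)) (l : List ℕ) (x : ℕ) : Ct → Bool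
  | .sp => (decide (l = [2]) && decide (x = 500000)) || (decide (l = [3]) && decide (x = 250000)) ||
      (decide (l = [2, 2, 2]) && decide (x = 333334))
  | .pl u s r =>
    match look T s, look T r with
    | some xs, some xr =>
      decide (List.insertionSort (· ≥ ·) (s ++ r) = l) && decide (1 ≤ u) &&
      decide (2 * u ≤ l.sum) && decide (2 ≤ s.sum) && decide (u < r.sum) &&
      decide (xs ≤ SC) &&
      decide (xr * ((qq s.sum u).1 * SC + ((qq s.sum u).2 - (qq s.sum u).1) * xs) ≤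
        x * SC * (qq s.sum u).2) &&
      decide ((qq s.sum u).1 ≤ (qq s.sum u).2) &&
      l.all (fun c => decide (2 ≤ c)) && levs l x u (l.sum - 1 - u)
    | _, _ => false
  | .ct u a b =>
    match look T [a], look T [b] with
    | some xa, some xb =>
      decide (l = [a + b]) && decide (1 ≤ u) && decide (2 * u ≤ a + b) && decide (2 ≤ a) &&
      decide (u < b) && decide (xa ≤ SC) &&
      decide (xb ^ 2 * ((qq a u).1 * SC ^ 2 + ((qq a u).2 - (qq a u).1) * xa ^ 2) ≤
        x ^ 2 * SC ^ 2 * (qq a u).2) &&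
      decide ((qq a u).1 ≤ (qq a u).2) &&
      l.all (fun c => decide (2 ≤ c)) && levs l x u (l.sum - 1 - u)
    | _, _ => false

/-- All entries are correct (later entries first in the list). -/
def chkAll : List (List ℕ × ℕ × Ct) → Bool
  | [] => true
  | (l, x, c) :: T => chk T l x c && chkAll T

/-- The table, smallest sums first. -/
def tab0 : List (List ℕ × ℕ × Ct) :=
  [([2], 500000, .sp),
     ([3], 250000, .sp),
     ([4], 291667, .ct 1 2 2),
     ([2, 2], 583334, .pl 1 [2] [2]),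
     ([5], 190941, .ct 2 2 3),
     ([3, 2], 225000, .pl 2 [2] [3]),
     ([6], 197917, .ct 2 3 3),
     ([3, 3], 312500, .pl 2 [3] [3]),
     ([4, 2], 223612, .pl 3 [2] [4]),
     ([2, 2, 2], 333334, .sp),
     ([7], 153942, .ct 3 2 5),
     ([4, 3], 160417, .pl 3 [3] [4]),
     ([5, 2], 146389, .pl 3 [2] [5]),
     ([3, 2, 2], 172500, .pl 3 [2] [3, 2]),
     ([8], 126296, .ct 4 3 5),
     ([4, 4], 165625, .pl 3 [4] [4]),
     ([5, 3], 116072, .pl 4 [3] [5]),
     ([6, 2], 151737, .pl 3 [2] [6]),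
     ([3, 3, 2], 132143, .pl 4 [3] [3, 2]),
     ([4, 2, 2], 175696, .pl 4 [2] [4, 2]),
     ([2, 2, 2, 2], 261906, .pl 4 [2] [2, 2, 2]),
     ([9], 126811, .ct 4 2 7),
     ([5, 4], 109792, .pl 4 [4] [5]),
     ([6, 3], 108855, .pl 4 [3] [6]),
     ([7, 2], 120955, .pl 4 [2] [7]),
     ([3, 3, 3], 171875, .pl 4 [3] [3, 3]),
     ([4, 3, 2], 122987, .pl 4 [3] [4, 2]),
     ([5, 2, 2], 115020, .pl 4 [2] [5, 2]),
     ([3, 2, 2, 2], 135536, .pl 4 [2] [3, 2, 2]),
     ([10], 101824, .ct 5 3 7),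
     ([5, 5], 111050, .pl 4 [5] [5]),
     ([6, 4], 113803, .pl 5 [4] [6]),
     ([7, 3], 84669, .pl 5 [3] [7]),
     ([8, 2], 100570, .pl 5 [2] [8]),
     ([4, 3, 3], 88230, .pl 5 [3] [4, 3]),
     ([4, 4, 2], 128577, .pl 5 [4] [4, 2]),
     ([5, 3, 2], 83334, .pl 5 [3] [5, 2]),
     ([6, 2, 2], 119222, .pl 4 [2] [6, 2]),
     ([3, 3, 2, 2], 94875, .pl 5 [3] [3, 2, 2]),
     ([4, 2, 2, 2], 138047, .pl 4 [2] [4, 2, 2]),
     ([2, 2, 2, 2, 2], 205784, .pl 4 [2] [2, 2, 2, 2]),
     ([11], 83537, .ct 5 3 8),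
     ([6, 5], 101842, .pl 5 [5] [6]),
     ([7, 4], 88517, .pl 5 [4] [7]),
     ([8, 3], 83334, .pl 5 [3] [8]),
     ([9, 2], 100980, .pl 5 [2] [9]),
     ([4, 4, 3], 91094, .pl 5 [3] [4, 4]),
     ([5, 3, 3], 85318, .pl 5 [3] [5, 3]),
     ([5, 4, 2], 85318, .pl 5 [4] [5, 2]),
     ([6, 3, 2], 85318, .pl 5 [3] [6, 2]),
     ([7, 2, 2], 96317, .pl 5 [2] [7, 2]),
     ([3, 3, 3, 2], 89286, .pl 5 [3] [3, 3, 2]),
     ([4, 3, 2, 2], 96633, .pl 5 [3] [4, 2, 2]),
     ([5, 2, 2, 2], 91590, .pl 5 [2] [5, 2, 2]),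
     ([3, 2, 2, 2, 2], 107927, .pl 5 [2] [3, 2, 2, 2]),
     ([12], 83822, .ct 5 6 6),
     ([6, 6], 86295, .pl 5 [6] [6]),
     ([7, 5], 79214, .pl 6 [5] [7]),
     ([8, 4], 72621, .pl 6 [4] [8]),
     ([9, 3], 71429, .pl 6 [3] [9]),
     ([10, 2], 81768, .pl 6 [2] [10]),
     ([4, 4, 4], 95235, .pl 6 [4] [4, 4]),
     ([5, 4, 3], 72602, .pl 6 [3] [5, 4]),
     ([5, 5, 2], 75327, .pl 6 [5] [5, 2]),
     ([6, 3, 3], 71429, .pl 6 [3] [6, 3]),
     ([6, 4, 2], 87249, .pl 6 [4] [6, 2]),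
     ([7, 3, 2], 72602, .pl 6 [3] [7, 2]),
     ([8, 2, 2], 80761, .pl 6 [2] [8, 2]),
     ([3, 3, 3, 3], 94532, .pl 6 [3] [3, 3, 3]),
     ([4, 3, 3, 2], 73774, .pl 6 [3] [4, 3, 2]),
     ([4, 4, 2, 2], 91208, .pl 5 [4, 2] [4, 2]),
     ([5, 3, 2, 2], 74946, .pl 6 [3] [5, 2, 2]),
     ([6, 2, 2, 2], 89224, .pl 5 [6] [2, 2, 2]),
     ([3, 3, 2, 2, 2], 78464, .pl 6 [3] [3, 2, 2, 2]),
     ([4, 2, 2, 2, 2], 99083, .pl 5 [2, 2, 2] [4, 2]),
     ([2, 2, 2, 2, 2, 2], 118800, .pl 5 [2, 2, 2] [2, 2, 2]),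
     ([13], 71429, .ct 6 3 10),
     ([7, 6], 79858, .pl 6 [6] [7]),
     ([8, 5], 71429, .pl 6 [5] [8]),
     ([9, 4], 72917, .pl 6 [4] [9]),
     ([10, 3], 71429, .pl 6 [3] [10]),
     ([11, 2], 71429, .pl 6 [2] [11]),
     ([5, 4, 4], 71429, .pl 6 [4] [5, 4]),
     ([5, 5, 3], 71429, .pl 6 [5] [5, 3]),
     ([6, 4, 3], 71970, .pl 6 [4] [6, 3]),
     ([6, 5, 2], 75940, .pl 6 [6] [5, 2]),
     ([7, 3, 3], 71970, .pl 6 [3] [7, 3]),
     ([7, 4, 2], 71970, .pl 6 [4] [7, 2]),
     ([8, 3, 2], 71429, .pl 6 [3] [8, 2]),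
     ([9, 2, 2], 81090, .pl 6 [2] [9, 2]),
     ([4, 3, 3, 3], 73052, .pl 6 [3] [4, 3, 3]),
     ([4, 4, 3, 2], 72511, .pl 6 [4] [4, 3, 2]),
     ([5, 3, 3, 2], 71970, .pl 6 [3] [5, 3, 2]),
     ([5, 4, 2, 2], 72511, .pl 6 [4] [5, 2, 2]),
     ([6, 3, 2, 2], 71970, .pl 6 [3] [6, 2, 2]),
     ([7, 2, 2, 2], 77346, .pl 6 [2] [7, 2, 2]),
     ([3, 3, 3, 2, 2], 73052, .pl 6 [3] [3, 3, 2, 2]),
     ([4, 3, 2, 2, 2], 75926, .pl 6 [3] [4, 2, 2, 2]),
     ([5, 2, 2, 2, 2], 73594, .pl 6 [2] [5, 2, 2, 2]),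
     ([3, 2, 2, 2, 2, 2], 86669, .pl 6 [2] [3, 2, 2, 2, 2]),
     ([14], 62500, .ct 7 3 11),
     ([7, 7], 72214, .pl 6 [7] [7]),
     ([8, 6], 65517, .pl 7 [6] [8]),
     ([9, 5], 65253, .pl 7 [5] [9]),
     ([10, 4], 62500, .pl 7 [4] [10]),
     ([11, 3], 62500, .pl 7 [3] [11]),
     ([12, 2], 67703, .pl 7 [2] [12]),
     ([5, 5, 4], 62500, .pl 7 [5] [5, 4]),
     ([6, 4, 4], 65437, .pl 7 [4] [6, 4]),
     ([6, 5, 3], 62813, .pl 7 [5] [6, 3]),
     ([6, 6, 2], 69700, .pl 7 [2] [6, 6]),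
     ([7, 4, 3], 62500, .pl 7 [4] [7, 3]),
     ([7, 5, 2], 62500, .pl 7 [5] [7, 2]),
     ([8, 3, 3], 62813, .pl 7 [3] [8, 3]),
     ([8, 4, 2], 62813, .pl 7 [4] [8, 2]),
     ([9, 3, 2], 62500, .pl 7 [3] [9, 2]),
     ([10, 2, 2], 66044, .pl 7 [2] [10, 2]),
     ([4, 4, 3, 3], 62813, .pl 7 [3] [4, 4, 3]),
     ([4, 4, 4, 2], 73932, .pl 7 [4] [4, 4, 2]),
     ([5, 3, 3, 3], 63437, .pl 7 [3] [5, 3, 3]),
     ([5, 4, 3, 2], 62813, .pl 7 [3] [5, 4, 2]),
     ([5, 5, 2, 2], 62500, .pl 7 [5] [5, 2, 2]),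
     ([6, 3, 3, 2], 63125, .pl 7 [3] [6, 3, 2]),
     ([6, 4, 2, 2], 68553, .pl 7 [4] [6, 2, 2]),
     ([7, 3, 2, 2], 62500, .pl 7 [3] [7, 2, 2]),
     ([8, 2, 2, 2], 65231, .pl 7 [2] [8, 2, 2]),
     ([3, 3, 3, 3, 2], 64374, .pl 7 [3] [3, 3, 3, 2]),
     ([4, 3, 3, 2, 2], 63437, .pl 7 [3] [4, 3, 2, 2]),
     ([4, 4, 2, 2, 2], 73382, .pl 6 [2] [4, 4, 2, 2]),
     ([5, 3, 2, 2, 2], 62813, .pl 7 [3] [5, 2, 2, 2]),
     ([6, 2, 2, 2, 2], 72066, .pl 7 [2] [6, 2, 2, 2]),
     ([3, 3, 2, 2, 2, 2], 64061, .pl 7 [3] [3, 2, 2, 2, 2]),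
     ([4, 2, 2, 2, 2, 2], 79567, .pl 6 [2] [4, 2, 2, 2, 2]),
     ([2, 2, 2, 2, 2, 2, 2], 95400, .pl 6 [2] [2, 2, 2, 2, 2, 2])]

/-- The table, largest sums first. -/
def tab : List (List ℕ × ℕ × Ct) := tab0.reverse

/-- Partitions of `N` with parts between `2` and `m` (in decreasing order), with fuel. -/
def prt : ℕ → ℕ → ℕ → List (List ℕ)
  | 0, N, _ => if N = 0 then [[]] else []
  | f + 1, N, m => if N = 0 then [[]] else
      (List.range (N + 1)).flatMap (fun k =>
        if 2 ≤ k ∧ k ≤ m then (prt f (N - k) k).map (fun l => k :: l) else [])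

set_option maxRecDepth 100000 in
theorem tab_ok : chkAll tab = true := by decide +kernel

theorem cc_coe (l : List ℕ) (t : ℕ) : cc (↑l : Multiset ℕ) t = ccl l t := by
  induction l generalizing t with
  | nil => simpa [ccl] using cc_nil t
  | cons c l ih =>
    rw [← Multiset.cons_coe, cc_cons, ih, ih]
    rfl

theorem fch_eq (n k : ℕ) : fch n k = n.choose k := by
  rw [fch, Nat.choose_eq_descFactorial_div_factorial]

theorem lev_sound (l : List ℕ) (x u : ℕ) (h2 : ∀ c ∈ l, 2 ≤ c) (hu : 1 ≤ u)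
    (huN : u < l.sum) (h : lev l x u = true) :
    EB (↑l : Multiset ℕ) u ((x : ℝ) / SC) := by
  have hS : (0:ℝ) < SC := by norm_num [SC]
  have hu' : (1:ℝ) ≤ u := by exact_mod_cast hu
  obtain ⟨t, ht⟩ : ∃ t, l.sum = t + u := ⟨l.sum - u, by omega⟩
  have ht' : l.sum - u = t := by omega
  have hsum : (↑l : Multiset ℕ).sum = t + u := by rw [Multiset.sum_coe, ht]
  have hcard : Multiset.card (↑l : Multiset ℕ) = l.length := Multiset.coe_card l
  have h2' : ∀ c ∈ (↑l : Multiset ℕ), 2 ≤ c := fun c hc => h2 c (Multiset.mem_coe.1 hc)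
  have hcc : ccl l t = cc (↑l : Multiset ℕ) t := (cc_coe l t).symm
  unfold lev at h
  simp only [ht'] at h
  rw [ht, fch_eq, hcc] at h
  set c := cc (↑l : Multiset ℕ) t with hc
  have hCpos : 0 < (t + u).choose t := Nat.choose_pos (by omega)
  have hCpos' : (0:ℝ) < ((t + u).choose t : ℝ) := by exact_mod_cast hCpos
  split_ifs at h with h1 h3 h4 h5
  · -- t = 1
    have h := of_decide_eq_true h
    subst h1
    refine EB_le _ _ ?_ (EB_one _ h2' u hu (by rw [hsum]; ring))
    rw [div_le_div_iff₀ (by positivity) hS]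
    have : (SC : ℝ) ≤ x * (2 * u) := by exact_mod_cast h
    linarith
  · -- t = 2
    obtain ⟨rfl, hu2⟩ := h3
    simp only [Bool.and_eq_true, decide_eq_true_eq] at h
    obtain ⟨⟨ha, hb⟩, hc3⟩ := h
    refine EB_le _ _ ?_ (EB_two _ h2' u hu2 (by rw [hsum]; ring))
    have hu2' : (2:ℝ) ≤ u := by exact_mod_cast hu2
    have e1 : ((2 + u - 2 * c : ℕ) : ℝ) = (u:ℝ) + 2 - 2 * c := by
      rw [Nat.cast_sub ha]; push_cast; ring
    have e2 : (((2 + u).choose 2 - (c + (2 + u - 2 * c)) : ℕ) : ℝ) =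
        ((u + 2).choose 2 : ℝ) - c - ((u:ℝ) + 2 - 2 * c) := by
      rw [Nat.cast_sub hb, Nat.cast_add, e1, add_comm 2 u]; ring
    have e3 : ((u - 1 : ℕ) : ℝ) = (u:ℝ) - 1 := by
      rw [Nat.cast_sub hu]; norm_num
    have hc4 : (SC : ℝ) * (c * (4 * u * (u - 1)) + ((u:ℝ) + 2 - 2 * c) * (2 * (u - 1)) +
        (((u + 2).choose 2 : ℝ) - c - ((u:ℝ) + 2 - 2 * c)) * 3) ≤
        x * (4 * u * (u - 1) * ((u + 2).choose 2 : ℝ)) := by
      rw [← e2, ← e1, ← e3]
      rw [add_comm u 2]
      exact_mod_cast hc3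
    rw [add_comm 2 u] at hCpos'
    have hu1 : (0:ℝ) < (u:ℝ) - 1 := by linarith
    rw [div_le_div_iff₀ hCpos' hS]
    have hpos : (0:ℝ) < 4 * u * (u - 1) := by positivity
    rw [← mul_le_mul_iff_right₀ hpos]
    refine le_trans (le_of_eq ?_) (hc4.trans (le_of_eq ?_))
    · field_simp
      ring
    · ring
  · -- t < u
    simp only [Bool.and_eq_true, decide_eq_true_eq] at h
    obtain ⟨ha, hb⟩ := h
    refine EB_le _ _ ?_ (EB_mid _ t u h4 hsum)
    have hb' : (SC : ℝ) * (2 * u * c + (((t + u).choose t : ℝ) - c)) ≤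
        x * (2 * u * ((t + u).choose t : ℝ)) := by
      rw [← Nat.cast_sub ha]
      exact_mod_cast hb
    rw [le_div_iff₀ hS]
    have hpos : (0:ℝ) < 2 * u * ((t + u).choose t : ℝ) := by positivity
    rw [← mul_le_mul_iff_right₀ hpos]
    refine le_trans (le_of_eq ?_) (hb'.trans (le_of_eq ?_))
    · field_simp
      ring
    · ring
  · -- t = u
    simp only [Bool.and_eq_true, decide_eq_true_eq] at h
    obtain ⟨ha, hb⟩ := h
    subst h5
    refine EB_le _ _ ?_ (EB_half _ t hu hsum)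
    rw [hcard]
    have hb' : (SC : ℝ) * ((2 * t * c + (((t + t).choose t : ℝ) - c)) * 4 ^ t +
        2 ^ l.length * (2 * t * ((t + t).choose t : ℝ))) ≤
        x * (2 * t * ((t + t).choose t : ℝ) * 4 ^ t) := by
      rw [← Nat.cast_sub ha]
      exact_mod_cast hb
    rw [le_div_iff₀ hS]
    have hpos : (0:ℝ) < 2 * t * ((t + t).choose t : ℝ) * 4 ^ t := by positivity
    rw [← mul_le_mul_iff_right₀ hpos]
    refine le_trans (le_of_eq ?_) (hb'.trans (le_of_eq ?_))
    · field_simp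
      ring
    · ring

theorem levs_sound (l : List ℕ) (x u k : ℕ) (h2 : ∀ c ∈ l, 2 ≤ c)
    (hk : u + k < l.sum) (h : levs l x u k = true)
    (h0 : QB (↑l : Multiset ℕ) u ((x : ℝ) / SC)) :
    QB (↑l : Multiset ℕ) (u + k) ((x : ℝ) / SC) := by
  induction k with
  | zero => simpa using h0
  | succ k ih =>
    simp only [levs, Bool.and_eq_true] at h
    have := ih (by omega) h.1
    exact level_abs _ _ _ this (lev_sound l x (u + k + 1) h2 (by omega) (by omega) h.2)

theorem qq_WB (a u N : ℕ) (ha : 2 ≤ a) (haN : a ≤ N) (hu : 1 ≤ u) (hN : 2 * u ≤ N) :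
    WB a u (((qq a u).1 : ℝ) / (qq a u).2) N := by
  unfold qq
  split_ifs with h1 h2
  · simpa using WB_zero a u N h1 haN
  · subst h2
    have e : ((4 * (u - 1) : ℕ) : ℝ) / ((3 * (2 * u - 1) : ℕ) : ℝ) =
        4 * ((u:ℝ) - 1) / (3 * (2 * u - 1)) := by
      rw [Nat.cast_mul, Nat.cast_mul, Nat.cast_sub hu, Nat.cast_sub (by omega)]
      push_cast
      ring
    simp only [e]
    exact WB_two u N hu hN
  · have := WB_ge_three a u N (by omega) haN hu hN
    norm_num
    exact this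

theorem qq_pos (a u : ℕ) (hu : 1 ≤ u) : 0 < (qq a u).2 := by
  unfold qq
  split_ifs
  · norm_num
  · simp only; omega
  · norm_num

theorem look_mem (T : List (List ℕ × ℕ × Ct)) (l : List ℕ) (x : ℕ)
    (h : look T l = some x) : ∃ c, (l, x, c) ∈ T := by
  induction T with
  | nil => simp [look] at h
  | cons a T ih =>
    obtain ⟨l', x', c'⟩ := a
    simp only [look] at h
    split_ifs at h with h1
    · subst h1
      simp only [Option.some.injEq] at h
      subst h
      exact ⟨c', by simp⟩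
    · obtain ⟨c, hc⟩ := ih h
      exact ⟨c, List.mem_cons_of_mem _ hc⟩

/-- a list of correct entries -/
def Good (T : List (List ℕ × ℕ × Ct)) : Prop :=
  ∀ l x c, (l, x, c) ∈ T → QB (↑l : Multiset ℕ) (l.sum - 1) ((x : ℝ) / SC)

theorem look_sound (T : List (List ℕ × ℕ × Ct)) (hT : Good T) (l : List ℕ) (x : ℕ)
    (h : look T l = some x) : QB (↑l : Multiset ℕ) (l.sum - 1) ((x : ℝ) / SC) := by
  obtain ⟨c, hc⟩ := look_mem T l x h
  exact hT l x c hc

theorem chk_sound (T : List (List ℕ × ℕ × Ct)) (hT : Good T) (l : List ℕ) (x : ℕ) (c : Ct)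
    (h : chk T l x c = true) : QB (↑l : Multiset ℕ) (l.sum - 1) ((x : ℝ) / SC) := by
  have hS : (0:ℝ) < SC := by norm_num [SC]
  cases c with
  | sp =>
    simp only [chk, Bool.or_eq_true, Bool.and_eq_true, decide_eq_true_eq] at h
    rcases h with (⟨rfl, rfl⟩ | ⟨rfl, rfl⟩) | ⟨rfl, rfl⟩
    · refine QB_le _ _ ?_ (QB_one_two : QB (↑[2] : Multiset ℕ) _ _)
      norm_num [SC]
    · refine QB_le _ _ ?_ (QB_one_three : QB (↑[3] : Multiset ℕ) _ _)
      norm_num [SC]
    · refine QB_le _ _ ?_ (QB_two_two_two : QB (↑[2, 2, 2] : Multiset ℕ) _ _)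
      norm_num [SC]
  | pl u s r =>
    simp only [chk] at h
    cases hs : look T s with
    | none => rw [hs] at h; simp at h
    | some xs =>
      cases hr : look T r with
      | none => rw [hs, hr] at h; simp at h
      | some xr =>
        rw [hs, hr] at h
        simp only [Bool.and_eq_true, decide_eq_true_eq, List.all_eq_true] at h
        obtain ⟨⟨⟨⟨⟨⟨⟨⟨⟨hl, hu⟩, h2u⟩, hs2⟩, hur⟩, hxs⟩, hx⟩, hq⟩, h2⟩, hlev⟩ := h
        have hQs := look_sound T hT s xs hs
        have hQr := look_sound T hT r xr hr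
        have hperm : (↑l : Multiset ℕ) = (↑s : Multiset ℕ) + ↑r := by
          rw [Multiset.coe_add, ← hl]
          exact Multiset.coe_eq_coe.2 (List.perm_insertionSort _ _)
        have hsum : l.sum = s.sum + r.sum := by
          have := congrArg Multiset.sum hperm
          simpa using this
        have hqp := qq_pos s.sum u hu
        have hxs' : (xs : ℝ) / SC ≤ 1 := by
          rw [div_le_one hS]; exact_mod_cast hxs
        have hp := peel (↑s : Multiset ℕ) ↑r u ((xs : ℝ) / SC) ((xr : ℝ) / SC) _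
          (by rw [Multiset.sum_coe]; omega) (by rw [Multiset.sum_coe]; exact hur)
          (by positivity) hxs' (by positivity) (by rw [Multiset.sum_coe]; exact hQs)
          (QB_mono _ (by omega : u ≤ r.sum - 1) _ hQr)
          (by
            rw [Multiset.sum_coe, Multiset.sum_coe]
            exact qq_WB s.sum u (s.sum + r.sum) hs2 (by omega) hu (by omega))
        rw [← hperm] at hp
        have hlev' := levs_sound l x u (l.sum - 1 - u) (fun c hc => by simpa using h2 c hc)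
          (by omega) hlev (QB_le _ _ ?_ hp)
        · rwa [show u + (l.sum - 1 - u) = l.sum - 1 by omega] at hlev'
        · have hqp' : (0:ℝ) < (qq s.sum u).2 := by exact_mod_cast hqp
          have hx' : (xr : ℝ) * ((qq s.sum u).1 * SC +
              (((qq s.sum u).2 : ℝ) - (qq s.sum u).1) * xs) ≤ x * SC * (qq s.sum u).2 := by
            rw [← Nat.cast_sub hq]
            exact_mod_cast hx
          rw [le_div_iff₀ hS]
          have hpos : (0:ℝ) < SC * (qq s.sum u).2 := by positivity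
          rw [← mul_le_mul_iff_right₀ hpos]
          refine le_trans (le_of_eq ?_) (hx'.trans (le_of_eq ?_))
          · field_simp
          · ring
  | ct u a b =>
    simp only [chk] at h
    cases hs : look T [a] with
    | none => rw [hs] at h; simp at h
    | some xa =>
      cases hr : look T [b] with
      | none => rw [hs, hr] at h; simp at h
      | some xb =>
        rw [hs, hr] at h
        simp only [Bool.and_eq_true, decide_eq_true_eq, List.all_eq_true] at h
        obtain ⟨⟨⟨⟨⟨⟨⟨⟨⟨hl, hu⟩, h2u⟩, ha⟩, hub⟩, hxa⟩, hx⟩, hq⟩, h2⟩, hlev⟩ := h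
        have hQa := look_sound T hT [a] xa hs
        have hQb := look_sound T hT [b] xb hr
        have hsum : l.sum = a + b := by rw [hl]; simp
        have hqp := qq_pos a u hu
        have hqp' : (0:ℝ) < (qq a u).2 := by exact_mod_cast hqp
        have hxa' : (xa : ℝ) / SC ≤ 1 := by
          rw [div_le_one hS]; exact_mod_cast hxa
        have hq0 : (0:ℝ) ≤ ((qq a u).1 : ℝ) / (qq a u).2 := by positivity
        have hq1 : ((qq a u).1 : ℝ) / (qq a u).2 ≤ 1 := by
          rw [div_le_one hqp']; exact_mod_cast hq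
        have hp := cut a b u ((xa : ℝ) / SC) ((xb : ℝ) / SC) (((qq a u).1 : ℝ) / (qq a u).2)
          (by omega) hub (by positivity) hxa' (by positivity) hq0 hq1
          (by simpa using hQa) (by
            have := QB_mono _ (by omega : u ≤ b - 1) ((xb : ℝ) / SC)
              (by simpa using hQb : QB ({b} : Multiset ℕ) (b - 1) _)
            exact this)
          (qq_WB a u (a + b) ha (by omega) hu (by omega))
        have hl' : (↑l : Multiset ℕ) = {a + b} := by rw [hl]; rfl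
        rw [hl']
        have hp2 : QB ({a + b} : Multiset ℕ) u ((x : ℝ) / SC) := by
          refine QB_le _ _ ?_ hp
          have hx' : (xb : ℝ) ^ 2 * ((qq a u).1 * (SC : ℝ) ^ 2 +
              (((qq a u).2 : ℝ) - (qq a u).1) * xa ^ 2) ≤
              x ^ 2 * (SC : ℝ) ^ 2 * (qq a u).2 := by
            rw [← Nat.cast_sub hq]
            exact_mod_cast hx
          have hin : (0:ℝ) ≤ ((qq a u).1 : ℝ) / (qq a u).2 +
              (1 - ((qq a u).1 : ℝ) / (qq a u).2) * ((xa : ℝ) / SC) ^ 2 := by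
            have : (0:ℝ) ≤ 1 - ((qq a u).1 : ℝ) / (qq a u).2 := by linarith
            positivity
          refine abs_le_of_sq_le_sq' ?_ (by positivity) |>.2
          rw [mul_pow, Real.sq_sqrt hin, div_pow, div_pow, div_pow,
            le_div_iff₀ (by positivity)]
          have hpos : (0:ℝ) < (SC : ℝ) ^ 2 * (qq a u).2 := by positivity
          rw [← mul_le_mul_iff_right₀ hpos]
          refine le_trans (le_of_eq ?_) (hx'.trans (le_of_eq ?_))
          · field_simp
          · ring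
        have hlev' := levs_sound l x u (l.sum - 1 - u) (fun c hc => by simpa using h2 c hc)
          (by omega) hlev (by rw [hl']; exact hp2)
        rw [hl'] at hlev'
        rwa [show u + (l.sum - 1 - u) = l.sum - 1 by omega] at hlev'

theorem chkAll_sound (T : List (List ℕ × ℕ × Ct)) (h : chkAll T = true) : Good T := by
  induction T with
  | nil => intro l x c hc; simp at hc
  | cons a T ih =>
    obtain ⟨l', x', c'⟩ := a
    simp only [chkAll, Bool.and_eq_true] at h
    have hT := ih h.2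
    intro l x c hc
    rcases List.mem_cons.1 hc with h1 | h1
    · simp only [Prod.mk.injEq] at h1
      obtain ⟨rfl, rfl, rfl⟩ := h1
      exact chk_sound T hT _ _ _ h.1
    · exact hT l x c h1

theorem tab_good : Good tab := chkAll_sound tab tab_ok

/-! ### the list of all types -/

theorem exists_max (ν : Multiset ℕ) (h : ν ≠ 0) : ∃ k ∈ ν, ∀ x ∈ ν, x ≤ k := by
  obtain ⟨a, ha⟩ := Multiset.exists_mem_of_ne_zero h
  obtain ⟨k, hk, hk'⟩ := ν.toFinset.exists_max_image id ⟨a, by simpa using ha⟩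
  exact ⟨k, by simpa using hk, fun x hx => hk' x (by simpa using hx)⟩

theorem prt_complete (f : ℕ) : ∀ (ν : Multiset ℕ) (m : ℕ), (∀ c ∈ ν, 2 ≤ c ∧ c ≤ m) →
    ν.sum ≤ f → ∃ l ∈ prt f ν.sum m, ν = (↑l : Multiset ℕ) := by
  induction f with
  | zero =>
    intro ν m hν hs
    have h0 : ν = 0 := by
      by_contra hne
      obtain ⟨k, hk, -⟩ := exists_max ν hne
      have := Multiset.le_sum_of_mem hk
      have := (hν k hk).1
      omega
    subst h0
    exact ⟨[], by simp [prt], by simp⟩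
  | succ f ih =>
    intro ν m hν hs
    by_cases hne : ν = 0
    · subst hne
      exact ⟨[], by simp [prt], by simp⟩
    · obtain ⟨k, hk, hk'⟩ := exists_max ν hne
      obtain ⟨ν', rfl⟩ := Multiset.exists_cons_of_mem hk
      have hkk := hν k hk
      obtain ⟨l, hl, hl'⟩ := ih ν' k (fun c hc =>
        ⟨(hν c (Multiset.mem_cons_of_mem hc)).1, hk' c (Multiset.mem_cons_of_mem hc)⟩) (by
          rw [Multiset.sum_cons] at hs; omega)
      refine ⟨k :: l, ?_, by rw [hl']; rfl⟩
      have hsum : (k ::ₘ ν').sum = k + ν'.sum := Multiset.sum_cons _ _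
      rw [hsum]
      unfold prt
      rw [if_neg (by omega)]
      rw [List.mem_flatMap]
      refine ⟨k, by rw [List.mem_range]; omega, ?_⟩
      rw [if_pos ⟨hkk.1, hkk.2⟩, List.mem_map]
      refine ⟨l, ?_, rfl⟩
      rw [show k + ν'.sum - k = ν'.sum by omega]
      exact hl

/-- The final check of the table for `table_a`. -/
def okA (N : ℕ) : Bool :=
  (prt 14 N 14).all (fun l => match look tab l with
    | some x => decide (480 * x + 31 * N * SC ≤ 480 * SC)
    | none => false)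

set_option maxRecDepth 100000 in
theorem okA_all : ∀ N ∈ List.range 15, 2 ≤ N → okA N = true := by decide +kernel

/-- The final check of the table for `table_b`. -/
def okB (N : ℕ) : Bool :=
  (prt 14 N 14).all (fun l => (l.any (fun c => decide (N + c < 15))) || match look tab l with
    | some x => decide (x * (2 * (N + 1) * (N + 2)) ≤ (3 * N + 4) * SC)
    | none => false)

set_option maxRecDepth 100000 in
theorem okB_all : ∀ N ∈ List.range 15, 8 ≤ N → okB N = true := by decide +kernel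

end Tab

open Tab

theorem table_a (ν : Multiset ℕ) (h2 : ∀ c ∈ ν, 2 ≤ c) (hN : 2 ≤ ν.sum)
    (hN' : ν.sum ≤ 14) : QB ν (ν.sum - 1) (1 - 31 * (ν.sum : ℝ) / 480) := by
  obtain ⟨l, hl, hl'⟩ := prt_complete 14 ν 14
    (fun c hc => ⟨h2 c hc, (Multiset.le_sum_of_mem hc).trans hN'⟩) hN'
  have hok := okA_all ν.sum (by rw [List.mem_range]; omega) hN
  unfold okA at hok
  rw [List.all_eq_true] at hok
  have h := hok l hl
  have hsum : ν.sum = l.sum := by rw [hl']; simp
  cases hx : look tab l with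
  | none => rw [hx] at h; simp at h
  | some x =>
    rw [hx] at h
    have h := of_decide_eq_true h
    have hQ := look_sound tab tab_good l x hx
    rw [← hl', ← hsum] at hQ
    refine QB_le _ _ ?_ hQ
    have hS : (0:ℝ) < SC := by norm_num [SC]
    rw [div_le_iff₀ hS]
    have : (480:ℝ) * x + 31 * ((ν.sum : ℕ) : ℝ) * SC ≤ 480 * SC := by exact_mod_cast h
    nlinarith

theorem table_b (ν : Multiset ℕ) (c : ℕ) (hc2 : 2 ≤ c) (hc : ∀ x ∈ ν, c ≤ x)
    (hN' : ν.sum ≤ 14) (h15 : 15 ≤ ν.sum + c) (hcN : c ≤ ν.sum) :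
    QB ν (ν.sum - 1)
      ((3 * (ν.sum : ℝ) + 4) / (2 * ((ν.sum : ℝ) + 1) * ((ν.sum : ℝ) + 2))) := by
  obtain ⟨l, hl, hl'⟩ := prt_complete 14 ν 14
    (fun x hx => ⟨hc2.trans (hc x hx), (Multiset.le_sum_of_mem hx).trans hN'⟩) hN'
  have hok := okB_all ν.sum (by rw [List.mem_range]; omega) (by omega)
  unfold okB at hok
  rw [List.all_eq_true] at hok
  have h := hok l hl
  have hsum : ν.sum = l.sum := by rw [hl']; simp
  have hany : (l.any (fun c => decide (ν.sum + c < 15))) = false := by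
    rw [List.any_eq_false]
    intro x hx
    have : c ≤ x := hc x (by rw [hl']; exact Multiset.mem_coe.2 hx)
    simp only [decide_eq_true_eq]
    omega
  rw [hany, Bool.false_or] at h
  cases hx : look tab l with
  | none => rw [hx] at h; simp at h
  | some x =>
    rw [hx] at h
    have h := of_decide_eq_true h
    have hQ := look_sound tab tab_good l x hx
    rw [← hl', ← hsum] at hQ
    refine QB_le _ _ ?_ hQ
    have hS : (0:ℝ) < SC := by norm_num [SC]
    rw [div_le_div_iff₀ hS (by positivity)]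
    have : (x:ℝ) * (2 * (((ν.sum : ℕ) : ℝ) + 1) * (((ν.sum : ℕ) : ℝ) + 2)) ≤
      (3 * ((ν.sum : ℕ) : ℝ) + 4) * SC := by exact_mod_cast h
    linarith

theorem table_two : QB {2} (2 - 1) (1 / 2) := QB_one_two

theorem table_three : QB {3} (3 - 1) (1 / 4) := QB_one_three

theorem single_look (c x : ℕ) (h : look tab [c] = some x) :
    QB {c} (c - 1) ((x : ℝ) / SC) := by
  have := look_sound tab tab_good [c] x h
  simpa using this

set_option maxRecDepth 100000 in
theorem mid_ok : ∀ c ∈ List.range 15, 4 ≤ c →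
    (match look tab [c] with | some x => decide (10 * x ≤ 3 * SC) | none => false) = true := by
  decide +kernel

set_option maxRecDepth 100000 in
theorem big_ok : ∀ c ∈ List.range 15, 7 ≤ c →
    (match look tab [c] with | some x => decide (6 * x ≤ SC) | none => false) = true := by
  decide +kernel

set_option maxRecDepth 100000 in
theorem even_ok : ∀ c ∈ List.range 15, 8 ≤ c → c % 2 = 0 →
    (match look tab [c] with | some x => decide (100 * c * x ≤ 103 * SC) | none => false) =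
      true := by
  decide +kernel

theorem table_mid (c : ℕ) (h1 : 4 ≤ c) (h2 : c ≤ 14) : QB {c} (c - 1) (3 / 10) := by
  have h := mid_ok c (by rw [List.mem_range]; omega) h1
  cases hx : look tab [c] with
  | none => rw [hx] at h; simp at h
  | some x =>
    rw [hx] at h
    have h := of_decide_eq_true h
    refine QB_le _ _ ?_ (single_look c x hx)
    have hS : (0:ℝ) < SC := by norm_num [SC]
    have : (10:ℝ) * x ≤ 3 * SC := by exact_mod_cast h
    rw [div_le_div_iff₀ hS (by norm_num)]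
    linarith

theorem table_big (c : ℕ) (h1 : 7 ≤ c) (h2 : c ≤ 14) : QB {c} (c - 1) (1 / 6) := by
  have h := big_ok c (by rw [List.mem_range]; omega) h1
  cases hx : look tab [c] with
  | none => rw [hx] at h; simp at h
  | some x =>
    rw [hx] at h
    have h := of_decide_eq_true h
    refine QB_le _ _ ?_ (single_look c x hx)
    have hS : (0:ℝ) < SC := by norm_num [SC]
    have : (6:ℝ) * x ≤ SC := by exact_mod_cast h
    rw [div_le_div_iff₀ hS (by norm_num)]
    linarith

theorem table_even (c : ℕ) (h1 : 8 ≤ c) (h2 : c ≤ 14) (he : Even c) :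
    QB {c} (c - 1) (103 / (100 * c)) := by
  have h := even_ok c (by rw [List.mem_range]; omega) h1 (Nat.even_iff.1 he)
  cases hx : look tab [c] with
  | none => rw [hx] at h; simp at h
  | some x =>
    rw [hx] at h
    have h := of_decide_eq_true h
    refine QB_le _ _ ?_ (single_look c x hx)
    have hS : (0:ℝ) < SC := by norm_num [SC]
    have : (100:ℝ) * c * x ≤ 103 * SC := by exact_mod_cast h
    have hc : (0:ℝ) < c := by
      have : 0 < c := by omega
      exact_mod_cast this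
    rw [div_le_div_iff₀ hS (by positivity)]
    linarith

end Pool.Agent.Helper23.MS
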